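import Pool.Agent.Lib.MP_defcf3_al.FR.Defs

/-!
MP_defcf3_al, project FR, module ARC: the archimedean case.
-/

set_option autoImplicit false

namespace Pool.Agent.Lib.MP_defcf3_al.FR

open Filter

universe u

namespace Arc

variable {K : Type u} [Field K] {N : Filter K} (Q : QVal N)

theorem v_one : Q.v 1 = 0 := by
  have h := Q.map_mul 1 1 one_ne_zero one_ne_zero
  rw [mul_one] at h
  linarith

theorem v_pow {x : K} (hx : x ≠ 0) (n : ℕ) : Q.v (x ^ n) = n * Q.v x := by
  induction n with
  | zero => simp [v_one Q]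
  | succ n ih =>
      rw [pow_succ, Q.map_mul _ _ (pow_ne_zero n hx) hx, ih]
      push_cast
      ring

theorem v_neg_one : Q.v (-1) = 0 := by
  have h := Q.map_mul (-1) (-1) (by simp) (by simp)
  have h1 := v_one Q
  have e : (-1 : K) * -1 = 1 := by ring
  rw [e] at h
  linarith

theorem v_inv {x : K} (hx : x ≠ 0) : Q.v x⁻¹ = - Q.v x := by
  have h := Q.map_mul x x⁻¹ hx (inv_ne_zero hx)
  rw [mul_inv_cancel₀ hx, v_one Q] at h
  linarith

theorem v_div {x y : K} (hx : x ≠ 0) (hy : y ≠ 0) : Q.v (x / y) = Q.v x - Q.v y := by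
  rw [div_eq_mul_inv, Q.map_mul _ _ hx (inv_ne_zero hy), v_inv Q hy]
  ring

theorem v_neg {x : K} (hx : x ≠ 0) : Q.v (-x) = Q.v x := by
  have h := Q.map_mul (-1) x (by simp) hx
  rw [v_neg_one Q, neg_one_mul] at h
  linarith

/-- A quasi-valuation with a large integer lives in characteristic zero. -/
theorem charZero (h : ∃ n : ℕ, (n : K) ≠ 0 ∧ Q.v (n : K) < 0) : CharZero K := by
  obtain ⟨n, hn, hv⟩ := h
  obtain ⟨q, hq⟩ := CharP.exists K
  rcases CharP.char_is_prime_or_zero K q with hp | h0
  · exfalso
    haveI : Fact q.Prime := ⟨hp⟩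
    have h1 : (n : ZMod q) ≠ 0 := by
      intro h2
      apply hn
      rw [ZMod.natCast_eq_zero_iff] at h2
      exact (CharP.cast_eq_zero_iff K q n).2 h2
    have h2 : (n : ZMod q) ^ (q - 1) = 1 := ZMod.pow_card_sub_one_eq_one h1
    have h3 : (n : K) ^ (q - 1) = 1 := by
      have := congrArg (ZMod.castHom (dvd_refl q) K) h2
      simpa using this
    have h4 := v_pow Q hn (q - 1)
    rw [h3, v_one Q] at h4
    have h5 : 0 < q - 1 := by
      have := hp.two_le
      omega
    have h6 : (0 : ℝ) < ((q - 1 : ℕ) : ℝ) := by exact_mod_cast h5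
    have h7 : ((q - 1 : ℕ) : ℝ) * Q.v (n : K) < 0 := mul_neg_of_pos_of_neg h6 hv
    linarith
  · subst h0
    exact CharP.charP_to_charZero K

/-- sizes of natural numbers in base `m` -/
theorem size_bound [CharZero K] {a : ℝ} (ha : 0 ≤ a) (haQ : Q.a ≤ a) {m : ℕ} (hm : 2 ≤ m)
    {G : ℝ} (hG0 : 0 ≤ G) (hG : ∀ k : ℕ, 1 ≤ k → k < m → - Q.v (k : K) ≤ G)
    {U : ℝ} (hU0 : 0 ≤ U) (hU : - Q.v (m : K) ≤ U) (i : ℕ) :
    ∀ k : ℕ, 1 ≤ k → k < m ^ (2 ^ i) → - Q.v (k : K) ≤ i * a + G + (2 ^ i - 1) * U := by
  induction i with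
  | zero =>
      intro k hk1 hk2
      have := hG k hk1 (by simpa using hk2)
      simpa using this
  | succ i ih =>
      intro k hk1 hk2
      have hpos : 0 < m ^ (2 ^ i) := by positivity
      have hk2' : k < m ^ (2 ^ i) * m ^ (2 ^ i) := by
        rw [pow_succ 2 i, mul_two, pow_add] at hk2
        exact hk2
      have hq : k / m ^ (2 ^ i) < m ^ (2 ^ i) := Nat.div_lt_of_lt_mul hk2'
      have hr : k % m ^ (2 ^ i) < m ^ (2 ^ i) := Nat.mod_lt _ hpos
      have hk := Nat.div_add_mod k (m ^ (2 ^ i))
      have h2i : (1 : ℝ) ≤ 2 ^ i := one_le_pow₀ (by norm_num)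
      have h2U : 0 ≤ (2 ^ i : ℝ) * U := by positivity
      have hm0 : (m : K) ≠ 0 := by
        have : m ≠ 0 := by omega
        exact_mod_cast this
      have hvm : Q.v ((m : K) ^ (2 ^ i)) = 2 ^ i * Q.v (m : K) := by
        rw [v_pow Q hm0]
        push_cast
        ring
      have hUi : - Q.v ((m : K) ^ (2 ^ i)) ≤ 2 ^ i * U := by
        rw [hvm]
        nlinarith
      have goalsimp : ((i + 1 : ℕ) : ℝ) * a + G + (2 ^ (i + 1) - 1) * U =
          (i * a + G + (2 ^ i - 1) * U) + 2 ^ i * U + a := by
        push_cast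
        ring
      rw [goalsimp]
      -- two digits
      rcases Nat.eq_zero_or_pos (k / m ^ (2 ^ i)) with hq0 | hq0
      · rw [hq0, mul_zero, zero_add] at hk
        rw [hk] at hr
        have := ih k hk1 hr
        linarith
      · have hqb := ih _ hq0 hq
        have hq0' : ((k / m ^ (2 ^ i) : ℕ) : K) ≠ 0 := by
          exact_mod_cast (by omega : k / m ^ (2 ^ i) ≠ 0)
        have hA : - Q.v ((m : K) ^ (2 ^ i) * ((k / m ^ (2 ^ i) : ℕ) : K)) ≤
            (i * a + G + (2 ^ i - 1) * U) + 2 ^ i * U := by
          rw [Q.map_mul _ _ (pow_ne_zero _ hm0) hq0']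
          linarith
        rcases Nat.eq_zero_or_pos (k % m ^ (2 ^ i)) with hr0 | hr0
        · rw [hr0, add_zero] at hk
          have e : (k : K) = (m : K) ^ (2 ^ i) * ((k / m ^ (2 ^ i) : ℕ) : K) := by
            conv_lhs => rw [← hk]
            push_cast
            ring
          rw [e]
          linarith
        · have hrb := ih _ hr0 hr
          have hr0' : ((k % m ^ (2 ^ i) : ℕ) : K) ≠ 0 := by
            exact_mod_cast (by omega : k % m ^ (2 ^ i) ≠ 0)
          have e : (k : K) = (m : K) ^ (2 ^ i) * ((k / m ^ (2 ^ i) : ℕ) : K) +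
              ((k % m ^ (2 ^ i) : ℕ) : K) := by
            conv_lhs => rw [← hk]
            push_cast
            ring
          have hk0 : (k : K) ≠ 0 := by
            exact_mod_cast (by omega : k ≠ 0)
          have h1 := Q.quasi _ _ (mul_ne_zero (pow_ne_zero (2 ^ i) hm0) hq0') hr0'
            (by rw [← e]; exact hk0)
          rw [← e] at h1
          rcases min_choice (Q.v ((m : K) ^ (2 ^ i) * ((k / m ^ (2 ^ i) : ℕ) : K)))
            (Q.v ((k % m ^ (2 ^ i) : ℕ) : K)) with h2 | h2
          · rw [h2] at h1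
            linarith
          · rw [h2] at h1
            linarith

/-- If `n` is large then `v m` is at least as negative as expected. -/
theorem size_lower [CharZero K] {n m e : ℕ} (hn : 1 ≤ n) (he : 1 ≤ e) (hm2 : 2 ≤ m)
    (hm : n ^ e ≤ m) (hv : Q.v (n : K) < 0) : Q.v (m : K) ≤ e * Q.v (n : K) := by
  by_contra hcon
  push Not at hcon
  set a : ℝ := max Q.a 0 with ha
  set U : ℝ := max (- Q.v (m : K)) 0 with hU
  set G : ℝ := ∑ k ∈ Finset.range m, |Q.v (k : K)| with hG
  set c : ℝ := - Q.v (n : K) with hc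
  have hcpos : 0 < c := by rw [hc]; linarith
  have hUlt : U < e * c := by
    rw [hU]
    apply max_lt
    · rw [hc]; linarith
    · have : (1 : ℝ) ≤ e := by exact_mod_cast he
      positivity
  have hn0 : (n : K) ≠ 0 := by
    exact_mod_cast (by omega : n ≠ 0)
  have key : ∀ i : ℕ, e * c - U ≤ (i * a + (G + c)) / 2 ^ i := by
    intro i
    have h1 : n ^ (e * 2 ^ i - 1) < m ^ (2 ^ i) := by
      have hn2 : 2 ≤ n := by
        rcases Nat.lt_or_ge n 2 with h | h
        · exfalso
          have : n = 1 := by omega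
          rw [this] at hv
          simp [v_one Q] at hv
        · exact h
      calc n ^ (e * 2 ^ i - 1) < n ^ (e * 2 ^ i) := by
            apply Nat.pow_lt_pow_right (by omega)
            have : 0 < e * 2 ^ i := by positivity
            omega
        _ = (n ^ e) ^ (2 ^ i) := by rw [pow_mul]
        _ ≤ m ^ (2 ^ i) := Nat.pow_le_pow_left hm _
    have h2 := size_bound Q (le_max_right Q.a 0) (le_max_left Q.a 0) hm2
      (G := G) (by positivity) (by
        intro k hk1 hk2
        calc - Q.v (k : K) ≤ |Q.v (k : K)| := neg_le_abs _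
          _ ≤ G := by
            rw [hG]
            exact Finset.single_le_sum (f := fun k : ℕ => |Q.v (k : K)|)
              (fun _ _ => abs_nonneg _) (Finset.mem_range.2 hk2))
      (U := U) (le_max_right _ _) (le_max_left _ _) i (n ^ (e * 2 ^ i - 1))
      (Nat.one_le_pow _ _ (by omega)) h1
    rw [Nat.cast_pow, v_pow Q hn0] at h2
    have h3 : ((e * 2 ^ i - 1 : ℕ) : ℝ) = e * 2 ^ i - 1 := by
      have : 1 ≤ e * 2 ^ i := by
        have : 0 < e * 2 ^ i := by positivity
        omega
      push_cast [this]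
      ring
    rw [h3] at h2
    have hU0 : 0 ≤ U := le_max_right _ _
    rw [le_div_iff₀ (by positivity)]
    have h4 : -((e * 2 ^ i - 1) * Q.v (n : K)) = (e * 2 ^ i - 1) * c := by
      rw [hc]; ring
    rw [h4] at h2
    linarith
  have hlim : Tendsto (fun i : ℕ => ((i : ℝ) * a + (G + c)) / 2 ^ i) atTop (nhds 0) := by
    have h1 : Tendsto (fun i : ℕ => (i : ℝ) ^ 1 / (2 : ℝ) ^ i) atTop (nhds 0) :=
      tendsto_pow_const_div_const_pow_of_one_lt 1 (by norm_num)
    have h2 : Tendsto (fun i : ℕ => (i : ℝ) ^ 0 / (2 : ℝ) ^ i) atTop (nhds 0) :=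
      tendsto_pow_const_div_const_pow_of_one_lt 0 (by norm_num)
    have h3 := (h1.const_mul a).add (h2.const_mul (G + c))
    simp only [mul_zero, add_zero] at h3
    refine h3.congr (fun i => ?_)
    ring
  have := ge_of_tendsto' hlim key
  linarith

/-- `v m → -∞`. -/
theorem tendsto_size [CharZero K] (h : ∃ n : ℕ, (n : K) ≠ 0 ∧ Q.v (n : K) < 0) (C : ℝ) :
    ∃ M : ℕ, 1 ≤ M ∧ ∀ m : ℕ, M ≤ m → C < - Q.v (m : K) := by
  obtain ⟨n, hn0, hv⟩ := h
  have hn1 : 1 ≤ n := by
    rcases Nat.eq_zero_or_pos n with h | h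
    · exfalso
      apply hn0
      rw [h]
      simp
    · exact h
  obtain ⟨e, he⟩ := exists_nat_gt (C / (- Q.v (n : K)))
  have hpos : 0 < - Q.v (n : K) := by linarith
  rw [div_lt_iff₀ hpos] at he
  refine ⟨max 2 (n ^ (e + 1)), le_trans (by norm_num) (le_max_left _ _), ?_⟩
  intro m hm
  have h1 := size_lower Q (m := m) (e := e + 1) hn1 (by omega)
    (le_trans (le_max_left _ _) hm) (le_trans (le_max_right _ _) hm) hv
  push_cast at h1
  nlinarith

end Arc

open Arc

/-- ARC: the archimedean case. -/
theorem arc : StARC.{u} := by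
  intro p _ K _ N _ Q hbig R hR _ x
  haveI : CharZero K := charZero Q hbig
  -- the elements of `R` as elements of `K`
  obtain ⟨C, -, hC⟩ := Q.basis.mem_iff.1 hR
  let InR : K → Prop := fun y => ∃ z : Kˣ, (z : K) = y ∧ z ∈ R
  have near : ∀ s : K, (s = 0 ∨ C < Q.v s) → 1 + s ≠ 0 → InR (1 + s) := by
    intro s hs h1
    exact ⟨Units.mk0 (1 + s) h1, rfl, hC hs _ rfl⟩
  have inmul : ∀ y z : K, InR y → InR z → InR (y * z) := by
    rintro y z ⟨y', hy, hy'⟩ ⟨z', hz, hz'⟩
    exact ⟨y' * z', by rw [Units.val_mul, hy, hz], R.mul_mem hy' hz'⟩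
  have indiv : ∀ y z : K, InR y → InR z → InR (y / z) := by
    rintro y z ⟨y', hy, hy'⟩ ⟨z', hz, hz'⟩
    exact ⟨y' / z', by rw [Units.val_div_eq_div_val, hy, hz], R.div_mem hy' hz'⟩
  have inone : InR 1 := ⟨1, rfl, R.one_mem⟩
  have cast0 : ∀ m : ℕ, 1 ≤ m → (m : K) ≠ 0 := by
    intro m hm
    exact_mod_cast (by omega : m ≠ 0)
  -- natural numbers are in `R`
  have innat : ∀ m : ℕ, 1 ≤ m → InR (m : K) := by
    obtain ⟨M, hM1, hM⟩ := tendsto_size Q hbig C
    have step : ∀ m : ℕ, M ≤ m → InR (((m + 1 : ℕ) : K) / (m : K)) := by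
      intro m hm
      have hm0 := cast0 m (by omega)
      have hm1 := cast0 (m + 1) (by omega)
      have e : ((m + 1 : ℕ) : K) / (m : K) = 1 + (m : K)⁻¹ := by
        push_cast
        field_simp
      rw [e]
      apply near
      · right
        rw [v_inv Q hm0]
        exact hM m hm
      · rw [← e]
        exact div_ne_zero hm1 hm0
    have hquot : ∀ m : ℕ, M ≤ m → InR ((m : K) / (M : K)) := by
      intro m hm
      induction m, hm using Nat.le_induction with
      | base =>
          rw [div_self (cast0 M hM1)]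
          exact inone
      | succ m hm ih =>
          have e : ((m + 1 : ℕ) : K) / (M : K) = ((m + 1 : ℕ) : K) / (m : K) * ((m : K) / (M : K)) := by
            have := cast0 m (by omega)
            field_simp
          rw [e]
          exact inmul _ _ (step m hm) ih
    have hMin : InR (M : K) := by
      have h1 := hquot (M * M) (Nat.le_mul_self M)
      have e : ((M * M : ℕ) : K) / (M : K) = (M : K) := by
        push_cast
        field_simp [cast0 M hM1]
      rwa [e] at h1
    intro m hm
    have h1 := hquot (m * M) (Nat.le_mul_of_pos_left M hm)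
    have e : ((m * M : ℕ) : K) / (M : K) = (m : K) := by
      push_cast
      field_simp [cast0 M hM1]
    rwa [e] at h1
  -- the case `x = 1`
  by_cases hx1 : (x : K) = 1
  · left
    have : x = 1 := Units.ext hx1
    rw [this]
    exact R.one_mem
  have hx0 : (x : K) ≠ 0 := x.ne_zero
  have hd : (x : K) - 1 ≠ 0 := sub_ne_zero.2 hx1
  have finR : InR (x : K) → x ∈ R := by
    rintro ⟨z, hz, hz'⟩
    have : z = x := Units.ext hz
    rwa [← this]
  have finR' : InR (-(x : K)) → -x ∈ R := by
    rintro ⟨z, hz, hz'⟩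
    have : z = -x := Units.ext (by rw [hz, Units.val_neg])
    rwa [← this]
  by_cases hcase : ∃ M : ℝ, ∀ j k : ℕ, 1 ≤ j + k →
      1 + (j : K) / ((j + k : ℕ) : K) * ((x : K) - 1) ≠ 0 ∧
      Q.v (1 + (j : K) / ((j + k : ℕ) : K) * ((x : K) - 1)) ≤ M
  · -- the path does not approach zero
    left
    apply finR
    obtain ⟨M, hM⟩ := hcase
    obtain ⟨n, hn1, hn⟩ := tendsto_size Q hbig (C + M - Q.v ((x : K) - 1))
    have hn0 := cast0 n hn1
    have path : ∀ j : ℕ, j ≤ n → InR (1 + (j : K) / (n : K) * ((x : K) - 1)) := by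
      intro j
      induction j with
      | zero =>
          intro _
          simpa using inone
      | succ j ih =>
          intro hj
          have h1 := ih (by omega)
          have h2 := hM j (n - j) (by omega)
          have h3 := hM (j + 1) (n - (j + 1)) (by omega)
          rw [show j + (n - j) = n by omega] at h2
          rw [show (j + 1) + (n - (j + 1)) = n by omega] at h3
          set P : K := 1 + (j : K) / (n : K) * ((x : K) - 1) with hP
          have e : 1 + ((j + 1 : ℕ) : K) / (n : K) * ((x : K) - 1) =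
              P * (1 + ((x : K) - 1) / ((n : K) * P)) := by
            have h2' := h2.1
            have e1 : P * (1 + ((x : K) - 1) / ((n : K) * P)) = P + ((x : K) - 1) / (n : K) := by
              field_simp
            rw [e1, hP]
            push_cast
            ring
          rw [e]
          apply inmul _ _ h1
          apply near
          · right
            rw [v_div Q hd (mul_ne_zero hn0 h2.1), Q.map_mul _ _ hn0 h2.1]
            have h4 := hn n le_rfl
            linarith [h2.2]
          · intro h0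
            apply h3.1
            rw [e, h0, mul_zero]
    have h1 := path n le_rfl
    rw [div_self hn0, one_mul] at h1
    have e : 1 + ((x : K) - 1) = x := by ring
    rwa [e] at h1
  · -- the path approaches zero
    right
    apply finR'
    push Not at hcase
    set D : ℝ := Q.v (x : K) + Q.a - Q.v ((x : K) - 1) with hD
    obtain ⟨j, k, hjk, hlarge⟩ := hcase (|Q.v (x : K)| + |Q.a| + |C| + |D|)
    set M : ℝ := |Q.v (x : K)| + |Q.a| + |C| + |D| with hMdef
    have b1 := le_abs_self (Q.v (x : K))
    have b2 := le_abs_self (Q.a)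
    have b3 := le_abs_self C
    have b4 := le_abs_self D
    have c1 := abs_nonneg (Q.v (x : K))
    have c2 := abs_nonneg (Q.a)
    have c3 := abs_nonneg C
    have c4 := abs_nonneg D
    have hn0 := cast0 (j + k) hjk
    set η : K := 1 + (j : K) / ((j + k : ℕ) : K) * ((x : K) - 1) with hη
    have hη' : η = 0 ∨ M < Q.v η := by
      by_cases h0 : η = 0
      · exact Or.inl h0
      · exact Or.inr (hlarge h0)
    have hj : 1 ≤ j := by
      rcases Nat.eq_zero_or_pos j with h | h
      · exfalso
        have e : η = 1 := by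
          rw [hη, h]
          simp
        rcases hη' with h1 | h1
        · rw [e] at h1
          exact one_ne_zero h1
        · rw [e, v_one Q] at h1
          linarith
      · exact h
    have hk : 1 ≤ k := by
      rcases Nat.eq_zero_or_pos k with h | h
      · exfalso
        have e : η = x := by
          have hj0 := cast0 j hj
          rw [hη, h, add_zero, div_self hj0]
          ring
        rcases hη' with h1 | h1
        · rw [e] at h1
          exact hx0 h1
        · rw [e] at h1
          linarith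
      · exact h
    have hj0 := cast0 j hj
    have hk0 := cast0 k hk
    have hsum : ((j + k : ℕ) : K) = (j : K) + (k : K) := by push_cast; ring
    have hn0' : (j : K) + (k : K) ≠ 0 := by rw [← hsum]; exact hn0
    -- the relation
    have hrel : η * ((j : K) + (k : K)) = (k : K) + (j : K) * (x : K) := by
      rw [hη, hsum]
      field_simp
      ring
    have hs : -(η * ((j : K) + (k : K)) / (k : K)) = 0 ∨
        C < Q.v (-(η * ((j : K) + (k : K)) / (k : K))) := by
      rcases hη' with h0 | h1
      · left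
        rw [h0]
        simp
      · by_cases h0 : η = 0
        · left
          rw [h0]
          simp
        right
        rw [v_neg Q (div_ne_zero (mul_ne_zero h0 hn0') hk0),
          v_div Q (mul_ne_zero h0 hn0') hk0, Q.map_mul _ _ h0 hn0']
        -- x = η + (k / (j + k)) (x - 1)
        have hx : (x : K) = η + (k : K) / ((j : K) + (k : K)) * ((x : K) - 1) := by
          rw [hη, hsum]
          field_simp
          ring
        have hτ : (k : K) / ((j : K) + (k : K)) ≠ 0 := div_ne_zero hk0 hn0'
        have h2 := Q.quasi η ((k : K) / ((j : K) + (k : K)) * ((x : K) - 1)) h0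
          (mul_ne_zero hτ hd) (by rw [← hx]; exact hx0)
        rw [← hx, Q.map_mul _ _ hτ hd, v_div Q hk0 hn0'] at h2
        rcases min_choice (Q.v η) (Q.v (k : K) - Q.v ((j : K) + (k : K)) + Q.v ((x : K) - 1))
          with h3 | h3
        · rw [h3] at h2
          linarith
        · rw [h3] at h2
          linarith
    have hfin : -(x : K) = (k : K) / (j : K) * (1 + -(η * ((j : K) + (k : K)) / (k : K))) := by
      rw [hrel]
      field_simp
      ring
    rw [hfin]
    apply inmul _ _ (indiv _ _ (innat k hk) (innat j hj))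
    apply near _ hs
    intro h0
    rw [h0, mul_zero] at hfin
    exact hx0 (neg_eq_zero.1 hfin)

end Pool.Agent.Lib.MP_defcf3_al.FR
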