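import Pool.Agent.Lib.MP_defcf3_al.FR.Dec2

/-!
The decomposition theorem (DEC): a symbol with radical of finite index is a sum of symbols whose
radicals are open for V-topologies.
-/

set_option autoImplicit false

namespace Pool.Agent.Lib.MP_defcf3_al.FR

open Filter Topology

universe u v

namespace FSym

variable {K : Type u} [Field K] {p : ℕ} {A : Type v} [AddCommGroup A] [Module (ZMod p) A]

/-- the symbol given by the data -/
def toFun (D : FSym K p A) : Kˣ → Kˣ → ZMod p := fun x y => D.b (D.cl x) (D.cl y)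

theorem toFun_mem (D : FSym K p A) : D.toFun ∈ Sym p K := by
  refine ⟨?_, ?_, ?_⟩
  · intro x y z
    show D.b (D.cl ((x * y : Kˣ) : K)) _ = _
    rw [Units.val_mul, D.cl_mul _ _ x.ne_zero y.ne_zero, map_add, LinearMap.add_apply]
    rfl
  · intro x y z
    show D.b _ (D.cl ((y * z : Kˣ) : K)) = _
    rw [Units.val_mul, D.cl_mul _ _ y.ne_zero z.ne_zero, map_add]
    rfl
  · intro x y h
    exact D.stein _ _ x.ne_zero y.ne_zero h

/-- the components allowed in the decomposition of `D`. -/
def VS (D : FSym K p A) : Set (Kˣ → Kˣ → ZMod p) :=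
  {c | c ∈ Sym p K ∧ (∀ x : Kˣ, D.cl x = 0 → ∀ y, c x y = 0) ∧
    ∃ N : Filter K, IsVTop N ∧ OpenIn N {x | ∀ y, c x y = 0}}

end FSym

open FSym

theorem dec_aux {K : Type u} [Field K] [Infinite K] {p : ℕ} (n : ℕ) :
    ∀ (A : Type v) [AddCommGroup A] [Module (ZMod p) A] [Finite A], Nat.card A = n →
      ∀ D : FSym K p A, D.toFun ∈ Submodule.span (ZMod p) D.VS := by
  induction n using Nat.strong_induction_on with
  | _ n ih =>
    intro A _ _ _ hn D
    rcases subsingleton_or_nontrivial A with hA | hA
    · have h0 : D.toFun = 0 := by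
        funext x y
        show D.b (D.cl x) (D.cl y) = 0
        rw [Subsingleton.elim (D.cl x) 0]
        simp
      rw [h0]
      exact Submodule.zero_mem _
    · choose r hr0 hr using D.cl_surj
      by_cases hZ : ∃ Z : Finset K, ∀ x, x ∉ D.U0 r → D.GZ Z x = ⊤
      · obtain ⟨Z, hZ⟩ := hZ
        apply Submodule.subset_span
        refine ⟨D.toFun_mem, ?_, D.N, D.isVTop_of_GZ hr0 hr Z hZ, ?_⟩
        · intro x hx y
          show D.b (D.cl x) (D.cl y) = 0
          rw [hx]
          simp
        · unfold OpenIn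
          filter_upwards [D.ev_V1 one_ne_zero] with s hs x hx y
          show D.b (D.cl x) (D.cl y) = 0
          rw [hx, hs.2, D.cl_one]
          simp
      · push Not at hZ
        obtain ⟨G, Gp, h, hGt, hGb, horth, hst⟩ := D.case2 hr0 hZ
        have horth' : ∀ g ∈ Gp, ∀ d ∈ G, D.b d g = 0 := by
          intro g hg d hd
          rw [D.b_antisymm, horth d hd g hg, neg_zero]
        have hsum : ∀ a c : A, D.b a c = D.b (G.projection Gp h a) (G.projection Gp h c) +
            D.b (Gp.projection G h.symm a) (Gp.projection G h.symm c) := by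
          intro a c
          have h1 := Submodule.projection_add_projection_eq_self h a
          have h2 := Submodule.projection_add_projection_eq_self h c
          nth_rewrite 1 [← h1, ← h2]
          have h3 := horth' _ (Submodule.projection_apply_mem h.symm c) _
              (Submodule.projection_apply_mem h a)
          have h4 := horth _ (Submodule.projection_apply_mem h c) _
              (Submodule.projection_apply_mem h.symm a)
          simp only [map_add, LinearMap.add_apply]
          rw [h3, h4, add_zero, zero_add]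
        have hst' : ∀ x y : K, x ≠ 0 → y ≠ 0 → x + y = 1 →
            D.b (Gp.projection G h.symm (D.cl x)) (Gp.projection G h.symm (D.cl y)) = 0 := by
          intro x y hx hy hxy
          have h1 := hsum (D.cl x) (D.cl y)
          rw [D.stein x y hx hy hxy, hst x y hx hy hxy, zero_add] at h1
          exact h1.symm
        let D1 := D.proj G Gp h horth hst
        let D2 := D.proj Gp G h.symm horth' hst'
        have hc1 : Nat.card G < n := by
          rw [← hn]
          apply Set.ncard_lt_card
          intro h1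
          apply hGt
          rw [eq_top_iff]
          intro a _
          have : a ∈ (G : Set A) := by rw [h1]; trivial
          exact this
        have hGpt : Gp ≠ ⊤ := by
          intro h1
          apply hGb
          have := h.inf_eq_bot
          rwa [h1, inf_top_eq] at this
        have hc2 : Nat.card Gp < n := by
          rw [← hn]
          apply Set.ncard_lt_card
          intro h1
          apply hGpt
          rw [eq_top_iff]
          intro a _
          have : a ∈ (Gp : Set A) := by rw [h1]; trivial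
          exact this
        have i1 := ih _ hc1 G rfl D1
        have i2 := ih _ hc2 Gp rfl D2
        have hv1 : D1.VS ⊆ D.VS := by
          rintro c ⟨h1, h2, h3⟩
          refine ⟨h1, ?_, h3⟩
          intro x hx
          apply h2
          show G.projectionOnto Gp h (D.cl x) = 0
          rw [hx, map_zero]
        have hv2 : D2.VS ⊆ D.VS := by
          rintro c ⟨h1, h2, h3⟩
          refine ⟨h1, ?_, h3⟩
          intro x hx
          apply h2
          show Gp.projectionOnto G h.symm (D.cl x) = 0
          rw [hx, map_zero]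
        have hadd : D.toFun = D1.toFun + D2.toFun := by
          funext x y
          exact hsum (D.cl x) (D.cl y)
        rw [hadd]
        exact Submodule.add_mem _ (Submodule.span_mono hv1 i1) (Submodule.span_mono hv2 i2)

/-! ### From symbols to the data -/

section Conv

variable {p : ℕ} {K : Type u} [Field K] {b : Kˣ → Kˣ → ZMod p}

theorem sym_one_left (hb : b ∈ Sym p K) (y : Kˣ) : b 1 y = 0 := by
  have h := hb.1 1 1 y
  rw [mul_one] at h
  simpa using h

theorem sym_inv_left (hb : b ∈ Sym p K) (x y : Kˣ) : b x⁻¹ y = - b x y := by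
  have h := hb.1 x x⁻¹ y
  rw [mul_inv_cancel, sym_one_left hb] at h
  exact (neg_eq_of_add_eq_zero_right h.symm).symm

theorem sym_one_right (hb : b ∈ Sym p K) (y : Kˣ) : b y 1 = 0 := by
  have h := hb.2.1 y 1 1
  rw [mul_one] at h
  simpa using h

theorem sym_inv_right (hb : b ∈ Sym p K) (x y : Kˣ) : b y x⁻¹ = - b y x := by
  have h := hb.2.1 y x x⁻¹
  rw [mul_inv_cancel, sym_one_right hb] at h
  exact (neg_eq_of_add_eq_zero_right h.symm).symm

theorem sym_self_neg (hb : b ∈ Sym p K) (x : Kˣ) : b x (-x) = 0 := by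
  by_cases h1 : x = 1
  · subst h1
    exact sym_one_left hb _
  · have h2 : (1 : K) - x ≠ 0 := by
      intro h
      apply h1
      exact Units.ext (sub_eq_zero.1 h).symm
    have h3 : (1 : K) - ((x⁻¹ : Kˣ) : K) ≠ 0 := by
      intro h
      apply h1
      have h4 : (x⁻¹ : Kˣ) = 1 := Units.ext (sub_eq_zero.1 h).symm
      exact inv_eq_one.1 h4
    have e1 : b x (Units.mk0 _ h2) = 0 := hb.2.2 _ _ (by simp)
    have e2 : b x⁻¹ (Units.mk0 _ h3) = 0 := hb.2.2 _ _ (by simp)
    rw [sym_inv_left hb, neg_eq_zero] at e2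
    have e3 : -x = Units.mk0 _ h2 * (Units.mk0 _ h3)⁻¹ := by
      apply Units.ext
      rw [Units.val_mul, Units.val_inv_eq_inv_val, Units.val_mk0, Units.val_mk0, Units.val_neg,
        Units.val_inv_eq_inv_val]
      rw [Units.val_inv_eq_inv_val] at h3
      have hx := x.ne_zero
      rw [← div_eq_mul_inv, eq_div_iff h3]
      field_simp
      ring
    rw [e3, hb.2.1, e1, sym_inv_right hb, e2, neg_zero, add_zero]

theorem sym_antisymm (hb : b ∈ Sym p K) (x y : Kˣ) : b x y = - b y x := by
  have h := sym_self_neg hb (x * y)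
  have h1 := sym_self_neg hb x
  have h2 := sym_self_neg hb y
  have e : -(x * y) = (-x) * y := by rw [neg_mul]
  have e' : -(x * y) = x * (-y) := by rw [mul_neg]
  rw [hb.1] at h
  have h3 : b x (-(x * y)) = b x (-x) + b x y := by rw [e, hb.2.1]
  have h4 : b y (-(x * y)) = b y x + b y (-y) := by rw [e', hb.2.1]
  rw [h3, h4, h1, h2, zero_add, add_zero] at h
  exact eq_neg_of_add_eq_zero_left h

/-- The space of the functions `b x`. -/
def ASub (hb : b ∈ Sym p K) : Submodule (ZMod p) (Kˣ → ZMod p) where
  carrier := Set.range b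
  add_mem' := by
    rintro _ _ ⟨x, rfl⟩ ⟨y, rfl⟩
    exact ⟨x * y, by funext z; rw [hb.1]; rfl⟩
  zero_mem' := ⟨1, by funext z; exact sym_one_left hb z⟩
  smul_mem' := by
    rintro c _ ⟨x, rfl⟩
    have key : ∀ n : ℕ, ∀ z, b (x ^ n) z = n * b x z := by
      intro n z
      induction n with
      | zero => simp [sym_one_left hb z]
      | succ n ih => rw [pow_succ, hb.1, ih]; push_cast; ring
    rcases Nat.eq_zero_or_pos p with hp | hp
    · subst hp
      obtain ⟨m, hm⟩ := Int.eq_nat_or_neg (c : ℤ)
      rcases hm with hm | hm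
      · refine ⟨x ^ m, ?_⟩
        funext z
        rw [key]
        show _ = c * b x z
        congr 1
        exact hm.symm
      · refine ⟨(x ^ m)⁻¹, ?_⟩
        funext z
        rw [sym_inv_left hb, key]
        show _ = c * b x z
        have : (c : ZMod 0) = - ((m : ℕ) : ZMod 0) := hm
        rw [this]
        ring
    · have : NeZero p := ⟨hp.ne'⟩
      refine ⟨x ^ c.val, ?_⟩
      funext z
      rw [key]
      show _ = c * b x z
      congr 1
      exact ZMod.natCast_zmod_val c

theorem eval_wd (hb : b ∈ Sym p K) {f : Kˣ → ZMod p} (hf : f ∈ ASub hb) {y y' : Kˣ}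
    (h : b y = b y') : f y = f y' := by
  obtain ⟨x, rfl⟩ := hf
  rw [sym_antisymm hb x y, sym_antisymm hb x y', h]

/-- The data of a symbol. -/
noncomputable def toFSym (hb : b ∈ Sym p K) : FSym K p (ASub hb) where
  cl := fun x => open Classical in
    if h : x = 0 then 0 else ⟨b (Units.mk0 x h), ⟨_, rfl⟩⟩
  b := LinearMap.mk₂ (ZMod p) (fun f g => (f : Kˣ → ZMod p) g.2.choose)
    (fun f f' g => rfl) (fun c f g => rfl)
    (fun f g g' => by
      have h1 : b (g + g').2.choose = b (g.2.choose * g'.2.choose) := by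
        rw [(g + g').2.choose_spec]
        funext z
        rw [hb.1, g.2.choose_spec, g'.2.choose_spec]
        rfl
      show (f : Kˣ → ZMod p) (g + g').2.choose = _
      rw [eval_wd hb f.2 h1]
      obtain ⟨x, hx⟩ := f.2
      rw [← hx, hb.2.1])
    (fun c f g => by
      obtain ⟨x, hx⟩ := f.2
      show (f : Kˣ → ZMod p) (c • g).2.choose = c * (f : Kˣ → ZMod p) g.2.choose
      rw [← hx, sym_antisymm hb x, sym_antisymm hb x, (c • g).2.choose_spec,
        g.2.choose_spec]
      show -(c * (g : Kˣ → ZMod p) x) = _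
      ring)
  cl_mul := by
    intro x y hx hy
    apply Subtype.ext
    rw [dif_neg (mul_ne_zero hx hy), dif_neg hx, dif_neg hy]
    show b _ = b _ + b _
    funext z
    rw [Pi.add_apply, ← hb.1]
    congr 1
    apply Units.ext
    simp
  cl_surj := by
    rintro ⟨_, x, rfl⟩
    refine ⟨x, x.ne_zero, ?_⟩
    rw [dif_neg x.ne_zero]
    apply Subtype.ext
    simp
  nondeg := by
    intro g hg
    apply Subtype.ext
    funext z
    have h1 := hg ⟨b z, ⟨z, rfl⟩⟩
    have h2 : b z g.2.choose = 0 := h1
    rw [sym_antisymm hb, neg_eq_zero, g.2.choose_spec] at h2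
    exact h2
  stein := by
    intro x y hx hy hxy
    rw [dif_neg hx, dif_neg hy]
    have h1 : ∀ g : ASub hb, g = ⟨b (Units.mk0 y hy), ⟨_, rfl⟩⟩ →
        b (Units.mk0 x hx) g.2.choose = 0 := by
      rintro g rfl
      have h2 : b (Exists.choose (⟨b (Units.mk0 y hy), ⟨_, rfl⟩⟩ : ASub hb).2) =
          b (Units.mk0 y hy) := (⟨b (Units.mk0 y hy), ⟨_, rfl⟩⟩ : ASub hb).2.choose_spec
      rw [sym_antisymm hb, h2, ← sym_antisymm hb]
      exact hb.2.2 _ _ (by simpa using hxy)
    exact h1 _ rfl

theorem toFSym_cl (hb : b ∈ Sym p K) (x : Kˣ) :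
    (toFSym hb).cl x = ⟨b x, ⟨x, rfl⟩⟩ := by
  classical
  have h : (toFSym hb).cl x = if h : (x : K) = 0 then 0 else ⟨b (Units.mk0 x h), ⟨_, rfl⟩⟩ := rfl
  rw [h, dif_neg x.ne_zero]
  apply Subtype.ext
  simp

theorem toFSym_toFun (hb : b ∈ Sym p K) : (toFSym hb).toFun = b := by
  funext x y
  show (toFSym hb).b ((toFSym hb).cl x) ((toFSym hb).cl y) = b x y
  rw [toFSym_cl, toFSym_cl]
  have h2 : b (Exists.choose (⟨b y, ⟨_, rfl⟩⟩ : ASub hb).2) = b y :=
    (⟨b y, ⟨_, rfl⟩⟩ : ASub hb).2.choose_spec
  show b x (Exists.choose (⟨b y, ⟨_, rfl⟩⟩ : ASub hb).2) = b x y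
  rw [sym_antisymm hb, h2, ← sym_antisymm hb]

theorem finite_ASub (hb : b ∈ Sym p K) [Finite (Kˣ ⧸ Rad b hb)] : Finite (ASub hb) := by
  let f : Kˣ ⧸ Rad b hb → ASub hb := fun q => Quotient.liftOn' q (fun x => ⟨b x, ⟨x, rfl⟩⟩) (by
    intro x y hxy
    rw [QuotientGroup.leftRel_apply] at hxy
    apply Subtype.ext
    funext z
    have h1 : b (x⁻¹ * y) z = 0 := hxy z
    rw [hb.1, sym_inv_left hb] at h1
    show b x z = b y z
    linear_combination -h1)
  apply Finite.of_surjective f
  rintro ⟨_, x, rfl⟩
  exact ⟨QuotientGroup.mk x, rfl⟩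

end Conv

theorem dec : StDEC.{u} := by
  intro p _ K _ _ b hb hfin
  have := finite_ASub hb
  have h1 := dec_aux (K := K) (p := p) _ (ASub hb) rfl (toFSym hb)
  rw [toFSym_toFun] at h1
  refine Submodule.span_mono ?_ h1
  rintro c ⟨hc1, hc2, hc3⟩
  refine ⟨hc1, ?_, hc3⟩
  intro x hx
  apply hc2
  rw [toFSym_cl]
  apply Subtype.ext
  funext z
  exact hx z

end Pool.Agent.Lib.MP_defcf3_al.FR
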