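import Pool.Agent.Lib.MP_defcf3_al.FR.Defs

/-!
FIN: symbols `K^* x K^* -> F_p` of a finite field vanish (`p` odd).
-/

set_option autoImplicit false

namespace Pool.Agent.Lib.MP_defcf3_al.FR

universe u

namespace FIN

variable {p : ℕ} {K : Type u} [Field K] {b : Kˣ → Kˣ → ZMod p}

theorem one_left (hb : b ∈ Sym p K) (y : Kˣ) : b 1 y = 0 := by
  have h := hb.1 1 1 y
  rw [mul_one] at h
  simpa using h

theorem one_right (hb : b ∈ Sym p K) (x : Kˣ) : b x 1 = 0 := by
  have h := hb.2.1 x 1 1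
  rw [mul_one] at h
  simpa using h

theorem inv_left (hb : b ∈ Sym p K) (x y : Kˣ) : b x⁻¹ y = - b x y := by
  have h := hb.1 x x⁻¹ y
  rw [mul_inv_cancel, one_left hb] at h
  exact (neg_eq_of_add_eq_zero_right h.symm).symm

theorem inv_right (hb : b ∈ Sym p K) (x y : Kˣ) : b x y⁻¹ = - b x y := by
  have h := hb.2.1 x y y⁻¹
  rw [mul_inv_cancel, one_right hb] at h
  exact (neg_eq_of_add_eq_zero_right h.symm).symm

theorem self_neg (hb : b ∈ Sym p K) (x : Kˣ) : b x (-x) = 0 := by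
  by_cases h1 : x = 1
  · subst h1
    exact one_left hb _
  · have hx1 : (x : K) ≠ 1 := fun h => h1 (Units.ext h)
    have h2 : (1 : K) - x ≠ 0 := sub_ne_zero.2 (Ne.symm hx1)
    have h3 : (1 : K) - (x⁻¹ : Kˣ) ≠ 0 := by
      intro h
      apply h1
      have h4 : ((x⁻¹ : Kˣ) : K) = 1 := (sub_eq_zero.1 h).symm
      have h5 : x⁻¹ = 1 := Units.ext h4
      exact inv_eq_one.1 h5
    have e1 : b x (Units.mk0 _ h2) = 0 := hb.2.2 _ _ (by simp)
    have e2 : b x⁻¹ (Units.mk0 _ h3) = 0 := hb.2.2 _ _ (by simp)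
    rw [inv_left hb, neg_eq_zero] at e2
    have e3 : -x = Units.mk0 _ h2 * (Units.mk0 _ h3)⁻¹ := by
      rw [eq_mul_inv_iff_mul_eq]
      apply Units.ext
      simp only [Units.val_mul, Units.val_neg, Units.val_mk0]
      rw [mul_sub, mul_one, neg_mul, Units.mul_inv]
      ring
    rw [e3, hb.2.1, inv_right hb, e1, e2, neg_zero, add_zero]

theorem self_eq_zero [Fact p.Prime] (hp : Odd p) (hb : b ∈ Sym p K) (x : Kˣ) : b x x = 0 := by
  have h1 : b x (-x) = b x (-1) + b x x := by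
    rw [← hb.2.1]
    simp
  have h2 : b x (-1) + b x (-1) = 0 := by
    rw [← hb.2.1]
    simp [one_right hb]
  have h3 : b x (-1) = 0 := by
    have h4 : (2 : ZMod p) * b x (-1) = 0 := by
      rw [two_mul]
      exact h2
    rcases mul_eq_zero.1 h4 with h5 | h5
    · exfalso
      have h6 : ((2 : ℕ) : ZMod p) = 0 := by exact_mod_cast h5
      rw [ZMod.natCast_eq_zero_iff] at h6
      have h7 := (Nat.prime_dvd_prime_iff_eq Fact.out Nat.prime_two).1 h6
      subst h7
      exact absurd hp (by decide)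
    · exact h5
  rw [self_neg hb, h3, zero_add] at h1
  exact h1.symm

theorem zpow_left (hb : b ∈ Sym p K) (x y : Kˣ) (n : ℤ) : b (x ^ n) y = n • b x y := by
  have h1 : ∀ n : ℕ, b (x ^ n) y = n • b x y := by
    intro n
    induction n with
    | zero => simp [one_left hb]
    | succ n ih => rw [pow_succ, hb.1, ih, succ_nsmul]
  rcases Int.eq_nat_or_neg n with ⟨m, rfl | rfl⟩
  · rw [zpow_natCast, h1, natCast_zsmul]
  · rw [zpow_neg, zpow_natCast, inv_left hb, h1, neg_smul, natCast_zsmul]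

theorem zpow_right (hb : b ∈ Sym p K) (x y : Kˣ) (n : ℤ) : b x (y ^ n) = n • b x y := by
  have h1 : ∀ n : ℕ, b x (y ^ n) = n • b x y := by
    intro n
    induction n with
    | zero => simp [one_right hb]
    | succ n ih => rw [pow_succ, hb.2.1, ih, succ_nsmul]
  rcases Int.eq_nat_or_neg n with ⟨m, rfl | rfl⟩
  · rw [zpow_natCast, h1, natCast_zsmul]
  · rw [zpow_neg, zpow_natCast, inv_right hb, h1, neg_smul, natCast_zsmul]

end FIN

theorem fin : StFIN.{u} := by
  intro p hpF hp K _ _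
  rw [eq_bot_iff]
  intro b hb
  rw [Submodule.mem_bot]
  funext x y
  obtain ⟨g, hg⟩ := IsCyclic.exists_generator (α := Kˣ)
  obtain ⟨m, rfl⟩ := Subgroup.mem_zpowers_iff.1 (hg x)
  obtain ⟨n, rfl⟩ := Subgroup.mem_zpowers_iff.1 (hg y)
  rw [FIN.zpow_left hb, FIN.zpow_right hb, FIN.self_eq_zero hp hb]
  simp

end Pool.Agent.Lib.MP_defcf3_al.FR
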