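import Pool.Agent.Lib.MP_defcf3_al.FR.Defs

/-!
MP_defcf3_al, finite rank theorem, module NAR: if no integer is large, the real quasi-valuation
is a valuation (binomial trick).
-/

set_option autoImplicit false

namespace Pool.Agent.Lib.MP_defcf3_al.FR

open Filter

universe u

section Nar

variable {K : Type u} [Field K] {N : Filter K} (Q : QVal N)

include Q in
theorem nar_one : Q.v 1 = 0 := by
  have h := Q.map_mul 1 1 one_ne_zero one_ne_zero
  rw [mul_one] at h
  linarith

theorem nar_pow {x : K} (hx : x ≠ 0) (n : ℕ) : Q.v (x ^ n) = n * Q.v x := by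
  induction n with
  | zero => simp [nar_one Q]
  | succ n ih =>
    rw [pow_succ, Q.map_mul _ _ (pow_ne_zero n hx) hx, ih]
    push_cast
    ring

theorem nar_sum (c : ℝ) (k : ℕ) : ∀ f : ℕ → K, (∀ i, f i = 0 ∨ c ≤ Q.v (f i)) →
    (∑ i ∈ Finset.range (2 ^ k), f i) = 0 ∨
      c - k * max Q.a 0 ≤ Q.v (∑ i ∈ Finset.range (2 ^ k), f i) := by
  induction k with
  | zero =>
    intro f hf
    rcases hf 0 with h | h
    · left
      simpa using h
    · right
      simpa using h
  | succ k ih =>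
    intro f hf
    have hsplit : (∑ i ∈ Finset.range (2 ^ (k + 1)), f i) =
        (∑ i ∈ Finset.range (2 ^ k), f i) + ∑ i ∈ Finset.range (2 ^ k), f (2 ^ k + i) := by
      rw [pow_succ, mul_two, Finset.sum_range_add]
    have h1 := ih f hf
    have h2 := ih (fun i => f (2 ^ k + i)) (fun i => hf _)
    rw [hsplit]
    set A := ∑ i ∈ Finset.range (2 ^ k), f i with hA
    set B := ∑ i ∈ Finset.range (2 ^ k), f (2 ^ k + i) with hB
    have hm : (0 : ℝ) ≤ max Q.a 0 := le_max_right _ _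
    have hma : Q.a ≤ max Q.a 0 := le_max_left _ _
    push_cast
    by_cases hAB : A + B = 0
    · exact Or.inl hAB
    right
    by_cases hA0 : A = 0
    · rw [hA0, zero_add] at hAB ⊢
      rcases h2 with h2 | h2
      · exact absurd h2 hAB
      · nlinarith
    by_cases hB0 : B = 0
    · rw [hB0, add_zero] at hAB ⊢
      rcases h1 with h1 | h1
      · exact absurd h1 hAB
      · nlinarith
    have h1' := h1.resolve_left hA0
    have h2' := h2.resolve_left hB0
    have hq := Q.quasi A B hA0 hB0 hAB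
    have hmin : c - k * max Q.a 0 ≤ min (Q.v A) (Q.v B) := le_min h1' h2'
    nlinarith

theorem nar_aux (hn : ∀ n : ℕ, (n : K) ≠ 0 → 0 ≤ Q.v (n : K)) (x y : K) (hx : x ≠ 0)
    (hy : y ≠ 0) (hxy : x + y ≠ 0) (k : ℕ) :
    ((2 : ℝ) ^ k - 1) * (min (Q.v x) (Q.v y) - Q.v (x + y)) ≤ k * max Q.a 0 := by
  have h2k : 1 ≤ 2 ^ k := Nat.one_le_two_pow
  obtain ⟨n, hn'⟩ : ∃ n : ℕ, 2 ^ k = n + 1 := ⟨2 ^ k - 1, by omega⟩
  have hcast : ((2 : ℝ) ^ k) = n + 1 := by exact_mod_cast hn'
  set m := min (Q.v x) (Q.v y) with hmdef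
  let f : ℕ → K := fun i => if i ≤ n then x ^ i * y ^ (n - i) * (n.choose i : K) else 0
  have hf : ∀ i, f i = 0 ∨ (n : ℝ) * m ≤ Q.v (f i) := by
    intro i
    by_cases hi : i ≤ n
    · simp only [f, if_pos hi]
      by_cases hc : (n.choose i : K) = 0
      · left
        rw [hc, mul_zero]
      · right
        rw [Q.map_mul _ _ (mul_ne_zero (pow_ne_zero _ hx) (pow_ne_zero _ hy)) hc,
          Q.map_mul _ _ (pow_ne_zero _ hx) (pow_ne_zero _ hy), nar_pow Q hx, nar_pow Q hy]
        have h0 := hn _ hc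
        have hmx : m ≤ Q.v x := min_le_left _ _
        have hmy : m ≤ Q.v y := min_le_right _ _
        have hni : ((n - i : ℕ) : ℝ) = n - i := by
          rw [Nat.cast_sub hi]
        have hi0 : (0 : ℝ) ≤ i := Nat.cast_nonneg _
        have hni0 : (0 : ℝ) ≤ ((n - i : ℕ) : ℝ) := Nat.cast_nonneg _
        have e1 : (i : ℝ) * m ≤ i * Q.v x := mul_le_mul_of_nonneg_left hmx hi0
        have e2 : ((n - i : ℕ) : ℝ) * m ≤ ((n - i : ℕ) : ℝ) * Q.v y :=
          mul_le_mul_of_nonneg_left hmy hni0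
        rw [hni] at e2
        rw [hni]
        linarith
    · left
      simp only [f, if_neg hi]
  have hsum : (∑ i ∈ Finset.range (2 ^ k), f i) = (x + y) ^ n := by
    rw [hn', add_pow]
    refine Finset.sum_congr rfl fun i hi => ?_
    rw [Finset.mem_range] at hi
    simp only [f, if_pos (Nat.lt_succ_iff.mp hi)]
  have h := nar_sum Q ((n : ℝ) * m) k f hf
  rw [hsum] at h
  have h' := h.resolve_left (pow_ne_zero n hxy)
  rw [nar_pow Q hxy] at h'
  rw [hcast]
  linarith

end Nar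

/-- NAR: if no integer is large, the quasi-valuation is a valuation. -/
theorem nar : StNAR.{u} := by
  intro K _ N Q hn x y hx hy hxy
  by_contra hlt
  rw [not_le] at hlt
  set δ := min (Q.v x) (Q.v y) - Q.v (x + y) with hδ
  have hδ0 : 0 < δ := by
    rw [hδ]
    linarith
  have hm : (0 : ℝ) ≤ max Q.a 0 := le_max_right _ _
  obtain ⟨j, hj⟩ := exists_nat_gt (2 * max Q.a 0 / δ)
  have hj' : 2 * max Q.a 0 < j * δ := by
    rwa [div_lt_iff₀ hδ0] at hj
  have hj0 : (0 : ℝ) < j := by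
    have : 0 ≤ 2 * max Q.a 0 / δ := by positivity
    linarith
  have h := nar_aux Q hn x y hx hy hxy (2 * j)
  rw [← hδ] at h
  have hpow : ((j : ℝ) + 1) ≤ 2 ^ j := by
    have := Nat.lt_two_pow_self (n := j)
    exact_mod_cast this
  have hpow2 : ((j : ℝ) + 1) ^ 2 ≤ 2 ^ (2 * j) := by
    rw [mul_comm, pow_mul]
    exact pow_le_pow_left₀ (by positivity) hpow 2
  have h1 : ((j : ℝ) + 1) ^ 2 - 1 ≤ 2 ^ (2 * j) - 1 := by linarith
  have h2 : (((j : ℝ) + 1) ^ 2 - 1) * δ ≤ ((2 : ℝ) ^ (2 * j) - 1) * δ :=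
    mul_le_mul_of_nonneg_right h1 hδ0.le
  push_cast at h
  nlinarith

end Pool.Agent.Lib.MP_defcf3_al.FR
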