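import Pool.Agent.Lib.MP_defcf3_al.FR.Defs

/-!
MP_defcf3_al, project FR, module QVA (helper60): a V-topology with a topologically nilpotent
element is given by a real quasi-valuation.
-/

set_option autoImplicit false

namespace Pool.Agent.Lib.MP_defcf3_al.FR

open Filter

universe u

namespace QVA

/-! ### homogenisation -/

theorem eq_of_bound {L L' C : ℝ} (h : ∀ n : ℕ, |(n : ℝ) * (L - L')| ≤ C) : L = L' := by
  by_contra hne
  have h1 : 0 < |L - L'| := abs_pos.2 (sub_ne_zero.2 hne)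
  obtain ⟨n, hn⟩ := exists_nat_gt (C / |L - L'|)
  have h2 := h n
  rw [abs_mul, Nat.abs_cast] at h2
  rw [div_lt_iff₀ h1] at hn
  linarith

theorem exists_lim (f : ℕ → ℝ) (C : ℝ) (h : ∀ m n, |f (m + n) - f m - f n| ≤ C) :
    ∃ L : ℝ, ∀ n : ℕ, |f n - n * L| ≤ C := by
  have hC : 0 ≤ C := (abs_nonneg _).trans (h 0 0)
  -- lower bound
  have hmul : ∀ n m : ℕ, |f (n * m) - n * f m| ≤ (n + 1) * C := by
    intro n m
    induction n with
    | zero =>
      have h0 := h 0 0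
      have e : f (0 + 0) - f 0 - f 0 = - f 0 := by norm_num
      rw [e, abs_neg] at h0
      simpa using h0
    | succ n ih =>
      have h1 := h (n * m) m
      have e : f ((n + 1) * m) - ((n + 1 : ℕ) : ℝ) * f m =
          (f (n * m + m) - f (n * m) - f m) + (f (n * m) - n * f m) := by
        rw [add_mul, one_mul]; push_cast; ring
      rw [e]
      refine (abs_add_le _ _).trans ?_
      push_cast
      linarith
  have hmul1 : ∀ n m : ℕ, 1 ≤ n → |f (n * m) - n * f m| ≤ n * C := by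
    intro n m hn
    induction n, hn using Nat.le_induction with
    | base => simpa using hC
    | succ n hn ih =>
      have h1 := h (n * m) m
      have e : f ((n + 1) * m) - ((n + 1 : ℕ) : ℝ) * f m =
          (f (n * m + m) - f (n * m) - f m) + (f (n * m) - n * f m) := by
        rw [add_mul, one_mul]; push_cast; ring
      rw [e]
      refine (abs_add_le _ _).trans ?_
      push_cast
      linarith
  -- comparison of the quotients
  have hcmp : ∀ m n : ℕ, 1 ≤ m → 1 ≤ n → (f n - C) / n ≤ (f m + C) / m := by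
    intro m n hm hn
    have h1 := abs_le.1 (hmul1 n m hn)
    have h2 := abs_le.1 (hmul1 m n hm)
    rw [mul_comm m n] at h2
    have hm0 : (0 : ℝ) < m := by exact_mod_cast hm
    have hn0 : (0 : ℝ) < n := by exact_mod_cast hn
    rw [div_le_div_iff₀ hn0 hm0]
    nlinarith [h1.1, h1.2, h2.1, h2.2]
  refine ⟨sSup ((fun n : ℕ => (f n - C) / n) '' {n | 1 ≤ n}), fun n => ?_⟩
  have hbdd : BddAbove ((fun n : ℕ => (f n - C) / n) '' {n | 1 ≤ n}) := by
    refine ⟨(f 1 + C) / (1 : ℕ), ?_⟩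
    rintro _ ⟨n, hn, rfl⟩
    exact hcmp 1 n le_rfl hn
  rcases Nat.eq_zero_or_pos n with rfl | hn
  · have h0 := h 0 0
    have e : f (0 + 0) - f 0 - f 0 = - f 0 := by norm_num
    rw [e, abs_neg] at h0
    simpa using h0
  · have hn0 : (0 : ℝ) < n := by exact_mod_cast hn
    have h1 : (f n - C) / n ≤ sSup ((fun n : ℕ => (f n - C) / n) '' {n | 1 ≤ n}) :=
      le_csSup hbdd ⟨n, hn, rfl⟩
    have h2 : sSup ((fun n : ℕ => (f n - C) / n) '' {n | 1 ≤ n}) ≤ (f n + C) / n := by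
      refine csSup_le ⟨_, ⟨n, hn, rfl⟩⟩ ?_
      rintro _ ⟨m, hm, rfl⟩
      exact hcmp n m hn hm
    rw [div_le_iff₀ hn0] at h1
    rw [le_div_iff₀ hn0] at h2
    rw [abs_le]
    constructor <;> linarith

/-! ### bounded sets -/

section

variable {K : Type u} [Field K] {N : Filter K}

/-- bounded sets -/
def Bdd (N : Filter K) (B : Set K) : Prop := ∀ S ∈ N, ∃ T ∈ N, ∀ x ∈ T, ∀ y ∈ B, x * y ∈ S

theorem Bdd.mono {A B : Set K} (hB : Bdd N B) (h : A ⊆ B) : Bdd N A := fun S hS => by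
  obtain ⟨T, hT, h1⟩ := hB S hS
  exact ⟨T, hT, fun x hx y hy => h1 x hx y (h hy)⟩

/-- an element of small powers of `t` times a bounded set is small -/
theorem Bdd.pow {B : Set K} (hB : Bdd N B) {t : K}
    (ht : Tendsto (fun n : ℕ => t ^ n) atTop N) {S : Set K} (hS : S ∈ N) :
    ∃ c : ℕ, ∀ n, c ≤ n → ∀ y ∈ B, t ^ n * y ∈ S := by
  obtain ⟨T, hT, h1⟩ := hB S hS
  obtain ⟨c, hc⟩ := (eventually_atTop.1 (ht.eventually_mem hT))
  exact ⟨c, fun n hn y hy => h1 _ (hc n hn) y hy⟩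

variable (hN : IsVTop N)
include hN

theorem Bdd.mul {A B : Set K} (hA : Bdd N A) (hB : Bdd N B) :
    Bdd N {z | ∃ a ∈ A, ∃ b ∈ B, z = a * b} := fun S hS => by
  obtain ⟨T, hT, h1⟩ := hB S hS
  obtain ⟨T', hT', h2⟩ := hA T hT
  refine ⟨T', hT', ?_⟩
  rintro x hx _ ⟨a, ha, b, hb, rfl⟩
  rw [← mul_assoc]
  exact h1 _ (h2 x hx a ha) b hb

theorem Bdd.add {A B : Set K} (hA : Bdd N A) (hB : Bdd N B) :
    Bdd N {z | ∃ a ∈ A, ∃ b ∈ B, z = a + b} := fun S hS => by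
  obtain ⟨T, hT, h⟩ := hN.add_mem S hS
  obtain ⟨T1, hT1, h1⟩ := hA T hT
  obtain ⟨T2, hT2, h2⟩ := hB T hT
  refine ⟨T1 ∩ T2, inter_mem hT1 hT2, ?_⟩
  rintro x hx _ ⟨a, ha, b, hb, rfl⟩
  rw [mul_add]
  exact h _ (h1 x hx.1 a ha) _ (h2 x hx.2 b hb)

/-- a bounded neighbourhood -/
theorem exists_bdd : ∃ U ∈ N, Bdd N U := by
  obtain ⟨S, hS, h1⟩ := hN.haus 1 one_ne_zero
  obtain ⟨U, hU, hUU⟩ := hN.mul_mem S hS
  refine ⟨U, hU, fun W hW => ?_⟩
  obtain ⟨T, hT, hv⟩ := hN.vprop (W ∩ U) (inter_mem hW hU)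
  refine ⟨T, hT, fun s hs u hu => ?_⟩
  by_cases h0 : u = 0
  · rw [h0, mul_zero]; exact hN.zero_mem W hW
  · have h2 : u⁻¹ ∉ U := fun h => h1 (by
      have := hUU u hu _ h
      rwa [mul_inv_cancel₀ h0] at this)
    have h3 : s * u * u⁻¹ ∈ T := by rwa [mul_assoc, mul_inv_cancel₀ h0, mul_one]
    rcases hv _ _ h3 with h | h
    · exact h.1
    · exact absurd h.2 h2

/-- the inverses of the elements outside a neighbourhood are bounded -/
theorem bdd_inv {U : Set K} (hU : U ∈ N) : Bdd N {z | z⁻¹ ∉ U} := by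
  intro W hW
  obtain ⟨T, hT, hv⟩ := hN.vprop (W ∩ U) (inter_mem hW hU)
  refine ⟨T, hT, fun s hs z hz => ?_⟩
  have hz0 : z ≠ 0 := by
    rintro rfl
    apply hz
    rw [inv_zero]
    exact hN.zero_mem U hU
  have h3 : s * z * z⁻¹ ∈ T := by rwa [mul_assoc, mul_inv_cancel₀ hz0, mul_one]
  rcases hv _ _ h3 with h | h
  · exact h.1
  · exact absurd h.2 hz

/-- a bounded neighbourhood with `t U ⊆ U` -/
theorem exists_bdd_pow {t : K} (ht : Tendsto (fun n : ℕ => t ^ n) atTop N) :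
    ∃ W ∈ N, Bdd N W ∧ ∀ x ∈ W, t * x ∈ W := by
  obtain ⟨U, hU, hb⟩ := exists_bdd hN
  refine ⟨{z | ∃ j : ℕ, ∃ u ∈ U, z = t ^ j * u}, ?_, ?_, ?_⟩
  · refine mem_of_superset hU fun u hu => ⟨0, u, hu, ?_⟩
    rw [pow_zero, one_mul]
  · intro S hS
    obtain ⟨T1, hT1, h1⟩ := hb S hS
    obtain ⟨T2, hT2, h2⟩ := hN.mul_mem T1 hT1
    obtain ⟨c, hc⟩ := (eventually_atTop.1 (ht.eventually_mem hT2))
    refine ⟨T2 ∩ ⋂ j ∈ Finset.range c, {x | t ^ j * x ∈ T1}, ?_, ?_⟩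
    · refine inter_mem hT2 ?_
      rw [Filter.biInter_finset_mem]
      intro j _
      exact hN.smul_mem _ _ hT1
    · rintro x ⟨hx1, hx2⟩ _ ⟨j, u, hu, rfl⟩
      have h3 : x * (t ^ j * u) = (t ^ j * x) * u := by ring
      rw [h3]
      refine h1 _ ?_ u hu
      by_cases hj : j < c
      · rw [Set.mem_iInter₂] at hx2
        exact hx2 j (Finset.mem_range.2 hj)
      · rw [mul_comm]
        exact h2 _ hx1 _ (hc j (not_lt.1 hj))
  · rintro _ ⟨j, u, hu, rfl⟩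
    exact ⟨j + 1, u, hu, by ring⟩

end

/-! ### the exponent -/

/-- the data used for the exponent -/
structure Dat {K : Type u} [Field K] (N : Filter K) (t : K) (W : Set K) : Prop where
  hN : IsVTop N
  t0 : t ≠ 0
  ht : Tendsto (fun n : ℕ => t ^ n) atTop N
  hW : W ∈ N
  hb : Bdd N W
  htW : ∀ x ∈ W, t * x ∈ W

section

variable {K : Type u} [Field K] {N : Filter K} {t : K} {W : Set K}

theorem Dat.pow_mem (h : Dat N t W) (j : ℕ) {x : K} (hx : x ∈ W) : t ^ j * x ∈ W := by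
  induction j with
  | zero => rwa [pow_zero, one_mul]
  | succ j ih => rw [pow_succ', mul_assoc]; exact h.htW _ ih

/-- the exponent -/
noncomputable def kap (t : K) (W : Set K) (x : K) : ℤ := sSup {k : ℤ | t ^ (-k) * x ∈ W}

theorem Dat.down (h : Dat N t W) {x : K} {k k' : ℤ} (hk : k' ≤ k) (hx : t ^ (-k) * x ∈ W) :
    t ^ (-k') * x ∈ W := by
  obtain ⟨j, hj⟩ := Int.eq_ofNat_of_zero_le (sub_nonneg.2 hk)
  have h1 := h.pow_mem j hx
  have e : t ^ j * (t ^ (-k) * x) = t ^ (-k') * x := by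
    rw [← mul_assoc, ← zpow_natCast, ← zpow_add₀ h.t0]
    congr 2
    omega
  rwa [e] at h1

theorem Dat.nonempty (h : Dat N t W) (x : K) : ∃ k : ℤ, t ^ (-k) * x ∈ W := by
  have h1 := h.hN.smul_mem x W h.hW
  obtain ⟨c, hc⟩ := (eventually_atTop.1 (h.ht.eventually_mem h1))
  refine ⟨-c, ?_⟩
  have h2 := hc c le_rfl
  rw [neg_neg, zpow_natCast, mul_comm]
  exact h2

theorem Dat.bdd (h : Dat N t W) {x : K} (hx : x ≠ 0) : BddAbove {k : ℤ | t ^ (-k) * x ∈ W} := by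
  obtain ⟨S, hS, h1⟩ := h.hN.haus x hx
  obtain ⟨c, hc⟩ := h.hb.pow h.ht hS
  refine ⟨c, fun k hk => ?_⟩
  by_contra hlt
  push Not at hlt
  have h2 := hc c le_rfl _ (h.down hlt.le hk)
  apply h1
  have e : t ^ c * (t ^ (-(c : ℤ)) * x) = x := by
    rw [← mul_assoc, ← zpow_natCast, ← zpow_add₀ h.t0, add_neg_cancel, zpow_zero, one_mul]
  rwa [e] at h2

theorem Dat.mem_iff (h : Dat N t W) {x : K} (hx : x ≠ 0) (k : ℤ) :
    t ^ (-k) * x ∈ W ↔ k ≤ kap t W x := by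
  have h1 : kap t W x ∈ {k : ℤ | t ^ (-k) * x ∈ W} :=
    Int.csSup_mem (h.nonempty x) (h.bdd hx)
  constructor
  · intro hk
    exact le_csSup (h.bdd hx) hk
  · intro hk
    exact h.down hk h1

theorem Dat.kap_mem (h : Dat N t W) {x : K} (hx : x ≠ 0) : t ^ (-kap t W x) * x ∈ W :=
  (h.mem_iff hx _).2 le_rfl

theorem Dat.mul_ge (h : Dat N t W) : ∃ c : ℕ, ∀ x y : K, x ≠ 0 → y ≠ 0 →
    kap t W x + kap t W y - c ≤ kap t W (x * y) := by
  obtain ⟨c, hc⟩ := (Bdd.mul h.hN h.hb h.hb).pow h.ht h.hW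
  refine ⟨c, fun x y hx hy => ?_⟩
  rw [← h.mem_iff (mul_ne_zero hx hy)]
  have h1 := hc c le_rfl _ ⟨_, h.kap_mem hx, _, h.kap_mem hy, rfl⟩
  have e : t ^ c * (t ^ (-kap t W x) * x * (t ^ (-kap t W y) * y)) =
      t ^ (-(kap t W x + kap t W y - c)) * (x * y) := by
    have e1 : t ^ (-(kap t W x + kap t W y - c)) =
        t ^ c * t ^ (-kap t W x) * t ^ (-kap t W y) := by
      rw [← zpow_natCast, ← zpow_add₀ h.t0, ← zpow_add₀ h.t0]
      congr 1
      ring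
    rw [e1]
    ring
  rwa [e] at h1

theorem Dat.add_ge (h : Dat N t W) : ∃ c : ℕ, ∀ x y : K, x ≠ 0 → y ≠ 0 → x + y ≠ 0 →
    min (kap t W x) (kap t W y) - c ≤ kap t W (x + y) := by
  obtain ⟨c, hc⟩ := (Bdd.add h.hN h.hb h.hb).pow h.ht h.hW
  refine ⟨c, fun x y hx hy hxy => ?_⟩
  rw [← h.mem_iff hxy]
  set m := min (kap t W x) (kap t W y) with hm
  have hx1 : t ^ (-m) * x ∈ W := (h.mem_iff hx m).2 (min_le_left _ _)
  have hy1 : t ^ (-m) * y ∈ W := (h.mem_iff hy m).2 (min_le_right _ _)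
  have h1 := hc c le_rfl _ ⟨_, hx1, _, hy1, rfl⟩
  have e : t ^ c * (t ^ (-m) * x + t ^ (-m) * y) = t ^ (-(m - c)) * (x + y) := by
    have e1 : t ^ (-(m - c)) = t ^ c * t ^ (-m) := by
      rw [← zpow_natCast, ← zpow_add₀ h.t0]
      congr 1
      ring
    rw [e1]
    ring
  rwa [e] at h1

theorem Dat.inv_ge (h : Dat N t W) : ∃ c : ℤ, ∀ x : K, x ≠ 0 →
    - kap t W x - c ≤ kap t W x⁻¹ := by
  obtain ⟨c, hc⟩ := (bdd_inv h.hN h.hW).pow h.ht h.hW
  refine ⟨c + 1, fun x hx => ?_⟩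
  rw [← h.mem_iff (inv_ne_zero hx)]
  have h1 : ¬ t ^ (-(kap t W x + 1)) * x ∈ W := by
    rw [h.mem_iff hx]
    omega
  have h2 := hc c le_rfl (t ^ (-(kap t W x + 1)) * x)⁻¹ (by
    change ((t ^ (-(kap t W x + 1)) * x)⁻¹)⁻¹ ∉ W
    rwa [inv_inv])
  have e : t ^ c * (t ^ (-(kap t W x + 1)) * x)⁻¹ = t ^ (-(-kap t W x - (c + 1))) * x⁻¹ := by
    have e1 : t ^ (-(-kap t W x - (c + 1))) = t ^ c * (t ^ (-(kap t W x + 1)))⁻¹ := by
      rw [← zpow_natCast, ← zpow_neg, ← zpow_add₀ h.t0]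
      congr 1
      ring
    rw [e1, mul_inv]
    ring
  rwa [e] at h2

/-- the exponent is a quasi-morphism -/
theorem Dat.quasi (h : Dat N t W) : ∃ C : ℝ, ∀ x y : K, x ≠ 0 → y ≠ 0 →
    |(kap t W (x * y) : ℝ) - kap t W x - kap t W y| ≤ C := by
  obtain ⟨c, hc⟩ := h.mul_ge
  obtain ⟨c', hc'⟩ := h.inv_ge
  refine ⟨c + |(c' : ℝ)|, fun x y hx hy => ?_⟩
  have h1 := hc x y hx hy
  have h2 := hc x⁻¹ (x * y) (inv_ne_zero hx) (mul_ne_zero hx hy)
  rw [inv_mul_cancel_left₀ hx] at h2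
  have h3 := hc' x hx
  have h1' : (kap t W x : ℝ) + kap t W y - c ≤ kap t W (x * y) := by exact_mod_cast h1
  have h2' : (kap t W x⁻¹ : ℝ) + kap t W (x * y) - c ≤ kap t W y := by exact_mod_cast h2
  have h3' : -(kap t W x : ℝ) - c' ≤ kap t W x⁻¹ := by exact_mod_cast h3
  have h4 := le_abs_self (c' : ℝ)
  have h5 := abs_nonneg (c' : ℝ)
  rw [abs_le]
  constructor <;> linarith

end

/-! ### the quasi-valuation -/

section

variable {K : Type u} [Field K] {N : Filter K}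

theorem main (h : IsVTop N) {t : K} (t0 : t ≠ 0)
    (ht : Tendsto (fun n : ℕ => t ^ n) atTop N) : Nonempty (QVal N) := by
  obtain ⟨W, hW, hb, htW⟩ := exists_bdd_pow h ht
  have hD : Dat N t W := ⟨h, t0, ht, hW, hb, htW⟩
  obtain ⟨C, hC⟩ := hD.quasi
  have hC0 : 0 ≤ C := (abs_nonneg _).trans (hC 1 1 one_ne_zero one_ne_zero)
  obtain ⟨a, ha⟩ := hD.add_ge
  have hex : ∀ x : K, ∃ L : ℝ, x ≠ 0 → ∀ n : ℕ, |(kap t W (x ^ n) : ℝ) - n * L| ≤ C := by
    intro x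
    by_cases hx : x = 0
    · exact ⟨0, fun h => absurd hx h⟩
    · obtain ⟨L, hL⟩ := exists_lim (fun n => (kap t W (x ^ n) : ℝ)) C (fun m n => by
        rw [pow_add]
        exact hC _ _ (pow_ne_zero _ hx) (pow_ne_zero _ hx))
      exact ⟨L, fun _ => hL⟩
  choose v hv using hex
  have hv1 : ∀ x : K, x ≠ 0 → |(kap t W x : ℝ) - v x| ≤ C := by
    intro x hx
    have := hv x hx 1
    rwa [pow_one, Nat.cast_one, one_mul] at this
  refine ⟨⟨v, a + 2 * C, ?_, ?_, ?_⟩⟩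
  · intro x y hx hy
    apply eq_of_bound (C := 4 * C)
    intro n
    have h1 := abs_le.1 (hv (x * y) (mul_ne_zero hx hy) n)
    have h2 := abs_le.1 (hv x hx n)
    have h3 := abs_le.1 (hv y hy n)
    have h4 := abs_le.1 (hC (x ^ n) (y ^ n) (pow_ne_zero _ hx) (pow_ne_zero _ hy))
    rw [mul_pow] at h1
    rw [abs_le]
    constructor
    · nlinarith [h1.1, h1.2, h2.1, h2.2, h3.1, h3.2, h4.1, h4.2]
    · nlinarith [h1.1, h1.2, h2.1, h2.2, h3.1, h3.2, h4.1, h4.2]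
  · intro x y hx hy hxy
    have h1 := abs_le.1 (hv1 x hx)
    have h2 := abs_le.1 (hv1 y hy)
    have h3 := abs_le.1 (hv1 (x + y) hxy)
    have h4 := ha x y hx hy hxy
    have h4' : min (kap t W x : ℝ) (kap t W y) - a ≤ kap t W (x + y) := by exact_mod_cast h4
    have h5 : min (v x) (v y) - C ≤ min (kap t W x : ℝ) (kap t W y) := by
      rcases min_choice (kap t W x : ℝ) (kap t W y) with h | h
      · rw [h]
        have := min_le_left (v x) (v y)
        linarith [h1.1, h1.2]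
      · rw [h]
        have := min_le_right (v x) (v y)
        linarith [h2.1, h2.2]
    linarith [h3.1, h3.2]
  · refine ⟨fun S => ⟨fun hS => ?_, ?_⟩⟩
    · obtain ⟨c, hc⟩ := hb.pow ht hS
      refine ⟨c + C, trivial, ?_⟩
      rintro x (rfl | hx)
      · exact h.zero_mem S hS
      · by_cases hx0 : x = 0
        · rw [hx0]; exact h.zero_mem S hS
        have h1 := abs_le.1 (hv1 x hx0)
        have h2 : (c : ℝ) ≤ kap t W x := by
          change (c : ℝ) + C < v x at hx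
          linarith [h1.1, h1.2]
        have h3 : (c : ℤ) ≤ kap t W x := by exact_mod_cast h2
        have h4 := hc c le_rfl _ ((hD.mem_iff hx0 _).2 h3)
        rwa [← mul_assoc, ← zpow_natCast, ← zpow_add₀ t0, add_neg_cancel, zpow_zero,
          one_mul] at h4
    · rintro ⟨c, -, hc⟩
      obtain ⟨k, hk⟩ := exists_int_gt (c + C)
      refine mem_of_superset (h.smul_mem (t ^ (-k)) W hW) fun x hx => hc ?_
      by_cases hx0 : x = 0
      · exact Or.inl hx0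
      · right
        have h1 := abs_le.1 (hv1 x hx0)
        have h2 : k ≤ kap t W x := (hD.mem_iff hx0 k).1 hx
        have h3 : (k : ℝ) ≤ kap t W x := by exact_mod_cast h2
        linarith [h1.1, h1.2]

end

end QVA

theorem qva : StQVA.{u} := by
  rintro K _ N hN ⟨t, t0, ht⟩
  exact QVA.main hN t0 ht

end Pool.Agent.Lib.MP_defcf3_al.FR
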