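import Pool.Agent.Lib.MP_defcf3_al.FR.Defs

/-!
Module RIN: the valuation ring of a rank one valuation.
-/

set_option autoImplicit false

namespace Pool.Agent.Lib.MP_defcf3_al.FR

open Filter

universe u

namespace QVal

variable {K : Type u} [Field K] {N : Filter K} (Q : QVal N)

theorem rin_one : Q.v 1 = 0 := by
  have h := Q.map_mul 1 1 one_ne_zero one_ne_zero
  rw [mul_one] at h
  linarith

theorem rin_inv {x : K} (hx : x ≠ 0) : Q.v x⁻¹ = - Q.v x := by
  have h := Q.map_mul x x⁻¹ hx (inv_ne_zero hx)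
  rw [mul_inv_cancel₀ hx, Q.rin_one] at h
  linarith

theorem rin_neg_one : Q.v (-1) = 0 := by
  have h := Q.map_mul (-1) (-1) (neg_ne_zero.2 one_ne_zero) (neg_ne_zero.2 one_ne_zero)
  rw [neg_mul_neg, mul_one, Q.rin_one] at h
  linarith

theorem rin_neg {x : K} (hx : x ≠ 0) : Q.v (-x) = Q.v x := by
  have h := Q.map_mul (-1) x (neg_ne_zero.2 one_ne_zero) hx
  rw [neg_one_mul, Q.rin_neg_one] at h
  linarith

/-- the valuation ring -/
def rinO (hQ : ∀ x y : K, x ≠ 0 → y ≠ 0 → x + y ≠ 0 → min (Q.v x) (Q.v y) ≤ Q.v (x + y)) :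
    ValuationSubring K where
  carrier := {x | x = 0 ∨ 0 ≤ Q.v x}
  mul_mem' := by
    rintro x y hx hy
    by_cases h0 : x = 0
    · exact Or.inl (by rw [h0, zero_mul])
    by_cases h1 : y = 0
    · exact Or.inl (by rw [h1, mul_zero])
    refine Or.inr ?_
    rw [Q.map_mul x y h0 h1]
    exact add_nonneg (hx.resolve_left h0) (hy.resolve_left h1)
  one_mem' := Or.inr (by rw [Q.rin_one])
  add_mem' := by
    rintro x y hx hy
    by_cases h0 : x = 0
    · rw [h0, zero_add]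
      exact hy
    by_cases h1 : y = 0
    · rw [h1, add_zero]
      exact hx
    by_cases h2 : x + y = 0
    · exact Or.inl h2
    exact Or.inr (le_trans (le_min (hx.resolve_left h0) (hy.resolve_left h1)) (hQ x y h0 h1 h2))
  zero_mem' := Or.inl rfl
  neg_mem' := by
    rintro x hx
    by_cases h0 : x = 0
    · exact Or.inl (by rw [h0, neg_zero])
    · exact Or.inr (by rw [Q.rin_neg h0]; exact hx.resolve_left h0)
  mem_or_inv_mem' := by
    intro x
    by_cases h0 : x = 0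
    · exact Or.inl (Or.inl h0)
    rcases le_total 0 (Q.v x) with h | h
    · exact Or.inl (Or.inr h)
    · exact Or.inr (Or.inr (by rw [Q.rin_inv h0]; linarith))

theorem mem_rinO (hQ : ∀ x y : K, x ≠ 0 → y ≠ 0 → x + y ≠ 0 → min (Q.v x) (Q.v y) ≤ Q.v (x + y))
    (x : K) : x ∈ Q.rinO hQ ↔ x = 0 ∨ 0 ≤ Q.v x := Iff.rfl

theorem rinO_lt (hQ : ∀ x y : K, x ≠ 0 → y ≠ 0 → x + y ≠ 0 → min (Q.v x) (Q.v y) ≤ Q.v (x + y))
    (x t : K) (ht : t ≠ 0) :
    (Q.rinO hQ).valuation x < (Q.rinO hQ).valuation t ↔ x = 0 ∨ Q.v t < Q.v x := by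
  have hvt : (Q.rinO hQ).valuation t ≠ 0 := (Valuation.ne_zero_iff _).2 ht
  by_cases h0 : x = 0
  · subst h0
    rw [map_zero]
    exact ⟨fun _ => Or.inl rfl, fun _ => zero_lt_iff.2 hvt⟩
  · have hvx : (Q.rinO hQ).valuation x ≠ 0 := (Valuation.ne_zero_iff _).2 h0
    have h1 : (Q.rinO hQ).valuation t ≤ (Q.rinO hQ).valuation x ↔ t * x⁻¹ ∈ Q.rinO hQ := by
      rw [← ValuationSubring.valuation_le_one_iff, _root_.map_mul, map_inv₀, ← div_eq_mul_inv,
        div_le_one₀ (zero_lt_iff.2 hvx)]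
    rw [← not_le, h1, Q.mem_rinO hQ, Q.map_mul t x⁻¹ ht (inv_ne_zero h0), Q.rin_inv h0]
    constructor
    · intro h
      refine Or.inr (not_le.1 fun h2 => h (Or.inr (by linarith)))
    · rintro (h | h) h2
      · exact h0 h
      · rcases h2 with h2 | h2
        · exact (mul_ne_zero ht (inv_ne_zero h0)) h2
        · linarith

end QVal

/-- RIN: the valuation ring of a rank one valuation. -/
theorem rin : StRIN.{u} := by
  intro K _ N hN Q hQ
  have hpos : ∀ C : ℝ, ∃ t : K, t ≠ 0 ∧ C < Q.v t := by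
    intro C
    obtain ⟨t, ht, ht0⟩ := hN.nontriv _ (Q.basis.mem_of_mem (i := C) trivial)
    exact ⟨t, ht0, ht.resolve_left ht0⟩
  refine ⟨Q.rinO hQ, ?_, ?_, ?_⟩
  · intro h
    obtain ⟨t, ht0, ht⟩ := hpos 0
    have h1 : t⁻¹ ∈ Q.rinO hQ := by
      rw [h]
      exact ValuationSubring.mem_top _
    rcases (Q.mem_rinO hQ _).1 h1 with h2 | h2
    · exact inv_ne_zero ht0 h2
    · rw [Q.rin_inv ht0] at h2
      linarith
  · unfold Induces
    refine Q.basis.to_hasBasis ?_ ?_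
    · intro C _
      obtain ⟨t, ht0, ht⟩ := hpos C
      refine ⟨t, ht0, fun x hx => ?_⟩
      rcases (Q.rinO_lt hQ x t ht0).1 hx with h | h
      · exact Or.inl h
      · exact Or.inr (lt_trans ht h)
    · intro t ht0
      exact ⟨Q.v t, trivial, fun x hx => (Q.rinO_lt hQ x t ht0).2 hx⟩
  · intro x
    have h := Q.rinO_lt hQ x 1 one_ne_zero
    rw [map_one, Q.rin_one] at h
    exact h

end Pool.Agent.Lib.MP_defcf3_al.FR
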