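import Pool.Agent.Lib.MP_defcf3_al.FR.Defs

/-!
TAM: rank one, residue characteristic not `p`: `1 + m` lies in every open subgroup containing the
`p`-th powers.
-/

set_option autoImplicit false

namespace Pool.Agent.Lib.MP_defcf3_al.FR

open Filter

universe u

namespace TamAux

variable {K : Type u} [Field K] {N : Filter K} (Q : QVal N)

theorem v_one : Q.v 1 = 0 := by
  have h := Q.map_mul 1 1 one_ne_zero one_ne_zero
  rw [mul_one] at h
  linarith

theorem v_neg_one : Q.v (-1) = 0 := by
  have h := Q.map_mul (-1) (-1) (neg_ne_zero.2 one_ne_zero) (neg_ne_zero.2 one_ne_zero)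
  rw [neg_mul_neg, mul_one, v_one] at h
  linarith

theorem v_neg {x : K} (hx : x ≠ 0) : Q.v (-x) = Q.v x := by
  have h := Q.map_mul (-1) x (neg_ne_zero.2 one_ne_zero) hx
  rw [neg_one_mul, v_neg_one, zero_add] at h
  exact h

/-- `x` is zero or has value at least `g`. -/
def A (g : ℝ) (x : K) : Prop := x = 0 ∨ g ≤ Q.v x

variable (h : ∀ x y : K, x ≠ 0 → y ≠ 0 → x + y ≠ 0 → min (Q.v x) (Q.v y) ≤ Q.v (x + y))

include h in
theorem A_add {g : ℝ} {x y : K} (hx : A Q g x) (hy : A Q g y) : A Q g (x + y) := by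
  by_cases h0 : x = 0
  · rw [h0, zero_add]; exact hy
  by_cases h1 : y = 0
  · rw [h1, add_zero]; exact hx
  by_cases h2 : x + y = 0
  · exact Or.inl h2
  · exact Or.inr (le_trans (le_min (hx.resolve_left h0) (hy.resolve_left h1)) (h x y h0 h1 h2))

theorem A_mul {g g' : ℝ} {x y : K} (hx : A Q g x) (hy : A Q g' y) : A Q (g + g') (x * y) := by
  by_cases h0 : x = 0
  · left; rw [h0, zero_mul]
  by_cases h1 : y = 0
  · left; rw [h1, mul_zero]
  · right
    rw [Q.map_mul x y h0 h1]
    exact add_le_add (hx.resolve_left h0) (hy.resolve_left h1)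

theorem A_one : A Q 0 (1 : K) := Or.inr (v_one Q).ge

theorem A_neg {g : ℝ} {x : K} (hx : A Q g x) : A Q g (-x) := by
  by_cases h0 : x = 0
  · left; rw [h0, neg_zero]
  · right; rw [v_neg Q h0]; exact hx.resolve_left h0

include h in
theorem A_nat (n : ℕ) : A Q 0 (n : K) := by
  induction n with
  | zero => left; exact Nat.cast_zero
  | succ n ih => rw [Nat.cast_succ]; exact A_add Q h ih (A_one Q)

include h in
theorem A_binom {g : ℝ} (hg : 0 ≤ g) {y : K} (hy : A Q g y) (n : ℕ) :
    A Q (2 * g) ((1 + y) ^ n - 1 - n * y) := by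
  have hy0 : A Q 0 y := hy.imp_right fun h1 => hg.trans h1
  induction n with
  | zero => left; simp
  | succ n ih =>
    have e : (1 + y) ^ (n + 1) - 1 - ((n + 1 : ℕ) : K) * y
        = ((1 + y) ^ n - 1 - n * y) * (1 + y) + n * (y * y) := by
      push_cast; ring
    rw [e]
    refine A_add Q h ?_ ?_
    · have := A_mul Q ih (A_add Q h (A_one Q) hy0)
      rwa [add_zero] at this
    · have := A_mul Q (A_nat Q h n) (A_mul Q hy hy)
      rwa [zero_add, ← two_mul] at this

include h in
theorem one_add {y : K} {g : ℝ} (hg : 0 < g) (hy : A Q g y) : 1 + y ≠ 0 ∧ Q.v (1 + y) = 0 := by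
  by_cases h0 : y = 0
  · rw [h0, add_zero]; exact ⟨one_ne_zero, v_one Q⟩
  have hv : g ≤ Q.v y := hy.resolve_left h0
  have h1 : 1 + y ≠ 0 := by
    intro h2
    have h3 : y = -1 := by linear_combination h2
    rw [h3, v_neg_one] at hv
    linarith
  refine ⟨h1, le_antisymm ?_ ?_⟩
  · have h2 := h (1 + y) (-y) h1 (neg_ne_zero.2 h0) (by rw [add_neg_cancel_right]; exact one_ne_zero)
    rw [add_neg_cancel_right, v_one, v_neg Q h0] at h2
    rcases min_le_iff.1 h2 with h3 | h3
    · exact h3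
    · linarith
  · have h2 := h 1 y one_ne_zero h0 h1
    rw [v_one] at h2
    exact le_trans (le_min le_rfl (hg.le.trans hv)) h2

theorem v_pow {x : K} (hx : x ≠ 0) (hv : Q.v x = 0) (n : ℕ) : Q.v (x ^ n) = 0 := by
  induction n with
  | zero => rw [pow_zero]; exact v_one Q
  | succ n ih => rw [pow_succ, Q.map_mul _ _ (pow_ne_zero n hx) hx, ih, hv, add_zero]

theorem v_inv {x : K} (hx : x ≠ 0) (hv : Q.v x = 0) : Q.v x⁻¹ = 0 := by
  have h1 := Q.map_mul x x⁻¹ hx (inv_ne_zero hx)
  rw [mul_inv_cancel₀ hx, v_one, hv] at h1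
  linarith

end TamAux

open TamAux

theorem tam : StTAM.{u} := by
  intro p _ K _ N _ Q h hp hvp R hR hpow x hx
  -- the constant
  obtain ⟨C, _, hC⟩ := Q.basis.mem_iff.1 hR
  have hC' : ∀ z : Kˣ, C < Q.v ((z : K) - 1) → z ∈ R := by
    intro z hz
    exact hC (Or.inr hz) z (by ring)
  have key : ∀ n : ℕ, ∀ z : Kˣ, ∀ g : ℝ, 0 < g → A Q g ((z : K) - 1) → C < 2 ^ n * g → z ∈ R := by
    intro n
    induction n with
    | zero =>
      intro z g hg hz hCg
      rcases hz with hz | hz
      · have : z = 1 := Units.ext (by rw [Units.val_one]; linear_combination hz)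
        rw [this]; exact one_mem R
      · exact hC' z (by linarith)
    | succ n ih =>
      intro z g hg hz hCg
      set y : K := ((z : K) - 1) / p with hy
      have hyA : A Q g y := by
        have h1 := A_mul Q hz (Or.inr (v_inv Q hp hvp).ge : A Q 0 ((p : K)⁻¹))
        rw [add_zero, ← div_eq_mul_inv] at h1
        exact h1
      obtain ⟨h1, h2⟩ := one_add Q h hg hyA
      have h3 : (1 + y) ^ p ≠ 0 := pow_ne_zero p h1
      set w : Kˣ := Units.mk0 (1 + y) h1 with hw
      have h4 : z * (w ^ p)⁻¹ ∈ R := by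
        refine ih _ (2 * g) (by linarith) ?_ (by rw [pow_succ] at hCg; linarith)
        have e : ((z * (w ^ p)⁻¹ : Kˣ) : K) - 1 = -((1 + y) ^ p - 1 - p * y) * ((1 + y) ^ p)⁻¹ := by
          rw [Units.val_mul, Units.val_inv_eq_inv_val, Units.val_pow_eq_pow_val, hw, Units.val_mk0]
          have h5 : (p : K) * y = (z : K) - 1 := by rw [hy]; field_simp
          rw [h5]
          field_simp
          ring
        rw [e]
        have h5 := A_mul Q (A_neg Q (A_binom Q h hg.le hyA p))
          (Or.inr (v_inv Q h3 (v_pow Q h1 h2 p)).ge : A Q 0 (((1 + y) ^ p)⁻¹))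
        rwa [add_zero] at h5
      have h5 := mul_mem h4 (hpow w)
      rwa [inv_mul_cancel_right] at h5
  rcases hx with hx | hx
  · have : x = 1 := Units.ext (by rw [Units.val_one]; exact hx)
    rw [this]; exact one_mem R
  · obtain ⟨n, hn⟩ := pow_unbounded_of_one_lt (C / Q.v ((x : K) - 1)) (one_lt_two (α := ℝ))
    exact key n x _ hx (Or.inr le_rfl) ((div_lt_iff₀ hx).1 hn)

end Pool.Agent.Lib.MP_defcf3_al.FR
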