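import Pool.Agent.Lib.MP_defcf3_al.FR.Defs

/-!
MP_defcf3_al, project FR, module VAL: a V-topology without topologically nilpotent elements is
induced by arbitrarily coarse nontrivial valuation rings.
-/

set_option autoImplicit false

namespace Pool.Agent.Lib.MP_defcf3_al.FR

open Filter

universe u

namespace ValM

variable {K : Type u} [Field K] {N : Filter K}

/-- Bounded sets. -/
def Bdd (N : Filter K) (B : Set K) : Prop :=
  ∀ S ∈ N, ∃ T ∈ N, ∀ x ∈ B, ∀ y ∈ T, x * y ∈ S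

theorem Bdd.mono {B C : Set K} (h : Bdd N B) (hC : C ⊆ B) : Bdd N C := by
  intro S hS
  obtain ⟨T, hT, h1⟩ := h S hS
  exact ⟨T, hT, fun x hx y hy => h1 x (hC hx) y hy⟩

theorem Bdd.union {B C : Set K} (h : Bdd N B) (h' : Bdd N C) : Bdd N (B ∪ C) := by
  intro S hS
  obtain ⟨T, hT, h1⟩ := h S hS
  obtain ⟨T', hT', h2⟩ := h' S hS
  refine ⟨T ∩ T', inter_mem hT hT', ?_⟩
  rintro x (hx | hx) y ⟨hy, hy'⟩
  · exact h1 x hx y hy
  · exact h2 x hx y hy'

theorem Bdd.mul {B C : Set K} (h : Bdd N B) (h' : Bdd N C) :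
    Bdd N {z | ∃ x ∈ B, ∃ y ∈ C, z = x * y} := by
  intro S hS
  obtain ⟨T, hT, h1⟩ := h S hS
  obtain ⟨T', hT', h2⟩ := h' T hT
  refine ⟨T', hT', ?_⟩
  rintro z ⟨x, hx, y, hy, rfl⟩ w hw
  rw [mul_assoc]
  exact h1 x hx _ (h2 y hy w hw)

theorem Bdd.add (hN : IsVTop N) {B C : Set K} (h : Bdd N B) (h' : Bdd N C) :
    Bdd N {z | ∃ x ∈ B, ∃ y ∈ C, z = x + y} := by
  intro S hS
  obtain ⟨S', hS', h0⟩ := hN.add_mem S hS
  obtain ⟨T, hT, h1⟩ := h S' hS'
  obtain ⟨T', hT', h2⟩ := h' S' hS'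
  refine ⟨T ∩ T', inter_mem hT hT', ?_⟩
  rintro z ⟨x, hx, y, hy, rfl⟩ w ⟨hw, hw'⟩
  rw [add_mul]
  exact h0 _ (h1 x hx w hw) _ (h2 y hy w hw')

theorem bdd_singleton (hN : IsVTop N) (t : K) : Bdd N {t} := by
  intro S hS
  refine ⟨_, hN.smul_mem t S hS, ?_⟩
  rintro x hx y hy
  rw [Set.mem_singleton_iff] at hx
  rw [hx]
  exact hy

theorem Bdd.smul (hN : IsVTop N) {B : Set K} (h : Bdd N B) (t : K) :
    Bdd N {z | ∃ x ∈ B, z = t * x} := by
  refine ((bdd_singleton hN t).mul h).mono ?_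
  rintro z ⟨x, hx, rfl⟩
  exact ⟨t, rfl, x, hx, rfl⟩

theorem scale (hN : IsVTop N) {B : Set K} (hB : Bdd N B) {S : Set K} (hS : S ∈ N) :
    ∃ t : K, t ≠ 0 ∧ ∀ x ∈ B, t * x ∈ S := by
  obtain ⟨T, hT, h1⟩ := hB S hS
  obtain ⟨t, ht, h0⟩ := hN.nontriv T hT
  refine ⟨t, h0, fun x hx => ?_⟩
  rw [mul_comm]
  exact h1 x hx t ht

theorem bdd_inv (hN : IsVTop N) {S : Set K} (hS : S ∈ N) : Bdd N {x | x⁻¹ ∉ S} := by
  intro S' hS'
  obtain ⟨T, hT, h1⟩ := hN.vprop (S ∩ S') (inter_mem hS hS')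
  refine ⟨T, hT, ?_⟩
  intro x hx y hy
  have hx0 : x ≠ 0 := by
    rintro rfl
    exact hx (by rw [inv_zero]; exact hN.zero_mem S hS)
  have h2 : x⁻¹ * (x * y) ∈ T := by
    rw [inv_mul_cancel_left₀ hx0]
    exact hy
  rcases h1 _ _ h2 with h3 | h3
  · exact absurd h3.1 hx
  · exact h3.2

theorem bdd_zero (hN : IsVTop N) : Bdd N {(0 : K)} := bdd_singleton hN 0

/-- `{x : t⁻¹ x ∈ S}` is a neighbourhood of zero; this is `t S`. -/
theorem smul_set_mem (hN : IsVTop N) {S : Set K} (hS : S ∈ N) (t : K) :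
    {x | t⁻¹ * x ∈ S} ∈ N := hN.smul_mem t⁻¹ S hS

theorem exists_bdd (hN : IsVTop N) : ∃ T ∈ N, Bdd N T := by
  obtain ⟨S, hS, h1⟩ := hN.haus 1 one_ne_zero
  obtain ⟨T, hT, h2⟩ := hN.mul_mem S hS
  refine ⟨T, hT, ((bdd_inv hN hT).union (bdd_zero hN)).mono ?_⟩
  intro x hx
  by_cases h0 : x = 0
  · exact Or.inr h0
  · left
    intro h3
    exact h1 (by have := h2 x hx _ h3; rwa [mul_inv_cancel₀ h0] at this)

theorem exists_nice (hN : IsVTop N) : ∃ U ∈ N, Bdd N U ∧ (∀ x ∈ U, -x ∈ U) ∧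
    (∀ x ∈ U, ∀ y ∈ U, x * y ∈ U) := by
  obtain ⟨T, hT, hb⟩ := exists_bdd hN
  have hT' : T ∩ {x | (-1 : K) * x ∈ T} ∈ N := inter_mem hT (hN.smul_mem (-1) T hT)
  set T' : Set K := T ∩ {x | (-1 : K) * x ∈ T} with hT'def
  have hb' : Bdd N T' := hb.mono Set.inter_subset_left
  have hsym : ∀ x ∈ T', -x ∈ T' := by
    rintro x ⟨hx, hx'⟩
    refine ⟨by simpa using hx', ?_⟩
    simpa using hx
  obtain ⟨t, ht, h1⟩ := scale hN (hb'.mul hb') hT'
  refine ⟨{x | t⁻¹ * x ∈ T'}, hN.smul_mem _ _ hT', ?_, ?_, ?_⟩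
  · refine (hb'.smul hN t).mono ?_
    intro x hx
    exact ⟨t⁻¹ * x, hx, by rw [mul_inv_cancel_left₀ ht]⟩
  · intro x hx
    have := hsym _ hx
    simpa [mul_neg] using this
  · intro x hx y hy
    have := h1 _ ⟨_, hx, _, hy, rfl⟩
    have e : t * (t⁻¹ * x * (t⁻¹ * y)) = t⁻¹ * (x * y) := by
      field_simp
    rw [e] at this
    exact this

theorem bdd_pow_lt (hN : IsVTop N) (c : K) (n : ℕ) : Bdd N {x | ∃ r < n, x = c ^ r} := by
  induction n with
  | zero =>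
    refine (bdd_zero hN).mono ?_
    rintro x ⟨r, hr, _⟩
    omega
  | succ n ih =>
    refine (ih.union (bdd_singleton hN (c ^ n))).mono ?_
    rintro x ⟨r, hr, rfl⟩
    rcases Nat.lt_succ_iff_lt_or_eq.mp hr with h | h
    · exact Or.inl ⟨r, h, rfl⟩
    · right
      rw [h]
      rfl

/-- Without topologically nilpotent elements all sets of powers are bounded. -/
theorem bdd_pow (hN : IsVTop N) (h : ∀ t : K, t ≠ 0 → ¬ Tendsto (fun n : ℕ => t ^ n) atTop N)
    {a : K} (ha : a ≠ 0) : Bdd N {x | ∃ k : ℕ, x = a ^ k} := by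
  by_contra hcon
  set c : K := a⁻¹ with hc
  have hc0 : c ≠ 0 := inv_ne_zero ha
  have key : ∀ S ∈ N, ∃ n : ℕ, c ^ n ∈ S := by
    intro S hS
    by_contra h1
    push Not at h1
    apply hcon
    refine (bdd_inv hN hS).mono ?_
    rintro x ⟨k, rfl⟩
    have := h1 k
    rw [hc, inv_pow] at this
    exact this
  obtain ⟨U, hU, hb, -, hmul⟩ := exists_nice hN
  obtain ⟨S1, hS1, h1⟩ := hN.haus 1 one_ne_zero
  obtain ⟨n, hn⟩ := key (U ∩ S1) (inter_mem hU hS1)
  have hn0 : 0 < n := by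
    rcases Nat.eq_zero_or_pos n with h0 | h0
    · exfalso
      rw [h0, pow_zero] at hn
      exact h1 hn.2
    · exact h0
  have hk : ∀ k : ℕ, c ^ (n * (k + 1)) ∈ U := by
    intro k
    induction k with
    | zero => simpa using hn.1
    | succ k ih =>
      have e : c ^ (n * (k + 1 + 1)) = c ^ (n * (k + 1)) * c ^ n := by
        rw [← pow_add]
        congr 1
      rw [e]
      exact hmul _ ih _ hn.1
  have hbC : Bdd N {x | ∃ m : ℕ, x = c ^ m} := by
    refine ((bdd_pow_lt hN c n).mul (hb.union (bdd_singleton hN 1))).mono ?_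
    rintro x ⟨m, rfl⟩
    refine ⟨c ^ (m % n), ⟨m % n, Nat.mod_lt m hn0, rfl⟩, c ^ (n * (m / n)), ?_, ?_⟩
    · rcases Nat.eq_zero_or_pos (m / n) with h0 | h0
      · right
        rw [h0, mul_zero, pow_zero]
        rfl
      · left
        obtain ⟨k, hk'⟩ : ∃ k, m / n = k + 1 := ⟨m / n - 1, by omega⟩
        rw [hk']
        exact hk k
    · rw [← pow_add, Nat.mod_add_div]
  apply h c hc0
  intro S hS
  rw [mem_map]
  obtain ⟨T, hT, h2⟩ := hbC S hS
  obtain ⟨m, hm⟩ := key T hT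
  refine mem_atTop_sets.mpr ⟨m, fun b hb' => ?_⟩
  have e : c ^ b = c ^ (b - m) * c ^ m := by
    rw [← pow_add]
    congr 1
    omega
  change c ^ b ∈ S
  rw [e]
  exact h2 _ ⟨b - m, rfl⟩ _ hm

/-- The idealiser of an additive subgroup. -/
def idealiser (B : AddSubgroup K) : Subring K where
  carrier := {x | ∀ y ∈ B, x * y ∈ B}
  mul_mem' := by
    intro x y hx hy z hz
    rw [mul_assoc]
    exact hx _ (hy z hz)
  one_mem' := by
    intro z hz
    rwa [one_mul]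
  add_mem' := by
    intro x y hx hy z hz
    rw [add_mul]
    exact B.add_mem (hx z hz) (hy z hz)
  zero_mem' := by
    intro z hz
    rw [zero_mul]
    exact B.zero_mem
  neg_mem' := by
    intro x hx z hz
    rw [neg_mul]
    exact B.neg_mem (hx z hz)

/-- There is a bounded open valuation ring. -/
theorem exists_bounded_ring (hN : IsVTop N)
    (h : ∀ t : K, t ≠ 0 → ¬ Tendsto (fun n : ℕ => t ^ n) atTop N) :
    ∃ O : ValuationSubring K, (O : Set K) ∈ N ∧ Bdd N (O : Set K) ∧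
      ∃ t : K, t ≠ 0 ∧ t ∈ O ∧ t⁻¹ ∉ O := by
  obtain ⟨U, hU, hb, hneg, hmul⟩ := exists_nice hN
  have h0U : (0 : K) ∈ U := hN.zero_mem U hU
  obtain ⟨t, ht, h1⟩ := scale hN (hb.add hN hb) hU
  have htU : ∀ x ∈ U, t * x ∈ U := by
    intro x hx
    exact h1 x ⟨x, hx, 0, h0U, (add_zero x).symm⟩
  have htkU : ∀ (k : ℕ) (x : K), x ∈ U → t ^ k * x ∈ U := by
    intro k
    induction k with
    | zero => intro x hx; simpa using hx
    | succ k ih =>
      intro x hx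
      rw [pow_succ, mul_assoc]
      exact ih _ (htU x hx)
  have hcl : ∀ x ∈ AddSubgroup.closure U, ∃ k : ℕ, t ^ k * x ∈ U := by
    intro x hx
    induction hx using AddSubgroup.closure_induction with
    | mem x hx => exact ⟨0, by simpa using hx⟩
    | zero => exact ⟨0, by simpa using h0U⟩
    | add x y _ _ ihx ihy =>
      obtain ⟨k, hk⟩ := ihx
      obtain ⟨l, hl⟩ := ihy
      refine ⟨k + l + 1, ?_⟩
      have e : t ^ (k + l + 1) * (x + y) = t * (t ^ l * (t ^ k * x) + t ^ k * (t ^ l * y)) := by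
        ring
      rw [e]
      exact h1 _ ⟨_, htkU l _ hk, _, htkU k _ hl, rfl⟩
    | neg x _ ihx =>
      obtain ⟨k, hk⟩ := ihx
      refine ⟨k, ?_⟩
      rw [mul_neg]
      exact hneg _ hk
  have hbB : Bdd N (AddSubgroup.closure U : Set K) := by
    refine ((bdd_pow hN h (inv_ne_zero ht)).mul hb).mono ?_
    intro x hx
    obtain ⟨k, hk⟩ := hcl x hx
    refine ⟨t⁻¹ ^ k, ⟨k, rfl⟩, t ^ k * x, hk, ?_⟩
    rw [inv_pow, inv_mul_cancel_left₀ (pow_ne_zero k ht)]
  set O1 : Subring K := idealiser (AddSubgroup.closure U) with hO1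
  have hUO : ∀ u ∈ U, u ∈ O1 := by
    intro u hu y hy
    induction hy using AddSubgroup.closure_induction with
    | mem y hy => exact AddSubgroup.subset_closure (hmul u hu y hy)
    | zero => rw [mul_zero]; exact AddSubgroup.zero_mem _
    | add x y _ _ ihx ihy => rw [mul_add]; exact AddSubgroup.add_mem _ ihx ihy
    | neg x _ ihx => rw [mul_neg]; exact AddSubgroup.neg_mem _ ihx
  have hO1N : (O1 : Set K) ∈ N := mem_of_superset hU hUO
  have hO1b : Bdd N (O1 : Set K) := by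
    obtain ⟨b, hbU, hb0⟩ := hN.nontriv U hU
    refine (hbB.mul (bdd_singleton hN b⁻¹)).mono ?_
    intro x hx
    refine ⟨x * b, hx b (AddSubgroup.subset_closure hbU), b⁻¹, rfl, ?_⟩
    rw [mul_assoc, mul_inv_cancel₀ hb0, mul_one]
  obtain ⟨t0, ht0, ht00, ht0i⟩ : ∃ t0 ∈ O1, t0 ≠ 0 ∧ t0⁻¹ ∉ O1 := by
    by_contra hcon
    push Not at hcon
    obtain ⟨S, hS, h2⟩ := hN.haus 1 one_ne_zero
    obtain ⟨T, hT, h3⟩ := hO1b S hS
    obtain ⟨y, ⟨hyT, hyO⟩, hy0⟩ := hN.nontriv _ (inter_mem hT hO1N)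
    have h4 := h3 _ (hcon y hyO hy0) y hyT
    rw [inv_mul_cancel₀ hy0] at h4
    exact h2 h4
  have hI : Ideal.span {(⟨t0, ht0⟩ : O1)} ≠ ⊤ := by
    rw [Ne, Ideal.span_singleton_eq_top]
    intro hu
    obtain ⟨w, hw⟩ := isUnit_iff_exists_inv.mp hu
    have h5 : t0 * (w : K) = 1 := congrArg Subtype.val hw
    apply ht0i
    have h6 : t0⁻¹ = (w : K) := by
      field_simp
      rw [mul_comm] at h5
      exact (by rw [mul_comm]; exact h5.symm)
    rw [h6]
    exact w.2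
  obtain ⟨O, hle, hnon⟩ := Ideal.image_subset_nonunits_valuationSubring _ hI
  have ht0n : t0 ∈ O.nonunits :=
    hnon ⟨⟨t0, ht0⟩, Ideal.subset_span rfl, rfl⟩
  have ht0O : t0⁻¹ ∉ O := by
    rcases O.mem_nonunits_iff_or.mp ht0n with h6 | h6
    · exact absurd h6 ht00
    · exact h6
  refine ⟨O, mem_of_superset hO1N hle, ?_, t0, ht00, hle ht0, ht0O⟩
  have hS2 : {x | t0⁻¹ * x ∈ (O1 : Set K)} ∈ N := hN.smul_mem _ _ hO1N
  refine ((bdd_inv hN hS2).union (bdd_zero hN)).mono ?_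
  intro y hy
  by_cases hy0 : y = 0
  · exact Or.inr hy0
  left
  intro h7
  apply ht0O
  have h8 : t0⁻¹ * y⁻¹ ∈ O := hle h7
  have := O.mul_mem _ _ h8 hy
  rwa [mul_assoc, inv_mul_cancel₀ hy0, mul_one] at this

/-- The localisation `O[1/t]`. -/
def coarse (O : ValuationSubring K) (t : K) (ht : t ∈ O) : ValuationSubring K where
  carrier := {x | ∃ n : ℕ, x * t ^ n ∈ O}
  mul_mem' := by
    rintro x y ⟨n, hn⟩ ⟨m, hm⟩
    refine ⟨n + m, ?_⟩
    have e : x * y * t ^ (n + m) = (x * t ^ n) * (y * t ^ m) := by ring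
    rw [e]
    exact O.mul_mem _ _ hn hm
  one_mem' := ⟨0, by simpa using O.one_mem⟩
  add_mem' := by
    rintro x y ⟨n, hn⟩ ⟨m, hm⟩
    refine ⟨n + m, ?_⟩
    have e : (x + y) * t ^ (n + m) = (x * t ^ n) * t ^ m + (y * t ^ m) * t ^ n := by ring
    rw [e]
    exact O.add_mem _ _ (O.mul_mem _ _ hn (pow_mem ht m)) (O.mul_mem _ _ hm (pow_mem ht n))
  zero_mem' := ⟨0, by simpa using O.zero_mem⟩
  neg_mem' := by
    rintro x ⟨n, hn⟩
    refine ⟨n, ?_⟩
    rw [neg_mul]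
    exact O.neg_mem _ hn
  mem_or_inv_mem' := by
    intro x
    rcases O.mem_or_inv_mem x with h | h
    · exact Or.inl ⟨0, by simpa using h⟩
    · exact Or.inr ⟨0, by simpa using h⟩

theorem mem_coarse {O : ValuationSubring K} {t : K} {ht : t ∈ O} {x : K} :
    x ∈ coarse O t ht ↔ ∃ n : ℕ, x * t ^ n ∈ O := Iff.rfl

theorem le_coarse {O : ValuationSubring K} {t : K} (ht : t ∈ O) {x : K} (hx : x ∈ O) :
    x ∈ coarse O t ht := ⟨0, by simpa using hx⟩

end ValM

open ValM in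
/-- Module VAL. -/
theorem val : StVAL.{u} := by
  intro K _ N hN h S hS
  obtain ⟨O, hON, hOb, t0, ht00, ht0O, ht0i⟩ := exists_bounded_ring hN h
  obtain ⟨t1, ht1, hsc⟩ := scale hN hOb hS
  have hA : {x | t1⁻¹ * x ∈ (O : Set K)} ∩ {x | t0⁻¹ * x ∈ (O : Set K)} ∈ N :=
    inter_mem (hN.smul_mem _ _ hON) (hN.smul_mem _ _ hON)
  obtain ⟨t, ⟨htA, htB⟩, ht⟩ := hN.nontriv _ hA
  have htO : t ∈ O := by
    have := O.mul_mem _ _ ht0O htB
    rwa [mul_inv_cancel_left₀ ht00] at this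
  have hti : t⁻¹ ∉ O := by
    intro h1
    apply ht0i
    have h2 : t0⁻¹ * t * t⁻¹ ∈ O := O.mul_mem _ _ htB h1
    rwa [mul_assoc, mul_inv_cancel₀ ht, mul_one] at h2
  have htS : ∀ x ∈ O, t * x ∈ S := by
    intro x hx
    have h1 := hsc _ (O.mul_mem _ _ htA hx)
    have e : t1 * (t1⁻¹ * t * x) = t * x := by
      field_simp
    rwa [e] at h1
  set O' : ValuationSubring K := coarse O t htO with hO'
  have hnon : ∀ x : K, x ≠ 0 → x⁻¹ ∉ O' → ∀ n : ℕ, x * (t ^ n)⁻¹ ∈ O := by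
    intro x hx h1 n
    rcases O.mem_or_inv_mem (x⁻¹ * t ^ n) with h2 | h2
    · exact absurd ⟨n, h2⟩ h1
    · have e : (x⁻¹ * t ^ n)⁻¹ = x * (t ^ n)⁻¹ := by
        rw [mul_inv, inv_inv]
      rwa [e] at h2
  have hne : O' ≠ ⊤ := by
    intro htop
    apply h t ht
    intro S' hS'
    obtain ⟨s, hs, h1⟩ := scale hN hOb hS'
    have h2 : s⁻¹ ∈ O' := by
      rw [htop]
      exact ValuationSubring.mem_top _
    obtain ⟨n, hn⟩ := h2
    rw [mem_map]
    refine mem_atTop_sets.mpr ⟨n, fun b hb => ?_⟩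
    change t ^ b ∈ S'
    have h3 : s⁻¹ * t ^ b ∈ O := by
      have e : s⁻¹ * t ^ b = (s⁻¹ * t ^ n) * t ^ (b - n) := by
        rw [mul_assoc, ← pow_add]
        congr 2
        omega
      rw [e]
      exact O.mul_mem _ _ hn (pow_mem htO _)
    have h4 := h1 _ h3
    rwa [mul_inv_cancel_left₀ hs] at h4
  obtain ⟨s, hs, hsi⟩ : ∃ s : K, s ≠ 0 ∧ s⁻¹ ∉ O' := by
    by_contra hcon
    push Not at hcon
    apply hne
    apply ValuationSubring.ext
    intro x
    refine ⟨fun _ => ValuationSubring.mem_top x, fun _ => ?_⟩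
    by_cases hx : x = 0
    · rw [hx]; exact O'.zero_mem
    · have := hcon x⁻¹ (inv_ne_zero hx)
      rwa [inv_inv] at this
  have hsv : O'.valuation s < 1 := by
    rw [← ValuationSubring.mem_nonunits_iff, ValuationSubring.mem_nonunits_iff_or]
    exact Or.inr hsi
  have hsub : ∀ y ∈ O', s * y ∈ O := by
    rintro y ⟨n, hn⟩
    have h1 := O.mul_mem _ _ (hnon s hs hsi n) hn
    have e : s * (t ^ n)⁻¹ * (y * t ^ n) = s * y := by
      have : t ^ n ≠ 0 := pow_ne_zero n ht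
      field_simp
    rwa [e] at h1
  have hO'b : Bdd N (O' : Set K) := by
    refine (hOb.smul hN s⁻¹).mono ?_
    intro y hy
    exact ⟨s * y, hsub y hy, by rw [inv_mul_cancel_left₀ hs]⟩
  refine ⟨O', hne, ?_, ?_⟩
  · refine ⟨fun S' => ⟨fun hS' => ?_, ?_⟩⟩
    · obtain ⟨t', ht', h1⟩ := scale hN hO'b hS'
      refine ⟨t', ht', ?_⟩
      intro x hx
      change O'.valuation x < O'.valuation t' at hx
      have h2 : t'⁻¹ * x ∈ O' := by
        rw [← ValuationSubring.valuation_le_one_iff, map_mul, map_inv₀]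
        have h0 : O'.valuation t' ≠ 0 := by
          rwa [Ne, map_eq_zero]
        have := mul_le_mul_right (le_of_lt hx) (O'.valuation t')⁻¹
        rwa [inv_mul_cancel₀ h0] at this
      have h3 := h1 _ h2
      rwa [mul_inv_cancel_left₀ ht'] at h3
    · rintro ⟨t', ht', h1⟩
      refine mem_of_superset (hN.smul_mem (t' * s)⁻¹ _ hON) ?_
      intro x hx
      apply h1
      change O'.valuation x < O'.valuation t'
      have h2 : (t' * s)⁻¹ * x ∈ O := hx
      have h3 : O'.valuation ((t' * s)⁻¹ * x) ≤ 1 :=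
        (O'.valuation_le_one_iff _).mpr (le_coarse htO h2)
      have e : x = t' * s * ((t' * s)⁻¹ * x) := by
        rw [mul_inv_cancel_left₀ (mul_ne_zero ht' hs)]
      have h0 : 0 < O'.valuation t' := by
        rw [zero_lt_iff, Ne, map_eq_zero]
        exact ht'
      rw [e, map_mul, map_mul]
      calc O'.valuation t' * O'.valuation s * O'.valuation ((t' * s)⁻¹ * x)
          ≤ O'.valuation t' * O'.valuation s * 1 := mul_le_mul_right h3 _
        _ = O'.valuation t' * O'.valuation s := mul_one _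
        _ < O'.valuation t' * 1 := (mul_lt_mul_iff_right₀ h0).mpr hsv
        _ = O'.valuation t' := mul_one _
  · intro x hx
    rw [← ValuationSubring.mem_nonunits_iff, ValuationSubring.mem_nonunits_iff_or] at hx
    rcases hx with hx | hx
    · rw [hx]
      exact hN.zero_mem S hS
    · have hx0 : x ≠ 0 := by
        rintro rfl
        apply hx
        rw [inv_zero]
        exact O'.zero_mem
      have h1 := htS _ (hnon x hx0 hx 1)
      have e : t * (x * (t ^ 1)⁻¹) = x := by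
        field_simp
      rwa [e] at h1

end Pool.Agent.Lib.MP_defcf3_al.FR
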