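import Pool.Agent.Lib.MP_defcf3_al.FR.Defs

/-!
MP_defcf3_al, project FR: the row WIL (backup version, helper57), in the language of a
nonarchimedean absolute value.
-/

set_option autoImplicit false

namespace Pool.Agent.Lib.MP_defcf3_al.FR.WL

open Filter Polynomial

universe u

/-! ### Symbols on elements -/

section Sym

variable {p : ℕ} {L : Type u} [Field L]

/-- The symbol as a function of elements, zero when an argument is zero. -/
noncomputable def B (b : Lˣ → Lˣ → ZMod p) (x y : L) : ZMod p := by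
  classical
  exact if h : x ≠ 0 ∧ y ≠ 0 then b (Units.mk0 x h.1) (Units.mk0 y h.2) else 0

lemma B_units (b : Lˣ → Lˣ → ZMod p) (x y : Lˣ) : B b (x : L) (y : L) = b x y := by
  unfold B
  rw [dif_pos ⟨x.ne_zero, y.ne_zero⟩]
  simp

lemma B_zero_left (b : Lˣ → Lˣ → ZMod p) (y : L) : B b 0 y = 0 := by
  unfold B
  rw [dif_neg (by simp)]

lemma B_zero_right (b : Lˣ → Lˣ → ZMod p) (x : L) : B b x 0 = 0 := by
  unfold B
  rw [dif_neg (by simp)]

variable {b : Lˣ → Lˣ → ZMod p}

lemma B_mul_left (hb : b ∈ Sym p L) {x x' : L} (hx : x ≠ 0) (hx' : x' ≠ 0) (y : L) :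
    B b (x * x') y = B b x y + B b x' y := by
  by_cases hy : y = 0
  · subst hy; simp [B_zero_right]
  · have h := hb.1 (Units.mk0 x hx) (Units.mk0 x' hx') (Units.mk0 y hy)
    rw [← B_units b, ← B_units b, ← B_units b] at h
    simpa using h

lemma B_mul_right (hb : b ∈ Sym p L) {y y' : L} (hy : y ≠ 0) (hy' : y' ≠ 0) (x : L) :
    B b x (y * y') = B b x y + B b x y' := by
  by_cases hx : x = 0
  · subst hx; simp [B_zero_left]
  · have h := hb.2.1 (Units.mk0 x hx) (Units.mk0 y hy) (Units.mk0 y' hy')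
    rw [← B_units b, ← B_units b, ← B_units b] at h
    simpa using h

lemma B_st (hb : b ∈ Sym p L) {x y : L} (h : x + y = 1) : B b x y = 0 := by
  by_cases hx : x = 0
  · subst hx; exact B_zero_left _ _
  by_cases hy : y = 0
  · subst hy; exact B_zero_right _ _
  have := hb.2.2 (Units.mk0 x hx) (Units.mk0 y hy) (by simpa using h)
  rw [← B_units b] at this
  simpa using this

lemma B_one_left (hb : b ∈ Sym p L) (y : L) : B b 1 y = 0 := by
  have h := B_mul_left hb (one_ne_zero (α := L)) (one_ne_zero (α := L)) y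
  rw [mul_one] at h
  simpa using h

lemma B_one_right (hb : b ∈ Sym p L) (x : L) : B b x 1 = 0 := by
  have h := B_mul_right hb (one_ne_zero (α := L)) (one_ne_zero (α := L)) x
  rw [mul_one] at h
  simpa using h

lemma B_inv_left (hb : b ∈ Sym p L) {x : L} (hx : x ≠ 0) (y : L) :
    B b x⁻¹ y = - B b x y := by
  have h := B_mul_left hb hx (inv_ne_zero hx) y
  rw [mul_inv_cancel₀ hx, B_one_left hb] at h
  linear_combination -h

lemma B_inv_right (hb : b ∈ Sym p L) {y : L} (hy : y ≠ 0) (x : L) :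
    B b x y⁻¹ = - B b x y := by
  have h := B_mul_right hb hy (inv_ne_zero hy) x
  rw [mul_inv_cancel₀ hy, B_one_right hb] at h
  linear_combination -h

lemma B_neg_self (hb : b ∈ Sym p L) (x : L) : B b x (-x) = 0 := by
  by_cases hx : x = 0
  · subst hx; exact B_zero_left _ _
  by_cases hx1 : x = 1
  · subst hx1; exact B_one_left hb _
  have h1 : (1 : L) - x ≠ 0 := sub_ne_zero.2 (Ne.symm hx1)
  have h2 : (1 : L) - x⁻¹ ≠ 0 := by
    intro h
    have : x⁻¹ = 1 := (sub_eq_zero.1 h).symm
    exact hx1 (inv_eq_one.1 this)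
  have h3 : -x = (1 - x) * (1 - x⁻¹)⁻¹ := by
    rw [eq_mul_inv_iff_mul_eq₀ h2]
    field_simp
    ring
  rw [h3, B_mul_right hb h1 (inv_ne_zero h2), B_inv_right hb h2, B_st hb (by ring), zero_add,
    ← B_inv_left hb hx, B_st hb (by ring)]

lemma B_swap (hb : b ∈ Sym p L) (x y : L) : B b x y = - B b y x := by
  by_cases hx : x = 0
  · subst hx; simp [B_zero_left, B_zero_right]
  by_cases hy : y = 0
  · subst hy; simp [B_zero_left, B_zero_right]
  have h := B_neg_self hb (x * y)
  rw [B_mul_left hb hx hy] at h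
  have e1 : -(x * y) = (-x) * y := by ring
  have e2 : -(x * y) = x * (-y) := by ring
  have h1 : B b x (-(x * y)) = B b x y := by
    rw [e1, B_mul_right hb (neg_ne_zero.2 hx) hy, B_neg_self hb, zero_add]
  have h2 : B b y (-(x * y)) = B b y x := by
    rw [e2, B_mul_right hb hx (neg_ne_zero.2 hy), B_neg_self hb, add_zero]
  rw [h1, h2] at h
  linear_combination h

lemma B_pow_right (hb : b ∈ Sym p L) {y : L} (hy : y ≠ 0) (x : L) (e : ℕ) :
    B b x (y ^ e) = e * B b x y := by
  induction e with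
  | zero => simp [B_one_right hb]
  | succ e ih =>
    rw [pow_succ, B_mul_right hb (pow_ne_zero _ hy) hy, ih]
    push_cast
    ring

lemma B_neg_one_right [Fact p.Prime] (hodd : Odd p) (hb : b ∈ Sym p L) (x : L) :
    B b x (-1) = 0 := by
  have h := B_pow_right hb (neg_ne_zero.2 (one_ne_zero (α := L))) x p
  rw [hodd.neg_one_pow] at h
  rw [h]
  simp

/-- `B (1+yw) w = - B (1+yw) y`. -/
lemma B_flip [Fact p.Prime] (hodd : Odd p) (hb : b ∈ Sym p L) {y w : L} (hy : y ≠ 0)
    (hw : w ≠ 0) : B b (1 + y * w) w = - B b (1 + y * w) y := by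
  have h : B b (1 + y * w) (-(y * w)) = 0 := B_st hb (by ring)
  have e : -(y * w) = (-1) * (y * w) := by ring
  rw [e, B_mul_right hb (neg_ne_zero.2 one_ne_zero) (mul_ne_zero hy hw),
    B_neg_one_right hodd hb, B_mul_right hb hy hw] at h
  linear_combination h

end Sym

/-! ### Absolute values -/

section Abs

variable {L : Type u} [Field L] (nm : AbsoluteValue L ℝ)
  (hu : ∀ x y, nm (x + y) ≤ max (nm x) (nm y))

include hu

lemma nm_sum_lt {ι : Type*} (s : Finset ι) (f : ι → L) {C : ℝ} (hC : 0 < C)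
    (h : ∀ i ∈ s, nm (f i) < C) : nm (∑ i ∈ s, f i) < C := by
  classical
  induction s using Finset.induction_on with
  | empty => simpa using hC
  | insert a s ha ih =>
    rw [Finset.sum_insert ha]
    refine lt_of_le_of_lt (hu _ _) (max_lt (h a (Finset.mem_insert_self _ _)) (ih ?_))
    intro i hi
    exact h i (Finset.mem_insert_of_mem hi)

lemma nm_sum_le {ι : Type*} (s : Finset ι) (f : ι → L) {C : ℝ} (hC : 0 ≤ C)
    (h : ∀ i ∈ s, nm (f i) ≤ C) : nm (∑ i ∈ s, f i) ≤ C := by
  classical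
  induction s using Finset.induction_on with
  | empty => simpa using hC
  | insert a s ha ih =>
    rw [Finset.sum_insert ha]
    refine le_trans (hu _ _) (max_le (h a (Finset.mem_insert_self _ _)) (ih ?_))
    intro i hi
    exact h i (Finset.mem_insert_of_mem hi)

lemma nm_eval_lt (f : L[X]) {w : L} (hw : nm w ≤ 1) {C : ℝ} (hC : 0 < C)
    (h : ∀ i, nm (f.coeff i) < C) : nm (f.eval w) < C := by
  rw [Polynomial.eval_eq_sum_range]
  refine nm_sum_lt nm hu _ _ hC ?_
  intro i _
  rw [map_mul, map_pow]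
  have h1 : nm w ^ i ≤ 1 := pow_le_one₀ (nm.nonneg _) hw
  calc nm (f.coeff i) * nm w ^ i ≤ nm (f.coeff i) * 1 :=
        mul_le_mul_of_nonneg_left h1 (nm.nonneg _)
    _ < C := by rw [mul_one]; exact h i

lemma nm_eval_le (f : L[X]) {w : L} (hw : nm w ≤ 1)
    (h : ∀ i, nm (f.coeff i) ≤ 1) : nm (f.eval w) ≤ 1 := by
  rw [Polynomial.eval_eq_sum_range]
  refine nm_sum_le nm hu _ _ zero_le_one ?_
  intro i _
  rw [map_mul, map_pow]
  have h1 : nm w ^ i ≤ 1 := pow_le_one₀ (nm.nonneg _) hw
  calc nm (f.coeff i) * nm w ^ i ≤ nm (f.coeff i) * 1 :=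
        mul_le_mul_of_nonneg_left h1 (nm.nonneg _)
    _ ≤ 1 := by rw [mul_one]; exact h i

lemma nm_nat_le (n : ℕ) : nm (n : L) ≤ 1 := by
  induction n with
  | zero => simp
  | succ n ih =>
    push_cast
    exact (hu _ _).trans (max_le ih (by simp))

lemma nm_int_le (n : ℤ) : nm (n : L) ≤ 1 := by
  obtain ⟨m, rfl | rfl⟩ := n.eq_nat_or_neg
  · simpa using nm_nat_le nm hu m
  · simpa using nm_nat_le nm hu m

lemma nm_nat_eq {p : ℕ} (hp : p.Prime) (hnp : nm (p : L) < 1) {n : ℕ} (h0 : 0 < n)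
    (hn : n < p) : nm (n : L) = 1 := by
  have hc : IsCoprime (n : ℤ) (p : ℤ) := by
    rw [Nat.isCoprime_iff_coprime]
    exact ((Nat.Prime.coprime_iff_not_dvd hp).2 (fun h => absurd (Nat.le_of_dvd h0 h) (by omega))).symm
  obtain ⟨s, t, hst⟩ := hc
  have h1 : (s : L) * n + t * p = 1 := by exact_mod_cast congrArg (Int.cast : ℤ → L) hst
  refine le_antisymm (nm_nat_le nm hu n) ?_
  by_contra hlt
  push Not at hlt
  have h2 : nm ((s : L) * n + t * p) < 1 := by
    refine lt_of_le_of_lt (hu _ _) (max_lt ?_ ?_)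
    · rw [map_mul]
      calc nm (s : L) * nm (n : L) ≤ 1 * nm (n : L) :=
            mul_le_mul_of_nonneg_right (nm_int_le nm hu s) (nm.nonneg _)
        _ < 1 := by rw [one_mul]; exact hlt
    · rw [map_mul]
      calc nm (t : L) * nm (p : L) ≤ 1 * nm (p : L) :=
            mul_le_mul_of_nonneg_right (nm_int_le nm hu t) (nm.nonneg _)
        _ < 1 := by rw [one_mul]; exact hnp
  rw [h1, map_one] at h2
  exact lt_irrefl _ h2

lemma nm_one_add {z : L} (hz : nm z < 1) : nm (1 + z) = 1 := by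
  apply le_antisymm
  · exact (hu _ _).trans (max_le (by simp) hz.le)
  · by_contra h
    push Not at h
    have h1 : nm ((1 + z) + (-z)) < 1 := by
      refine lt_of_le_of_lt (hu _ _) (max_lt h ?_)
      rw [AbsoluteValue.map_neg]
      exact hz
    rw [add_neg_cancel_right, map_one] at h1
    exact lt_irrefl _ h1

lemma one_add_ne {z : L} (hz : nm z < 1) : 1 + z ≠ 0 := by
  intro h
  have := nm_one_add nm hu hz
  rw [h, map_zero] at this
  exact zero_ne_one this

/-- Step (1): a power `x ^ e`, `1 ≤ e < p`, has the absolute value of an element of `k`. -/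
lemma exists_pow (k : Subfield L) [FiniteDimensional k L] {p : ℕ}
    (hd : Module.finrank k L < p) {x : L} (hx : x ≠ 0) :
    ∃ e : ℕ, 0 < e ∧ e < p ∧ ∃ a ∈ k, a ≠ 0 ∧ nm (x ^ e) = nm a := by
  set f := minpoly k x with hf
  have hint : IsIntegral k x := Algebra.IsIntegral.isIntegral x
  have hmon : f.Monic := minpoly.monic hint
  have hdeg : f.natDegree ≤ Module.finrank k L := minpoly.natDegree_le x
  have h0 : aeval x f = 0 := minpoly.aeval k x
  rw [aeval_eq_sum_range] at h0
  set n := f.natDegree with hn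
  set T : ℕ → L := fun i => f.coeff i • x ^ i with hT
  obtain ⟨i0, hi0, hmax⟩ := Finset.exists_max_image (Finset.range (n + 1)) (fun i => nm (T i))
    ⟨n, by simp⟩
  have hTn : nm (T n) = nm x ^ n := by
    simp only [hT]
    rw [hn, Polynomial.coeff_natDegree, hmon.leadingCoeff, one_smul, map_pow]
  have hpos : 0 < nm (T i0) := by
    refine lt_of_lt_of_le ?_ (hmax n (by simp))
    rw [hTn]
    exact pow_pos (nm.pos hx) _
  have hex : ∃ i ∈ Finset.range (n + 1), i ≠ i0 ∧ nm (T i) = nm (T i0) := by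
    by_contra hcon
    push Not at hcon
    have h1 : nm (∑ i ∈ (Finset.range (n + 1)).erase i0, T i) < nm (T i0) := by
      refine nm_sum_lt nm hu _ _ hpos ?_
      intro i hi
      rw [Finset.mem_erase] at hi
      exact lt_of_le_of_ne (hmax i hi.2) (hcon i hi.2 hi.1)
    have h2 := Finset.add_sum_erase (Finset.range (n + 1)) T hi0
    rw [h0] at h2
    have h3 : ∑ i ∈ (Finset.range (n + 1)).erase i0, T i = - T i0 := by
      linear_combination h2
    rw [h3, AbsoluteValue.map_neg] at h1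
    exact lt_irrefl _ h1
  obtain ⟨i1, hi1, hne, heq⟩ := hex
  -- two indices i < j with the same positive absolute value
  have key : ∀ i j : ℕ, i < j → j < n + 1 → nm (T i) = nm (T j) → 0 < nm (T j) →
      ∃ e : ℕ, 0 < e ∧ e < p ∧ ∃ a ∈ k, a ≠ 0 ∧ nm (x ^ e) = nm a := by
    intro i j hij hj hE hp
    have hTi : T i = (f.coeff i : L) * x ^ i := rfl
    have hTj : T j = (f.coeff j : L) * x ^ j := rfl
    have hi0 : (f.coeff i : L) ≠ 0 := by
      intro h
      rw [hTi, h, zero_mul, map_zero] at hE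
      rw [← hE] at hp
      exact lt_irrefl _ hp
    have hj0 : (f.coeff j : L) ≠ 0 := by
      intro h
      rw [hTj, h, zero_mul, map_zero] at hp
      exact lt_irrefl _ hp
    refine ⟨j - i, by omega, by omega, (f.coeff i : L) / (f.coeff j : L),
      k.div_mem (f.coeff i).2 (f.coeff j).2, div_ne_zero hi0 hj0, ?_⟩
    rw [hTi, hTj, map_mul, map_mul, map_pow, map_pow] at hE
    rw [map_div₀, map_pow, eq_div_iff (by simpa using hj0)]
    have hxi : nm x ^ i ≠ 0 := pow_ne_zero _ (by simpa using hx)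
    have hsplit : nm x ^ j = nm x ^ (j - i) * nm x ^ i := by
      rw [← pow_add]
      congr 1
      omega
    rw [hsplit] at hE
    have : (nm (f.coeff i : L)) * nm x ^ i = (nm x ^ (j - i) * nm (f.coeff j : L)) * nm x ^ i := by
      rw [hE]; ring
    exact (mul_right_cancel₀ hxi this).symm
  rw [Finset.mem_range] at hi0 hi1
  rcases lt_or_gt_of_ne hne with h | h
  · exact key i1 i0 h hi0 heq hpos
  · exact key i0 i1 h hi1 heq.symm (heq ▸ hpos)

/-- Step (3): a unit `w` is a simple approximate root of a polynomial over `k`. -/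
lemma exists_poly (k : Subfield L) [FiniteDimensional k L] {p : ℕ} (hp : p.Prime)
    (hnp : nm (p : L) < 1) (hd : Module.finrank k L < p) {w : L} (hw : nm w = 1) :
    ∃ f : L[X], (∀ i, f.coeff i ∈ k ∧ nm (f.coeff i) ≤ 1) ∧ nm (f.eval w) < 1 ∧
      nm ((derivative f).eval w) = 1 := by
  classical
  have hw0 : w ≠ 0 := by
    rintro rfl
    rw [map_zero] at hw
    exact zero_ne_one hw
  let P : ℕ → Prop := fun n => n < p ∧ ∃ f : L[X], (∀ i, f.coeff i ∈ k ∧ nm (f.coeff i) ≤ 1) ∧
    nm (f.coeff n) = 1 ∧ (∀ i, n < i → nm (f.coeff i) < 1) ∧ nm (f.eval w) < 1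
  have hex : ∃ n, P n := by
    set g := minpoly k w with hg
    have hint : IsIntegral k w := Algebra.IsIntegral.isIntegral w
    have hmon : g.Monic := minpoly.monic hint
    have hdeg : g.natDegree ≤ Module.finrank k L := minpoly.natDegree_le w
    have h0 : aeval w g = 0 := minpoly.aeval k w
    obtain ⟨m, hm, hmax⟩ := Finset.exists_max_image (Finset.range (g.natDegree + 1))
      (fun i => nm (g.coeff i : L)) ⟨g.natDegree, by simp⟩
    have hmpos : 0 < nm (g.coeff m : L) := by
      refine lt_of_lt_of_le ?_ (hmax g.natDegree (by simp))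
      rw [Polynomial.coeff_natDegree, hmon.leadingCoeff]
      simp
    have hm0 : (g.coeff m : L) ≠ 0 := by
      intro h
      rw [h, map_zero] at hmpos
      exact lt_irrefl _ hmpos
    have hall : ∀ i, nm (g.coeff i : L) ≤ nm (g.coeff m : L) := by
      intro i
      by_cases hi : i < g.natDegree + 1
      · exact hmax i (Finset.mem_range.2 hi)
      · have : g.coeff i = 0 := Polynomial.coeff_eq_zero_of_natDegree_lt (by omega)
        rw [this]
        simpa using hmpos.le
    set f : L[X] := C ((g.coeff m : L)⁻¹) * g.map (algebraMap k L) with hf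
    have hfc : ∀ i, f.coeff i = (g.coeff m : L)⁻¹ * (g.coeff i : L) := by
      intro i
      rw [hf, Polynomial.coeff_C_mul, Polynomial.coeff_map]
      rfl
    have hf0 : f.eval w = 0 := by
      rw [hf, Polynomial.eval_mul, Polynomial.eval_map, ← Polynomial.aeval_def, h0, mul_zero]
    have hfk : ∀ i, f.coeff i ∈ k ∧ nm (f.coeff i) ≤ 1 := by
      intro i
      rw [hfc i]
      refine ⟨k.mul_mem (k.inv_mem (g.coeff m).2) (g.coeff i).2, ?_⟩
      rw [map_mul, map_inv₀]
      rw [inv_mul_le_iff₀ hmpos, mul_one]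
      exact hall i
    have hfm : nm (f.coeff m) = 1 := by
      rw [hfc m, inv_mul_cancel₀ hm0, map_one]
    set S := (Finset.range (g.natDegree + 1)).filter (fun i => nm (f.coeff i) = 1) with hS
    have hSne : S.Nonempty := ⟨m, by rw [hS, Finset.mem_filter]; exact ⟨hm, hfm⟩⟩
    have hmem := S.max'_mem hSne
    have hSiff : ∀ i, i ∈ S ↔ i < g.natDegree + 1 ∧ nm (f.coeff i) = 1 := by
      intro i
      rw [hS, Finset.mem_filter, Finset.mem_range]
    have hmem' := (hSiff _).1 hmem
    refine ⟨S.max' hSne, by omega, f, hfk, hmem'.2, ?_, by rw [hf0, map_zero]; exact one_pos⟩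
    intro i hi
    refine lt_of_le_of_ne (hfk i).2 ?_
    intro h
    by_cases hi' : i < g.natDegree + 1
    · have hiS : i ∈ S := (hSiff i).2 ⟨hi', h⟩
      exact absurd (S.le_max' i hiS) (not_le.2 hi)
    · have hgi : g.coeff i = 0 := Polynomial.coeff_eq_zero_of_natDegree_lt (by omega)
      rw [hfc i, hgi] at h
      simp at h
  obtain ⟨hnp', f, hfk, hfn, hfi, hfw⟩ := Nat.find_spec hex
  have hmin : ∀ m, m < Nat.find hex → ¬ P m := fun m hm => Nat.find_min hex hm
  generalize Nat.find hex = n at hnp' hfn hfi hmin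
  have hn0 : n ≠ 0 := by
    rintro rfl
    have h1 : nm ((f - C (f.coeff 0)).eval w) < 1 := by
      refine nm_eval_lt nm hu _ hw.le one_pos ?_
      intro i
      rw [Polynomial.coeff_sub, Polynomial.coeff_C]
      by_cases hi : i = 0
      · subst hi; simp
      · rw [if_neg hi, sub_zero]
        exact hfi i (by omega)
    rw [Polynomial.eval_sub, Polynomial.eval_C] at h1
    have h2 : nm (f.coeff 0) < 1 := by
      have e : f.coeff 0 = f.eval w + -(f.eval w - f.coeff 0) := by ring
      rw [e]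
      refine lt_of_le_of_lt (hu _ _) (max_lt hfw ?_)
      rw [AbsoluteValue.map_neg]
      exact h1
    rw [hfn] at h2
    exact lt_irrefl _ h2
  refine ⟨f, hfk, hfw, ?_⟩
  have hdk : ∀ i, (derivative f).coeff i ∈ k ∧ nm ((derivative f).coeff i) ≤ 1 := by
    intro i
    rw [Polynomial.coeff_derivative]
    have hnat : ((i : L) + 1) = ((i + 1 : ℕ) : L) := by push_cast; ring
    rw [hnat]
    refine ⟨k.mul_mem (hfk _).1 (natCast_mem k _), ?_⟩
    rw [map_mul]
    exact mul_le_one₀ (hfk _).2 (nm.nonneg _) (nm_nat_le nm hu _)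
  refine le_antisymm (nm_eval_le nm hu _ hw.le fun i => (hdk i).2) ?_
  by_contra hlt
  push Not at hlt
  refine hmin (n - 1) (by omega) ⟨by omega, derivative f, hdk, ?_, ?_, hlt⟩
  · rw [Polynomial.coeff_derivative]
    have hnat : (((n - 1 : ℕ) : L) + 1) = (n : L) := by
      rw [← Nat.cast_succ]
      congr 1
      omega
    rw [hnat, map_mul, Nat.sub_add_cancel (by omega), hfn, one_mul]
    exact nm_nat_eq nm hu hp hnp (by omega) hnp'
  · intro i hi
    rw [Polynomial.coeff_derivative]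
    have hnat : ((i : L) + 1) = ((i + 1 : ℕ) : L) := by push_cast; ring
    rw [hnat, map_mul]
    calc nm (f.coeff (i + 1)) * nm ((i + 1 : ℕ) : L) ≤ nm (f.coeff (i + 1)) * 1 :=
          mul_le_mul_of_nonneg_left (nm_nat_le nm hu _) (nm.nonneg _)
      _ < 1 := by rw [mul_one]; exact hfi _ (by omega)

lemma deriv_le (k : Subfield L) (f : L[X]) (hfk : ∀ i, f.coeff i ∈ k ∧ nm (f.coeff i) ≤ 1)
    {w : L} (hw : nm w ≤ 1) : nm ((derivative f).eval w) ≤ 1 := by
  refine nm_eval_le nm hu _ hw fun i => ?_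
  rw [Polynomial.coeff_derivative]
  have hnat : ((i : L) + 1) = ((i + 1 : ℕ) : L) := by push_cast; ring
  rw [hnat, map_mul]
  exact mul_le_one₀ (hfk _).2 (nm.nonneg _) (nm_nat_le nm hu _)

end Abs

/-! ### The derivation argument -/

section Main

variable {p : ℕ} [Fact p.Prime] {L : Type u} [Field L] (nm : AbsoluteValue L ℝ)
  (hu : ∀ x y, nm (x + y) ≤ max (nm x) (nm y))
  {b : Lˣ → Lˣ → ZMod p} (hb : b ∈ Sym p L) (hodd : Odd p) {r : ℝ} (hr0 : 0 < r) (hr1 : r < 1)
  (hr : ∀ z : L, nm z < r → ∀ y, B b (1 + z) y = 0)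

include hr1 in
omit [Fact p.Prime] in
lemma lt_one_of_sq {y : L} (hy : nm y ^ 2 < r) : nm y < 1 := by
  by_contra h
  push Not at h
  have : (1 : ℝ) ≤ nm y ^ 2 := one_le_pow₀ h
  linarith

lemma mul_lt_of_sq {y y' : L} (hy : nm y ^ 2 < r) (hy' : nm y' ^ 2 < r) :
    nm y * nm y' < r := by
  have h1 := nm.nonneg y
  have h2 := nm.nonneg y'
  nlinarith [sq_nonneg (nm y - nm y')]

include hu in
lemma sq_add {y y' : L} (hy : nm y ^ 2 < r) (hy' : nm y' ^ 2 < r) :
    nm (y + y') ^ 2 < r := by
  have h0 := nm.nonneg (y + y')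
  rcases le_max_iff.1 (hu y y') with h | h
  · exact lt_of_le_of_lt (pow_le_pow_left₀ h0 h 2) hy
  · exact lt_of_le_of_lt (pow_le_pow_left₀ h0 h 2) hy'

lemma sq_mul {y w : L} (hy : nm y ^ 2 < r) (hw : nm w ≤ 1) : nm (y * w) ^ 2 < r := by
  refine lt_of_le_of_lt (pow_le_pow_left₀ (nm.nonneg _) ?_ 2) hy
  rw [map_mul]
  exact mul_le_of_le_one_right (nm.nonneg _) hw

include hu hb hr1 hr in
/-- If `A A' = A'' + e` with `A''` of absolute value one and `e` small, the symbol does not
see `e`. -/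
lemma prod_small {s t : L} (hs : nm s ^ 2 < r) (ht : nm t ^ 2 < r) (y : L) :
    B b (1 + (s + t)) y = B b (1 + s) y + B b (1 + t) y := by
  have hs1 := lt_one_of_sq nm hr1 hs
  have ht1 := lt_one_of_sq nm hr1 ht
  have hst1 := lt_one_of_sq nm hr1 (sq_add nm hu hs ht)
  have n1 := one_add_ne nm hu hs1
  have n2 := one_add_ne nm hu ht1
  have n3 := one_add_ne nm hu hst1
  have he : nm (s * t / (1 + (s + t))) < r := by
    rw [map_div₀, nm_one_add nm hu hst1, div_one, map_mul]
    exact mul_lt_of_sq nm hs ht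
  have n4 := one_add_ne nm hu (he.trans hr1)
  have hmul : (1 + s) * (1 + t) = (1 + (s + t)) * (1 + s * t / (1 + (s + t))) := by
    field_simp
    ring
  have h := B_mul_left hb n1 n2 y
  rw [hmul, B_mul_left hb n3 n4, hr _ he, add_zero] at h
  exact h

include hu hb hr1 hr in
lemma dadd_left {y y' w : L} (hy : nm y ^ 2 < r) (hy' : nm y' ^ 2 < r) (hw : nm w ≤ 1) :
    B b (1 + (y + y') * w) w = B b (1 + y * w) w + B b (1 + y' * w) w := by
  rw [add_mul]
  exact prod_small nm hu hb hr1 hr (sq_mul nm hy hw) (sq_mul nm hy' hw) w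

include hodd hu hb hr1 hr in
lemma dadd_right {y w w' : L} (hy : nm y ^ 2 < r) (hw : nm w ≤ 1) (hw' : nm w' ≤ 1) :
    B b (1 + y * (w + w')) (w + w') = B b (1 + y * w) w + B b (1 + y * w') w' := by
  by_cases hy0 : y = 0
  · subst hy0
    simp [B_one_left hb]
  have key : ∀ v : L, B b (1 + y * v) v = - B b (1 + y * v) y := by
    intro v
    by_cases hv : v = 0
    · subst hv
      simp [B_one_left hb, B_zero_right]
    · exact B_flip hodd hb hy0 hv
  rw [key, key, key, mul_add,
    prod_small nm hu hb hr1 hr (sq_mul nm hy hw) (sq_mul nm hy hw') y]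
  ring

include hb in
lemma dleib (y w w' : L) :
    B b (1 + y * (w * w')) (w * w') = B b (1 + (y * w) * w') w' + B b (1 + (y * w') * w) w := by
  by_cases hw : w = 0
  · subst hw
    simp [B_zero_right, B_one_left hb]
  by_cases hw' : w' = 0
  · subst hw'
    simp [B_zero_right, B_one_left hb]
  rw [B_mul_right hb hw hw']
  have e1 : 1 + y * w * w' = 1 + y * (w * w') := by ring
  have e2 : 1 + y * w' * w = 1 + y * (w * w') := by ring
  rw [e1, e2, add_comm]

include hodd hu hb hr1 hr in
lemma dpoly (k : Subfield L) (hk : ∀ a ∈ k, ∀ x, B b x a = 0) {w : L} (hw : nm w ≤ 1)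
    (f : L[X]) : (∀ i, f.coeff i ∈ k ∧ nm (f.coeff i) ≤ 1) → ∀ y, nm y ^ 2 < r →
    B b (1 + y * f.eval w) (f.eval w) = B b (1 + (y * (derivative f).eval w) * w) w := by
  induction f using Polynomial.recOnHorner with
  | M0 =>
    intro _ y _
    simp [B_zero_right, B_one_left hb]
  | MC f a hf0 ha ih =>
    intro hfk y hy
    have hak : a ∈ k ∧ nm a ≤ 1 := by
      have := hfk 0
      rw [Polynomial.coeff_add, hf0, Polynomial.coeff_C_zero, zero_add] at this
      exact this
    have hfk' : ∀ i, f.coeff i ∈ k ∧ nm (f.coeff i) ≤ 1 := by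
      intro i
      by_cases hi : i = 0
      · subst hi
        rw [hf0]
        exact ⟨k.zero_mem, by simp⟩
      · have := hfk i
        rw [Polynomial.coeff_add, Polynomial.coeff_C, if_neg hi, add_zero] at this
        exact this
    have hev : (f + C a).eval w = f.eval w + a := by simp
    have hdv : (derivative (f + C a)).eval w = (derivative f).eval w := by simp
    rw [hev, hdv, dadd_right nm hu hb hodd hr1 hr hy (nm_eval_le nm hu _ hw fun i => (hfk' i).2)
      hak.2, ih hfk' y hy, hk a hak.1, add_zero]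
  | MX f hf ih =>
    intro hfk y hy
    have hfk' : ∀ i, f.coeff i ∈ k ∧ nm (f.coeff i) ≤ 1 := by
      intro i
      have := hfk (i + 1)
      rw [Polynomial.coeff_mul_X] at this
      exact this
    have hev : (f * X).eval w = f.eval w * w := by simp
    have hdv : (derivative (f * X)).eval w = (derivative f).eval w * w + f.eval w := by
      simp [Polynomial.derivative_mul]
    have h1 := nm_eval_le nm hu f hw fun i => (hfk' i).2
    have h2 := deriv_le nm hu k f hfk' hw
    rw [hev, hdv, dleib hb, ih hfk' (y * w) (sq_mul nm hy hw), mul_add,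
      dadd_left nm hu hb hr1 hr ?_ (sq_mul nm hy h1) hw, add_comm]
    · have e : y * ((derivative f).eval w * w) = y * w * (derivative f).eval w := by ring
      rw [e]
    · refine sq_mul nm hy ?_
      rw [map_mul]
      exact mul_le_one₀ h2 (nm.nonneg _) hw

include hodd hu hb hr1 hr in
lemma key (k : Subfield L) [FiniteDimensional k L] (hd : Module.finrank k L < p)
    (hnp : nm (p : L) < 1) (hk : ∀ a ∈ k, ∀ x, B b x a = 0) {w : L} (hw : nm w = 1) :
    ∃ c : L, nm c < 1 ∧ ∀ y, nm y ^ 2 < r → ∃ y', nm y' = nm y ∧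
      B b (1 + y * w) w = B b (1 + y' * c) c := by
  obtain ⟨f, hfk, hfw, hdf⟩ := exists_poly nm hu k Fact.out hnp hd hw
  refine ⟨f.eval w, hfw, fun y hy => ⟨y / (derivative f).eval w, ?_, ?_⟩⟩
  · rw [map_div₀, hdf, div_one]
  · have hne : (derivative f).eval w ≠ 0 := by
      intro h
      rw [h, map_zero] at hdf
      exact zero_ne_one hdf
    rw [dpoly nm hu hb hodd hr1 hr k hk hw.le f hfk _ ?_, div_mul_cancel₀ _ hne]
    rw [map_div₀, hdf, div_one]
    exact hy

include hodd hu hb hr0 hr1 hr in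
lemma step (k : Subfield L) [FiniteDimensional k L] (hd : Module.finrank k L < p)
    (hnp : nm (p : L) < 1) (hk : ∀ a ∈ k, ∀ x, B b x a = 0) [Finite (Lˣ ⧸ Rad b hb)] :
    ∃ r1 : ℝ, r < r1 ∧ r1 ≤ 1 ∧ ∀ z : L, nm z < r1 → ∀ y, B b (1 + z) y = 0 := by
  have hq : ∀ q : Lˣ ⧸ Rad b hb, ∃ rq : ℝ, r < rq ∧ rq ≤ 1 ∧ ∀ z : L, nm z < rq →
      ∀ w : Lˣ, nm (w : L) = 1 → (QuotientGroup.mk w : Lˣ ⧸ Rad b hb) = q →
      B b (1 + z) (w : L) = 0 := by
    intro q
    by_cases h : ∃ w0 : Lˣ, nm (w0 : L) = 1 ∧ (QuotientGroup.mk w0 : Lˣ ⧸ Rad b hb) = q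
    · obtain ⟨w0, hw0, hq0⟩ := h
      obtain ⟨c, hc, hcy⟩ := key nm hu hb hodd hr1 hr k hd hnp hk hw0
      have hs1 : r < Real.sqrt r := by
        rw [Real.lt_sqrt hr0.le]
        nlinarith
      have hs2 : Real.sqrt r ≤ 1 := by
        have h := Real.sqrt_le_sqrt hr1.le
        rwa [Real.sqrt_one] at h
      set m := max (nm c) (1 / 2) with hm
      have hm0 : 0 < m := lt_of_lt_of_le (by norm_num) (le_max_right _ _)
      have hm1 : m < 1 := max_lt hc (by norm_num)
      refine ⟨min (Real.sqrt r) (r / m), lt_min hs1 ?_, (min_le_left _ _).trans hs2, ?_⟩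
      · rw [lt_div_iff₀ hm0]
        nlinarith
      · intro z hz w hw hwq
        have hz1 : nm z < Real.sqrt r := lt_of_lt_of_le hz (min_le_left _ _)
        have hz2 : nm z < r / m := lt_of_lt_of_le hz (min_le_right _ _)
        have hy : nm (z / w0) ^ 2 < r := by
          rw [map_div₀, hw0, div_one]
          exact (Real.lt_sqrt (nm.nonneg _)).1 hz1
        obtain ⟨y', hy', hB⟩ := hcy _ hy
        rw [div_mul_cancel₀ _ w0.ne_zero] at hB
        have hzero : B b (1 + z) (w0 : L) = 0 := by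
          rw [hB]
          apply hr
          rw [map_mul, hy', map_div₀, hw0, div_one]
          rw [lt_div_iff₀ hm0] at hz2
          exact lt_of_le_of_lt (mul_le_mul_of_nonneg_left (le_max_left _ _) (nm.nonneg _)) hz2
        rw [← hq0, eq_comm, QuotientGroup.eq] at hwq
        have hwe : (w : L) = w0 * ((w0⁻¹ * w : Lˣ) : L) := by
          push_cast
          rw [← mul_assoc, mul_inv_cancel₀ w0.ne_zero, one_mul]
        rw [hwe, B_mul_right hb w0.ne_zero (Units.ne_zero _), hzero, zero_add, B_swap hb]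
        by_cases hz0 : 1 + z = 0
        · rw [hz0, B_zero_right, neg_zero]
        · have := hwq (Units.mk0 _ hz0)
          rw [← B_units b] at this
          rw [Units.val_mk0] at this
          rw [this, neg_zero]
    · refine ⟨1, hr1, le_rfl, ?_⟩
      intro z _ w hw hwq
      exact absurd ⟨w, hw, hwq⟩ h
  choose rq hrq hrq1 hz using hq
  obtain ⟨q0, hq0⟩ := Finite.exists_min rq
  refine ⟨rq q0, hrq q0, hrq1 q0, ?_⟩
  intro z hzz y
  have hunit : ∀ w : L, nm w = 1 → B b (1 + z) w = 0 := by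
    intro w hw
    have hw0 : w ≠ 0 := by
      rintro rfl
      rw [map_zero] at hw
      exact zero_ne_one hw
    exact hz (QuotientGroup.mk (Units.mk0 w hw0)) z (lt_of_lt_of_le hzz (hq0 _))
      (Units.mk0 w hw0) hw rfl
  by_cases hy : y = 0
  · subst hy; exact B_zero_right _ _
  obtain ⟨e, he0, hep, a, hak, ha0, hea⟩ := exists_pow nm hu k hd hy
  have hya : y ^ e = a * (y ^ e / a) := by field_simp
  have hw : nm (y ^ e / a) = 1 := by
    rw [map_div₀, hea, div_self]
    simpa using ha0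
  have h1 := B_pow_right hb hy (1 + z) e
  rw [hya, B_mul_right hb ha0 (div_ne_zero (pow_ne_zero _ hy) ha0), hk a hak, hunit _ hw,
    add_zero] at h1
  have he : ((e : ℕ) : ZMod p) ≠ 0 := by
    intro h
    rw [ZMod.natCast_eq_zero_iff] at h
    exact absurd (Nat.le_of_dvd he0 h) (by omega)
  rcases mul_eq_zero.1 h1.symm with h | h
  · exact absurd h he
  · exact h

include hodd hu hb in
/-- The rank one statement for absolute values. -/
theorem core (k : Subfield L) [FiniteDimensional k L] (hd : Module.finrank k L < p)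
    (hnp : nm (p : L) < 1) (hk : ∀ a ∈ k, ∀ x, B b x a = 0) [Finite (Lˣ ⧸ Rad b hb)]
    {ρ : ℝ} (hρ : 0 < ρ) (hρR : ∀ z : L, nm z < ρ → ∀ y, B b (1 + z) y = 0) :
    ∀ z : L, nm z < 1 → ∀ y, B b (1 + z) y = 0 := by
  set G : Set ℝ := {s | s ≤ 1 ∧ ∀ z : L, nm z < s → ∀ y, B b (1 + z) y = 0} with hG
  have hne : (min ρ 1) ∈ G := by
    refine ⟨min_le_right _ _, fun z hz y => hρR z (lt_of_lt_of_le hz (min_le_left _ _)) y⟩
  have hbd : BddAbove G := ⟨1, fun s hs => hs.1⟩
  have hsup1 : sSup G ≤ 1 := csSup_le ⟨_, hne⟩ fun s hs => hs.1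
  have hsup0 : 0 < sSup G := lt_of_lt_of_le (lt_min hρ one_pos) (le_csSup hbd hne)
  have hsupR : ∀ z : L, nm z < sSup G → ∀ y, B b (1 + z) y = 0 := by
    intro z hz y
    obtain ⟨s, hs, hzs⟩ := exists_lt_of_lt_csSup ⟨_, hne⟩ hz
    exact hs.2 z hzs y
  rcases hsup1.lt_or_eq with h | h
  · obtain ⟨r1, h1, h2, h3⟩ := step nm hu hb hodd hsup0 h hsupR k hd hnp hk
    exact absurd (le_csSup hbd (show r1 ∈ G from ⟨h2, h3⟩)) (not_le.2 h1)
  · rw [h] at hsupR
    exact hsupR

end Main

/-! ### From quasi-valuations to absolute values -/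

/-- The absolute value of an ultrametric quasi-valuation. -/
noncomputable def absOf {K : Type u} [Field K] {N : Filter K} (Q : QVal N)
    (hQ : ∀ x y : K, x ≠ 0 → y ≠ 0 → x + y ≠ 0 → min (Q.v x) (Q.v y) ≤ Q.v (x + y)) :
    {nm : AbsoluteValue K ℝ // (∀ x y, nm (x + y) ≤ max (nm x) (nm y)) ∧
      ∀ x, x ≠ 0 → nm x = Real.exp (- Q.v x)} := by
  classical
  let f : K → ℝ := fun x => if x = 0 then 0 else Real.exp (- Q.v x)
  have hf0 : f 0 = 0 := if_pos rfl
  have hf1 : ∀ x, x ≠ 0 → f x = Real.exp (- Q.v x) := fun x hx => if_neg hx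
  have hfn : ∀ x, 0 ≤ f x := by
    intro x
    by_cases hx : x = 0
    · rw [hx, hf0]
    · rw [hf1 x hx]
      exact (Real.exp_pos _).le
  have hfu : ∀ x y, f (x + y) ≤ max (f x) (f y) := by
    intro x y
    by_cases hx : x = 0
    · rw [hx, zero_add]
      exact le_max_right _ _
    by_cases hy : y = 0
    · rw [hy, add_zero]
      exact le_max_left _ _
    by_cases hxy : x + y = 0
    · rw [hxy, hf0]
      exact (hfn x).trans (le_max_left _ _)
    rw [hf1 _ hx, hf1 _ hy, hf1 _ hxy]
    have := hQ x y hx hy hxy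
    rcases min_le_iff.1 this with h | h
    · exact (Real.exp_le_exp.2 (by linarith)).trans (le_max_left _ _)
    · exact (Real.exp_le_exp.2 (by linarith)).trans (le_max_right _ _)
  refine ⟨{ toFun := f, map_mul' := ?_, nonneg' := hfn, eq_zero' := ?_, add_le' := ?_ }, hfu, hf1⟩
  · intro x y
    by_cases hx : x = 0
    · rw [hx, zero_mul, hf0, zero_mul]
    by_cases hy : y = 0
    · rw [hy, mul_zero, hf0, mul_zero]
    rw [hf1 _ hx, hf1 _ hy, hf1 _ (mul_ne_zero hx hy), Q.map_mul x y hx hy, ← Real.exp_add]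
    congr 1
    ring
  · intro x
    refine ⟨fun h => ?_, fun h => by rw [h, hf0]⟩
    by_contra hx
    rw [hf1 x hx] at h
    exact (Real.exp_pos _).ne' h
  · intro x y
    refine (hfu x y).trans (max_le ?_ ?_)
    · linarith [hfn y]
    · linarith [hfn x]

/-- The row WIL. -/
theorem wil : StWIL.{u} := by
  intro p hp hodd L _ k _ hd N hN Q hQ hQp b hb hfin hk hopen x hx y
  obtain ⟨nm, hu, hnm⟩ := absOf Q hQ
  have hnp : nm (p : L) < 1 := by
    by_cases h : (p : L) = 0
    · rw [h, map_zero]; exact one_pos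
    · rw [hnm _ h, Real.exp_lt_one_iff]
      linarith [hQp h]
  have hk' : ∀ a ∈ k, ∀ z, B b z a = 0 := by
    intro a ha z
    rw [B_swap hb]
    by_cases ha0 : a = 0
    · rw [ha0, B_zero_left, neg_zero]
    by_cases hz : z = 0
    · rw [hz, B_zero_right, neg_zero]
    have := hk (Units.mk0 a ha0) ha (Units.mk0 z hz)
    rw [← B_units b] at this
    rw [Units.val_mk0, Units.val_mk0] at this
    rw [this, neg_zero]
  obtain ⟨C, -, hC⟩ := Q.basis.mem_iff.1 hopen
  have hρR : ∀ z : L, nm z < Real.exp (-C) → ∀ y, B b (1 + z) y = 0 := by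
    intro z hz y
    by_cases h1 : 1 + z = 0
    · rw [h1, B_zero_left]
    by_cases hy : y = 0
    · rw [hy, B_zero_right]
    have hmem : z ∈ {x : L | x = 0 ∨ C < Q.v x} := by
      by_cases hz0 : z = 0
      · exact Or.inl hz0
      · right
        rw [hnm z hz0, Real.exp_lt_exp] at hz
        linarith
    have := hC hmem (Units.mk0 _ h1) rfl (Units.mk0 _ hy)
    rw [← B_units b] at this
    simpa using this
  have hcore := core nm hu hb hodd k hd hnp hk' (Real.exp_pos (-C)) hρR
  have hx1 : nm ((x : L) - 1) < 1 := by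
    rcases hx with h | h
    · rw [h, sub_self, map_zero]; exact one_pos
    · by_cases h0 : (x : L) - 1 = 0
      · rw [h0, map_zero]; exact one_pos
      · rw [hnm _ h0, Real.exp_lt_one_iff]
        linarith
  have := hcore _ hx1 (y : L)
  rw [add_sub_cancel, B_units] at this
  exact this

end Pool.Agent.Lib.MP_defcf3_al.FR.WL
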