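import Pool.Agent.Lib.MP_defcf3_al.FR.Defs

/-!
MP_defcf3_al, project FR, module ZOR (helper70): a finest valuation ring with `1 + m` in a given
subgroup of the units.
-/

set_option autoImplicit false

namespace Pool.Agent.Lib.MP_defcf3_al.FR

universe u

/-- For a nonzero element, `v y < 1` says that the inverse is not in the ring. -/
theorem ZOR.lt_one_iff {K : Type u} [Field K] (O : ValuationSubring K) {y : K} (hy : y ≠ 0) :
    O.valuation y < 1 ↔ y⁻¹ ∉ O := by
  rw [← O.valuation_le_one_iff, map_inv₀, not_le, ← not_le, ← not_le]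
  have h0 : 0 < O.valuation y := zero_lt_iff.2 ((map_ne_zero _).2 hy)
  rw [not_iff_not, inv_le_one₀ h0]

/-- The intersection of a nonempty chain of valuation rings is a valuation ring. -/
def ZOR.inter {K : Type u} [Field K] (c : Set (ValuationSubring K)) (hc : IsChain (· ≤ ·) c) :
    ValuationSubring K where
  toSubring := ⨅ O ∈ c, (O : ValuationSubring K).toSubring
  mem_or_inv_mem' := by
    intro x
    by_contra hcon
    push Not at hcon
    obtain ⟨h1, h2⟩ := hcon
    have key : ∀ y : K, y ∉ (⨅ O ∈ c, (O : ValuationSubring K).toSubring : Subring K) →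
        ∃ O ∈ c, y ∉ O := by
      intro y hy
      by_contra hne
      push Not at hne
      apply hy
      simp only [Subring.mem_iInf]
      exact fun O hO => hne O hO
    obtain ⟨O1, hO1, hx1⟩ := key x h1
    obtain ⟨O2, hO2, hx2⟩ := key x⁻¹ h2
    rcases hc.total hO1 hO2 with hle | hle
    · rcases O1.mem_or_inv_mem x with h | h
      · exact hx1 h
      · exact hx2 (hle h)
    · rcases O2.mem_or_inv_mem x with h | h
      · exact hx1 (hle h)
      · exact hx2 h

theorem ZOR.mem_inter {K : Type u} [Field K] (c : Set (ValuationSubring K))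
    (hc : IsChain (· ≤ ·) c) (x : K) : x ∈ ZOR.inter c hc ↔ ∀ O ∈ c, x ∈ O := by
  change x ∈ (⨅ O ∈ c, (O : ValuationSubring K).toSubring : Subring K) ↔ _
  simp only [Subring.mem_iInf]
  rfl

theorem zor : StZOR.{u} := by
  intro K _ R
  have htop : OneUnits (⊤ : ValuationSubring K) (R : Set Kˣ) := by
    intro x hx
    by_cases h : (x : K) - 1 = 0
    · have h1 : x = 1 := Units.ext (by rw [Units.val_one]; exact sub_eq_zero.1 h)
      rw [h1]
      exact R.one_mem
    · exact absurd (ValuationSubring.mem_top _) ((ZOR.lt_one_iff _ h).1 hx)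
  obtain ⟨O, -, hO⟩ := zorn_le_nonempty₀ (α := (ValuationSubring K)ᵒᵈ)
    {O | OneUnits (OrderDual.ofDual O) (R : Set Kˣ)} (by
      intro c hcs hc y hy
      have hc' : IsChain (· ≤ ·) (OrderDual.toDual ⁻¹' c : Set (ValuationSubring K)) := by
        intro a ha b hb hab
        exact (hc ha hb (fun h => hab (OrderDual.toDual.injective h))).symm
      refine ⟨OrderDual.toDual (ZOR.inter (OrderDual.toDual ⁻¹' c) hc'), ?_, ?_⟩
      · intro x hx
        change (ZOR.inter (OrderDual.toDual ⁻¹' c) hc').valuation ((x : K) - 1) < 1 at hx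
        by_cases h : (x : K) - 1 = 0
        · have h1 : x = 1 := Units.ext (by rw [Units.val_one]; exact sub_eq_zero.1 h)
          rw [h1]
          exact R.one_mem
        · rw [ZOR.lt_one_iff _ h, ZOR.mem_inter] at hx
          push Not at hx
          obtain ⟨O, hO, hxO⟩ := hx
          exact hcs hO x ((ZOR.lt_one_iff O h).2 hxO)
      · intro z hz
        change ZOR.inter (OrderDual.toDual ⁻¹' c) hc' ≤ OrderDual.ofDual z
        intro x hx
        exact (ZOR.mem_inter _ hc' x).1 hx (OrderDual.ofDual z) hz)
    (OrderDual.toDual ⊤) htop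
  refine ⟨OrderDual.ofDual O, hO.prop, ?_⟩
  intro O' hle hO'
  have := hO.le_of_ge (y := OrderDual.toDual O') hO' hle
  exact le_antisymm hle this

end Pool.Agent.Lib.MP_defcf3_al.FR
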