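import Pool.Agent.Lib.MP_defcf3_al.FR.Main
import Pool.Agent.Lib.MP_defcf3_al.FR.Arc
import Pool.Agent.Lib.MP_defcf3_al.FR.Dec
import Pool.Agent.Lib.MP_defcf3_al.FR.Fin
import Pool.Agent.Lib.MP_defcf3_al.FR.Nar
import Pool.Agent.Lib.MP_defcf3_al.FR.QVA
import Pool.Agent.Lib.MP_defcf3_al.FR.Rin
import Pool.Agent.Lib.MP_defcf3_al.FR.Tam
import Pool.Agent.Lib.MP_defcf3_al.FR.Val
import Pool.Agent.Lib.MP_defcf3_al.FR.ZOR
import Pool.Agent.Lib.MP_defcf3_al.FR.WLemma
import Pool.Agent.Lib.MP_defcf3_al.FR.ResW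

/-!
MP_defcf3_al, project FR: assembly of the finite rank theorem.
-/

set_option autoImplicit false

namespace Pool.Agent.Lib.MP_defcf3_al.FR

universe u

/-- THEOREM FR (no hypothesis): `p` odd, `[L:k] < p`, `b` a symbol on `L` with values in `F_p`
whose radical contains `k^*` and has finite index: then `b = 0`. -/
theorem fr : StFR.{u} :=
  main dec val qva nar arc tam WL.wil rin zor RW.res fin

end Pool.Agent.Lib.MP_defcf3_al.FR
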