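import Pool.Agent.Lib.MP_defcf3_al.FR.HJ

/-!
Finite symbols on an infinite field and their topology (sections 1, 2 of PAPER.md).
-/

set_option autoImplicit false

namespace Pool.Agent.Lib.MP_defcf3_al.FR

open Filter Topology

/-- A finite nondegenerate symbol on a field, in terms of its class group `A`. -/
structure FSym (K : Type*) [Field K] (p : ℕ) (A : Type*) [AddCommGroup A]
    [Module (ZMod p) A] where
  cl : K → A
  b : A →ₗ[ZMod p] A →ₗ[ZMod p] ZMod p
  cl_mul : ∀ x y : K, x ≠ 0 → y ≠ 0 → cl (x * y) = cl x + cl y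
  cl_surj : ∀ a : A, ∃ x : K, x ≠ 0 ∧ cl x = a
  nondeg : ∀ a : A, (∀ c, b c a = 0) → a = 0
  stein : ∀ x y : K, x ≠ 0 → y ≠ 0 → x + y = 1 → b (cl x) (cl y) = 0

namespace FSym

variable {K : Type*} [Field K] {p : ℕ} {A : Type*} [AddCommGroup A] [Module (ZMod p) A]
variable (D : FSym K p A)

theorem cl_one : D.cl 1 = 0 := by
  have h := D.cl_mul 1 1 one_ne_zero one_ne_zero
  rw [one_mul] at h
  simpa using h

theorem cl_inv {x : K} (hx : x ≠ 0) : D.cl x⁻¹ = - D.cl x := by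
  have h := D.cl_mul x x⁻¹ hx (inv_ne_zero hx)
  rw [mul_inv_cancel₀ hx, D.cl_one] at h
  exact (neg_eq_of_add_eq_zero_right h.symm).symm

theorem cl_div {x y : K} (hx : x ≠ 0) (hy : y ≠ 0) : D.cl (x / y) = D.cl x - D.cl y := by
  rw [div_eq_mul_inv, D.cl_mul _ _ hx (inv_ne_zero hy), D.cl_inv hy, sub_eq_add_neg]

theorem cl_neg {x : K} (hx : x ≠ 0) : D.cl (-x) = D.cl (-1) + D.cl x := by
  rw [← D.cl_mul _ _ (by simp) hx]
  simp

/-- the projective Steinberg relation -/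
theorem stein' {x y w : K} (hx : x ≠ 0) (hy : y ≠ 0) (hw : w ≠ 0) (h : x + y = w) :
    D.b (D.cl x - D.cl w) (D.cl y - D.cl w) = 0 := by
  rw [← D.cl_div hx hw, ← D.cl_div hy hw]
  apply D.stein _ _ (div_ne_zero hx hw) (div_ne_zero hy hw)
  rw [← add_div, h, div_self hw]

theorem b_self_neg (a : A) : D.b a (a + D.cl (-1)) = 0 := by
  obtain ⟨x, hx, rfl⟩ := D.cl_surj a
  by_cases h1 : x = 1
  · subst h1
    rw [D.cl_one]
    simp
  · have h2 : (1 : K) - x ≠ 0 := sub_ne_zero.2 (Ne.symm h1)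
    have h3 : (1 : K) - x⁻¹ ≠ 0 := by
      intro h
      apply h1
      have : x⁻¹ = 1 := (sub_eq_zero.1 h).symm
      simpa using this
    have e1 : D.b (D.cl x) (D.cl (1 - x)) = 0 := D.stein _ _ hx h2 (by ring)
    have e2 : D.b (D.cl x⁻¹) (D.cl (1 - x⁻¹)) = 0 := D.stein _ _ (inv_ne_zero hx) h3 (by ring)
    rw [D.cl_inv hx, map_neg, LinearMap.neg_apply, neg_eq_zero] at e2
    have e3 : D.cl x + D.cl (-1) = D.cl (1 - x) - D.cl (1 - x⁻¹) := by
      rw [add_comm, ← D.cl_neg hx, ← D.cl_div h2 h3]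
      congr 1
      field_simp
      ring
    rw [e3, map_sub, e1, e2, sub_zero]

theorem b_antisymm (a c : A) : D.b a c = - D.b c a := by
  have h := D.b_self_neg (a + c)
  have h1 := D.b_self_neg a
  have h2 := D.b_self_neg c
  simp only [map_add, LinearMap.add_apply] at h h1 h2
  linear_combination h - h1 - h2

theorem nondeg' (a : A) (h : ∀ c, D.b a c = 0) : a = 0 := by
  apply D.nondeg
  intro c
  rw [D.b_antisymm, h c, neg_zero]

/-- Lemma S of the paper. -/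
theorem lemmaS [Nontrivial A] {z W : K} (X Y : A → K) (hX : ∀ a, X a ≠ 0) (hY : ∀ a, Y a ≠ 0)
    (hW : ∀ a, X a + Y a = W) (hXa : ∀ a, D.cl (X a) = a) (hYa : ∀ a, D.cl (Y a) = D.cl z) :
    W ≠ 0 ∧ D.cl W = D.cl z := by
  have hW0 : W ≠ 0 := by
    intro h0
    obtain ⟨a, a', ha⟩ := exists_pair_ne A
    have key : ∀ a, a = D.cl (-1) + D.cl z := by
      intro a
      have h1 : X a = - Y a := by
        have := hW a
        rw [h0] at this
        exact eq_neg_of_add_eq_zero_left this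
      have h2 := hXa a
      rw [h1, D.cl_neg (hY a), hYa a] at h2
      exact h2.symm
    exact ha ((key a).trans (key a').symm)
  refine ⟨hW0, ?_⟩
  have h0 : D.cl z - D.cl W = 0 := by
    apply D.nondeg
    intro c
    have h1 := D.stein' (hX (c + D.cl W)) (hY (c + D.cl W)) hW0 (hW _)
    rw [hXa, hYa] at h1
    simpa using h1
  exact (sub_eq_zero.1 h0).symm

/-- the basic neighbourhoods -/
def V1 (l : K) : Set K := {s | l + s ≠ 0 ∧ D.cl (l + s) = D.cl l}

/-- the filter of small elements -/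
def N : Filter K := ⨅ l : {l : K // l ≠ 0}, 𝓟 (D.V1 l)

theorem ev_V1 {l : K} (hl : l ≠ 0) : ∀ᶠ s in D.N, l + s ≠ 0 ∧ D.cl (l + s) = D.cl l := by
  have h : D.V1 l ∈ D.N := mem_iInf_of_mem ⟨l, hl⟩ (mem_principal_self _)
  exact h

theorem tendsto_N {α : Type*} {F : Filter α} {f : α → K}
    (h : ∀ l : K, l ≠ 0 → ∀ᶠ x in F, l + f x ≠ 0 ∧ D.cl (l + f x) = D.cl l) :
    Tendsto f F D.N := by
  unfold N
  rw [tendsto_iInf]
  rintro ⟨l, hl⟩
  rw [tendsto_principal]
  exact h l hl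

theorem tendsto_smul (u : K) : Tendsto (fun s => u * s) D.N D.N := by
  apply D.tendsto_N
  intro l hl
  by_cases hu : u = 0
  · subst hu
    filter_upwards with s
    simp [hl]
  · have h := D.ev_V1 (div_ne_zero hl hu)
    filter_upwards [h] with s hs
    have e : l + u * s = u * (l / u + s) := by field_simp
    rw [e]
    refine ⟨mul_ne_zero hu hs.1, ?_⟩
    rw [D.cl_mul _ _ hu hs.1, hs.2, D.cl_div hl hu]
    abel

theorem tendsto_neg : Tendsto (fun s : K => -s) D.N D.N := by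
  have h := D.tendsto_smul (-1)
  simpa using h

theorem zero_mem {S : Set K} (hS : S ∈ D.N) : (0 : K) ∈ S := by
  have h : Tendsto (fun _ : Unit => (0 : K)) ⊤ D.N := by
    apply D.tendsto_N
    intro l hl
    filter_upwards with x
    simp [hl]
  have h2 := h hS
  have h3 : () ∈ ((fun _ : Unit => (0 : K)) ⁻¹' S) := by
    have : ((fun _ : Unit => (0 : K)) ⁻¹' S) ∈ (⊤ : Filter Unit) := h2
    rw [Filter.mem_top] at this
    rw [this]
    trivial
  exact h3

instance : D.N.NeBot := by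
  rw [neBot_iff]
  intro h
  have h1 : (∅ : Set K) ∈ D.N := by
    rw [h]
    exact mem_bot
  simpa using D.zero_mem h1

/-- (1.1): small nonzero elements exist in every class. -/
theorem freq_class [Infinite K] [Finite A] (a : A) :
    ∃ᶠ s in D.N, s ≠ 0 ∧ D.cl s = a := by
  classical
  have hb : D.N.HasBasis (fun t : Set {l : K // l ≠ 0} => t.Finite)
      (fun t => ⋂ i ∈ t, D.V1 i) := by
    unfold N
    exact hasBasis_iInf_principal_finite _
  rw [hb.frequently_iff]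
  intro t ht
  choose r hr0 hr using D.cl_surj
  have := Fintype.ofFinite A
  -- the enlarged finite set of inverses
  let L : Finset K := insert 0 ((ht.toFinset ×ˢ (Finset.univ : Finset A)).image
    (fun q => r q.2 / (q.1 : K)))
  obtain ⟨d, hd, b, c, hc⟩ := gallai_field K (fun x => if x = 0 then none else some (D.cl x))
    (insert 1 L)
  have h0 : (if d * 0 + b = 0 then none else some (D.cl (d * 0 + b))) = c := by
    apply hc
    simp [L]
  have h1 : (if d * 1 + b = 0 then none else some (D.cl (d * 1 + b))) = c := by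
    apply hc
    simp
  have hb0 : b ≠ 0 := by
    intro hb0
    rw [hb0] at h0 h1
    simp only [mul_zero, add_zero, if_true, mul_one] at h0 h1
    rw [if_neg hd] at h1
    rw [← h0] at h1
    exact absurd h1 (by simp)
  have hcb : c = some (D.cl b) := by
    rw [← h0]
    simp [hb0]
  -- y = b / d
  have key : ∀ m ∈ L, d * m + b ≠ 0 ∧ D.cl (d * m + b) = D.cl b := by
    intro m hm
    have h2 := hc m (Finset.mem_insert_of_mem hm)
    rw [hcb] at h2
    by_cases h3 : d * m + b = 0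
    · rw [if_pos h3] at h2
      exact absurd h2 (by simp)
    · rw [if_neg h3] at h2
      exact ⟨h3, Option.some_injective _ h2⟩
  -- s = r a' * d / b with the right class
  let a' : A := a - D.cl (d / b)
  refine ⟨r a' * (d / b), ?_, ?_, ?_⟩
  · simp only [Set.mem_iInter]
    rintro ⟨l, hl⟩ hlt
    have h4 : r a' / l ∈ L := by
      apply Finset.mem_insert_of_mem
      rw [Finset.mem_image]
      exact ⟨(⟨l, hl⟩, a'), by simp [hlt], rfl⟩
    obtain ⟨h5, h6⟩ := key _ h4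
    have e : l + r a' * (d / b) = l * (d * (r a' / l) + b) / b := by
      field_simp
      ring
    show l + r a' * (d / b) ≠ 0 ∧ D.cl (l + r a' * (d / b)) = D.cl l
    rw [e]
    refine ⟨div_ne_zero (mul_ne_zero hl h5) hb0, ?_⟩
    rw [D.cl_div (mul_ne_zero hl h5) hb0, D.cl_mul _ _ hl h5, h6]
    abel
  · exact mul_ne_zero (hr0 _) (div_ne_zero hd hb0)
  · rw [D.cl_mul _ _ (hr0 _) (div_ne_zero hd hb0), hr]
    simp [a']

/-- a family `w a` with `cl (w a) = a` and `cl (z - w a) = cl z`. -/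
theorem exists_w [Infinite K] [Finite A] {z : K} (hz : z ≠ 0) :
    ∃ w : A → K, ∀ a, w a ≠ 0 ∧ D.cl (w a) = a ∧ z - w a ≠ 0 ∧ D.cl (z - w a) = D.cl z := by
  have h1 : ∀ a, ∃ w : K, w ≠ 0 ∧ D.cl w = a ∧ z - w ≠ 0 ∧ D.cl (z - w) = D.cl z := by
    intro a
    have h2 := D.freq_class (a + D.cl (-1))
    have h3 := D.ev_V1 hz
    obtain ⟨s, hs1, hs2⟩ := (h2.and_eventually h3).exists
    refine ⟨-s, neg_ne_zero.2 hs1.1, ?_, ?_, ?_⟩
    · rw [D.cl_neg hs1.1, hs1.2]
      have h4 : D.cl (-1) + D.cl (-1) = 0 := by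
        rw [← D.cl_mul _ _ (by simp) (by simp)]
        simp [D.cl_one]
      calc D.cl (-1) + (a + D.cl (-1)) = a + (D.cl (-1) + D.cl (-1)) := by abel
        _ = a := by rw [h4, add_zero]
    · rw [sub_neg_eq_add]; exact hs2.1
    · rw [sub_neg_eq_add]; exact hs2.2
  choose w hw using h1
  exact ⟨w, hw⟩

theorem tendsto_add [Infinite K] [Finite A] [Nontrivial A] :
    Tendsto (fun q : K × K => q.1 + q.2) (D.N ×ˢ D.N) D.N := by
  apply D.tendsto_N
  intro z hz
  obtain ⟨w, hw⟩ := D.exists_w hz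
  have h1 : ∀ᶠ q : K × K in D.N ×ˢ D.N, ∀ a, w a + q.1 ≠ 0 ∧ D.cl (w a + q.1) = D.cl (w a) := by
    rw [eventually_all]
    intro a
    exact tendsto_fst.eventually (D.ev_V1 (hw a).1)
  have h2 : ∀ᶠ q : K × K in D.N ×ˢ D.N, ∀ a, (z - w a) + q.2 ≠ 0 ∧
      D.cl ((z - w a) + q.2) = D.cl (z - w a) := by
    rw [eventually_all]
    intro a
    exact tendsto_snd.eventually (D.ev_V1 (hw a).2.2.1)
  filter_upwards [h1, h2] with q hq1 hq2
  exact D.lemmaS (fun a => w a + q.1) (fun a => (z - w a) + q.2) (fun a => (hq1 a).1)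
    (fun a => (hq2 a).1) (fun a => by ring) (fun a => by rw [(hq1 a).2, (hw a).2.1])
    (fun a => by rw [(hq2 a).2, (hw a).2.2.2])

theorem tendsto_mul_aux [Infinite K] [Finite A] [Nontrivial A] :
    Tendsto (fun q : K × K => q.2 * (1 + q.1)) (D.N ×ˢ D.N) D.N := by
  apply D.tendsto_N
  intro z hz
  obtain ⟨w, hw⟩ := D.exists_w hz
  have h0 : ∀ᶠ q : K × K in D.N ×ˢ D.N, 1 + q.1 ≠ 0 ∧ D.cl (1 + q.1) = D.cl 1 :=
    tendsto_fst.eventually (D.ev_V1 one_ne_zero)
  have h1 : ∀ᶠ q : K × K in D.N ×ˢ D.N, ∀ a, w a + q.2 ≠ 0 ∧ D.cl (w a + q.2) = D.cl (w a) := by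
    rw [eventually_all]
    intro a
    exact tendsto_snd.eventually (D.ev_V1 (hw a).1)
  have h2 : ∀ᶠ q : K × K in D.N ×ˢ D.N, ∀ a, (z - w a) + (- w a) * q.1 ≠ 0 ∧
      D.cl ((z - w a) + (- w a) * q.1) = D.cl (z - w a) := by
    rw [eventually_all]
    intro a
    exact ((D.tendsto_smul (- w a)).comp tendsto_fst).eventually (D.ev_V1 (hw a).2.2.1)
  filter_upwards [h0, h1, h2] with q hq0 hq1 hq2
  exact D.lemmaS (fun a => (1 + q.1) * (w a + q.2)) (fun a => (z - w a) + (- w a) * q.1)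
    (fun a => mul_ne_zero hq0.1 (hq1 a).1)
    (fun a => (hq2 a).1) (fun a => by ring)
    (fun a => by rw [D.cl_mul _ _ hq0.1 (hq1 a).1, hq0.2, D.cl_one, zero_add, (hq1 a).2, (hw a).2.1])
    (fun a => by rw [(hq2 a).2, (hw a).2.2.2])

theorem tendsto_mul [Infinite K] [Finite A] [Nontrivial A] :
    Tendsto (fun q : K × K => q.1 * q.2) (D.N ×ˢ D.N) D.N := by
  have h1 : Tendsto (fun q : K × K => (q.2 * (1 + q.1), - q.2)) (D.N ×ˢ D.N) (D.N ×ˢ D.N) :=
    D.tendsto_mul_aux.prodMk (D.tendsto_neg.comp tendsto_snd)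
  have h2 := D.tendsto_add.comp h1
  refine h2.congr (fun q => ?_)
  simp only [Function.comp]
  ring

/-- the bounded neighbourhood -/
def U0 (r : A → K) : Set K := {y | ∀ a, (r a + y ≠ 0 ∧ D.cl (r a + y) = D.cl (r a)) ∧
  (- r a + y ≠ 0 ∧ D.cl (- r a + y) = D.cl (- r a))}

theorem U0_mem [Finite A] {r : A → K} (hr : ∀ a, r a ≠ 0) : D.U0 r ∈ D.N := by
  have h : ∀ᶠ y in D.N, ∀ a, (r a + y ≠ 0 ∧ D.cl (r a + y) = D.cl (r a)) ∧
      (- r a + y ≠ 0 ∧ D.cl (- r a + y) = D.cl (- r a)) := by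
    rw [eventually_all]
    intro a
    exact (D.ev_V1 (hr a)).and (D.ev_V1 (neg_ne_zero.2 (hr a)))
  exact h

theorem U0_neg {r : A → K} {y : K} (hr : ∀ a, r a ≠ 0) (hy : y ∈ D.U0 r) : -y ∈ D.U0 r := by
  intro a
  obtain ⟨⟨h1, h2⟩, ⟨h3, h4⟩⟩ := hy a
  have e1 : r a + -y = -(- r a + y) := by ring
  have e2 : - r a + -y = -(r a + y) := by ring
  rw [e1, e2]
  refine ⟨⟨neg_ne_zero.2 h3, ?_⟩, ⟨neg_ne_zero.2 h1, ?_⟩⟩
  · rw [D.cl_neg h3, h4, ← D.cl_neg (neg_ne_zero.2 (hr a)), neg_neg]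
  · rw [D.cl_neg h1, h2, ← D.cl_neg (hr a)]

/-- boundedness of `U0`. -/
theorem U0_bdd [Infinite K] [Finite A] [Nontrivial A] {r : A → K}
    (hra : ∀ a, D.cl (r a) = a) {S : Set K} (hS : S ∈ D.N) :
    ∀ᶠ t in D.N, ∀ y ∈ D.U0 r, t * y ∈ S := by
  have hb : D.N.HasBasis (fun t : Set {l : K // l ≠ 0} => t.Finite)
      (fun t => ⋂ i ∈ t, D.V1 i) := by
    unfold N
    exact hasBasis_iInf_principal_finite _
  obtain ⟨T, hT, hTS⟩ := hb.mem_iff.1 hS
  have h1 : ∀ i ∈ T, ∀ᶠ t in D.N, ∀ y ∈ D.U0 r, t * y ∈ D.V1 i := by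
    rintro ⟨z, hz⟩ -
    have h2 : ∀ᶠ t in D.N, ∀ a, z + (- r a) * t ≠ 0 ∧ D.cl (z + (- r a) * t) = D.cl z := by
      rw [eventually_all]
      intro a
      exact (D.tendsto_smul (- r a)).eventually (D.ev_V1 hz)
    filter_upwards [h2] with t ht y hy
    by_cases ht0 : t = 0
    · subst ht0
      show z + 0 * y ≠ 0 ∧ D.cl (z + 0 * y) = D.cl z
      simp [hz]
    · show z + t * y ≠ 0 ∧ D.cl (z + t * y) = D.cl z
      refine D.lemmaS (fun a => t * (r (a - D.cl t) + y)) (fun a => z + (- r (a - D.cl t)) * t)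
        (fun a => mul_ne_zero ht0 (hy _).1.1) (fun a => (ht _).1) (fun a => by ring)
        (fun a => ?_) (fun a => (ht _).2)
      rw [D.cl_mul _ _ ht0 (hy _).1.1, (hy _).1.2, hra]
      abel
  have h2 : ∀ᶠ t in D.N, ∀ i ∈ T, ∀ y ∈ D.U0 r, t * y ∈ D.V1 i :=
    (eventually_all_finite hT).2 h1
  filter_upwards [h2] with t ht y hy
  apply hTS
  simp only [Set.mem_iInter]
  intro i hi
  exact ht i hi y hy

/-- (L1) -/
theorem L1 {x z τ : K} (hx : x ≠ 0) (hz : z ≠ 0) (hzx : z - x ≠ 0) (h1 : z + τ ≠ 0)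
    (h2 : D.cl (z + τ) = D.cl z) (h3 : x + τ ≠ 0) :
    D.b (D.cl (x + τ) - D.cl x) (D.cl (z - x) - D.cl z) = 0 := by
  have e1 := D.stein' h3 hzx h1 (by ring)
  have e2 := D.stein' hx hzx hz (by ring)
  rw [h2] at e1
  simp only [map_sub, LinearMap.sub_apply] at e1 e2 ⊢
  linear_combination e1 - e2

end FSym

end Pool.Agent.Lib.MP_defcf3_al.FR
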