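import Pool.Agent.Lib.MP_defcf3_al.FR.Defs
import Pool.Agent.Lib.MP_defcf3_al.FR.Top

/-!
Section 3, Case 1: if the spans are the whole group away from `U0`, the topology is a V-topology.
-/

set_option autoImplicit false

namespace Pool.Agent.Lib.MP_defcf3_al.FR

open Filter Topology

universe u v

namespace FSym

variable {K : Type u} [Field K] {p : ℕ} {A : Type v} [AddCommGroup A] [Module (ZMod p) A]
variable (D : FSym K p A)

/-- the span of the `cl (z - x) - cl z`, `z` in `Z`. -/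
def GZ (Z : Finset K) (x : K) : Submodule (ZMod p) A :=
  Submodule.span (ZMod p) {a | ∃ z ∈ Z, z ≠ 0 ∧ z - x ≠ 0 ∧ a = D.cl (z - x) - D.cl z}

theorem cl_eq_of_GZ_top {Z : Finset K} {x τ : K} (hx : x ≠ 0)
    (hτ : ∀ z ∈ Z, z ≠ 0 → z + τ ≠ 0 ∧ D.cl (z + τ) = D.cl z) (hxτ : x + τ ≠ 0)
    (h : D.GZ Z x = ⊤) : D.cl (x + τ) = D.cl x := by
  have h1 : D.cl (x + τ) - D.cl x = 0 := by
    apply D.nondeg'
    intro c
    have hc : c ∈ D.GZ Z x := by rw [h]; exact Submodule.mem_top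
    unfold GZ at hc
    induction hc using Submodule.span_induction with
    | mem a ha =>
        obtain ⟨z, hz, hz0, hzx, rfl⟩ := ha
        exact D.L1 hx hz0 hzx (hτ z hz hz0).1 (hτ z hz hz0).2 hxτ
    | zero => simp
    | add a c _ _ ha hc => rw [map_add, ha, hc, add_zero]
    | smul r a _ ha => rw [map_smul, ha, smul_zero]
  exact sub_eq_zero.1 h1

theorem isVTop_of_GZ [Infinite K] [Finite A] [Nontrivial A] {r : A → K} (hr : ∀ a, r a ≠ 0)
    (hra : ∀ a, D.cl (r a) = a) (Z : Finset K)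
    (hZ : ∀ x, x ∉ D.U0 r → D.GZ Z x = ⊤) : IsVTop D.N := by
  have h0U : (0 : K) ∈ D.U0 r := D.zero_mem (D.U0_mem hr)
  have hsmul : ∀ t : K, ∀ S ∈ D.N, {x | t * x ∈ S} ∈ D.N := fun t S hS => D.tendsto_smul t hS
  -- claim A
  have hA : ∃ t : K, t ≠ 0 ∧ ∀ x, x ∉ D.U0 r → t / x ∈ D.U0 r := by
    have hW : ∀ᶠ τ in D.N, (∀ z ∈ Z, z ≠ 0 → z + τ ≠ 0 ∧ D.cl (z + τ) = D.cl z) ∧ τ ∈ D.U0 r := by
      apply Filter.Eventually.and
      · rw [Filter.eventually_all_finset]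
        intro z hz
        by_cases hz0 : z = 0
        · filter_upwards with τ h
          exact absurd hz0 h
        · filter_upwards [D.ev_V1 hz0] with τ h _
          exact h
      · exact D.U0_mem hr
    have h1 : ∀ᶠ t in D.N, ∀ a, ((∀ z ∈ Z, z ≠ 0 → z + (r a)⁻¹ * t ≠ 0 ∧
        D.cl (z + (r a)⁻¹ * t) = D.cl z) ∧ (r a)⁻¹ * t ∈ D.U0 r) ∧
        ((∀ z ∈ Z, z ≠ 0 → z + (-(r a)⁻¹) * t ≠ 0 ∧
        D.cl (z + (-(r a)⁻¹) * t) = D.cl z) ∧ (-(r a)⁻¹) * t ∈ D.U0 r) := by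
      rw [eventually_all]
      intro a
      exact ((D.tendsto_smul ((r a)⁻¹)).eventually hW).and
        ((D.tendsto_smul (-(r a)⁻¹)).eventually hW)
    obtain ⟨t, ⟨ht0, -⟩, ht⟩ := ((D.freq_class 0).and_eventually h1).exists
    refine ⟨t, ht0, ?_⟩
    intro x hx
    have hx0 : x ≠ 0 := by
      rintro rfl
      exact hx h0U
    have key : ∀ τ : K, (∀ z ∈ Z, z ≠ 0 → z + τ ≠ 0 ∧ D.cl (z + τ) = D.cl z) → τ ∈ D.U0 r →
        x + τ ≠ 0 ∧ D.cl (x + τ) = D.cl x := by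
      intro τ h2 h3
      have h4 : x + τ ≠ 0 := by
        intro h5
        apply hx
        have h6 : x = -τ := eq_neg_of_add_eq_zero_left h5
        rw [h6]
        exact D.U0_neg hr h3
      exact ⟨h4, D.cl_eq_of_GZ_top hx0 h2 h4 (hZ x hx)⟩
    intro a
    obtain ⟨⟨h2, h3⟩, ⟨h4, h5⟩⟩ := ht a
    have k1 := key _ h2 h3
    have k2 := key _ h4 h5
    have hra0 := hr a
    have e1 : r a + t / x = (r a / x) * (x + (r a)⁻¹ * t) := by field_simp
    have e2 : - r a + t / x = (- r a / x) * (x + (-(r a)⁻¹) * t) := by field_simp; ring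
    refine ⟨?_, ?_⟩
    · rw [e1]
      refine ⟨mul_ne_zero (div_ne_zero hra0 hx0) k1.1, ?_⟩
      rw [D.cl_mul _ _ (div_ne_zero hra0 hx0) k1.1, k1.2, D.cl_div hra0 hx0]
      abel
    · rw [e2]
      refine ⟨mul_ne_zero (div_ne_zero (neg_ne_zero.2 hra0) hx0) k2.1, ?_⟩
      rw [D.cl_mul _ _ (div_ne_zero (neg_ne_zero.2 hra0) hx0) k2.1, k2.2,
        D.cl_div (neg_ne_zero.2 hra0) hx0]
      abel
  obtain ⟨t, ht0, ht⟩ := hA
  refine ⟨fun S hS => D.zero_mem hS, hsmul, ?_, ?_, ?_, ?_, ?_⟩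
  · intro S hS
    have h1 := D.tendsto_add hS
    rw [Filter.mem_map, Filter.mem_prod_same_iff] at h1
    obtain ⟨T, hT, hTS⟩ := h1
    exact ⟨T, hT, fun x hx y hy => hTS (Set.mk_mem_prod hx hy)⟩
  · intro S hS
    have h1 := D.tendsto_mul hS
    rw [Filter.mem_map, Filter.mem_prod_same_iff] at h1
    obtain ⟨T, hT, hTS⟩ := h1
    exact ⟨T, hT, fun x hx y hy => hTS (Set.mk_mem_prod hx hy)⟩
  · intro S hS
    obtain ⟨s, ⟨hs0, -⟩, hs⟩ := ((D.freq_class 0).and_eventually hS).exists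
    exact ⟨s, hs, hs0⟩
  · intro x hx
    refine ⟨D.V1 (-x), D.ev_V1 (neg_ne_zero.2 hx), ?_⟩
    intro h
    exact h.1 (by ring)
  · intro S hS
    obtain ⟨s, ⟨hs0, -⟩, hs⟩ := ((D.freq_class 0).and_eventually (D.U0_bdd hra hS)).exists
    have hts : (t * s) * (t * s) ≠ 0 := mul_ne_zero (mul_ne_zero ht0 hs0) (mul_ne_zero ht0 hs0)
    have hS2 : D.V1 (-((t * s) * (t * s))) ∈ D.N := D.ev_V1 (neg_ne_zero.2 hts)
    have h1 := D.U0_bdd hra hS2
    have h2 := D.U0_bdd hra h1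
    refine ⟨_, h2, ?_⟩
    intro x y hxy
    by_contra hcon
    rw [not_or] at hcon
    obtain ⟨hxS, hyS⟩ := hcon
    have h0S := D.zero_mem hS
    have hx0 : x ≠ 0 := by rintro rfl; exact hxS h0S
    have hy0 : y ≠ 0 := by rintro rfl; exact hyS h0S
    have hxU : x / s ∉ D.U0 r := by
      intro h
      apply hxS
      have := hs _ h
      rwa [mul_div_cancel₀ _ hs0] at this
    have hyU : y / s ∉ D.U0 r := by
      intro h
      apply hyS
      have := hs _ h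
      rwa [mul_div_cancel₀ _ hs0] at this
    have h3 := ht _ hxU
    have h4 := ht _ hyU
    have h5 := hxy _ h3 _ h4
    have e : x * y * (t / (x / s)) * (t / (y / s)) = (t * s) * (t * s) := by
      field_simp
    rw [e] at h5
    exact h5.1 (by ring)

end FSym

end Pool.Agent.Lib.MP_defcf3_al.FR
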