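import Pool.Agent.Lib.MP_defcf3_al.FR.Dec1

/-!
Section 3, Case 2: orthogonal decomposition of a finite symbol.
-/

set_option autoImplicit false

namespace Pool.Agent.Lib.MP_defcf3_al.FR

open Filter Topology

universe u v

namespace FSym

variable {K : Type u} [Field K] {p : ℕ} {A : Type v} [AddCommGroup A] [Module (ZMod p) A]
variable (D : FSym K p A)

theorem exists_lim {α : Type*} {B : Type*} [Finite B] (UU : Ultrafilter α) (f : α → B) :
    ∃ b, ∀ᶠ x in (UU : Filter α), f x = b := by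
  obtain ⟨b, hb⟩ := Ultrafilter.eq_pure_of_finite (UU.map f)
  refine ⟨b, ?_⟩
  have h1 : ({b} : Set B) ∈ UU.map f := by
    rw [hb]
    exact Filter.mem_pure.2 rfl
  exact h1

/-- orthogonal complement -/
def perp (G : Submodule (ZMod p) A) : Submodule (ZMod p) A where
  carrier := {d | ∀ g ∈ G, D.b d g = 0}
  add_mem' := by
    intro a c ha hc g hg
    rw [map_add, LinearMap.add_apply, ha g hg, hc g hg, add_zero]
  zero_mem' := by
    intro g hg
    simp
  smul_mem' := by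
    intro r a ha g hg
    rw [map_smul, LinearMap.smul_apply, ha g hg, smul_zero]

/-- the projected symbol on `G` when `G` and `Gp` are orthogonal complements and the projected
form satisfies the Steinberg relation. -/
noncomputable def proj (G Gp : Submodule (ZMod p) A) (h : IsCompl G Gp)
    (horth : ∀ g ∈ G, ∀ d ∈ Gp, D.b d g = 0)
    (hst : ∀ x y : K, x ≠ 0 → y ≠ 0 → x + y = 1 →
      D.b (G.projection Gp h (D.cl x)) (G.projection Gp h (D.cl y)) = 0) : FSym K p G where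
  cl := fun x => G.projectionOnto Gp h (D.cl x)
  b := D.b.domRestrict₁₂ G G
  cl_mul := by
    intro x y hx hy
    rw [D.cl_mul x y hx hy, map_add]
  cl_surj := by
    intro a
    obtain ⟨x, hx, hxa⟩ := D.cl_surj a
    exact ⟨x, hx, by rw [hxa, Submodule.projectionOnto_apply_left]⟩
  nondeg := by
    intro a ha
    apply Subtype.ext
    apply D.nondeg
    intro c
    have h1 := Submodule.projection_add_projection_eq_self h c
    rw [← h1, map_add, LinearMap.add_apply]
    have h2 : D.b (G.projection Gp h c) (a : A) = 0 := ha (G.projectionOnto Gp h c)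
    have h3 : D.b (Gp.projection G h.symm c) (a : A) = 0 :=
      horth _ a.2 _ (Submodule.projection_apply_mem _ _)
    rw [h2, h3, add_zero]
  stein := by
    intro x y hx hy hxy
    exact hst x y hx hy hxy

/-- CASE 2. -/
theorem case2 [Infinite K] [Finite A] [Nontrivial A] {r : A → K} (hr : ∀ a, r a ≠ 0)
    (hZ : ∀ Z : Finset K, ∃ x, x ∉ D.U0 r ∧ D.GZ Z x ≠ ⊤) :
    ∃ (G Gp : Submodule (ZMod p) A) (h : IsCompl G Gp), G ≠ ⊤ ∧ G ≠ ⊥ ∧
      (∀ g ∈ G, ∀ d ∈ Gp, D.b d g = 0) ∧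
      ∀ x y : K, x ≠ 0 → y ≠ 0 → x + y = 1 →
        D.b (G.projection Gp h (D.cl x)) (G.projection Gp h (D.cl y)) = 0 := by
  classical
  have h0U : (0 : K) ∈ D.U0 r := D.zero_mem (D.U0_mem hr)
  -- the ultrafilter
  let X : Finset K → Set K := fun Z => {x | x ∉ D.U0 r ∧ D.GZ Z x ≠ ⊤}
  have hmono : ∀ Z Z' : Finset K, Z ⊆ Z' → X Z' ⊆ X Z := by
    intro Z Z' hZZ x hx
    refine ⟨hx.1, ?_⟩
    intro htop
    apply hx.2
    rw [eq_top_iff, ← htop]
    apply Submodule.span_mono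
    rintro a ⟨z, hz, hz0, hzx, rfl⟩
    exact ⟨z, hZZ hz, hz0, hzx, rfl⟩
  have hdir : Directed (· ≥ ·) (fun Z : Finset K => 𝓟 (X Z)) := by
    intro Z Z'
    refine ⟨Z ∪ Z', ?_, ?_⟩
    · exact Filter.principal_mono.2 (hmono _ _ Finset.subset_union_left)
    · exact Filter.principal_mono.2 (hmono _ _ Finset.subset_union_right)
  have hne : (⨅ Z : Finset K, 𝓟 (X Z)).NeBot := by
    apply Filter.iInf_neBot_of_directed hdir
    intro Z
    rw [Filter.principal_neBot_iff]
    exact hZ Z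
  let UU : Ultrafilter K := Ultrafilter.of (⨅ Z : Finset K, 𝓟 (X Z))
  have hUU : ∀ Z : Finset K, ∀ᶠ x in (UU : Filter K), x ∈ X Z := by
    intro Z
    exact Ultrafilter.of_le _ (Filter.mem_iInf_of_mem Z (Filter.mem_principal_self _))
  -- not principal
  have hnp : ∀ x0 : K, ∀ᶠ x in (UU : Filter K), x ≠ x0 := by
    intro x0
    by_cases hx0 : x0 = 0
    · subst hx0
      filter_upwards [hUU ∅] with x hx h
      subst h
      exact hx.1 h0U
    · have h1 : ∀ a : A, ∃ z : K, z ≠ 0 ∧ D.cl z = a ∧ z - x0 ≠ 0 ∧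
          D.cl (z - x0) = D.cl (-x0) := by
        intro a
        obtain ⟨z, ⟨hz0, hza⟩, hz1, hz2⟩ :=
          ((D.freq_class a).and_eventually (D.ev_V1 (neg_ne_zero.2 hx0))).exists
        refine ⟨z, hz0, hza, ?_, ?_⟩
        · rwa [sub_eq_neg_add]
        · rwa [sub_eq_neg_add]
      choose zz hzz using h1
      have : Fintype A := Fintype.ofFinite A
      filter_upwards [hUU (Finset.univ.image zz)] with x hx h
      subst h
      apply hx.2
      rw [eq_top_iff]
      intro c _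
      apply Submodule.subset_span
      refine ⟨zz (D.cl (-x) - c), by simp, (hzz _).1, (hzz _).2.2.1, ?_⟩
      rw [(hzz _).2.2.2, (hzz _).2.1]
      abel
  -- limits
  obtain ⟨β, hβ⟩ := exists_lim UU (fun x => D.cl x)
  have h1 : ∀ z : K, ∃ a, ∀ᶠ x in (UU : Filter K), D.cl (z - x) - D.cl z = a :=
    fun z => exists_lim UU _
  choose eps heps using h1
  have h2 : ∀ s : K, ∃ a, ∀ᶠ x in (UU : Filter K), D.cl (x + s) - D.cl x = a :=
    fun s => exists_lim UU _
  choose dl hdl using h2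
  have heq : ∀ z : K, z ≠ 0 → eps z = D.cl (-1) + β + dl (-z) - D.cl z := by
    intro z hz
    obtain ⟨x, hx1, hx2, hx3, hx4⟩ := ((heps z).and ((hdl (-z)).and (hβ.and (hnp z)))).exists
    have h3 : x - z ≠ 0 := sub_ne_zero.2 hx4
    rw [← hx1, ← hx2, ← hx3]
    have h4 : z - x = -(x - z) := by ring
    rw [h4, D.cl_neg h3, ← sub_eq_add_neg x z]
    abel
  -- the span
  let G : Submodule (ZMod p) A := Submodule.span (ZMod p) {a | ∃ z, z ≠ 0 ∧ a = eps z}
  have hZ0 : ∃ Z0 : Finset K, ∀ z, z ≠ 0 → ∃ z' ∈ Z0, z' ≠ 0 ∧ eps z' = eps z := by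
    have : Fintype A := Fintype.ofFinite A
    have h3 : ∀ a : A, ∃ w : K, (∃ z, z ≠ 0 ∧ eps z = a) → (w ≠ 0 ∧ eps w = a) := by
      intro a
      by_cases h : ∃ z, z ≠ 0 ∧ eps z = a
      · obtain ⟨z, hz⟩ := h
        exact ⟨z, fun _ => hz⟩
      · exact ⟨0, fun h' => absurd h' h⟩
    choose w hw using h3
    refine ⟨Finset.univ.image w, ?_⟩
    intro z hz
    have := hw (eps z) ⟨z, hz, rfl⟩
    exact ⟨w (eps z), by simp, this.1, this.2⟩
  obtain ⟨Z0, hZ0⟩ := hZ0
  have hGtop : G ≠ ⊤ := by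
    have h3 : ∀ᶠ x in (UU : Filter K), ∀ z ∈ Z0, D.cl (z - x) - D.cl z = eps z ∧ x ≠ z := by
      rw [Filter.eventually_all_finset]
      intro z _
      exact (heps z).and (hnp z)
    obtain ⟨x, hx1, hx2⟩ := ((hUU Z0).and h3).exists
    intro htop
    apply hx1.2
    rw [eq_top_iff, ← htop]
    apply Submodule.span_le.2
    rintro a ⟨z, hz, rfl⟩
    obtain ⟨z', hz', hz'0, hz'e⟩ := hZ0 z hz
    apply Submodule.subset_span
    refine ⟨z', hz', hz'0, sub_ne_zero.2 (Ne.symm (hx2 z' hz').2), ?_⟩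
    rw [← hz'e, (hx2 z' hz').1]
  let Gp : Submodule (ZMod p) A := D.perp G
  have horth : ∀ g ∈ G, ∀ d ∈ Gp, D.b d g = 0 := fun g hg d hd => hd g hg
  -- delta is in Gp for small s
  have hdGp : ∀ᶠ s in D.N, dl s ∈ Gp := by
    have h3 : ∀ᶠ s in D.N, ∀ z ∈ Z0, z ≠ 0 → z + s ≠ 0 ∧ D.cl (z + s) = D.cl z := by
      rw [Filter.eventually_all_finset]
      intro z _
      by_cases hz0 : z = 0
      · filter_upwards with τ h
        exact absurd hz0 h
      · filter_upwards [D.ev_V1 hz0] with τ h _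
        exact h
    filter_upwards [h3] with s hs
    intro g hg
    have h4 : ∀ z ∈ Z0, z ≠ 0 → D.b (dl s) (eps z) = 0 := by
      intro z hz hz0
      obtain ⟨x, hx1, hx2, hx3, hx4, hx5⟩ :=
        ((heps z).and ((hdl s).and ((hnp z).and ((hnp 0).and (hnp (-s)))))).exists
      rw [← hx1, ← hx2]
      apply D.L1 hx4 hz0 (sub_ne_zero.2 (Ne.symm hx3)) (hs z hz hz0).1 (hs z hz hz0).2
      intro h
      exact hx5 (eq_neg_of_add_eq_zero_left h)
    induction hg using Submodule.span_induction with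
    | mem a ha =>
        obtain ⟨z, hz, rfl⟩ := ha
        obtain ⟨z', hz', hz'0, hz'e⟩ := hZ0 z hz
        rw [← hz'e]
        exact h4 z' hz' hz'0
    | zero => simp
    | add a c _ _ ha hc => rw [map_add, ha, hc, add_zero]
    | smul r a _ ha => rw [map_smul, ha, smul_zero]
  have hepsG : ∀ z, z ≠ 0 → eps z ∈ G := fun z hz => Submodule.subset_span ⟨z, hz, rfl⟩
  -- G and Gp span
  have hspan : ∀ c : A, c - (D.cl (-1) + β) ∈ G ⊔ Gp := by
    intro c
    have h3 : ∀ᶠ s in D.N, dl (-s) ∈ Gp := D.tendsto_neg.eventually hdGp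
    obtain ⟨s, ⟨hs0, hsc⟩, hs⟩ := ((D.freq_class c).and_eventually h3).exists
    have h4 := heq s hs0
    rw [hsc] at h4
    have h5 : c - (D.cl (-1) + β) = dl (-s) - eps s := by
      rw [h4]; abel
    rw [h5]
    exact Submodule.sub_mem _ (Submodule.mem_sup_right hs) (Submodule.mem_sup_left (hepsG s hs0))
  have hsup : G ⊔ Gp = ⊤ := by
    rw [eq_top_iff]
    intro c _
    have h3 := hspan (c + (D.cl (-1) + β))
    simpa using h3
  have hinf : G ⊓ Gp = ⊥ := by
    rw [eq_bot_iff]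
    rintro g ⟨hg1, hg2⟩
    rw [Submodule.mem_bot]
    apply D.nondeg'
    intro c
    have hc : c ∈ G ⊔ Gp := by rw [hsup]; exact Submodule.mem_top
    obtain ⟨c1, hc1, c2, hc2, rfl⟩ := Submodule.mem_sup.1 hc
    rw [map_add, horth c1 hc1 g hg2, D.b_antisymm, horth g hg1 c2 hc2]
    simp
  have hcompl : IsCompl G Gp := IsCompl.of_eq hinf hsup
  -- G is not zero
  have hGbot : G ≠ ⊥ := by
    intro hbot
    have h3 : ∀ z, z ≠ 0 → eps z = 0 := by
      intro z hz
      have := hepsG z hz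
      rwa [hbot, Submodule.mem_bot] at this
    have : Fintype A := Fintype.ofFinite A
    have h4 : ∀ᶠ x in (UU : Filter K), ∀ a, (r a - x ≠ 0 ∧ D.cl (r a - x) = D.cl (r a)) ∧
        (- r a - x ≠ 0 ∧ D.cl (- r a - x) = D.cl (- r a)) := by
      rw [eventually_all]
      intro a
      filter_upwards [heps (r a), heps (- r a), hnp (r a), hnp (- r a)] with x hx1 hx2 hx3 hx4
      rw [h3 _ (hr a)] at hx1
      rw [h3 _ (neg_ne_zero.2 (hr a))] at hx2
      exact ⟨⟨sub_ne_zero.2 (Ne.symm hx3), sub_eq_zero.1 hx1⟩,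
        ⟨sub_ne_zero.2 (Ne.symm hx4), sub_eq_zero.1 hx2⟩⟩
    obtain ⟨x, hx1, hx2⟩ := ((hUU ∅).and h4).exists
    apply hx1.1
    have h5 : -x ∈ D.U0 r := by
      intro a
      rw [← sub_eq_add_neg, ← sub_eq_add_neg]
      exact hx2 a
    have := D.U0_neg hr h5
    rwa [neg_neg] at this
  refine ⟨G, Gp, hcompl, hGtop, hGbot, horth, ?_⟩
  -- delta formula
  have hdform : ∀ᶠ s in D.N, s ≠ 0 → dl s = Gp.projection G hcompl.symm (D.cl s - β) := by
    filter_upwards [hdGp] with s hs hs0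
    have h3 := heq (-s) (neg_ne_zero.2 hs0)
    rw [neg_neg, D.cl_neg hs0] at h3
    have h4 : D.cl s - β = dl s - eps (-s) := by
      rw [h3]; abel
    rw [h4, map_sub, Submodule.projection_apply_of_mem_left hcompl.symm hs,
      Submodule.projection_apply_of_mem_right hcompl.symm (hepsG _ (neg_ne_zero.2 hs0)), sub_zero]
  -- (*)
  have hstar : ∀ l : K, l ≠ 0 → ∀ l' : K, l' ≠ 0 → ∃ y : K, y ≠ 0 ∧ D.cl y = 0 ∧
      (l + y ≠ 0 ∧ D.cl (l + y) = Gp.projection G hcompl.symm (D.cl l)) ∧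
      (l' + y ≠ 0 ∧ D.cl (l' + y) = Gp.projection G hcompl.symm (D.cl l')) := by
    intro l hl l' hl'
    have h3 := (D.tendsto_smul l).eventually hdform
    have h4 := (D.tendsto_smul l').eventually hdform
    obtain ⟨s, ⟨hs0, hsβ⟩, hs1, hs2⟩ :=
      ((D.freq_class β).and_eventually (h3.and h4)).exists
    have hs1' := hs1 (mul_ne_zero hl hs0)
    have hs2' := hs2 (mul_ne_zero hl' hs0)
    rw [D.cl_mul _ _ hl hs0, hsβ, add_sub_cancel_right] at hs1'
    rw [D.cl_mul _ _ hl' hs0, hsβ, add_sub_cancel_right] at hs2'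
    obtain ⟨x, hx1, hx2, hx3, hx4, hx5, hx6⟩ :=
      ((hdl (l * s)).and ((hdl (l' * s)).and (hβ.and ((hnp 0).and
        ((hnp (-(l * s))).and (hnp (-(l' * s)))))))).exists
    have hx7 : x + l * s ≠ 0 := fun h => hx5 (eq_neg_of_add_eq_zero_left h)
    have hx8 : x + l' * s ≠ 0 := fun h => hx6 (eq_neg_of_add_eq_zero_left h)
    refine ⟨x / s, div_ne_zero hx4 hs0, ?_, ⟨?_, ?_⟩, ⟨?_, ?_⟩⟩
    · rw [D.cl_div hx4 hs0, hx3, hsβ, sub_self]
    · have e : l + x / s = (x + l * s) / s := by field_simp; ring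
      rw [e]
      exact div_ne_zero hx7 hs0
    · have e : l + x / s = (x + l * s) / s := by field_simp; ring
      rw [e, D.cl_div hx7 hs0, hsβ, ← hs1', ← hx1, hx3]
    · have e : l' + x / s = (x + l' * s) / s := by field_simp; ring
      rw [e]
      exact div_ne_zero hx8 hs0
    · have e : l' + x / s = (x + l' * s) / s := by field_simp; ring
      rw [e, D.cl_div hx8 hs0, hsβ, ← hs2', ← hx2, hx3]
  -- the Steinberg relation for the projected form
  intro x1 x2 hx1 hx2 hx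
  obtain ⟨y, hy0, hycl, ⟨hy1, hy2⟩, ⟨hy3, hy4⟩⟩ := hstar 1 one_ne_zero x2⁻¹ (inv_ne_zero hx2)
  rw [D.cl_one, map_zero] at hy2
  rw [D.cl_inv hx2, map_neg] at hy4
  have hy5 : 1 + x2 * y ≠ 0 := by
    have e : 1 + x2 * y = x2 * (x2⁻¹ + y) := by field_simp
    rw [e]
    exact mul_ne_zero hx2 hy3
  have hy6 : D.cl (1 + x2 * y) = G.projection Gp hcompl (D.cl x2) := by
    have e : 1 + x2 * y = x2 * (x2⁻¹ + y) := by field_simp
    rw [e, D.cl_mul _ _ hx2 hy3, hy4]
    have h3 := Submodule.projection_add_projection_eq_self hcompl (D.cl x2)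
    nth_rewrite 1 [← h3]
    abel
  have h3 := D.stein (x1 * y / (1 + y)) ((1 + x2 * y) / (1 + y))
    (div_ne_zero (mul_ne_zero hx1 hy0) hy1) (div_ne_zero hy5 hy1) (by
      rw [← add_div, div_eq_one_iff_eq hy1]
      linear_combination y * hx)
  rw [D.cl_div (mul_ne_zero hx1 hy0) hy1, D.cl_div hy5 hy1, hy2, hy6, D.cl_mul _ _ hx1 hy0, hycl,
    add_zero, sub_zero, sub_zero] at h3
  have h4 := Submodule.projection_add_projection_eq_self hcompl (D.cl x1)
  rw [← h4, map_add, LinearMap.add_apply,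
    horth _ (Submodule.projection_apply_mem _ _) _ (Submodule.projection_apply_mem _ _),
    add_zero] at h3
  exact h3

end FSym

end Pool.Agent.Lib.MP_defcf3_al.FR
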