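import Mathlib

/-!
MP_defcf3_al, finite rank theorem (project FR): definitions and statements of the modules.
THEOREM FR: p an odd prime, k a subfield of a field L with [L:k] < p, b a symbol
L^* x L^* -> F_p (bimultiplicative, b(x,1-x) = 0) with k^* in the radical of b and the radical of
finite index. Then b = 0.
-/

set_option autoImplicit false

namespace Pool.Agent.Lib.MP_defcf3_al.FR

open Filter

universe u

/-- Symbols `K^* x K^* -> F_p`: bimultiplicative with the Steinberg relation. -/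
def Sym (p : ℕ) (K : Type u) [Field K] : Submodule (ZMod p) (Kˣ → Kˣ → ZMod p) where
  carrier := {b | (∀ x y z, b (x * y) z = b x z + b y z) ∧
    (∀ x y z, b x (y * z) = b x y + b x z) ∧ ∀ x y : Kˣ, (x : K) + y = 1 → b x y = 0}
  add_mem' := by
    rintro b c ⟨h1, h2, h3⟩ ⟨g1, g2, g3⟩
    refine ⟨?_, ?_, ?_⟩
    · intro x y z
      simp only [Pi.add_apply, h1, g1]
      ring
    · intro x y z
      simp only [Pi.add_apply, h2, g2]
      ring
    · intro x y h
      simp only [Pi.add_apply, h3 x y h, g3 x y h, add_zero]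
  zero_mem' := by simp
  smul_mem' := by
    rintro r b ⟨h1, h2, h3⟩
    refine ⟨?_, ?_, ?_⟩
    · intro x y z
      simp only [Pi.smul_apply, h1, smul_add]
    · intro x y z
      simp only [Pi.smul_apply, h2, smul_add]
    · intro x y h
      simp only [Pi.smul_apply, h3 x y h, smul_zero]

/-- The radical of a symbol. -/
def Rad {p : ℕ} {K : Type u} [Field K] (b : Kˣ → Kˣ → ZMod p) (hb : b ∈ Sym p K) :
    Subgroup Kˣ where
  carrier := {x | ∀ y, b x y = 0}
  mul_mem' := by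
    intro x y hx hy z
    rw [hb.1, hx z, hy z, add_zero]
  one_mem' := by
    intro z
    have h := hb.1 1 1 z
    rw [mul_one] at h
    simpa using h
  inv_mem' := by
    intro x hx z
    have h := hb.1 x x⁻¹ z
    have h1 := hb.1 1 1 z
    rw [mul_one] at h1
    have h2 : b 1 z = 0 := by simpa using h1
    rw [mul_inv_cancel, h2, hx z, zero_add] at h
    exact h.symm

/-- `N` is the neighbourhood filter of `0` of a (non-discrete, Hausdorff) V-topology. -/
structure IsVTop {K : Type u} [Field K] (N : Filter K) : Prop where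
  zero_mem : ∀ S ∈ N, (0 : K) ∈ S
  smul_mem : ∀ t : K, ∀ S ∈ N, {x | t * x ∈ S} ∈ N
  add_mem : ∀ S ∈ N, ∃ T ∈ N, ∀ x ∈ T, ∀ y ∈ T, x + y ∈ S
  mul_mem : ∀ S ∈ N, ∃ T ∈ N, ∀ x ∈ T, ∀ y ∈ T, x * y ∈ S
  nontriv : ∀ S ∈ N, ∃ x ∈ S, x ≠ 0
  haus : ∀ x : K, x ≠ 0 → ∃ S ∈ N, x ∉ S
  vprop : ∀ S ∈ N, ∃ T ∈ N, ∀ x y : K, x * y ∈ T → x ∈ S ∨ y ∈ S

/-- A set of units is a neighbourhood of `1` for `N`. -/
def OpenIn {K : Type u} [Field K] (N : Filter K) (R : Set Kˣ) : Prop :=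
  ∀ᶠ s in N, ∀ x : Kˣ, (x : K) = 1 + s → x ∈ R

/-- `O` is a valuation ring which induces the topology `N`. -/
def Induces {K : Type u} [Field K] (O : ValuationSubring K) (N : Filter K) : Prop :=
  N.HasBasis (fun t : K => t ≠ 0) (fun t => {x | O.valuation x < O.valuation t})

/-- A real valued quasi-valuation `v` (`v (x y) = v x + v y`,
`v (x + y) >= min (v x) (v y) - a`) inducing `N`. The value `v 0` is irrelevant. -/
structure QVal {K : Type u} [Field K] (N : Filter K) where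
  v : K → ℝ
  a : ℝ
  map_mul : ∀ x y : K, x ≠ 0 → y ≠ 0 → v (x * y) = v x + v y
  quasi : ∀ x y : K, x ≠ 0 → y ≠ 0 → x + y ≠ 0 → min (v x) (v y) - a ≤ v (x + y)
  basis : N.HasBasis (fun _ : ℝ => True) (fun C => {x | x = 0 ∨ C < v x})

/-- `1 + m` is contained in the set `R` of units, `m` the maximal ideal of `O`. -/
def OneUnits {K : Type u} [Field K] (O : ValuationSubring K) (R : Set Kˣ) : Prop :=
  ∀ x : Kˣ, O.valuation ((x : K) - 1) < 1 → x ∈ R

/-! ### Statements of the modules -/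

/-- DEC: every symbol with radical of finite index is a sum of symbols with larger radical, each
continuous for some V-topology. -/
def StDEC : Prop := ∀ (p : ℕ) [Fact p.Prime] (K : Type u) [Field K] [Infinite K]
  (b : Kˣ → Kˣ → ZMod p) (hb : b ∈ Sym p K), Finite (Kˣ ⧸ Rad b hb) →
  b ∈ Submodule.span (ZMod p) {c : Kˣ → Kˣ → ZMod p | c ∈ Sym p K ∧
    (∀ x, (∀ y, b x y = 0) → ∀ y, c x y = 0) ∧
    ∃ N : Filter K, IsVTop N ∧ OpenIn N {x | ∀ y, c x y = 0}}

/-- VAL. No topologically nilpotent element: arbitrarily coarse valuations. -/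
def StVAL : Prop := ∀ (K : Type u) [Field K] (N : Filter K), IsVTop N →
  (∀ t : K, t ≠ 0 → ¬ Tendsto (fun n : ℕ => t ^ n) atTop N) →
  ∀ S ∈ N, ∃ O : ValuationSubring K, O ≠ ⊤ ∧ Induces O N ∧ ∀ x, O.valuation x < 1 → x ∈ S

/-- QVA. A topologically nilpotent element: quasi-valuation. -/
def StQVA : Prop := ∀ (K : Type u) [Field K] (N : Filter K), IsVTop N →
  (∃ t : K, t ≠ 0 ∧ Tendsto (fun n : ℕ => t ^ n) atTop N) → Nonempty (QVal N)

/-- NAR. If no integer is large, the quasi-valuation is a valuation. -/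
def StNAR : Prop := ∀ (K : Type u) [Field K] (N : Filter K) (Q : QVal N),
  (∀ n : ℕ, (n : K) ≠ 0 → 0 ≤ Q.v (n : K)) →
  ∀ x y : K, x ≠ 0 → y ≠ 0 → x + y ≠ 0 → min (Q.v x) (Q.v y) ≤ Q.v (x + y)

/-- ARC. If some integer is large then every open subgroup `R` containing all `p`-th powers
satisfies `K^* = R u -R`. -/
def StARC : Prop := ∀ (p : ℕ) [Fact p.Prime] (K : Type u) [Field K] (N : Filter K)
  (_ : IsVTop N) (Q : QVal N),
  (∃ n : ℕ, (n : K) ≠ 0 ∧ Q.v (n : K) < 0) → ∀ R : Subgroup Kˣ, OpenIn N (R : Set Kˣ) →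
    (∀ x : Kˣ, x ^ p ∈ R) → ∀ x : Kˣ, x ∈ R ∨ -x ∈ R

/-- TAM: rank one, residue characteristic not `p`: `1 + m` lies in every open subgroup
containing the `p`-th powers. -/
def StTAM : Prop := ∀ (p : ℕ) [Fact p.Prime] (K : Type u) [Field K] (N : Filter K)
  (_ : IsVTop N) (Q : QVal N),
  (∀ x y : K, x ≠ 0 → y ≠ 0 → x + y ≠ 0 → min (Q.v x) (Q.v y) ≤ Q.v (x + y)) →
  (p : K) ≠ 0 → Q.v (p : K) = 0 → ∀ R : Subgroup Kˣ, OpenIn N (R : Set Kˣ) →
  (∀ x : Kˣ, x ^ p ∈ R) → ∀ x : Kˣ, (x : K) = 1 ∨ 0 < Q.v ((x : K) - 1) → x ∈ R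

/-- WIL: rank one, residue characteristic `p`: `1 + m` lies in the radical, by the derivation
argument. Here `[L:k] < p` is essential. -/
def StWIL : Prop := ∀ (p : ℕ) [Fact p.Prime] (_ : Odd p) (L : Type u) [Field L] (k : Subfield L)
  [FiniteDimensional k L] (_ : Module.finrank k L < p) (N : Filter L) (_ : IsVTop N) (Q : QVal N),
  (∀ x y : L, x ≠ 0 → y ≠ 0 → x + y ≠ 0 → min (Q.v x) (Q.v y) ≤ Q.v (x + y)) →
  ((p : L) ≠ 0 → 0 < Q.v (p : L)) →
  ∀ (b : Lˣ → Lˣ → ZMod p) (hb : b ∈ Sym p L), Finite (Lˣ ⧸ Rad b hb) →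
  (∀ x : Lˣ, (x : L) ∈ k → ∀ y, b x y = 0) → OpenIn N {x | ∀ y, b x y = 0} →
  ∀ x : Lˣ, (x : L) = 1 ∨ 0 < Q.v ((x : L) - 1) → ∀ y, b x y = 0

/-- RIN: the valuation ring of a rank one valuation. -/
def StRIN : Prop := ∀ (K : Type u) [Field K] (N : Filter K) (_ : IsVTop N) (Q : QVal N),
  (∀ x y : K, x ≠ 0 → y ≠ 0 → x + y ≠ 0 → min (Q.v x) (Q.v y) ≤ Q.v (x + y)) →
  ∃ O : ValuationSubring K, O ≠ ⊤ ∧ Induces O N ∧
    ∀ x : K, O.valuation x < 1 ↔ x = 0 ∨ 0 < Q.v x

/-- ZOR: a finest valuation ring with `1 + m` in the subgroup `R`. -/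
def StZOR : Prop := ∀ (K : Type u) [Field K] (R : Subgroup Kˣ),
  ∃ O : ValuationSubring K, OneUnits O (R : Set Kˣ) ∧
    ∀ O' : ValuationSubring K, O' ≤ O → OneUnits O' (R : Set Kˣ) → O' = O

/-- RES: passage to the residue field `kappa` of `O` (with `1 + m` in the radical of `b`). The
classes of units exhaust everything because `[L:k] < p`. The symbol `c` of `kappa` has the same
number of classes, contains the residue field `kappa0` of `k` in its radical, and a nontrivial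
valuation ring of `kappa` with `1 + m` in the radical of `c` gives a strictly finer valuation
ring of `L` with `1 + m` in the radical of `b`. -/
def StRES : Prop := ∀ (p : ℕ) [Fact p.Prime] (_ : Odd p) (L : Type u) [Field L] (k : Subfield L)
  [FiniteDimensional k L] (_ : Module.finrank k L < p)
  (b : Lˣ → Lˣ → ZMod p) (hb : b ∈ Sym p L), Finite (Lˣ ⧸ Rad b hb) →
  (∀ x : Lˣ, (x : L) ∈ k → ∀ y, b x y = 0) →
  ∀ O : ValuationSubring L, OneUnits O {x | ∀ y, b x y = 0} →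
  ∃ (kk : Subfield (IsLocalRing.ResidueField O)) (_ : FiniteDimensional kk (IsLocalRing.ResidueField O))
    (c : (IsLocalRing.ResidueField O)ˣ → (IsLocalRing.ResidueField O)ˣ → ZMod p)
    (hc : c ∈ Sym p (IsLocalRing.ResidueField O)),
    Module.finrank kk (IsLocalRing.ResidueField O) < p ∧
    Nat.card ((IsLocalRing.ResidueField O)ˣ ⧸ Rad c hc) = Nat.card (Lˣ ⧸ Rad b hb) ∧
    (∀ x : (IsLocalRing.ResidueField O)ˣ, (x : IsLocalRing.ResidueField O) ∈ kk → ∀ y, c x y = 0) ∧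
    ∀ O' : ValuationSubring (IsLocalRing.ResidueField O), O' ≠ ⊤ →
      OneUnits O' {x | ∀ y, c x y = 0} →
      ∃ O'' : ValuationSubring L, O'' ≤ O ∧ O'' ≠ O ∧ OneUnits O'' {x | ∀ y, b x y = 0}

/-- FIN: symbols of finite fields vanish (`p` odd). -/
def StFIN : Prop := ∀ (p : ℕ) [Fact p.Prime] (_ : Odd p) (K : Type u) [Field K] [Finite K],
  Sym p K = ⊥

/-- MAIN: the finite rank theorem. -/
def StFR : Prop := ∀ (p : ℕ) [Fact p.Prime] (_ : Odd p) (L : Type u) [Field L] (k : Subfield L)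
  [FiniteDimensional k L] (_ : Module.finrank k L < p)
  (b : Lˣ → Lˣ → ZMod p) (hb : b ∈ Sym p L), Finite (Lˣ ⧸ Rad b hb) →
  (∀ x : Lˣ, (x : L) ∈ k → ∀ y, b x y = 0) → b = 0

end Pool.Agent.Lib.MP_defcf3_al.FR
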