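import Mathlib

/-!
Gallai / Hales-Jewett for infinite fields: every finite colouring of an infinite field has,
for every finite set `S`, a monochromatic copy `d * S + b` with `d ≠ 0`.
-/

set_option autoImplicit false

namespace Pool.Agent.Lib.MP_defcf3_al.FR

open Combinatorics

theorem exists_subset_sums_ne_zero (K : Type*) [Field K] [Infinite K] {ι : Type*} [DecidableEq ι]
    (s : Finset ι) : ∃ c : ι → K, ∀ T ⊆ s, T.Nonempty → ∑ i ∈ T, c i ≠ 0 := by
  classical
  induction s using Finset.induction_on with
  | empty =>
      refine ⟨fun _ => 0, ?_⟩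
      intro T hT hne
      rw [Finset.subset_empty] at hT
      subst hT
      exact absurd hne Finset.not_nonempty_empty
  | insert i s hi ih =>
      obtain ⟨c, hc⟩ := ih
      obtain ⟨v, hv⟩ := Infinite.exists_notMem_finset
        ((s.powerset.image (fun T => - ∑ j ∈ T, c j)) : Finset K)
      refine ⟨Function.update c i v, ?_⟩
      intro T hT hne
      by_cases hiT : i ∈ T
      · have h1 : ∑ j ∈ T, Function.update c i v j = v + ∑ j ∈ T.erase i, c j := by
          rw [← Finset.add_sum_erase T _ hiT]
          congr 1
          · simp
          · apply Finset.sum_congr rfl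
            intro j hj
            rw [Function.update_of_ne (Finset.ne_of_mem_erase hj)]
        rw [h1]
        intro h0
        apply hv
        rw [Finset.mem_image]
        refine ⟨T.erase i, ?_, ?_⟩
        · rw [Finset.mem_powerset]
          intro j hj
          have := hT (Finset.mem_of_mem_erase hj)
          rcases Finset.mem_insert.1 this with h | h
          · exact absurd h (Finset.ne_of_mem_erase hj)
          · exact h
        · linear_combination -h0
      · have h1 : ∑ j ∈ T, Function.update c i v j = ∑ j ∈ T, c j := by
          apply Finset.sum_congr rfl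
          intro j hj
          rw [Function.update_of_ne]
          rintro rfl
          exact hiT hj
        rw [h1]
        apply hc T _ hne
        intro j hj
        rcases Finset.mem_insert.1 (hT hj) with h | h
        · subst h; exact absurd hj hiT
        · exact h

theorem gallai_field (K : Type*) [Field K] [Infinite K] {κ : Type*} [Finite κ] (C : K → κ)
    (S : Finset K) : ∃ d : K, d ≠ 0 ∧ ∃ (b : K) (c : κ), ∀ s ∈ S, C (d * s + b) = c := by
  classical
  obtain ⟨ι, hι, h⟩ := Line.exists_mono_in_high_dimension (S : Set K) κ
  obtain ⟨w, hw⟩ := exists_subset_sums_ne_zero K (Finset.univ : Finset ι)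
  obtain ⟨l, c, hl⟩ := h (fun v => C (∑ i, w i * (v i : K)))
  let T : Finset ι := Finset.univ.filter (fun i => l.idxFun i = none)
  have hT : T.Nonempty := by
    obtain ⟨i, hi⟩ := l.proper
    exact ⟨i, by simp [T, hi]⟩
  refine ⟨∑ i ∈ T, w i, hw T (Finset.subset_univ _) hT,
    ∑ i ∈ Finset.univ.filter (fun i => ¬ l.idxFun i = none),
      w i * (((l.idxFun i).map (fun y : (S : Set K) => (y : K))).getD 0), c, ?_⟩
  intro s hs
  have h1 := hl ⟨s, hs⟩
  rw [← h1]
  congr 1
  rw [← Finset.sum_filter_add_sum_filter_not Finset.univ (fun i => l.idxFun i = none)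
    (fun i => w i * ((l ⟨s, hs⟩ i : (S : Set K)) : K)), Finset.sum_mul]
  congr 1
  · apply Finset.sum_congr rfl
    intro i hi
    have hi' : l.idxFun i = none := (Finset.mem_filter.1 hi).2
    rw [Line.apply_none _ _ _ hi']
  · apply Finset.sum_congr rfl
    intro i hi
    have hi' : ¬ l.idxFun i = none := (Finset.mem_filter.1 hi).2
    obtain ⟨y, hy⟩ := Option.ne_none_iff_exists'.1 hi'
    rw [Line.apply_some hy, hy]
    simp

end Pool.Agent.Lib.MP_defcf3_al.FR
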