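import Pool.Agent.Lib.MP_defcf3_al.FR.Defs
import Pool.Agent.Lib.MP_defcf3_al.BRP.H62.Ltrans
import Pool.Agent.Lib.MP_defcf3_al.BRP.H50.Sym

/-! HRT, part 1: the heart for a field F with F^* L^{*p} of finite index in L^*, where L = F(ζ). -/

set_option autoImplicit false

namespace Pool.Agent.Lib.MP_defcf3_al.FR

universe u

open BR7 BRP BRP.H50

/-- The subgroup F^* L^{*p} of L^*. -/
def FLp (p : ℕ) (F L : Type u) [Field F] [Field L] [Algebra F L] : Subgroup Lˣ :=
  (Units.map (algebraMap F L : F →* L)).range ⊔ (powMonoidHom p : Lˣ →* Lˣ).range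

/-- The heart for one field. -/
def HeartAt (ℓ d : ℕ) (F Ω : Type u) [Field F] [Field Ω] [Algebra F Ω] (ζ : Ωˣ) : Prop :=
  ∀ (γ : Ω ≃ₐ[F] Ω) (k : ℕ) (Q : Type u) [AddCommGroup Q] (sym : Ωˣ → Ωˣ → Q) (Γ : AddMonoid.End Q),
    BRP.SymAx ℓ F ζ γ k d sym Γ → NormZero F ζ d sym Γ

/-- The image of the base field. -/
theorem fd_range (F L : Type u) [Field F] [Field L] [Algebra F L] [FiniteDimensional F L] :
    FiniteDimensional (algebraMap F L).fieldRange L ∧
      Module.finrank (algebraMap F L).fieldRange L ≤ Module.finrank F L := by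
  let _ : Algebra F (algebraMap F L).fieldRange := (algebraMap F L).rangeRestrictField.toAlgebra
  have : IsScalarTower F (algebraMap F L).fieldRange L := IsScalarTower.of_algebraMap_eq fun x => rfl
  have h1 : FiniteDimensional (algebraMap F L).fieldRange L :=
    FiniteDimensional.right F (algebraMap F L).fieldRange L
  have h2 : FiniteDimensional F (algebraMap F L).fieldRange :=
    FiniteDimensional.left F (algebraMap F L).fieldRange L
  refine ⟨h1, ?_⟩
  have h3 := Module.finrank_mul_finrank F (algebraMap F L).fieldRange L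
  have h4 : 0 < Module.finrank F (algebraMap F L).fieldRange := Module.finrank_pos
  rw [← h3]
  exact Nat.le_mul_of_pos_left _ h4

variable {ℓ : ℕ} [Fact ℓ.Prime] [Fact (Odd ℓ)]

omit [Fact (Odd ℓ)] in
/-- The order of k modulo ℓ is smaller than ℓ. -/
theorem order_lt {k d : ℕ} (h : orderOf (k : ZMod ℓ) = d) : d < ℓ := by
  have hl := (Fact.out : Nat.Prime ℓ)
  by_cases hk : (k : ZMod ℓ) = 0
  · rw [hk] at h
    have h0 : orderOf (0 : ZMod ℓ) = 0 := by
      rw [orderOf_eq_zero_iff']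
      intro n hn
      rw [zero_pow hn.ne']
      exact zero_ne_one
    rw [← h, h0]
    exact hl.pos
  · have h1 := ZMod.pow_card_sub_one_eq_one hk
    have h2 := orderOf_le_of_pow_eq_one (by have := hl.two_le; omega) h1
    rw [h] at h2
    have := hl.two_le
    omega

/-- The heart from the finite rank theorem. -/
theorem heartAt (hFR : StFR.{u}) {F L Ω : Type u} [Field F] [Field L] [Field Ω] [Algebra F L] [Algebra F Ω]
    [IsGalois F Ω] (φ : L →ₐ[F] Ω) {ζ : Ωˣ} (hζ : IsPrimitiveRoot ζ ℓ) (hL : IsCyclotomicExtension {ℓ} F L)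
    (hfin : Finite (Lˣ ⧸ FLp ℓ F L)) {d : ℕ} (hd : Module.finrank F L = d) : HeartAt ℓ d F Ω ζ := by
  classical
  intro γ k Q _ sym Γ hS
  let _ : Algebra L Ω := φ.toRingHom.toAlgebra
  have : IsScalarTower F L Ω := IsScalarTower.of_algebraMap_eq' φ.comp_algebraMap.symm
  have hfd : FiniteDimensional F L := IsCyclotomicExtension.finiteDimensional {ℓ} F L
  have hl := (Fact.out : Nat.Prime ℓ)
  have : NeZero ℓ := ⟨hl.ne_zero⟩
  set ι : Lˣ →* Ωˣ := Units.map (φ : L →* Ω) with hι
  have hval : ∀ x : Lˣ, ((ι x : Ωˣ) : Ω) = φ x := fun x => rfl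
  have hιL : ∀ x : Lˣ, InL F ζ (ι x) := by
    intro x g hg
    refine Units.ext ?_
    exact BRP.H62.fix_of_stab hζ hL g hg (x : L)
  have hιF : ∀ f : Fˣ, InF F (ι (Units.map (algebraMap F L : F →* L) f)) := by
    intro f g
    refine Units.ext ?_
    show g (φ (algebraMap F L f)) = φ (algebraMap F L f)
    rw [φ.commutes, g.commutes]
  -- every element of F(ζ) comes from L
  have hsurj : ∀ a : Ωˣ, InL F ζ a → ∃ x : Lˣ, ι x = a := by
    intro a ha
    obtain ⟨z, hz⟩ := hL.exists_isPrimitiveRoot (Set.mem_singleton ℓ) hl.ne_zero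
    have hz' : IsPrimitiveRoot (φ z) ℓ := hz.map_of_injective φ.injective
    have hζ' : (ζ : Ω) ^ ℓ = 1 := by rw [← Units.val_pow_eq_pow_val, hζ.pow_eq_one, Units.val_one]
    obtain ⟨i, -, hi⟩ := hz'.eq_pow_of_pow_eq_one hζ'
    have hmem : (ζ : Ω) ∈ φ.fieldRange := by
      rw [← hi, ← map_pow]
      exact ⟨z ^ i, rfl⟩
    have h1 : (a : Ω) ∈ IntermediateField.fixedField (φ.fieldRange).fixingSubgroup := by
      rw [IntermediateField.mem_fixedField_iff]
      intro g hg
      have h2 : g • ζ = ζ := Units.ext ((IntermediateField.mem_fixingSubgroup_iff _ g).1 hg _ hmem)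
      exact congrArg Units.val (ha g h2)
    rw [InfiniteGalois.fixedField_fixingSubgroup] at h1
    obtain ⟨x, hx⟩ := h1
    have hx : φ x = (a : Ω) := hx
    have hx0 : x ≠ 0 := by
      rintro rfl
      rw [map_zero] at hx
      exact a.ne_zero hx.symm
    exact ⟨Units.mk0 x hx0, Units.ext hx⟩
  -- the norm
  set Nf : Q →+ Q := ∑ i ∈ Finset.range d, ((Γ ^ i : AddMonoid.End Q) : Q →+ Q) with hNf
  have hNfa : ∀ q, Nf q = ∑ i ∈ Finset.range d, (Γ ^ i) q := by
    intro q
    rw [hNf, AddMonoidHom.finsetSum_apply]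
    rfl
  have htors : ∀ x y : Lˣ, ℓ • Nf (sym (ι x) (ι y)) = 0 := by
    intro x y
    rw [← map_nsmul, hS.tors _ _ (hιL x) (hιL y), map_zero]
  let Q' : AddSubgroup Q := (nsmulAddMonoidHom ℓ : Q →+ Q).ker
  let _ : Module (ZMod ℓ) Q' := AddCommGroup.zmodModule (n := ℓ) fun x => Subtype.ext x.2
  let T : Lˣ → Lˣ → Q' := fun x y => ⟨Nf (sym (ι x) (ι y)), htors x y⟩
  have hTl : ∀ x y z, T (x * y) z = T x z + T y z := by
    intro x y z
    refine Subtype.ext ?_
    show Nf (sym (ι (x * y)) (ι z)) = Nf (sym (ι x) (ι z)) + Nf (sym (ι y) (ι z))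
    rw [map_mul, hS.add_left _ _ _ (hιL x) (hιL y) (hιL z), map_add]
  have hTr : ∀ x y z, T x (y * z) = T x y + T x z := by
    intro x y z
    refine Subtype.ext ?_
    show Nf (sym (ι x) (ι (y * z))) = Nf (sym (ι x) (ι y)) + Nf (sym (ι x) (ι z))
    rw [map_mul, hS.add_right _ _ _ (hιL x) (hιL y) (hιL z), map_add]
  have hTs : ∀ x y : Lˣ, (x : L) + y = 1 → T x y = 0 := by
    intro x y h
    refine Subtype.ext ?_
    show Nf (sym (ι x) (ι y)) = 0
    rw [hS.stein _ _ (hιL x) (hιL y) (by rw [hval, hval, ← map_add, h, map_one]), map_zero]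
  have hTF : ∀ (f : Fˣ) (y : Lˣ), T (Units.map (algebraMap F L : F →* L) f) y = 0 := by
    intro f y
    refine Subtype.ext ?_
    show Nf (sym _ (ι y)) = 0
    rw [hNfa]
    exact hS.triv _ _ (hιF f) (hιL y)
  intro a b ha hb
  obtain ⟨x₀, rfl⟩ := hsurj a ha
  obtain ⟨y₀, rfl⟩ := hsurj b hb
  by_contra hne
  have hv : T x₀ y₀ ≠ 0 := by
    intro h
    apply hne
    rw [← hNfa]
    exact congrArg Subtype.val h
  obtain ⟨D, hD⟩ : ∃ D : Module.Dual (ZMod ℓ) Q', D (T x₀ y₀) ≠ 0 := by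
    by_contra hcon
    push Not at hcon
    exact hv ((Module.forall_dual_apply_eq_zero_iff (ZMod ℓ) _).1 hcon)
  set b : Lˣ → Lˣ → ZMod ℓ := fun x y => D (T x y) with hbdef
  have hbS : b ∈ Sym ℓ L := by
    refine ⟨fun x y z => ?_, fun x y z => ?_, fun x y h => ?_⟩
    · show D (T (x * y) z) = _
      rw [hTl, map_add]
    · show D (T x (y * z)) = _
      rw [hTr, map_add]
    · show D (T x y) = 0
      rw [hTs x y h, map_zero]
  have hpow : ∀ (x y : Lˣ) (n : ℕ), b (x ^ n) y = n • b x y := by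
    intro x y n
    induction n with
    | zero =>
      have h := hbS.1 1 1 y
      rw [mul_one] at h
      rw [pow_zero, zero_smul]
      simpa using h
    | succ n ih => rw [pow_succ, hbS.1, ih, succ_nsmul]
  have hle : FLp ℓ F L ≤ Rad b hbS := by
    refine sup_le ?_ ?_
    · rintro _ ⟨f, rfl⟩ y
      show D (T _ y) = 0
      rw [hTF, map_zero]
    · rintro _ ⟨x, rfl⟩ y
      rw [powMonoidHom_apply, hpow, nsmul_eq_mul, ZMod.natCast_self, zero_mul]
  have hfin2 : Finite (Lˣ ⧸ Rad b hbS) := by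
    have : (FLp ℓ F L).FiniteIndex := Subgroup.finiteIndex_of_finite_quotient
    have : (Rad b hbS).FiniteIndex := Subgroup.finiteIndex_of_le hle
    exact Subgroup.finite_quotient_of_finiteIndex
  obtain ⟨h1, h2⟩ := fd_range F L
  have hlt : Module.finrank (algebraMap F L).fieldRange L < ℓ := by
    have h3 := order_lt hS.ord
    omega
  have h0 := hFR ℓ (Fact.out : Odd ℓ) L (algebraMap F L).fieldRange hlt b hbS hfin2 (by
    rintro x ⟨f, hf⟩ y
    have hf0 : f ≠ 0 := by
      rintro rfl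
      rw [map_zero] at hf
      exact x.ne_zero hf.symm
    have hx : x = Units.map (algebraMap F L : F →* L) (Units.mk0 f hf0) := Units.ext hf.symm
    show D (T x y) = 0
    rw [hx, hTF, map_zero])
  exact hD (congrFun (congrFun h0 x₀) y₀)

end Pool.Agent.Lib.MP_defcf3_al.FR
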