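import Pool.Agent.Lib.MP_defcf3_al.FR.Defs

/-! Weights: an equivariant symbol has a radical of finite index as soon as for every i = 2, .., d-1 one of the weight
spaces of weights i and d+1-i of L^*/L^{*p} is finite. -/

set_option autoImplicit false

namespace Pool.Agent.Lib.MP_defcf3_al.FR

universe u

/-- The elements of L^* of weight i: g x = x^(ω(g)^i) modulo p-th powers for all g in Gal(L/F), where g acts on the p-th
roots of unity by z ↦ z^ω(g). -/
def Wt (p : ℕ) (F L : Type u) [Field F] [Field L] [Algebra F L] (i : ℕ) : Subgroup Lˣ where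
  carrier := {x | ∀ (g : L ≃ₐ[F] L) (n : ℕ), (∀ z : Lˣ, z ^ p = 1 → g • z = z ^ n) →
    ∃ y : Lˣ, g • x = x ^ n ^ i * y ^ p}
  mul_mem' := by
    intro x x' hx hx' g n hn
    obtain ⟨y, hy⟩ := hx g n hn
    obtain ⟨y', hy'⟩ := hx' g n hn
    refine ⟨y * y', ?_⟩
    rw [smul_mul', hy, hy', mul_pow, mul_pow]
    exact mul_mul_mul_comm _ _ _ _
  one_mem' := by
    intro g n _
    exact ⟨1, by rw [smul_one, one_pow, one_pow, one_mul]⟩
  inv_mem' := by
    intro x hx g n hn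
    obtain ⟨y, hy⟩ := hx g n hn
    refine ⟨y⁻¹, ?_⟩
    rw [smul_inv', hy, mul_inv, inv_pow, inv_pow]

/-- The p-th powers. -/
abbrev Pw (p : ℕ) (L : Type u) [Field L] : Subgroup Lˣ := (powMonoidHom p : Lˣ →* Lˣ).range

theorem pow_mod {ℓ : ℕ} {G : Type*} [Group G] {w : G} (hw : w ^ ℓ = 1) {a b : ℕ}
    (h : (a : ZMod ℓ) = b) : w ^ a = w ^ b := by
  rw [pow_eq_pow_iff_modEq]
  exact ((ZMod.natCast_eq_natCast_iff _ _ _).1 h).of_dvd (orderOf_dvd_of_pow_eq_one hw)

section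

variable {ℓ d k : ℕ} [Fact ℓ.Prime] {F L : Type u} [Field F] [Field L] [Algebra F L] (σ : L ≃ₐ[F] L)

/-- d times the projection to the weight i. -/
def EE (d k : ℕ) (i : ℕ) : Lˣ →* Lˣ where
  toFun x := ∏ j ∈ Finset.range d, ((σ ^ j) • x) ^ k ^ ((d - 1) * i * j)
  map_one' := Finset.prod_eq_one fun j _ => by rw [smul_one, one_pow]
  map_mul' x y := by
    rw [← Finset.prod_mul_distrib]
    exact Finset.prod_congr rfl fun j _ => by rw [smul_mul', mul_pow]

theorem EE_apply (i : ℕ) (x : Lˣ) :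
    EE σ d k i x = ∏ j ∈ Finset.range d, ((σ ^ j) • x) ^ k ^ ((d - 1) * i * j) := rfl

theorem kap_d (hord : orderOf (k : ZMod ℓ) = d) : (k : ZMod ℓ) ^ d = 1 := by
  rw [← hord]; exact pow_orderOf_eq_one _

omit [Fact ℓ.Prime] in
theorem q_pow (w : Lˣ ⧸ Pw ℓ L) : w ^ ℓ = 1 := by
  obtain ⟨x, rfl⟩ := QuotientGroup.mk_surjective w
  rw [← QuotientGroup.mk_pow, QuotientGroup.eq_one_iff]
  exact ⟨x, rfl⟩

omit [Fact ℓ.Prime] in
theorem q_smul (g : L ≃ₐ[F] L) {x y : Lˣ} (h : (x : Lˣ ⧸ Pw ℓ L) = y) :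
    ((g • x : Lˣ) : Lˣ ⧸ Pw ℓ L) = (g • y : Lˣ) := by
  rw [QuotientGroup.eq] at h ⊢
  obtain ⟨z, hz⟩ := h
  refine ⟨g • z, ?_⟩
  have hz : z ^ ℓ = x⁻¹ * y := hz
  show (g • z) ^ ℓ = _
  rw [← smul_pow', hz, smul_mul', smul_inv']

theorem q_EE (hord : orderOf (k : ZMod ℓ) = d) (hσd : ∀ x : Lˣ, (σ ^ d) • x = x) (i : ℕ) (x : Lˣ) :
    ((σ • EE σ d k i x : Lˣ) : Lˣ ⧸ Pw ℓ L) = ((EE σ d k i x ^ k ^ i : Lˣ) : Lˣ ⧸ Pw ℓ L) := by
  have hk := kap_d hord
  let q : Lˣ →* Lˣ ⧸ Pw ℓ L := QuotientGroup.mk' _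
  show q _ = q _
  rw [EE_apply, Finset.smul_prod', map_prod, map_pow, map_prod, ← Finset.prod_pow]
  set u : ℕ → Lˣ ⧸ Pw ℓ L := fun j => (q (((σ ^ j) • x) ^ k ^ ((d - 1) * i * j))) ^ k ^ i with hu
  have e1 : ∀ j ∈ Finset.range d, q (σ • ((σ ^ j) • x) ^ k ^ ((d - 1) * i * j)) = u (j + 1) := by
    intro j hj
    have hd1 : 1 ≤ d := by have := Finset.mem_range.1 hj; omega
    rw [hu]
    dsimp only
    rw [smul_pow', smul_smul, ← pow_succ', map_pow, map_pow, ← pow_mul, ← pow_add]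
    refine pow_mod (q_pow _) ?_
    push_cast
    obtain ⟨e, rfl⟩ : ∃ e, d = e + 1 := ⟨d - 1, by omega⟩
    rw [Nat.add_sub_cancel, show e * i * (j + 1) + i = e * i * j + (e + 1) * i by ring, pow_add, pow_mul _ (e + 1),
      hk, one_pow, mul_one]
  rw [Finset.prod_congr rfl e1]
  have e2 := Finset.prod_range_succ' u d
  rw [Finset.prod_range_succ] at e2
  have e3 : u d = u 0 := by
    rw [hu]
    dsimp only
    rw [hσd, pow_zero, one_smul, map_pow, map_pow]
    congr 1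
    refine pow_mod (q_pow _) ?_
    push_cast
    rw [mul_zero, pow_zero, show (d - 1) * i * d = d * ((d - 1) * i) by ring, pow_mul, hk, one_pow]
  rw [e3] at e2
  have e4 : ∀ {G : Type u} [CommGroup G] (x y z : G), x * z = y * z → x = y := fun x y z h => mul_right_cancel h
  exact (e4 _ _ _ e2).symm

theorem q_EE_pow (hord : orderOf (k : ZMod ℓ) = d) (hσd : ∀ x : Lˣ, (σ ^ d) • x = x) (i : ℕ) (x : Lˣ) (s : ℕ) :
    (((σ ^ s) • EE σ d k i x : Lˣ) : Lˣ ⧸ Pw ℓ L) = ((EE σ d k i x ^ k ^ (i * s) : Lˣ) : Lˣ ⧸ Pw ℓ L) := by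
  induction s with
  | zero => rw [pow_zero, one_smul, mul_zero, pow_zero, pow_one]
  | succ s ih =>
    rw [pow_succ', mul_smul, q_smul σ ih, smul_pow', QuotientGroup.mk_pow, q_EE σ hord hσd, ← QuotientGroup.mk_pow,
      ← pow_mul, ← pow_add, Nat.mul_succ, Nat.add_comm i]

theorem EE_mem (hord : orderOf (k : ZMod ℓ) = d) (hσd : ∀ x : Lˣ, (σ ^ d) • x = x)
    (hgen : ∀ (g : L ≃ₐ[F] L) (n : ℕ), (∀ z : Lˣ, z ^ ℓ = 1 → g • z = z ^ n) →
      ∃ s : ℕ, (∀ x : Lˣ, g • x = (σ ^ s) • x) ∧ (n : ZMod ℓ) = (k : ZMod ℓ) ^ s) (i : ℕ) (x : Lˣ) :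
    EE σ d k i x ∈ Wt ℓ F L i := by
  intro g n hn
  obtain ⟨s, h1, h2⟩ := hgen g n hn
  have h3 : ((g • EE σ d k i x : Lˣ) : Lˣ ⧸ Pw ℓ L) = ((EE σ d k i x ^ n ^ i : Lˣ) : Lˣ ⧸ Pw ℓ L) := by
    rw [h1, q_EE_pow σ hord hσd, QuotientGroup.mk_pow, QuotientGroup.mk_pow]
    refine pow_mod (q_pow _) ?_
    push_cast
    rw [h2, ← pow_mul, Nat.mul_comm]
  rw [eq_comm, QuotientGroup.eq] at h3
  obtain ⟨y, hy⟩ := h3
  refine ⟨y, ?_⟩
  have hy : y ^ ℓ = _ := hy
  rw [hy, mul_inv_cancel_left]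

/-- The radical has finite index, if it contains a subgroup R₀ such that for every i = 2, .., d-1 one of the weight
spaces of weights i and d+1-i is finite modulo R₀ and p-th powers. -/
theorem rad_finR (R₀ : Subgroup Lˣ)
    (b : Lˣ → Lˣ → ZMod ℓ) (hb : b ∈ Sym ℓ L) (hord : orderOf (k : ZMod ℓ) = d) (hd0 : 0 < d)
    (hσd : ∀ x : Lˣ, (σ ^ d) • x = x) (heq : ∀ x y : Lˣ, b (σ • x) (σ • y) = (k : ZMod ℓ) * b x y)
    (hanti : ∀ x y, b x y = -b y x) (hfix : ∀ x : Lˣ, σ • x = x → ∀ y, b x y = 0)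
    (hgen : ∀ (g : L ≃ₐ[F] L) (n : ℕ), (∀ z : Lˣ, z ^ ℓ = 1 → g • z = z ^ n) →
      ∃ s : ℕ, (∀ x : Lˣ, g • x = (σ ^ s) • x) ∧ (n : ZMod ℓ) = (k : ZMod ℓ) ^ s)
    (hR₀ : R₀ ≤ Rad b hb)
    (hW : ∀ i, 2 ≤ i → i < d →
      (Pw ℓ L ⊔ R₀).relIndex (Wt ℓ F L i) ≠ 0 ∨ (Pw ℓ L ⊔ R₀).relIndex (Wt ℓ F L (d + 1 - i)) ≠ 0) :
    Finite (Lˣ ⧸ Rad b hb) := by
  classical
  have hl := (Fact.out : Nat.Prime ℓ)
  have hk := kap_d hord
  set κ : ZMod ℓ := (k : ZMod ℓ) with hκ
  have hκ0 : κ ≠ 0 := by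
    intro h
    rw [h, zero_pow hd0.ne'] at hk
    exact zero_ne_one hk
  have hd1 : (d : ZMod ℓ) ≠ 0 := by
    intro h
    rw [ZMod.natCast_eq_zero_iff] at h
    have h1 := Nat.le_of_dvd hd0 h
    have h2 := orderOf_le_of_pow_eq_one (by have := hl.two_le; omega) (ZMod.pow_card_sub_one_eq_one hκ0)
    rw [hord] at h2
    have := hl.two_le
    omega
  -- elementary properties of b
  have hone : ∀ y, b 1 y = 0 := by
    intro y
    have h := hb.1 1 1 y
    rw [mul_one] at h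
    simpa using h
  have hpowl : ∀ (x y : Lˣ) (n : ℕ), b (x ^ n) y = n * b x y := by
    intro x y n
    induction n with
    | zero => rw [pow_zero, hone, Nat.cast_zero, zero_mul]
    | succ n ih => rw [pow_succ, hb.1, ih, Nat.cast_succ, add_mul, one_mul]
  have hpowr : ∀ (x y : Lˣ) (n : ℕ), b x (y ^ n) = n * b x y := by
    intro x y n
    rw [hanti, hpowl, hanti y x, mul_neg, neg_neg]
  have hprodl : ∀ (s : Finset ℕ) (f : ℕ → Lˣ) (y : Lˣ), b (∏ j ∈ s, f j) y = ∑ j ∈ s, b (f j) y := by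
    intro s f y
    induction s using Finset.induction_on with
    | empty => rw [Finset.prod_empty, Finset.sum_empty, hone]
    | insert j s hj ih => rw [Finset.prod_insert hj, Finset.sum_insert hj, hb.1, ih]
  have hprodr : ∀ (s : Finset ℕ) (f : ℕ → Lˣ) (y : Lˣ), b y (∏ j ∈ s, f j) = ∑ j ∈ s, b y (f j) := by
    intro s f y
    rw [hanti, hprodl, ← Finset.sum_neg_distrib]
    exact Finset.sum_congr rfl fun j _ => (hanti _ _).symm
  have hP : Pw ℓ L ≤ Rad b hb := by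
    rintro _ ⟨x, rfl⟩ y
    rw [powMonoidHom_apply, hpowl, ZMod.natCast_self, zero_mul]
  have hq : ∀ {x y : Lˣ}, (x : Lˣ ⧸ Pw ℓ L) = y → ∀ z, b x z = b y z := by
    intro x y h z
    rw [QuotientGroup.eq] at h
    have h1 := hP h z
    rw [hb.1] at h1
    have h2 := hb.1 x x⁻¹ z
    rw [mul_inv_cancel, hone] at h2
    have h3 : b x⁻¹ z = -b x z := by
      rw [eq_neg_iff_add_eq_zero, add_comm]; exact h2.symm
    rw [h3] at h1
    exact (neg_add_eq_zero.1 h1)
  have hq2 : ∀ {x y : Lˣ}, x⁻¹ * y ∈ Pw ℓ L ⊔ R₀ → ∀ z, b x z = b y z := by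
    intro x y h z
    have h1 := (sup_le hP hR₀) h z
    rw [hb.1] at h1
    have h2 := hb.1 x x⁻¹ z
    rw [mul_inv_cancel, hone] at h2
    have h3 : b x⁻¹ z = -b x z := by
      rw [eq_neg_iff_add_eq_zero, add_comm]; exact h2.symm
    rw [h3] at h1
    exact (neg_add_eq_zero.1 h1)
  have heqs : ∀ (s : ℕ) (x y : Lˣ), b ((σ ^ s) • x) ((σ ^ s) • y) = κ ^ s * b x y := by
    intro s x y
    induction s with
    | zero => rw [pow_zero, one_smul, one_smul, pow_zero, one_mul]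
    | succ s ih => rw [pow_succ', mul_smul, mul_smul, heq, ih, pow_succ', mul_assoc]
  set E := EE σ d k with hE
  have hbE : ∀ i x y, b (E i x) y = ∑ j ∈ Finset.range d, κ ^ ((d - 1) * i * j) * b ((σ ^ j) • x) y := by
    intro i x y
    rw [hE, EE_apply, hprodl]
    refine Finset.sum_congr rfl fun j _ => ?_
    rw [hpowl]
    push_cast
    rfl
  -- the eigenvalue
  have heig : ∀ i x s y, b ((σ ^ s) • E i x) y = κ ^ (i * s) * b (E i x) y := by
    intro i x s y
    rw [hq (q_EE_pow σ hord hσd i x s), hpowl]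
    push_cast
    rfl
  have hmove : ∀ i x s y, b (E i x) ((σ ^ s) • y) = κ ^ (s + (d - 1) * i * s) * b (E i x) y := by
    intro i x s y
    have h1 := heqs s (E i x) y
    rw [heig] at h1
    have h2 : κ ^ ((d - 1) * i * s) * κ ^ (i * s) = 1 := by
      rw [← pow_add]
      obtain ⟨e, rfl⟩ : ∃ e, d = e + 1 := ⟨d - 1, by omega⟩
      rw [Nat.add_sub_cancel, show e * i * s + i * s = (e + 1) * (i * s) by ring, pow_mul, hk, one_pow]
    calc b (E i x) ((σ ^ s) • y) = κ ^ ((d - 1) * i * s) * κ ^ (i * s) * b (E i x) ((σ ^ s) • y) := by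
          rw [h2, one_mul]
      _ = κ ^ ((d - 1) * i * s) * (κ ^ s * b (E i x) y) := by rw [mul_assoc, h1]
      _ = _ := by rw [pow_add]; ring
  have hpair : ∀ i j x y, d ∣ 1 + (d - 1) * (i + j) → b (E i x) (E j y) = d * b (E i x) y := by
    intro i j x y hij
    obtain ⟨r, hr⟩ := hij
    have h0 : E j y = ∏ s ∈ Finset.range d, ((σ ^ s) • y) ^ k ^ ((d - 1) * j * s) := rfl
    rw [h0, hprodr]
    have h1 : ∀ s ∈ Finset.range d, b (E i x) (((σ ^ s) • y) ^ k ^ ((d - 1) * j * s)) = b (E i x) y := by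
      intro s _
      rw [hpowr, hmove]
      push_cast
      rw [← mul_assoc, ← pow_add, show (d - 1) * j * s + (s + (d - 1) * i * s) = (1 + (d - 1) * (i + j)) * s by ring,
        hr, mul_assoc, pow_mul, hk, one_pow, one_mul]
    rw [Finset.sum_congr rfl h1, Finset.sum_const, Finset.card_range, nsmul_eq_mul]
  -- the norm
  have hE0 : ∀ x y, b (E 0 x) y = 0 := by
    intro x y
    refine hfix _ ?_ y
    rw [hE, EE_apply, Finset.smul_prod']
    have e0 : ∀ j ∈ Finset.range d, σ • ((σ ^ j) • x) ^ k ^ ((d - 1) * 0 * j) = (σ ^ (j + 1)) • x := by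
      intro j _
      rw [mul_zero, zero_mul, pow_zero, pow_one, smul_smul, ← pow_succ']
    have e1 : ∀ j ∈ Finset.range d, ((σ ^ j) • x) ^ k ^ ((d - 1) * 0 * j) = (σ ^ j) • x := by
      intro j _
      rw [mul_zero, zero_mul, pow_zero, pow_one]
    rw [Finset.prod_congr rfl e0, Finset.prod_congr rfl e1]
    have e2 := Finset.prod_range_succ' (fun j => (σ ^ j) • x) d
    rw [Finset.prod_range_succ, hσd, pow_zero, one_smul] at e2
    exact (mul_right_cancel e2).symm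
  have hEz : ∀ i j x, d ∣ 1 + (d - 1) * (i + j) → (∀ y, b (E i x) (E j y) = 0) → ∀ y, b (E i x) y = 0 := by
    intro i j x hij h y
    have h1 := hpair i j x y hij
    rw [h y] at h1
    exact (mul_eq_zero.1 h1.symm).resolve_left hd1
  -- the subgroups
  have hKi : ∀ i : Fin d, ((Rad b hb).comap (E i)).FiniteIndex := by
    rintro ⟨i, hi⟩
    show ((Rad b hb).comap (E i)).FiniteIndex
    have htop : (∀ x y, b (E i x) y = 0) → ((Rad b hb).comap (E i)).FiniteIndex := by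
      intro h
      have : (Rad b hb).comap (E i) = ⊤ := by
        rw [eq_top_iff]
        intro x _ y
        exact h x y
      rw [this]
      infer_instance
    by_cases h0 : i = 0
    · rw [h0] at htop ⊢
      exact htop fun x y => hE0 x y
    by_cases h1 : i = 1
    · rw [h1] at htop ⊢
      refine htop fun x => hEz 1 0 x ?_ fun y => by rw [hanti, hE0, neg_zero]
      rw [Nat.add_zero, Nat.mul_one, Nat.add_sub_cancel' hd0]
    -- a finite weight space
    have hfinW : ∀ i, (Pw ℓ L ⊔ R₀).relIndex (Wt ℓ F L i) ≠ 0 → ((Pw ℓ L ⊔ R₀).comap (E i)).FiniteIndex := by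
      intro i h
      refine ⟨?_⟩
      rw [Subgroup.index_comap]
      refine fun h0 => h (Subgroup.relIndex_eq_zero_of_le_right ?_ h0)
      rintro _ ⟨x, rfl⟩
      exact EE_mem σ hord hσd hgen i x
    rcases hW i (by omega) hi with h | h
    · have := hfinW i h
      exact Subgroup.finiteIndex_of_le (Subgroup.comap_mono (sup_le hP hR₀))
    · -- the dual weight space is finite
      set j := d + 1 - i with hj
      have hij : d ∣ 1 + (d - 1) * (i + j) := by
        obtain ⟨e, rfl⟩ : ∃ e, d = e + 1 := ⟨d - 1, by omega⟩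
        rw [Nat.add_sub_cancel, show i + j = e + 1 + 1 by omega]
        exact ⟨e + 1, by ring⟩
      have hQ : Finite (Lˣ ⧸ (Pw ℓ L ⊔ R₀).comap (E j)) := by
        have := hfinW j h
        exact Subgroup.finite_quotient_of_finiteIndex
      let Θ : Lˣ →* Multiplicative ((Lˣ ⧸ (Pw ℓ L ⊔ R₀).comap (E j)) → ZMod ℓ) :=
        { toFun := fun x => Multiplicative.ofAdd fun w => b (E i x) (E j w.out)
          map_one' := by
            refine congrArg Multiplicative.ofAdd (funext fun w => ?_)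
            rw [map_one, hone]; rfl
          map_mul' := by
            intro x y
            rw [← ofAdd_add]
            refine congrArg Multiplicative.ofAdd (funext fun w => ?_)
            rw [map_mul, hb.1]; rfl }
      have hker : Θ.ker ≤ (Rad b hb).comap (E i) := by
        intro x hx
        rw [MonoidHom.mem_ker] at hx
        have hx' : ∀ w : Lˣ ⧸ (Pw ℓ L ⊔ R₀).comap (E j), b (E i x) (E j w.out) = 0 := fun w =>
          congrFun (congrArg Multiplicative.toAdd hx) w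
        show ∀ y, b (E i x) y = 0
        refine hEz i j x hij fun y => ?_
        have h1 := hx' (y : Lˣ ⧸ (Pw ℓ L ⊔ R₀).comap (E j))
        have h2 : (E j (Quotient.out (y : Lˣ ⧸ (Pw ℓ L ⊔ R₀).comap (E j))))⁻¹ * E j y ∈ Pw ℓ L ⊔ R₀ := by
          rw [← map_inv, ← map_mul]
          have h3 := QuotientGroup.out_eq' (y : Lˣ ⧸ (Pw ℓ L ⊔ R₀).comap (E j))
          rw [QuotientGroup.eq] at h3
          exact h3
        rw [hanti, ← hq2 h2, ← hanti]
        exact h1
      have : Θ.ker.FiniteIndex := inferInstance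
      exact Subgroup.finiteIndex_of_le hker
  have hinf : (⨅ i : Fin d, (Rad b hb).comap (E i)) ≤ Rad b hb := by
    intro x hx y
    rw [Subgroup.mem_iInf] at hx
    have h1 : ∀ i ∈ Finset.range d, b (E i x) y = 0 := fun i hi => hx ⟨i, Finset.mem_range.1 hi⟩ y
    have h2 : ∑ i ∈ Finset.range d, b (E i x) y = d * b x y := by
      have h3 : ∀ i ∈ Finset.range d, b (E i x) y =
          ∑ j ∈ Finset.range d, κ ^ ((d - 1) * i * j) * b ((σ ^ j) • x) y := fun i _ => hbE i x y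
      rw [Finset.sum_congr rfl h3, Finset.sum_comm]
      have h4 : ∀ j ∈ Finset.range d, ∑ i ∈ Finset.range d, κ ^ ((d - 1) * i * j) * b ((σ ^ j) • x) y =
          if j = 0 then d * b x y else 0 := by
        intro j hj
        rw [← Finset.sum_mul]
        split_ifs with hj0
        · subst hj0
          rw [pow_zero, one_smul]
          congr 1
          have : ∀ i ∈ Finset.range d, κ ^ ((d - 1) * i * 0) = 1 := fun i _ => by rw [mul_zero, pow_zero]
          rw [Finset.sum_congr rfl this, Finset.sum_const, Finset.card_range, nsmul_eq_mul, mul_one]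
        · have hr : ∀ i ∈ Finset.range d, κ ^ ((d - 1) * i * j) = (κ ^ ((d - 1) * j)) ^ i := fun i _ => by
            rw [← pow_mul]; congr 1; ring
          rw [Finset.sum_congr rfl hr]
          have h5 : κ ^ ((d - 1) * j) ≠ 1 := by
            intro h6
            have h7 := orderOf_dvd_of_pow_eq_one h6
            rw [hord] at h7
            have h8 : d ∣ (d - 1) * j + j := by
              obtain ⟨e, rfl⟩ : ∃ e, d = e + 1 := ⟨d - 1, by omega⟩
              rw [Nat.add_sub_cancel]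
              exact ⟨j, by ring⟩
            have h9 := (Nat.dvd_add_right h7).1 h8
            have h10 := Nat.le_of_dvd (Nat.pos_of_ne_zero hj0) h9
            have := Finset.mem_range.1 hj
            omega
          have h6 := geom_sum_mul (κ ^ ((d - 1) * j)) d
          rw [← pow_mul κ, Nat.mul_comm ((d - 1) * j) d, pow_mul κ d, hk, one_pow, sub_self] at h6
          rw [(mul_eq_zero.1 h6).resolve_right (sub_ne_zero.2 h5), zero_mul]
      rw [Finset.sum_congr rfl h4, Finset.sum_ite_eq' , if_pos (Finset.mem_range.2 hd0)]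
    rw [Finset.sum_eq_zero h1] at h2
    exact (mul_eq_zero.1 h2.symm).resolve_left hd1
  have hfi : (⨅ i : Fin d, (Rad b hb).comap (E i)).FiniteIndex := Subgroup.finiteIndex_iInf hKi
  have : (Rad b hb).FiniteIndex := Subgroup.finiteIndex_of_le hinf
  exact Subgroup.finite_quotient_of_finiteIndex

/-- The radical has finite index. -/
theorem rad_fin (b : Lˣ → Lˣ → ZMod ℓ) (hb : b ∈ Sym ℓ L) (hord : orderOf (k : ZMod ℓ) = d) (hd0 : 0 < d)
    (hσd : ∀ x : Lˣ, (σ ^ d) • x = x) (heq : ∀ x y : Lˣ, b (σ • x) (σ • y) = (k : ZMod ℓ) * b x y)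
    (hanti : ∀ x y, b x y = -b y x) (hfix : ∀ x : Lˣ, σ • x = x → ∀ y, b x y = 0)
    (hgen : ∀ (g : L ≃ₐ[F] L) (n : ℕ), (∀ z : Lˣ, z ^ ℓ = 1 → g • z = z ^ n) →
      ∃ s : ℕ, (∀ x : Lˣ, g • x = (σ ^ s) • x) ∧ (n : ZMod ℓ) = (k : ZMod ℓ) ^ s)
    (hW : ∀ i, 2 ≤ i → i < d →
      (Pw ℓ L).relIndex (Wt ℓ F L i) ≠ 0 ∨ (Pw ℓ L).relIndex (Wt ℓ F L (d + 1 - i)) ≠ 0) :
    Finite (Lˣ ⧸ Rad b hb) :=
  rad_finR σ ⊥ b hb hord hd0 hσd heq hanti hfix hgen bot_le (by rw [sup_bot_eq]; exact hW)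

end

end Pool.Agent.Lib.MP_defcf3_al.FR
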