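import Pool.Agent.Lib.MP_defcf3_al.FR.Hrt1
import Pool.Agent.Lib.MP_defcf3_al.FR.Wt
import Pool.Agent.Lib.MP_defcf3_al.BRP.H50.Small

/-! HRT, part 1, with weights: the heart for a field F such that for every i = 2, .., d-1 one of the weight spaces of
weights i and d+1-i of L^*/L^{*p} is finite (L = F(ζ), d = [L:F]). -/

set_option autoImplicit false

namespace Pool.Agent.Lib.MP_defcf3_al.FR

universe u

open BR7 BRP BRP.H50

/-- For every i = 2, .., d-1 one of the weight spaces of weights i and d+1-i of L^*/L^{*p} is finite. -/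
def FinW (p : ℕ) (F L : Type u) [Field F] [Field L] [Algebra F L] : Prop :=
  ∀ i, 2 ≤ i → i < Module.finrank F L → (Pw p L).relIndex (Wt p F L i) ≠ 0 ∨
    (Pw p L).relIndex (Wt p F L (Module.finrank F L + 1 - i)) ≠ 0

variable {ℓ : ℕ} [Fact ℓ.Prime] [Fact (Odd ℓ)]

/-- The heart from the finite rank theorem, with weights. -/
theorem heartAtW (hFR : StFR.{u}) {F L Ω : Type u} [Field F] [Field L] [Field Ω] [Algebra F L] [Algebra F Ω]
    [IsGalois F Ω] (φ : L →ₐ[F] Ω) {ζ : Ωˣ} (hζ : IsPrimitiveRoot ζ ℓ) (hL : IsCyclotomicExtension {ℓ} F L)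
    (hfin : FinW ℓ F L) {d : ℕ} (hd : Module.finrank F L = d) : HeartAt ℓ d F Ω ζ := by
  classical
  intro γ k Q _ sym Γ hS
  let _ : Algebra L Ω := φ.toRingHom.toAlgebra
  have : IsScalarTower F L Ω := IsScalarTower.of_algebraMap_eq' φ.comp_algebraMap.symm
  have hfd : FiniteDimensional F L := IsCyclotomicExtension.finiteDimensional {ℓ} F L
  have hl := (Fact.out : Nat.Prime ℓ)
  have : NeZero ℓ := ⟨hl.ne_zero⟩
  set ι : Lˣ →* Ωˣ := Units.map (φ : L →* Ω) with hι
  have hval : ∀ x : Lˣ, ((ι x : Ωˣ) : Ω) = φ x := fun x => rfl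
  have hιL : ∀ x : Lˣ, InL F ζ (ι x) := by
    intro x g hg
    refine Units.ext ?_
    exact BRP.H62.fix_of_stab hζ hL g hg (x : L)
  have hιF : ∀ f : Fˣ, InF F (ι (Units.map (algebraMap F L : F →* L) f)) := by
    intro f g
    refine Units.ext ?_
    show g (φ (algebraMap F L f)) = φ (algebraMap F L f)
    rw [φ.commutes, g.commutes]
  -- every element of F(ζ) comes from L
  have hsurj : ∀ a : Ωˣ, InL F ζ a → ∃ x : Lˣ, ι x = a := by
    intro a ha
    obtain ⟨z, hz⟩ := hL.exists_isPrimitiveRoot (Set.mem_singleton ℓ) hl.ne_zero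
    have hz' : IsPrimitiveRoot (φ z) ℓ := hz.map_of_injective φ.injective
    have hζ' : (ζ : Ω) ^ ℓ = 1 := by rw [← Units.val_pow_eq_pow_val, hζ.pow_eq_one, Units.val_one]
    obtain ⟨i, -, hi⟩ := hz'.eq_pow_of_pow_eq_one hζ'
    have hmem : (ζ : Ω) ∈ φ.fieldRange := by
      rw [← hi, ← map_pow]
      exact ⟨z ^ i, rfl⟩
    have h1 : (a : Ω) ∈ IntermediateField.fixedField (φ.fieldRange).fixingSubgroup := by
      rw [IntermediateField.mem_fixedField_iff]
      intro g hg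
      have h2 : g • ζ = ζ := Units.ext ((IntermediateField.mem_fixingSubgroup_iff _ g).1 hg _ hmem)
      exact congrArg Units.val (ha g h2)
    rw [InfiniteGalois.fixedField_fixingSubgroup] at h1
    obtain ⟨x, hx⟩ := h1
    have hx : φ x = (a : Ω) := hx
    have hx0 : x ≠ 0 := by
      rintro rfl
      rw [map_zero] at hx
      exact a.ne_zero hx.symm
    exact ⟨Units.mk0 x hx0, Units.ext hx⟩
  -- the norm
  set Nf : Q →+ Q := ∑ i ∈ Finset.range d, ((Γ ^ i : AddMonoid.End Q) : Q →+ Q) with hNf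
  have hNfa : ∀ q, Nf q = ∑ i ∈ Finset.range d, (Γ ^ i) q := by
    intro q
    rw [hNf, AddMonoidHom.finsetSum_apply]
    rfl
  have htors : ∀ x y : Lˣ, ℓ • Nf (sym (ι x) (ι y)) = 0 := by
    intro x y
    rw [← map_nsmul, hS.tors _ _ (hιL x) (hιL y), map_zero]
  let Q' : AddSubgroup Q := (nsmulAddMonoidHom ℓ : Q →+ Q).ker
  let _ : Module (ZMod ℓ) Q' := AddCommGroup.zmodModule (n := ℓ) fun x => Subtype.ext x.2
  let T : Lˣ → Lˣ → Q' := fun x y => ⟨Nf (sym (ι x) (ι y)), htors x y⟩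
  have hTl : ∀ x y z, T (x * y) z = T x z + T y z := by
    intro x y z
    refine Subtype.ext ?_
    show Nf (sym (ι (x * y)) (ι z)) = Nf (sym (ι x) (ι z)) + Nf (sym (ι y) (ι z))
    rw [map_mul, hS.add_left _ _ _ (hιL x) (hιL y) (hιL z), map_add]
  have hTr : ∀ x y z, T x (y * z) = T x y + T x z := by
    intro x y z
    refine Subtype.ext ?_
    show Nf (sym (ι x) (ι (y * z))) = Nf (sym (ι x) (ι y)) + Nf (sym (ι x) (ι z))
    rw [map_mul, hS.add_right _ _ _ (hιL x) (hιL y) (hιL z), map_add]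
  have hTs : ∀ x y : Lˣ, (x : L) + y = 1 → T x y = 0 := by
    intro x y h
    refine Subtype.ext ?_
    show Nf (sym (ι x) (ι y)) = 0
    rw [hS.stein _ _ (hιL x) (hιL y) (by rw [hval, hval, ← map_add, h, map_one]), map_zero]
  have hTF : ∀ (f : Fˣ) (y : Lˣ), T (Units.map (algebraMap F L : F →* L) f) y = 0 := by
    intro f y
    refine Subtype.ext ?_
    show Nf (sym _ (ι y)) = 0
    rw [hNfa]
    exact hS.triv _ _ (hιF f) (hιL y)
  intro a b ha hb
  obtain ⟨x₀, rfl⟩ := hsurj a ha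
  obtain ⟨y₀, rfl⟩ := hsurj b hb
  by_contra hne
  have hv : T x₀ y₀ ≠ 0 := by
    intro h
    apply hne
    rw [← hNfa]
    exact congrArg Subtype.val h
  obtain ⟨D, hD⟩ : ∃ D : Module.Dual (ZMod ℓ) Q', D (T x₀ y₀) ≠ 0 := by
    by_contra hcon
    push Not at hcon
    exact hv ((Module.forall_dual_apply_eq_zero_iff (ZMod ℓ) _).1 hcon)
  set b : Lˣ → Lˣ → ZMod ℓ := fun x y => D (T x y) with hbdef
  have hbS : b ∈ Sym ℓ L := by
    refine ⟨fun x y z => ?_, fun x y z => ?_, fun x y h => ?_⟩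
    · show D (T (x * y) z) = _
      rw [hTl, map_add]
    · show D (T x (y * z)) = _
      rw [hTr, map_add]
    · show D (T x y) = 0
      rw [hTs x y h, map_zero]
  have hpow : ∀ (x y : Lˣ) (n : ℕ), b (x ^ n) y = n • b x y := by
    intro x y n
    induction n with
    | zero =>
      have h := hbS.1 1 1 y
      rw [mul_one] at h
      rw [pow_zero, zero_smul]
      simpa using h
    | succ n ih => rw [pow_succ, hbS.1, ih, succ_nsmul]
  have hanti : ∀ x y, b x y = -b y x := by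
    intro x y
    show D (T x y) = -D (T y x)
    rw [← map_neg]
    refine congrArg D (Subtype.ext ?_)
    show Nf (sym (ι x) (ι y)) = -Nf (sym (ι y) (ι x))
    rw [sym_anti hS (hιL x) (hιL y), map_neg]
  -- the automorphism of L
  have hgal : IsGalois F L := IsCyclotomicExtension.isGalois {ℓ} F L
  set σ : L ≃ₐ[F] L := γ.restrictNormal L with hσ
  have hισ : ∀ x : Lˣ, ι (σ • x) = γ • ι x := fun x => Units.ext (γ.restrictNormal_commutes L (x : L))
  have hισs : ∀ (s : ℕ) (x : Lˣ), ι ((σ ^ s) • x) = (γ ^ s) • ι x := by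
    intro s x
    induction s with
    | zero => rw [pow_zero, pow_zero, one_smul, one_smul]
    | succ s ih => rw [pow_succ', mul_smul, hισ, ih, pow_succ', mul_smul]
  have hιinj : Function.Injective ι := Units.map_injective φ.injective
  have hσd : ∀ x : Lˣ, (σ ^ d) • x = x := by
    intro x
    apply hιinj
    rw [hισs, gamma_d_fix hS (hιL x)]
  have hd0 : 0 < d := by rw [← hd]; exact Module.finrank_pos
  have hΓs : ∀ (s : ℕ) (x y : Lˣ), (k ^ s) • (Γ ^ s) (sym (ι x) (ι y)) = sym (ι ((σ ^ s) • x)) (ι ((σ ^ s) • y)) := by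
    intro s
    induction s with
    | zero =>
      intro x y
      rw [pow_zero, pow_zero, one_smul, pow_zero, one_smul, one_smul]
      rfl
    | succ s ih =>
      intro x y
      have e1 : (Γ ^ (s + 1)) (sym (ι x) (ι y)) = (Γ ^ s) (Γ (sym (ι x) (ι y))) := by
        rw [pow_succ]; rfl
      rw [pow_succ, mul_smul, e1, ← map_nsmul, hS.gal _ _ (hιL x) (hιL y), ← hισ, ← hισ, ih, smul_smul, smul_smul,
        ← pow_succ]
  have hk1 : ((k : ZMod ℓ)) ^ d = 1 := by rw [← hS.ord]; exact pow_orderOf_eq_one _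
  have hΓd : ∀ x y : Lˣ, (Γ ^ d) (sym (ι x) (ι y)) = sym (ι x) (ι y) := by
    intro x y
    have h1 := hΓs d x y
    rw [hσd, hσd] at h1
    have h2 : ((k ^ d : ℕ) : ZMod ℓ) = ((1 : ℕ) : ZMod ℓ) := by push_cast; exact hk1
    have h3 : k ^ d ≡ 1 [MOD ℓ] := (ZMod.natCast_eq_natCast_iff _ _ _).mp h2
    have h4 : ℓ • (Γ ^ d) (sym (ι x) (ι y)) = 0 := by
      rw [← map_nsmul, hS.tors _ _ (hιL x) (hιL y), map_zero]
    have h5 : k ^ d = 1 + ℓ * (k ^ d / ℓ) := by
      have h6 : k ^ d % ℓ = 1 := by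
        rw [h3, Nat.mod_eq_of_lt hl.one_lt]
      rw [← h6]
      exact (Nat.mod_add_div _ _).symm
    rw [h5, add_smul, one_smul, Nat.mul_comm, mul_smul, h4, smul_zero, add_zero] at h1
    exact h1
  have hNΓ : ∀ x y : Lˣ, Nf (Γ (sym (ι x) (ι y))) = Nf (sym (ι x) (ι y)) := by
    intro x y
    rw [hNfa, hNfa]
    have e1 : ∀ i ∈ Finset.range d, (Γ ^ i) (Γ (sym (ι x) (ι y))) = (Γ ^ (i + 1)) (sym (ι x) (ι y)) := by
      intro i _
      rw [pow_succ]; rfl
    rw [Finset.sum_congr rfl e1]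
    have e2 := Finset.sum_range_succ' (fun i => (Γ ^ i) (sym (ι x) (ι y))) d
    rw [Finset.sum_range_succ, hΓd] at e2
    exact (add_right_cancel e2).symm
  have heq : ∀ x y : Lˣ, b (σ • x) (σ • y) = (k : ZMod ℓ) * b x y := by
    intro x y
    show D (T (σ • x) (σ • y)) = k * D (T x y)
    have h1 : T (σ • x) (σ • y) = k • T x y := by
      refine Subtype.ext ?_
      show Nf (sym (ι (σ • x)) (ι (σ • y))) = k • Nf (sym (ι x) (ι y))
      rw [hισ, hισ, ← hS.gal _ _ (hιL x) (hιL y), map_nsmul, hNΓ]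
    rw [h1, map_nsmul, nsmul_eq_mul]
  have hfix : ∀ x : Lˣ, σ • x = x → ∀ y, b x y = 0 := by
    intro x hx y
    show D (T x y) = 0
    have h1 : T x y = 0 := by
      refine Subtype.ext ?_
      show Nf (sym (ι x) (ι y)) = 0
      rw [hNfa]
      refine hS.triv _ _ (InF_of_gamma hS (hιL x) ?_) (hιL y)
      rw [← hισ, hx]
    rw [h1, map_zero]
  have hgen : ∀ (g : L ≃ₐ[F] L) (n : ℕ), (∀ z : Lˣ, z ^ ℓ = 1 → g • z = z ^ n) →
      ∃ s : ℕ, (∀ x : Lˣ, g • x = (σ ^ s) • x) ∧ (n : ZMod ℓ) = (k : ZMod ℓ) ^ s := by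
    intro g n hn
    obtain ⟨z, hz⟩ := hsurj ζ fun _ h => h
    have hz1 : z ^ ℓ = 1 := by
      apply hιinj
      rw [map_pow, hz, hζ.pow_eq_one, map_one]
    have hg : ∀ x : Lˣ, ι (g • x) = g.liftNormal Ω • ι x := fun x =>
      Units.ext (g.liftNormal_commutes Ω (x : L)).symm
    obtain ⟨s, hs⟩ := hS.gen (g.liftNormal Ω)
    refine ⟨s, fun x => ?_, ?_⟩
    · apply hιinj
      rw [hg, hισs]
      have h1 : ((γ ^ s)⁻¹ * g.liftNormal Ω) • ζ = ζ := by
        rw [mul_smul, hs, inv_smul_smul]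
      have h2 := hιL x _ h1
      rw [mul_smul, inv_smul_eq_iff] at h2
      exact h2
    · have h1 : ζ ^ n = ζ ^ (k ^ s) := by
        rw [← gamma_pow' hS, ← hs, ← hz, ← hg, hn z hz1, map_pow]
      rw [pow_eq_pow_iff_modEq, ← hζ.eq_orderOf] at h1
      have h2 := (ZMod.natCast_eq_natCast_iff _ _ _).2 h1
      rw [h2]
      push_cast
      rfl
  have hfin2 : Finite (Lˣ ⧸ Rad b hbS) :=
    rad_fin σ b hbS hS.ord hd0 hσd heq hanti hfix hgen (by rw [FinW, hd] at hfin; exact hfin)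
  obtain ⟨h1, h2⟩ := fd_range F L
  have hlt : Module.finrank (algebraMap F L).fieldRange L < ℓ := by
    have h3 := order_lt hS.ord
    omega
  have h0 := hFR ℓ (Fact.out : Odd ℓ) L (algebraMap F L).fieldRange hlt b hbS hfin2 (by
    rintro x ⟨f, hf⟩ y
    have hf0 : f ≠ 0 := by
      rintro rfl
      rw [map_zero] at hf
      exact x.ne_zero hf.symm
    have hx : x = Units.map (algebraMap F L : F →* L) (Units.mk0 f hf0) := Units.ext hf.symm
    show D (T x y) = 0
    rw [hx, hTF, map_zero])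
  exact hD (congrFun (congrFun h0 x₀) y₀)

end Pool.Agent.Lib.MP_defcf3_al.FR
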