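import Pool.Agent.Lib.MP_defcf3_al.FR.Hrt1
import Pool.Agent.Lib.MP_defcf3_al.BRP.H50.Full2

/-! HRT, part 2: versions of MAINC, COHS and of the class theorem of BRP for one field (copies of the proofs of helper50
with the universally quantified heart replaced by the heart for the given field). -/

namespace Pool.Agent.Lib.MP_defcf3_al.FR

open scoped TensorProduct

universe u

variable {ℓ : ℕ} [Fact ℓ.Prime] [Fact (Odd ℓ)]

open BR7 BR7.H50 BRP BRP.H50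

/-- MAINC for one field. -/
def MainAt (ℓ : ℕ) [Fact ℓ.Prime] (F Ω : Type u) [Field F] [Field Ω] [Algebra F Ω] (ζ : Ωˣ) : Prop :=
  ∀ x ∈ Z2 (Ω ≃ₐ[F] Ω) Ωˣ,
    cls (HZ F ζ) Ωˣ (fun g h : HZ F ζ => x g h) ∈
      Subgroup.closure {s | ∃ a b : Ωˣ, InL F ζ a ∧ InL F ζ b ∧ s = symb ℓ F ζ a b} →
    cls (HZ F ζ) Ωˣ (fun g h : HZ F ζ => x g h) ∈
      Subgroup.closure {s | ∃ (a : Ωˣ) (χ : (Ω ≃ₐ[F] Ω) → ZMod ℓ), InF F a ∧
        (∀ g h, χ (g * h) = χ g + χ h) ∧ IsLocallyConstant χ ∧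
        s = cls (HZ F ζ) Ωˣ (cup ℓ a (fun h : HZ F ζ => χ h))}

/-- MAINC for one field. -/
theorem mainAt {d : ℕ} (hd0 : d ≠ 0) (hAdd : SymAddStatement.{u} ℓ) (hSt : SymSteinStatement.{u} ℓ)
    (hGa : SymGalStatement.{u} ℓ) (hTr : TrivCStatement.{u} ℓ)
    (hDisc : DiscStatement.{u}) (hConj : ConjCStatement.{u}) (hRes : ConjResStatement.{u})
    (hOne : CupResZ.{u} ℓ) {F Ω : Type u} [Field F] [Field Ω] [Algebra F Ω] [IsGalois F Ω] [IsSepClosed Ω]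
    {ζ : Ωˣ} (hp : IsPrimitiveRoot ζ ℓ) (hidx : (HZ F ζ).index = d) (hHeart : HeartAt ℓ d F Ω ζ) :
    MainAt ℓ F Ω ζ := by
  intro x hx hS
  obtain ⟨γ, k, hord, hγ, hgen⟩ := exists_gamma (F := F) hp
  rw [hidx] at hord hgen
  have hC := hConj (Ω ≃ₐ[F] Ω) Ωˣ (hDisc F Ω) (HZ F ζ) γ (HZ_normal hγ)
  have hΓ := fun f hf => mapH2_cls (HZ F ζ) (conjC (HZ F ζ) γ (HZ_normal hγ)) hC.1 hC.2 (f := f) hf
  generalize mapH2 (HZ F ζ) (conjC (HZ F ζ) γ (HZ_normal hγ)) hC.1 hC.2 = Γ at hΓ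
  have hfix : ∀ y ∈ Z2 (Ω ≃ₐ[F] Ω) Ωˣ, Γ (cls (HZ F ζ) Ωˣ (fun g h : HZ F ζ => y g h)) =
      cls (HZ F ζ) Ωˣ (fun g h : HZ F ζ => y g h) := by
    intro y hy
    have hXZ := res_Z2 (HZ F ζ) hy
    rw [hΓ _ hXZ, cls_eq_iff (hC.1 _ hXZ) hXZ]
    exact hRes (Ω ≃ₐ[F] Ω) Ωˣ (hDisc F Ω) (HZ F ζ) γ (HZ_normal hγ) y hy
  set S : Set (H2 (HZ F ζ) Ωˣ) := {s | ∃ (a : Ωˣ) (χ : (Ω ≃ₐ[F] Ω) → ZMod ℓ), InF F a ∧
        (∀ g h, χ (g * h) = χ g + χ h) ∧ IsLocallyConstant χ ∧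
        s = cls (HZ F ζ) Ωˣ (cup ℓ a (fun h : HZ F ζ => χ h))} with hSdef
  have hSfix : ∀ s ∈ S, Γ s = s := by
    rintro s ⟨a, χ, ha, hχ, hχc, rfl⟩
    exact hfix (cup ℓ a χ) (hOne F Ω a χ ha hχ hχc)
  have hCl : ∀ c ∈ Subgroup.closure S, Γ c ∈ Subgroup.closure S := by
    intro c hc
    induction hc using Subgroup.closure_induction with
    | mem s hs => rw [hSfix s hs]; exact Subgroup.subset_closure hs
    | one => rw [map_one]; exact one_mem _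
    | mul a b _ _ iha ihb => rw [map_mul]; exact mul_mem iha ihb
    | inv a _ iha => rw [map_inv]; exact inv_mem iha
  obtain ⟨M', _, π, Γ', hπ, hΓ'⟩ := quot_induced (M := H2 (HZ F ζ) Ωˣ) (Subgroup.closure S) Γ hCl
  have hpowk : ∀ i : ℕ, (γ ^ i) • ζ = ζ ^ (k ^ i) := by
    intro i
    induction i with
    | zero => simp
    | succ i ih => rw [pow_succ', mul_smul, ih, smul_pow', hγ, ← pow_mul, pow_succ']
  have hH : ∀ i : ℕ, ∀ h ∈ HZ F ζ, (γ ^ i)⁻¹ * h * γ ^ i ∈ HZ F ζ := fun i => HZ_normal (hpowk i)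
  have hinj := hinj_of (F := F) hp hγ hord
  have hnorm : ∀ g : Ω ≃ₐ[F] Ω, ∃! i : Fin d, g • ζ = (γ ^ (i : ℕ)) • ζ := by
    intro g
    obtain ⟨i, hi, he⟩ := hgen g
    refine ⟨⟨i, hi⟩, he, ?_⟩
    rintro ⟨j, hj⟩ hj2
    exact Fin.ext (hinj j i hj hi (hj2.symm.trans he))
  obtain ⟨hZ, -, -, ha3⟩ := hAdd F Ω ζ hp
  have hcZ : ∀ c ∈ Z2 (HZ F ζ) Ωˣ, ∀ i : ℕ, conjC (HZ F ζ) (γ ^ i) (hH i) c ∈ Z2 (HZ F ζ) Ωˣ := by
    intro c hc i
    exact (hConj (Ω ≃ₐ[F] Ω) Ωˣ (hDisc F Ω) (HZ F ζ) (γ ^ i) (hH i)).1 c hc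
  have htriv : ∀ f l : Ωˣ, InF F f → InL F ζ l →
      π (cls (HZ F ζ) Ωˣ (∏ i : Fin d, conjC (HZ F ζ) (γ ^ (i : ℕ)) (hH i) (cup ℓ f (kum ℓ F ζ l)))) = 1 := by
    intro f l hf hl
    have hfl : InL F ζ f := fun g _ => hf g
    have hfZ := hZ f l hfl hl
    obtain ⟨χ, hχ, hχc, hB⟩ := hTr F Ω ζ hp γ d hH hnorm f l hf hl
    have hχZ : cup ℓ f (fun h : HZ F ζ => χ h) ∈ Z2 (HZ F ζ) Ωˣ :=
      res_Z2 (HZ F ζ) (hOne F Ω f χ hf hχ hχc)
    rw [(cls_eq_iff (prod_mem fun i _ => hcZ _ hfZ _) hχZ).mpr hB]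
    rw [hπ]
    exact Subgroup.subset_closure ⟨f, χ, hf, hχ, hχc, rfl⟩
  have hsym := symAxQ hAdd hSt hGa hDisc hConj ζ hp γ k d hγ hord hgen Γ hΓ M' π Γ' hΓ' hH htriv
  have hnz : NormZero F ζ d (Q := Additive M')
      (fun a b => Additive.ofMul (π (symb ℓ F ζ a b))) (endA Γ') := by
    exact hHeart γ k _ _ _ hsym
  have hco : Nat.Coprime d ℓ := coprime_of hord hd0
  have hfin := kill (M := M')
    (π '' {s | ∃ a b : Ωˣ, InL F ζ a ∧ InL F ζ b ∧ s = symb ℓ F ζ a b})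
    d hco Γ' ?_ ?_ (π (cls (HZ F ζ) Ωˣ (fun g h : HZ F ζ => x g h))) ?_ ?_
  · rwa [hπ] at hfin
  · rintro s ⟨_, ⟨a, b, ha, hb, rfl⟩, rfl⟩
    exact hnz a b ha hb
  · rintro s ⟨_, ⟨a, b, ha, hb, rfl⟩, rfl⟩
    rw [← map_pow, ha3 a b ha hb, map_one]
  · rw [← MonoidHom.map_closure]
    exact Subgroup.mem_map_of_mem _ hS
  · rw [hΓ', hfix x hx]

/-- COHS for one field. -/
def CohsAt (ℓ : ℕ) [Fact ℓ.Prime] (F Ω : Type u) [Field F] [Field Ω] [Algebra F Ω] (ζ : Ωˣ) : Prop :=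
  ∀ x ∈ Z2 (Ω ≃ₐ[F] Ω) Ωˣ, cls (Ω ≃ₐ[F] Ω) Ωˣ x ^ ℓ = 1 →
    cls (HZ F ζ) Ωˣ (fun g h : HZ F ζ => x g h) ∈
      Subgroup.closure {s | ∃ a b : Ωˣ, InL F ζ a ∧ InL F ζ b ∧ s = symb ℓ F ζ a b} →
    cls (Ω ≃ₐ[F] Ω) Ωˣ x ∈ Subgroup.closure {s | ∃ (a : Ωˣ) (χ : (Ω ≃ₐ[F] Ω) → ZMod ℓ), InF F a ∧
        (∀ g h, χ (g * h) = χ g + χ h) ∧ IsLocallyConstant χ ∧ s = cls (Ω ≃ₐ[F] Ω) Ωˣ (cup ℓ a χ)}

/-- COHS for one field. -/
theorem cohsAt (hCor : CorResStatement.{u}) (hIdx : IndexStatement.{u} ℓ)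
    (hDisc : DiscStatement.{u}) (hGZ : GcupZStatement.{u}) (hTo : GcupTorsStatement.{u})
    {F Ω : Type u} [Field F] [Field Ω] [Algebra F Ω] [IsGalois F Ω] [IsSepClosed Ω]
    {ζ : Ωˣ} (hp : IsPrimitiveRoot ζ ℓ) (hMC : MainAt ℓ F Ω ζ) : CohsAt ℓ F Ω ζ := by
  intro x hx hx7 hS
  have hD := hDisc F Ω
  have h1 := hMC x hx hS
  have hlift : ∀ c ∈ Subgroup.closure {s | ∃ (a : Ωˣ) (χ : (Ω ≃ₐ[F] Ω) → ZMod ℓ), InF F a ∧
        (∀ g h, χ (g * h) = χ g + χ h) ∧ IsLocallyConstant χ ∧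
        s = cls (HZ F ζ) Ωˣ (cup ℓ a (fun h : HZ F ζ => χ h))},
      ∃ y ∈ Z2 (Ω ≃ₐ[F] Ω) Ωˣ, cls (Ω ≃ₐ[F] Ω) Ωˣ y ∈
        Subgroup.closure {s | ∃ (a : Ωˣ) (χ : (Ω ≃ₐ[F] Ω) → ZMod ℓ), InF F a ∧
        (∀ g h, χ (g * h) = χ g + χ h) ∧ IsLocallyConstant χ ∧ s = cls (Ω ≃ₐ[F] Ω) Ωˣ (cup ℓ a χ)} ∧
        cls (HZ F ζ) Ωˣ (fun g h : HZ F ζ => y g h) = c := by
    intro c hc
    induction hc using Subgroup.closure_induction with
    | mem s hs =>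
      obtain ⟨a, χ, ha, hχ, hχc, rfl⟩ := hs
      exact ⟨cup ℓ a χ, cupResZ hGZ hDisc F Ω a χ ha hχ hχc,
        Subgroup.subset_closure ⟨a, χ, ha, hχ, hχc, rfl⟩, rfl⟩
    | one =>
      refine ⟨1, one_mem _, ?_, ?_⟩
      · rw [(cls_one_iff (one_mem _)).mpr (one_mem _)]
        exact one_mem _
      · exact (cls_one_iff (one_mem _)).mpr (one_mem _)
    | mul s t _ _ ihs iht =>
      obtain ⟨y, hy, hy2, hy3⟩ := ihs
      obtain ⟨z, hz, hz2, hz3⟩ := iht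
      refine ⟨y * z, mul_mem hy hz, ?_, ?_⟩
      · rw [cls_mul hy hz]
        exact mul_mem hy2 hz2
      · rw [← hy3, ← hz3, ← cls_mul (res_Z2 _ hy) (res_Z2 _ hz)]
        rfl
    | inv s _ ihs =>
      obtain ⟨y, hy, hy2, hy3⟩ := ihs
      refine ⟨y⁻¹, inv_mem hy, ?_, ?_⟩
      · rw [cls_inv hy]
        exact inv_mem hy2
      · rw [← hy3, ← cls_inv (res_Z2 _ hy)]
        rfl
  obtain ⟨y, hy, hy2, hy3⟩ := hlift _ h1
  have hy7 : ∀ c ∈ Subgroup.closure {s | ∃ (a : Ωˣ) (χ : (Ω ≃ₐ[F] Ω) → ZMod ℓ), InF F a ∧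
        (∀ g h, χ (g * h) = χ g + χ h) ∧ IsLocallyConstant χ ∧ s = cls (Ω ≃ₐ[F] Ω) Ωˣ (cup ℓ a χ)},
      c ^ ℓ = 1 := by
    intro c hc
    induction hc using Subgroup.closure_induction with
    | mem s hs =>
      obtain ⟨a, χ, ha, hχ, hχc, rfl⟩ := hs
      have hZ := cupResZ hGZ hDisc F Ω a χ ha hχ hχc
      rw [← cls_pow hZ, cls_one_iff (pow_mem hZ ℓ)]
      exact BRP.H38.cup_tors hTo hD ℓ a ha χ hχ hχc
    | one => exact one_pow ℓ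
    | mul s t _ _ ihs iht => exact mul_pow_seven s t ihs iht
    | inv s _ ihs => exact inv_pow_seven s ihs
  have hres : (fun g h : HZ F ζ => (x * y⁻¹) g h) ∈ B2 (HZ F ζ) Ωˣ := by
    have := (cls_eq_iff (res_Z2 (HZ F ζ) hx) (res_Z2 (HZ F ζ) hy)).mp hy3.symm
    exact this
  obtain ⟨i1, i2, i3⟩ := hIdx F Ω ζ hp ⊤ isOpen_univ
  rw [top_inf_eq] at i1 i2 i3
  rw [Subgroup.relIndex_top_right] at i3
  have hcor := hCor (Ω ≃ₐ[F] Ω) Ωˣ hD (HZ F ζ) i1 i2 (x * y⁻¹) (mul_mem hx (inv_mem hy)) hres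
  have e1 : cls (Ω ≃ₐ[F] Ω) Ωˣ (x * y⁻¹) ^ (HZ F ζ).index = 1 := by
    rw [← cls_pow (mul_mem hx (inv_mem hy)), cls_one_iff (pow_mem (mul_mem hx (inv_mem hy)) _)]
    exact hcor
  have e2 : cls (Ω ≃ₐ[F] Ω) Ωˣ (x * y⁻¹) ^ ℓ = 1 := by
    rw [cls_mul hx (inv_mem hy), cls_inv hy]
    exact mul_pow_seven _ _ hx7 (inv_pow_seven _ (hy7 _ hy2))
  have e4 := gcd_seven _ _ i3 e1 e2
  rw [cls_one_iff (mul_mem hx (inv_mem hy)), ← cls_eq_iff hx hy] at e4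
  rw [e4]
  exact hy2

/-- The class over F of an algebra which becomes a product of algebras of degree ℓ over F(ζ). -/
theorem classAt (hCohC1 : CohCStatement.{u} ℓ 1)
    (hDiv : DivSevenStatement.{u} ℓ) (hDet : DetStatement.{u})
    (hBL : BaseLStatement.{u, 0}) (hLT : LTransStatement.{u} ℓ) (hSadd : SymAddStatement.{u} ℓ)
    (hCR : CorResStatement.{u}) (hInd : IndexStatement.{u} ℓ)
    (hRepEx : RepExStatement.{u}) (hRepZ : RepZStatement.{u, 0}) (hOp : RepOpStatement.{u, 0})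
    (hOne : RepOneStatement.{u}) (hGZ : GcupZStatement.{u}) (hDisc : DiscStatement.{u})
    (hPi : PiStatement.{u}) (hDeg : DegSevenStatement.{u} ℓ) (hUniq : UniqStatement.{u}) :
    ∀ (F L : Type u) [Field F] [Field L] [Algebra F L], ((ℓ : ℕ) : F) ≠ 0 → IsCyclotomicExtension {ℓ} F L →
      (∀ ζ : (SeparableClosure F)ˣ, IsPrimitiveRoot ζ ℓ → CohsAt ℓ F (SeparableClosure F) ζ) →
      ∀ (A : Type u) [Ring A] [Algebra F A] [Algebra.IsCentral F A] [IsSimpleRing A] (m : ℕ),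
      Module.finrank F A = (ℓ ^ 2) ^ m →
      ∀ (k : ℕ) (B : Fin k → Type u) [∀ i, Ring (B i)] [∀ i, Algebra L (B i)],
      (∀ i, Algebra.IsCentral L (B i) ∧ IsSimpleRing (B i) ∧ Module.finrank L (B i) = ℓ ^ 2) →
      (∃ p q : ℕ, p ≠ 0 ∧ q ≠ 0 ∧
        Nonempty (Matrix (Fin p) (Fin p) (L ⊗[F] A) ≃ₐ[L] Matrix (Fin q) (Fin q) (⨂[L] i, B i))) →
      ∃ (n : ℕ) (f : (SeparableClosure F ≃ₐ[F] SeparableClosure F) →
        (SeparableClosure F ≃ₐ[F] SeparableClosure F) → (SeparableClosure F)ˣ),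
        n ≠ 0 ∧ Nonempty (RepData F (SeparableClosure F) A (Fin n) f) ∧
        cls (SeparableClosure F ≃ₐ[F] SeparableClosure F) (SeparableClosure F)ˣ f ∈
          cycGrp ℓ F (SeparableClosure F) := by
  intro F L _ _ _ h7 hL hCohS A _ _ _ _ m hA k B _ _ hB ⟨p, q, hp, hq, ⟨e⟩⟩
  have hl0 := (Fact.out : Nat.Prime ℓ).ne_zero
  have : NeZero ((ℓ : ℕ) : F) := ⟨h7⟩
  have hfd : FiniteDimensional F A := Module.finite_of_finrank_pos (by rw [hA]; positivity)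
  have hfdL : FiniteDimensional F L := IsCyclotomicExtension.finiteDimensional {ℓ} F L
  have hsep : Algebra.IsSeparable F L := IsCyclotomicExtension.isSeparable {ℓ} F L
  have h7L : ((ℓ : ℕ) : L) ≠ 0 := by
    rw [← map_natCast (algebraMap F L) ℓ]
    exact (map_ne_zero (algebraMap F L)).mpr h7
  -- embed L into the separable closure of F
  let φ : L →ₐ[F] SeparableClosure F := IsSepClosed.lift
  letI : Algebra L (SeparableClosure F) := φ.toRingHom.toAlgebra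
  haveI : IsScalarTower F L (SeparableClosure F) := IsScalarTower.of_algebraMap_eq' φ.comp_algebraMap.symm
  haveI : IsGalois L (SeparableClosure F) := IsGalois.tower_top_of_isGalois F L (SeparableClosure F)
  obtain ⟨n, f, ⟨R⟩⟩ := hRepEx F (SeparableClosure F) A
  have hZ := hRepZ F (SeparableClosure F) A (Fin n) f R
  have hn0 : n ≠ 0 := by
    rintro rfl
    obtain ⟨i⟩ := R.ne
    exact i.elim0
  have hn : n = ℓ ^ m := by
    have h1 := R.dim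
    rw [hA, Fintype.card_fin] at h1
    have h2 : n ^ 2 = (ℓ ^ m) ^ 2 := by
      rw [← h1, ← pow_mul, ← pow_mul, mul_comm 2 m]
    exact deg_eq h2
  obtain ⟨RL⟩ := hBL F L (SeparableClosure F) A (Fin n) f R
  have hζ1 : ∃ ζ : (SeparableClosure F)ˣ, IsPrimitiveRoot ζ ℓ ∧ (HZ F ζ).index = Module.finrank F L := by
    obtain ⟨ζ, hζ⟩ := exists_zeta (ℓ := ℓ) F h7
    exact ⟨ζ, hζ, index_HZ hζ hL φ⟩
  obtain ⟨ζ, hζ, hidx⟩ := hζ1
  have hidxL : (HZ L ζ).index = 1 := index_one hζ hL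
  -- the algebras over L
  have hBi : ∀ i, ∃ fi : (SeparableClosure F ≃ₐ[L] SeparableClosure F) →
      (SeparableClosure F ≃ₐ[L] SeparableClosure F) → (SeparableClosure F)ˣ,
      Nonempty (RepData L (SeparableClosure F) (B i) (Fin ℓ) fi) := by
    intro i
    obtain ⟨b1, b2, b3⟩ := hB i
    haveI : FiniteDimensional L (B i) := Module.finite_of_finrank_pos (by rw [b3]; positivity)
    obtain ⟨ni, fi, ⟨Ri⟩⟩ := hRepEx L (SeparableClosure F) (B i)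
    have hni : ni = ℓ := by
      have h1 := Ri.dim
      rw [b3, Fintype.card_fin] at h1
      exact deg_eq h1.symm
    rw [hni] at Ri
    exact ⟨fi, ⟨Ri⟩⟩
  choose fB hRB using hBi
  have hZB : ∀ i, fB i ∈ Z2 (SeparableClosure F ≃ₐ[L] SeparableClosure F) (SeparableClosure F)ˣ := by
    intro i
    obtain ⟨Ri⟩ := hRB i
    exact hRepZ L (SeparableClosure F) (B i) (Fin ℓ) (fB i) Ri
  have hcB : ∀ i, cls (SeparableClosure F ≃ₐ[L] SeparableClosure F) (SeparableClosure F)ˣ (fB i) ∈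
      cycGrp ℓ L (SeparableClosure F) := by
    intro i
    obtain ⟨b1, b2, b3⟩ := hB i
    obtain ⟨Ri⟩ := hRB i
    exact deg_class hCohC1 hDiv hRepZ hOp hOne hUniq hDeg h7L hζ hidxL (B i) b3 (fB i) Ri
  have hprod : ∀ s : Finset (Fin k), (∏ i ∈ s, fB i) ∈
      Z2 (SeparableClosure F ≃ₐ[L] SeparableClosure F) (SeparableClosure F)ˣ ∧
      cls (SeparableClosure F ≃ₐ[L] SeparableClosure F) (SeparableClosure F)ˣ (∏ i ∈ s, fB i) ∈
      cycGrp ℓ L (SeparableClosure F) := by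
    intro s
    induction s using Finset.induction_on with
    | empty =>
      rw [Finset.prod_empty]
      refine ⟨one_mem _, ?_⟩
      rw [(cls_one_iff (one_mem _)).mpr (one_mem _)]
      exact one_mem _
    | insert i s his ih =>
      rw [Finset.prod_insert his]
      refine ⟨mul_mem (hZB i) ih.1, ?_⟩
      rw [cls_mul (hZB i) ih.1]
      exact mul_mem (hcB i) ih.2
  have hcZL := fun a χ ha hχ hχc => cupResZ (ℓ := ℓ) hGZ hDisc L (SeparableClosure F) a χ ha hχ hχc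
  obtain ⟨k', a, χ, c1, c2, c3, -, c5⟩ := list_form hcZL _ (hprod Finset.univ).2
  have hcupZ : (∏ i, cup ℓ (a i) (χ i)) ∈ Z2 (SeparableClosure F ≃ₐ[L] SeparableClosure F)
      (SeparableClosure F)ˣ := prod_mem fun i _ => hcZL _ _ (c1 i) (c2 i) (c3 i)
  obtain ⟨P⟩ := hPi L (SeparableClosure F) k B (fun _ => ℓ) fB hRB
  obtain ⟨P'⟩ := (hOp L (SeparableClosure F) _ _ _ P).1 (Fin (ℓ ^ k)) (Fintype.equivOfCardEq (by
      rw [Fintype.card_pi, Finset.prod_const, Fintype.card_fin, Fintype.card_fin,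
        Finset.card_univ, Fintype.card_fin]))
  have hU := hUniq L (SeparableClosure F) (L ⊗[F] A) (⨂[L] i, B i) n (ℓ ^ k) _ _ RL P' p q hp hq e
  have hU2 : (fun g h : SeparableClosure F ≃ₐ[L] SeparableClosure F =>
      f (g.restrictScalars F) (h.restrictScalars F)) * (∏ i, cup ℓ (a i) (χ i))⁻¹ ∈
      B2 (SeparableClosure F ≃ₐ[L] SeparableClosure F) (SeparableClosure F)ˣ := by
    have h1 : (∏ i, fB i) * (∏ i, cup ℓ (a i) (χ i))⁻¹ ∈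
        B2 (SeparableClosure F ≃ₐ[L] SeparableClosure F) (SeparableClosure F)ˣ :=
      (cls_eq_iff (hprod Finset.univ).1 hcupZ).mp c5
    have h2 := mul_mem hU h1
    rw [mul_assoc, inv_mul_cancel_left] at h2
    exact h2
  have hS := hLT F L (SeparableClosure F) ζ hζ hL f hZ k' a χ c1 c2 c3 hU2
  -- the class has order dividing ℓ
  obtain ⟨i1, i2, i3⟩ := hInd F (SeparableClosure F) ζ hζ ⊤ isOpen_univ
  rw [top_inf_eq] at i1 i2 i3
  rw [Subgroup.relIndex_top_right] at i3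
  have h7L : cls (HZ F ζ) (SeparableClosure F)ˣ (fun g h : HZ F ζ => f g h) ^ ℓ = 1 := by
    refine Subgroup.closure_induction (p := fun x _ => x ^ ℓ = 1) ?_ ?_ ?_ ?_ hS
    · rintro s ⟨a, b, ha, hb, rfl⟩
      exact (hSadd F (SeparableClosure F) ζ hζ).2.2.2 a b ha hb
    · exact one_pow _
    · intro x y _ _ hx hy
      have hc : Commute x y := by
        obtain ⟨x', rfl⟩ := QuotientGroup.mk_surjective x
        obtain ⟨y', rfl⟩ := QuotientGroup.mk_surjective y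
        show (QuotientGroup.mk (x' * y') : H2 (HZ F ζ) (SeparableClosure F)ˣ) = QuotientGroup.mk (y' * x')
        rw [mul_comm]
      exact BRP.H50.mul_pow_one x y hc ℓ hx hy
    · intro x _ hx
      rw [inv_pow, hx, inv_one]
  have h7c : cls (SeparableClosure F ≃ₐ[F] SeparableClosure F) (SeparableClosure F)ˣ f ^ ℓ = 1 := by
    have r1 : (fun g h : HZ F ζ => (f ^ ℓ) g h) ∈ B2 (HZ F ζ) (SeparableClosure F)ˣ := by
      have h1 : (fun g h : HZ F ζ => (f ^ ℓ) g h) = (fun g h : HZ F ζ => f g h) ^ ℓ := rfl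
      rw [h1, ← cls_one_iff (pow_mem (res_Z2 _ hZ) _), cls_pow (res_Z2 _ hZ)]
      exact h7L
    have r2 := hCR (SeparableClosure F ≃ₐ[F] SeparableClosure F) (SeparableClosure F)ˣ
      (hDisc F (SeparableClosure F)) (HZ F ζ) i1 i2 (f ^ ℓ) (pow_mem hZ ℓ) r1
    rw [← cls_one_iff (pow_mem (pow_mem hZ _) _), cls_pow (pow_mem hZ _), cls_pow hZ] at r2
    have r3 := hDet F (SeparableClosure F) A n f R
    rw [← cls_one_iff (pow_mem hZ _), cls_pow hZ, hn] at r3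
    refine BRP.H50.coprime_kill _ _ (ℓ ^ m) (Nat.Coprime.pow_right m i3) r2 ?_
    rw [← pow_mul, mul_comm, pow_mul, r3, one_pow]
  exact ⟨n, f, hn0, ⟨R⟩, hCohS ζ hζ f hZ h7c hS⟩

end Pool.Agent.Lib.MP_defcf3_al.FR
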