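import Pool.Agent.Lib.MP_defcf3_al.FR.Hrt1
import Pool.Agent.Lib.MP_defcf3_al.BRP.H50.Full2

/-! THEOREM N of project FR: p odd, char F ≠ p, L = F(ζ). If Br(L)[p] is finite then the p-primary part of Br(F) is
zero or contains a quasicyclic group. Statements of the modules. Notation: G = Gal(Ω/F), H = stabilizer of ζ,
N = stabilizer of a primitive root of unity of order ℓ^(n+1). -/

set_option autoImplicit false

namespace Pool.Agent.Lib.MP_defcf3_al.FR

open scoped TensorProduct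

universe u

open BR7 BRP

/-- The ℓ-primary part of Br(F) is killed by ℓ^n. -/
def ExpBd (ℓ n : ℕ) (F Ω : Type u) [Field F] [Field Ω] [Algebra F Ω] : Prop :=
  ∀ f ∈ Z2 (Ω ≃ₐ[F] Ω) Ωˣ, (∃ j : ℕ, f ^ (ℓ ^ j) ∈ B2 (Ω ≃ₐ[F] Ω) Ωˣ) → f ^ (ℓ ^ n) ∈ B2 (Ω ≃ₐ[F] Ω) Ωˣ

/-- Br(L)[p] is finite: finitely many algebras represent all classes killed by p. -/
def FinBr (p : ℕ) (L : Type u) [Field L] : Prop :=
  ∃ (N : ℕ) (E : Fin N → Type u) (_ : ∀ i, Ring (E i)) (_ : ∀ i, Algebra L (E i)),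
    ∀ (A : Type u) [Ring A] [Algebra L A] [Algebra.IsCentral L A] [IsSimpleRing A] [FiniteDimensional L A],
      (∃ m : ℕ, Nonempty ((⨂[L] (_ : Fin p), A) ≃ₐ[L] Matrix (Fin m) (Fin m) L)) →
      ∃ i, ∃ r s : ℕ, r ≠ 0 ∧ s ≠ 0 ∧ Nonempty (Matrix (Fin r) (Fin r) A ≃ₐ[L] Matrix (Fin s) (Fin s) (E i))

/-- N-RC. If the corestriction from the open normal subgroup H of the cup product (f,ψ) is trivial, then so is the
product of the conjugates of (f,ψ) under representatives γ^i of G/H. Proof: for g, h in H the restriction of corN to H is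
the product over x in G/H of conjC (out x) (cup n f ψ) (equality of functions, because H acts trivially on G/H); out x =
γ^i a with a in H, and conjugation by a in H does not change the class (BR7.H38.conjres for H and ⊤, or its proof);
conjC (γ^i a) = conjC (γ^i) ∘ conjC a, BR7.H38.conjc. -/
def StRC : Prop :=
  ∀ (G A : Type u) [Group G] [TopologicalSpace G] [IsTopologicalGroup G] [CommGroup A] [MulDistribMulAction G A],
    Disc G A → ∀ (H : Subgroup G) [Fintype (G ⧸ H)] (n : ℕ) [NeZero n] (ψ : G → ZMod n), NChar H n ψ →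
    ∀ f : A, (∀ g ∈ H, g • f = f) → corN H n f ψ ∈ B2 G A →
    ∀ (γ : G) (d : ℕ) (hH : ∀ i : ℕ, ∀ h ∈ H, (γ ^ i)⁻¹ * h * γ ^ i ∈ H),
      (∀ g : G, ∃! i : Fin d, (γ ^ (i : ℕ))⁻¹ * g ∈ H) →
      ∏ i : Fin d, conjC H (γ ^ (i : ℕ)) (hH i) (cup n f (fun h : H => ψ h)) ∈ B2 H A

/-- N-PU. N ≤ H open subgroups, N the kernel of a character X of H. If (f,X) is trivial over H, then f is the norm of some
w fixed by N, and the corestrictions of (w,ψ) and (f,ψ) agree for all characters ψ of H. Proof: BR7.H84.nconv for the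
group H, with U = N.subgroupOf H and N = U (f is the product of the conjugates of w over H/U), then the proof of
BR7.H30.cornres (there w1 is the product over the fibre of G/N → G/H over 1; it is f). -/
def StPU : Prop :=
  ∀ (G A : Type u) [Group G] [TopologicalSpace G] [IsTopologicalGroup G] [CommGroup A] [MulDistribMulAction G A],
    Disc G A → ∀ (H N : Subgroup G) [Fintype (G ⧸ H)] [Fintype (G ⧸ N)], IsOpen (H : Set G) → IsOpen (N : Set G) →
    ∀ (m : ℕ) [NeZero m] (X : H → ZMod m), (∀ g h, X (g * h) = X g + X h) → IsLocallyConstant X →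
    (∀ g : G, g ∈ N ↔ ∃ h : g ∈ H, X ⟨g, h⟩ = 0) → H1Triv (N.subgroupOf H) A →
    ∀ f : A, (∀ g ∈ H, g • f = f) → cup m f X ∈ B2 H A →
    ∃ w : A, (∀ g ∈ N, g • w = w) ∧ ∀ (n : ℕ) [NeZero n] (ψ : G → ZMod n), NChar H n ψ → NChar N n ψ →
      corN N n w ψ * (corN H n f ψ)⁻¹ ∈ B2 G A

/-- N-KT. Over F(η n) the Kummer character modulo ℓ of l in F(ζ) is the reduction of a character modulo ℓ^(n+1): the
Kummer character of a root of order ℓ^(n+1) of l. Proof: as in BRP/H62/Tower.lean (t, ψ, hψ, huniq, hψu). -/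
def StKT (ℓ : ℕ) [Fact ℓ.Prime] [Fact (Odd ℓ)] : Prop :=
  ∀ (F Ω : Type u) [Field F] [Field Ω] [Algebra F Ω] [IsGalois F Ω] [IsSepClosed Ω] (ζ : Ωˣ),
    IsPrimitiveRoot ζ ℓ → ∀ η : ℕ → Ωˣ, RootSys ℓ ζ η → ∀ l : Ωˣ, InL F ζ l → ∀ n : ℕ,
    ∃ ψ : (Ω ≃ₐ[F] Ω) → ZMod (ℓ ^ (n + 1)),
      NChar (MulAction.stabilizer (Ω ≃ₐ[F] Ω) (η n)) (ℓ ^ (n + 1)) ψ ∧
      ∀ (g : Ω ≃ₐ[F] Ω) (hz : g ∈ HZ F ζ), g • η n = η n →
        ZMod.castHom (dvd_pow_self ℓ (Nat.succ_ne_zero n)) (ZMod ℓ) (ψ g) = kum ℓ F ζ l ⟨g, hz⟩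

/-- N-EX. If Br(F)[ℓ] is finite and Br(F) contains no quasicyclic ℓ-group then the ℓ-primary part is killed by a power
of ℓ. Proof: otherwise for every n the set of c with c^ℓ = 1, c ≠ 1 which are ℓ^n-th powers of ℓ-primary classes is not
empty; these finite sets decrease, so D = intersection of the groups of ℓ^n-th powers of ℓ-primary classes is not
trivial, and it is ℓ-divisible (finite nonempty decreasing sets of ℓ-th roots); BRP.H72.quasib. -/
def StEX (ℓ : ℕ) [Fact ℓ.Prime] [Fact (Odd ℓ)] : Prop :=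
  ∀ (F Ω : Type u) [Field F] [Field Ω] [Algebra F Ω] [IsGalois F Ω],
    Set.Finite {c : H2 (Ω ≃ₐ[F] Ω) Ωˣ | c ^ ℓ = 1} → ¬ HasQuasi ℓ F Ω → ∃ n, ExpBd ℓ n F Ω

/-- N-FI. If H2(G,A)[ℓ] is finite then (x, X) is trivial for all x in a subgroup of finite index. Proof: x ↦ class of
cup (ℓ^n) (ι x) X is a homomorphism into H2(G,A)[ℓ^n], which is finite. -/
def StFI (ℓ : ℕ) [Fact ℓ.Prime] : Prop :=
  ∀ (G A : Type u) [Group G] [TopologicalSpace G] [IsTopologicalGroup G] [CommGroup A] [MulDistribMulAction G A],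
    Disc G A → Set.Finite {c : H2 G A | c ^ ℓ = 1} →
    ∀ (n : ℕ) (X : G → ZMod (ℓ ^ n)), (∀ g h, X (g * h) = X g + X h) → IsLocallyConstant X →
    ∀ (U : Type u) [CommGroup U] (ι : U →* A), (∀ (x : U) (g : G), g • ι x = ι x) →
    ∃ R : Subgroup U, R.FiniteIndex ∧ ∀ x ∈ R, cup (ℓ ^ n) (ι x) X ∈ B2 G A

/-- N-RI. Restriction to a subgroup of index prime to ℓ is injective on the ℓ-torsion (BR7.H38.corres), so finiteness of
the ℓ-torsion goes down. -/
def StRI (ℓ : ℕ) [Fact ℓ.Prime] : Prop :=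
  ∀ (G A : Type u) [Group G] [TopologicalSpace G] [IsTopologicalGroup G] [CommGroup A] [MulDistribMulAction G A],
    Disc G A → ∀ H : Subgroup G, IsOpen (H : Set G) → H.FiniteIndex → Nat.Coprime H.index ℓ →
    Set.Finite {c : H2 H A | c ^ ℓ = 1} → Set.Finite {c : H2 G A | c ^ ℓ = 1}

/-- N-AL. Translation of the finiteness of Br(L)[ℓ]. Proof: as in BR7/H38/FinBr.lean (Factor, Desc, RepCSA, Uniq, Pi) over
L with Ω = SeparableClosure F as an L-algebra (through φ : L →ₐ[F] Ω), then HZ F ζ ≅ Gal(Ω/L) (BRP.H62.toL). -/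
def StAL (ℓ : ℕ) [Fact ℓ.Prime] [Fact (Odd ℓ)] : Prop :=
  ∀ (F L : Type u) [Field F] [Field L] [Algebra F L], ((ℓ : ℕ) : F) ≠ 0 → IsCyclotomicExtension {ℓ} F L →
    FinBr ℓ L → ∀ ζ : (SeparableClosure F)ˣ, IsPrimitiveRoot ζ ℓ →
    Set.Finite {c : H2 (HZ F ζ) (SeparableClosure F)ˣ | c ^ ℓ = 1}

end Pool.Agent.Lib.MP_defcf3_al.FR
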