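import Pool.Agent.Lib.MP_defcf3_al.FR.Vanish
import Pool.Agent.Lib.MP_defcf3_al.FR.Hrt2
import Pool.Agent.Lib.MP_defcf3_al.FR.NDefs

/-! HRT, part 2, for symbols with an additional radical: MAINC for one field from the vanishing of all symbols of weight
one with R in the radical, where R consists of elements f such that the norms of all symbols (f,l) vanish. -/

namespace Pool.Agent.Lib.MP_defcf3_al.FR

open scoped TensorProduct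

universe u

variable {ℓ : ℕ} [Fact ℓ.Prime] [Fact (Odd ℓ)]

open BR7 BR7.H50 BRP BRP.H50

/-- The norm of a symbol in the quotient of H2(HZ): the part of symAxQ about norms, for arbitrary entries. -/
theorem norm_conv {F Ω : Type u} [Field F] [Field Ω] [Algebra F Ω] [IsGalois F Ω] [IsSepClosed Ω]
    (hAdd : SymAddStatement.{u} ℓ) (hDisc : DiscStatement.{u}) (hConj : ConjCStatement.{u})
    (ζ : Ωˣ) (hp : IsPrimitiveRoot ζ ℓ) (γ : Ω ≃ₐ[F] Ω) (k d : ℕ) (hγ : γ • ζ = ζ ^ k)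
    (Γ : H2 (HZ F ζ) Ωˣ →* H2 (HZ F ζ) Ωˣ)
    (hΓ : ∀ f ∈ Z2 (HZ F ζ) Ωˣ, Γ (cls (HZ F ζ) Ωˣ f) = cls (HZ F ζ) Ωˣ (conjC (HZ F ζ) γ (HZ_normal hγ) f))
    (M : Type u) [CommGroup M] (π : H2 (HZ F ζ) Ωˣ →* M) (Γ' : M →* M) (hΓ' : ∀ x, Γ' (π x) = π (Γ x))
    (hH : ∀ i : ℕ, ∀ h ∈ HZ F ζ, (γ ^ i)⁻¹ * h * γ ^ i ∈ HZ F ζ) {f l : Ωˣ} (hf : InL F ζ f) (hl : InL F ζ l)
    (h1 : π (cls (HZ F ζ) Ωˣ
      (∏ i : Fin d, conjC (HZ F ζ) (γ ^ (i : ℕ)) (hH i) (cup ℓ f (kum ℓ F ζ l)))) = 1) :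
    ∑ i ∈ Finset.range d, ((endA Γ') ^ i) (Additive.ofMul (π (symb ℓ F ζ f l))) = 0 := by
  obtain ⟨hZ, -, -, -⟩ := hAdd F Ω ζ hp
  have hfZ := hZ f l hf hl
  have hcomm : ∀ (i : ℕ) (c : HZ F ζ → HZ F ζ → Ωˣ), conjC (HZ F ζ) (γ ^ (i + 1)) (hH (i + 1)) c =
      conjC (HZ F ζ) γ (HZ_normal hγ) (conjC (HZ F ζ) (γ ^ i) (hH i) c) := by
    intro i c
    funext g h
    change (γ ^ (i + 1)) • c _ _ = γ • (γ ^ i) • c _ _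
    rw [← mul_smul, ← pow_succ']
    congr 2
    · refine Subtype.ext ?_
      change (γ ^ (i + 1))⁻¹ * (g : Ω ≃ₐ[F] Ω) * γ ^ (i + 1) = (γ ^ i)⁻¹ * (γ⁻¹ * (g : Ω ≃ₐ[F] Ω) * γ) * γ ^ i
      rw [pow_succ', mul_inv_rev]
      simp only [mul_assoc]
    · refine Subtype.ext ?_
      change (γ ^ (i + 1))⁻¹ * (h : Ω ≃ₐ[F] Ω) * γ ^ (i + 1) = (γ ^ i)⁻¹ * (γ⁻¹ * (h : Ω ≃ₐ[F] Ω) * γ) * γ ^ i
      rw [pow_succ', mul_inv_rev]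
      simp only [mul_assoc]
  have hcZ : ∀ c ∈ Z2 (HZ F ζ) Ωˣ, ∀ i : ℕ, conjC (HZ F ζ) (γ ^ i) (hH i) c ∈ Z2 (HZ F ζ) Ωˣ := by
    intro c hc i
    exact (hConj (Ω ≃ₐ[F] Ω) Ωˣ (hDisc F Ω) (HZ F ζ) (γ ^ i) (hH i)).1 c hc
  have hpowΓ : ∀ i : ℕ, ∀ c ∈ Z2 (HZ F ζ) Ωˣ,
      ((endA Γ') ^ i) (Additive.ofMul (π (cls (HZ F ζ) Ωˣ c))) =
      Additive.ofMul (π (cls (HZ F ζ) Ωˣ (conjC (HZ F ζ) (γ ^ i) (hH i) c))) := by
    intro i c hc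
    induction i with
    | zero =>
      rw [pow_zero]
      change Additive.ofMul _ = Additive.ofMul _
      congr 2
    | succ i ih =>
      rw [pow_succ']
      change (endA Γ') (((endA Γ') ^ i) _) = _
      rw [ih, hcomm, endA_apply, hΓ', hΓ _ (hcZ c hc i)]
  have hprod : ∀ (s : Finset (Fin d)), cls (HZ F ζ) Ωˣ
      (∏ i ∈ s, conjC (HZ F ζ) (γ ^ (i : ℕ)) (hH i) (cup ℓ f (kum ℓ F ζ l))) =
      ∏ i ∈ s, cls (HZ F ζ) Ωˣ (conjC (HZ F ζ) (γ ^ (i : ℕ)) (hH i) (cup ℓ f (kum ℓ F ζ l))) := by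
    intro s
    induction s using Finset.cons_induction with
    | empty =>
      rw [Finset.prod_empty, Finset.prod_empty]
      exact (cls_one_iff (one_mem _)).mpr (one_mem _)
    | cons a s ha ih =>
      rw [Finset.prod_cons, Finset.prod_cons, cls_mul (hcZ _ hfZ _) (prod_mem fun i _ => hcZ _ hfZ _), ih]
  rw [hprod, map_prod] at h1
  rw [Finset.sum_range]
  have h3 : ∀ i : Fin d, ((endA Γ') ^ (i : ℕ)) (Additive.ofMul (π (symb ℓ F ζ f l))) =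
      Additive.ofMul (π (cls (HZ F ζ) Ωˣ (conjC (HZ F ζ) (γ ^ (i : ℕ)) (hH i) (cup ℓ f (kum ℓ F ζ l))))) :=
    fun i => hpowΓ i _ hfZ
  rw [Finset.sum_congr rfl (fun i _ => h3 i)]
  exact congrArg Additive.ofMul h1

/-- The norm to F of all symbols (f,l), l in L, vanishes. -/
def NormTriv (ℓ : ℕ) [Fact ℓ.Prime] (F : Type u) {Ω : Type u} [Field F] [Field Ω] [Algebra F Ω] (ζ f : Ωˣ) : Prop :=
  ∀ (γ : Ω ≃ₐ[F] Ω) (d : ℕ) (hH : ∀ i : ℕ, ∀ h ∈ HZ F ζ, (γ ^ i)⁻¹ * h * γ ^ i ∈ HZ F ζ),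
    (∀ g : Ω ≃ₐ[F] Ω, ∃! i : Fin d, g • ζ = (γ ^ (i : ℕ)) • ζ) →
    ∀ l : Ωˣ, InL F ζ l →
      ∏ i : Fin d, conjC (HZ F ζ) (γ ^ (i : ℕ)) (hH i) (cup ℓ f (kum ℓ F ζ l)) ∈ B2 (HZ F ζ) Ωˣ

/-- MAINC for one field, from vanishing. -/
theorem mainAtR {d : ℕ} (hd0 : d ≠ 0) (hAdd : SymAddStatement.{u} ℓ) (hSt : SymSteinStatement.{u} ℓ)
    (hGa : SymGalStatement.{u} ℓ) (hTr : TrivCStatement.{u} ℓ)
    (hDisc : DiscStatement.{u}) (hConj : ConjCStatement.{u}) (hRes : ConjResStatement.{u})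
    (hOne : CupResZ.{u} ℓ) {F L Ω : Type u} [Field F] [Field L] [Field Ω] [Algebra F L] [Algebra F Ω]
    [IsGalois F Ω] [IsSepClosed Ω] (φ : L →ₐ[F] Ω)
    {ζ : Ωˣ} (hp : IsPrimitiveRoot ζ ℓ) (hL : IsCyclotomicExtension {ℓ} F L) (hidx : (HZ F ζ).index = d)
    (R : Subgroup Lˣ) (hV : Vanish ℓ F L R)
    (hR : ∀ x ∈ R, NormTriv ℓ F ζ (Units.map (φ : L →* Ω) x)) :
    MainAt ℓ F Ω ζ := by
  intro x hx hS
  obtain ⟨γ, k, hord, hγ, hgen⟩ := exists_gamma (F := F) hp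
  rw [hidx] at hord hgen
  have hC := hConj (Ω ≃ₐ[F] Ω) Ωˣ (hDisc F Ω) (HZ F ζ) γ (HZ_normal hγ)
  have hΓ := fun f hf => mapH2_cls (HZ F ζ) (conjC (HZ F ζ) γ (HZ_normal hγ)) hC.1 hC.2 (f := f) hf
  generalize mapH2 (HZ F ζ) (conjC (HZ F ζ) γ (HZ_normal hγ)) hC.1 hC.2 = Γ at hΓ
  have hfix : ∀ y ∈ Z2 (Ω ≃ₐ[F] Ω) Ωˣ, Γ (cls (HZ F ζ) Ωˣ (fun g h : HZ F ζ => y g h)) =
      cls (HZ F ζ) Ωˣ (fun g h : HZ F ζ => y g h) := by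
    intro y hy
    have hXZ := res_Z2 (HZ F ζ) hy
    rw [hΓ _ hXZ, cls_eq_iff (hC.1 _ hXZ) hXZ]
    exact hRes (Ω ≃ₐ[F] Ω) Ωˣ (hDisc F Ω) (HZ F ζ) γ (HZ_normal hγ) y hy
  set S : Set (H2 (HZ F ζ) Ωˣ) := {s | ∃ (a : Ωˣ) (χ : (Ω ≃ₐ[F] Ω) → ZMod ℓ), InF F a ∧
        (∀ g h, χ (g * h) = χ g + χ h) ∧ IsLocallyConstant χ ∧
        s = cls (HZ F ζ) Ωˣ (cup ℓ a (fun h : HZ F ζ => χ h))} with hSdef
  have hSfix : ∀ s ∈ S, Γ s = s := by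
    rintro s ⟨a, χ, ha, hχ, hχc, rfl⟩
    exact hfix (cup ℓ a χ) (hOne F Ω a χ ha hχ hχc)
  have hCl : ∀ c ∈ Subgroup.closure S, Γ c ∈ Subgroup.closure S := by
    intro c hc
    induction hc using Subgroup.closure_induction with
    | mem s hs => rw [hSfix s hs]; exact Subgroup.subset_closure hs
    | one => rw [map_one]; exact one_mem _
    | mul a b _ _ iha ihb => rw [map_mul]; exact mul_mem iha ihb
    | inv a _ iha => rw [map_inv]; exact inv_mem iha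
  obtain ⟨M', _, π, Γ', hπ, hΓ'⟩ := quot_induced (M := H2 (HZ F ζ) Ωˣ) (Subgroup.closure S) Γ hCl
  have hpowk : ∀ i : ℕ, (γ ^ i) • ζ = ζ ^ (k ^ i) := by
    intro i
    induction i with
    | zero => simp
    | succ i ih => rw [pow_succ', mul_smul, ih, smul_pow', hγ, ← pow_mul, pow_succ']
  have hH : ∀ i : ℕ, ∀ h ∈ HZ F ζ, (γ ^ i)⁻¹ * h * γ ^ i ∈ HZ F ζ := fun i => HZ_normal (hpowk i)
  have hinj := hinj_of (F := F) hp hγ hord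
  have hnorm : ∀ g : Ω ≃ₐ[F] Ω, ∃! i : Fin d, g • ζ = (γ ^ (i : ℕ)) • ζ := by
    intro g
    obtain ⟨i, hi, he⟩ := hgen g
    refine ⟨⟨i, hi⟩, he, ?_⟩
    rintro ⟨j, hj⟩ hj2
    exact Fin.ext (hinj j i hj hi (hj2.symm.trans he))
  obtain ⟨hZ, -, -, ha3⟩ := hAdd F Ω ζ hp
  have hcZ : ∀ c ∈ Z2 (HZ F ζ) Ωˣ, ∀ i : ℕ, conjC (HZ F ζ) (γ ^ i) (hH i) c ∈ Z2 (HZ F ζ) Ωˣ := by
    intro c hc i
    exact (hConj (Ω ≃ₐ[F] Ω) Ωˣ (hDisc F Ω) (HZ F ζ) (γ ^ i) (hH i)).1 c hc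
  have htriv : ∀ f l : Ωˣ, InF F f → InL F ζ l →
      π (cls (HZ F ζ) Ωˣ (∏ i : Fin d, conjC (HZ F ζ) (γ ^ (i : ℕ)) (hH i) (cup ℓ f (kum ℓ F ζ l)))) = 1 := by
    intro f l hf hl
    have hfl : InL F ζ f := fun g _ => hf g
    have hfZ := hZ f l hfl hl
    obtain ⟨χ, hχ, hχc, hB⟩ := hTr F Ω ζ hp γ d hH hnorm f l hf hl
    have hχZ : cup ℓ f (fun h : HZ F ζ => χ h) ∈ Z2 (HZ F ζ) Ωˣ :=
      res_Z2 (HZ F ζ) (hOne F Ω f χ hf hχ hχc)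
    rw [(cls_eq_iff (prod_mem fun i _ => hcZ _ hfZ _) hχZ).mpr hB]
    rw [hπ]
    exact Subgroup.subset_closure ⟨f, χ, hf, hχ, hχc, rfl⟩
  have hsym := symAxQ hAdd hSt hGa hDisc hConj ζ hp γ k d hγ hord hgen Γ hΓ M' π Γ' hΓ' hH htriv
  let _ : Algebra L Ω := φ.toRingHom.toAlgebra
  have : IsScalarTower F L Ω := IsScalarTower.of_algebraMap_eq' φ.comp_algebraMap.symm
  have hιL : ∀ x : Lˣ, InL F ζ (Units.map (φ : L →* Ω) x) := by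
    intro x g hg
    refine Units.ext ?_
    exact BRP.H62.fix_of_stab hp hL g hg (x : L)
  have hnz : NormZero F ζ d (Q := Additive M')
      (fun a b => Additive.ofMul (π (symb ℓ F ζ a b))) (endA Γ') := by
    refine heart_of_vanish φ hp hL R hV hsym ?_
    intro x hx y
    refine norm_conv hAdd hDisc hConj ζ hp γ k d hγ Γ hΓ M' π Γ' hΓ' hH (hιL x) (hιL y) ?_
    have h1 := hR x hx γ d hH hnorm _ (hιL y)
    rw [(cls_one_iff (prod_mem fun i _ => hcZ _ (hZ _ _ (hιL x) (hιL y)) _)).mpr h1, map_one]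
  have hco : Nat.Coprime d ℓ := coprime_of hord hd0
  have hfin := kill (M := M')
    (π '' {s | ∃ a b : Ωˣ, InL F ζ a ∧ InL F ζ b ∧ s = symb ℓ F ζ a b})
    d hco Γ' ?_ ?_ (π (cls (HZ F ζ) Ωˣ (fun g h : HZ F ζ => x g h))) ?_ ?_
  · rwa [hπ] at hfin
  · rintro s ⟨_, ⟨a, b, ha, hb, rfl⟩, rfl⟩
    exact hnz a b ha hb
  · rintro s ⟨_, ⟨a, b, ha, hb, rfl⟩, rfl⟩
    rw [← map_pow, ha3 a b ha hb, map_one]
  · rw [← MonoidHom.map_closure]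
    exact Subgroup.mem_map_of_mem _ hS
  · rw [hΓ', hfix x hx]

end Pool.Agent.Lib.MP_defcf3_al.FR
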