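import Pool.Agent.Lib.MP_defcf3_al.FR.NFinal

/-! Local form of THEOREM N with intermediate fields: L₀ = F₀(ζ), M a field between F₀ and L₀ with Br(M)[ℓ] finite. Then
for every weight i divisible by [L₀:M] the weight space of weight i of L₀^*/L₀^{*ℓ} is finite modulo the elements f such
that the norms to F of all symbols (f,l), l in L, vanish. -/

namespace Pool.Agent.Lib.MP_defcf3_al.FR

open scoped TensorProduct

universe u

variable {ℓ : ℕ} [Fact ℓ.Prime] [Fact (Odd ℓ)]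

open BR7 BR7.H50 BRP BRP.H50

/-- A subgroup of finite index of M^*, M any subfield of L such that Br(M)[ℓ] is finite. -/
theorem localRadM (hFI : StFI.{u} ℓ) {F L L₀ Ω : Type u} [Field F] [Field L] [Field L₀] [Field Ω]
    [Algebra F L] [Algebra F Ω] [IsGalois F Ω] [IsSepClosed Ω] (φ : L →ₐ[F] Ω) {ζ : Ωˣ}
    (hζ : IsPrimitiveRoot ζ ℓ) (hL : IsCyclotomicExtension {ℓ} F L)
    (j : L₀ →+* L) (hfin : FinBr ℓ L₀) (n : ℕ) (η : ℕ → Ωˣ) (hη : RootSys ℓ ζ η) :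
    ∃ R₀ : Subgroup L₀ˣ, R₀.FiniteIndex ∧ ∃ X : HZ F ζ → ZMod (ℓ ^ n), (∀ g h, X (g * h) = X g + X h) ∧
      IsLocallyConstant X ∧ (∀ g : HZ F ζ, X g = 0 ↔ (g : Ω ≃ₐ[F] Ω) • η n = η n) ∧
      ∀ x ∈ R₀, cup (ℓ ^ n) (Units.map (φ : L →* Ω) (Units.map (j : L₀ →* L) x)) X ∈ B2 (HZ F ζ) Ωˣ := by
  classical
  have hl := (Fact.out : Nat.Prime ℓ)
  have : NeZero ℓ := ⟨hl.ne_zero⟩
  have hD : Disc (Ω ≃ₐ[F] Ω) Ωˣ := H4.disc F Ω
  let _ : Algebra L Ω := φ.toRingHom.toAlgebra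
  have : IsScalarTower F L Ω := IsScalarTower.of_algebraMap_eq' φ.comp_algebraMap.symm
  let _ : Algebra L₀ Ω := (φ.toRingHom.comp j).toAlgebra
  let Ω₀ := SeparableClosure L₀
  let e : Ω₀ →ₐ[L₀] Ω := IsSepClosed.lift
  let _ : Algebra Ω₀ Ω := e.toRingHom.toAlgebra
  have : IsScalarTower L₀ Ω₀ Ω := IsScalarTower.of_algebraMap_eq' e.comp_algebraMap.symm
  have heL : ∀ x : L₀, e (algebraMap L₀ Ω₀ x) = φ (j x) := fun x => e.commutes x
  -- the primitive root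
  set E : Ω₀ˣ →* Ωˣ := Units.map (e : Ω₀ →* Ω) with hE
  have hEinj : Function.Injective E := Units.map_injective e.toRingHom.injective
  obtain ⟨ζ₀, hEζ, hζ₀⟩ : ∃ ζ₀ : Ω₀ˣ, E ζ₀ = ζ ∧ IsPrimitiveRoot ζ₀ ℓ := by
    have h7 : ((ℓ : ℕ) : Ω) ≠ 0 :=
      (IsPrimitiveRoot.neZero' (R := Ω) (n := ℓ) (ζ := (ζ : Ω)) (hζ.map_of_injective Units.coeHom_injective)).out
    have h8 : ((ℓ : ℕ) : Ω₀) ≠ 0 := by
      intro h
      apply h7
      have := congrArg e h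
      rwa [map_natCast, map_zero] at this
    have : NeZero ((ℓ : ℕ) : Ω₀) := ⟨h8⟩
    have h9 := IsSepClosed.hasEnoughRootsOfUnity_pow Ω₀ ℓ 1
    rw [pow_one] at h9
    obtain ⟨z, hz⟩ := h9.prim
    have hz0 : IsUnit z := hz.isUnit hl.ne_zero
    obtain ⟨z, rfl⟩ := hz0
    have hz' : IsPrimitiveRoot z ℓ := IsPrimitiveRoot.coe_units_iff.1 hz
    have hEz : IsPrimitiveRoot (E z) ℓ := hz'.map_of_injective hEinj
    obtain ⟨i, hi⟩ : ∃ i : ℕ, E z ^ i = ζ := by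
      have : NeZero ℓ := ⟨hl.ne_zero⟩
      exact ⟨_, (H4.dlog Ω ℓ (E z) hEz).1 ζ hζ.pow_eq_one⟩
    refine ⟨z ^ i, by rw [map_pow, hi], ?_⟩
    refine IsPrimitiveRoot.of_map_of_injective (f := E) ?_ hEinj
    rw [map_pow, hi]
    exact hζ
  obtain ⟨η₀, X₀, hη₀, hX, hXc, hXk, hXs, -⟩ := BRP.H72.eta L₀ Ω₀ ζ₀ hζ₀
  -- the restriction homomorphism
  have hfixL : ∀ (g : HZ F ζ) (x : L₀), (g : Ω ≃ₐ[F] Ω) (algebraMap L₀ Ω x) = algebraMap L₀ Ω x := fun g x =>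
    BRP.H62.fix_of_stab hζ hL (g : Ω ≃ₐ[F] Ω) g.2 (j x)
  let τ : HZ F ζ →* (Ω ≃ₐ[L₀] Ω) :=
    { toFun := fun g => { (g : Ω ≃ₐ[F] Ω) with commutes' := hfixL g }
      map_one' := rfl
      map_mul' := fun _ _ => rfl }
  let ρ : HZ F ζ →* (Ω₀ ≃ₐ[L₀] Ω₀) := (AlgEquiv.restrictNormalHom Ω₀).comp τ
  have hρ : ∀ (g : HZ F ζ) (x : Ω₀), e (ρ g x) = (g : Ω ≃ₐ[F] Ω) (e x) := fun g x =>
    AlgEquiv.restrictNormal_commutes (τ g) Ω₀ x
  have hρE : ∀ (g : HZ F ζ) (x : Ω₀ˣ), E (ρ g • x) = g • E x := fun g x => Units.ext (hρ g x)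
  have hρc : Continuous ρ := by
    apply continuous_of_continuousAt_one
    intro U hU
    rw [map_one, krullTopology_mem_nhds_one_iff] at hU
    obtain ⟨K, hK, hKU⟩ := hU
    have hfinK : FiniteDimensional L₀ K := hK
    let b := Module.finBasis L₀ K
    have h1 : ∀ i, ∀ᶠ g : HZ F ζ in nhds 1, (g : Ω ≃ₐ[F] Ω) (e (b i : Ω₀)) = e (b i : Ω₀) := by
      intro i
      have hb0 : e (b i : Ω₀) ≠ 0 := by
        intro h
        exact b.ne_zero i (Subtype.ext (e.toRingHom.injective (h.trans (map_zero _).symm)))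
      have h2 : IsOpen {g : HZ F ζ | (g : Ω ≃ₐ[F] Ω) • (Units.mk0 (e (b i : Ω₀)) hb0) = Units.mk0 (e (b i : Ω₀)) hb0} :=
        (hD (Units.mk0 (e (b i : Ω₀)) hb0)).preimage continuous_subtype_val
      have h3 : (1 : HZ F ζ) ∈
          {g : HZ F ζ | (g : Ω ≃ₐ[F] Ω) • (Units.mk0 (e (b i : Ω₀)) hb0) = Units.mk0 (e (b i : Ω₀)) hb0} := by
        change ((1 : HZ F ζ) : Ω ≃ₐ[F] Ω) • (Units.mk0 (e (b i : Ω₀)) hb0) = Units.mk0 (e (b i : Ω₀)) hb0
        rw [OneMemClass.coe_one, one_smul]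
      filter_upwards [h2.mem_nhds h3] with g hg
      exact congrArg Units.val hg
    have h2 : ∀ᶠ g : HZ F ζ in nhds 1, ∀ i, (g : Ω ≃ₐ[F] Ω) (e (b i : Ω₀)) = e (b i : Ω₀) :=
      Filter.eventually_all.mpr h1
    rw [Filter.mem_map]
    filter_upwards [h2] with g hg
    rw [Set.mem_preimage]
    apply hKU
    rw [SetLike.mem_coe, IntermediateField.mem_fixingSubgroup_iff]
    intro x hx
    have h3 : x = ∑ i, b.repr ⟨x, hx⟩ i • (b i : Ω₀) := by
      have := congrArg (fun y : K => (y : Ω₀)) (b.sum_repr ⟨x, hx⟩)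
      simp only [AddSubmonoidClass.coe_finsetSum, IntermediateField.coe_smul] at this
      exact this.symm
    rw [h3, map_sum]
    refine Finset.sum_congr rfl fun i _ => ?_
    rw [map_smul]
    congr 1
    apply e.toRingHom.injective
    exact (hρ g _).trans (hg i)
  -- the subgroup
  have hD₀ : Disc (Ω₀ ≃ₐ[L₀] Ω₀) Ω₀ˣ := H4.disc L₀ Ω₀
  obtain ⟨R₀, hRf, hR⟩ := hFI (Ω₀ ≃ₐ[L₀] Ω₀) Ω₀ˣ hD₀ (H27.al_field hfin) n (X₀ n) (hX n) (hXc n) L₀ˣ
    (Units.map (algebraMap L₀ Ω₀ : L₀ →* Ω₀)) (fun x g => Units.ext (g.commutes (x : L₀)))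
  refine ⟨R₀, hRf, fun g => X₀ n (ρ g), fun g h => ?_, (hXc n).comp_continuous hρc, fun g => ?_, fun x hx => ?_⟩
  · show X₀ n (ρ (g * h)) = X₀ n (ρ g) + X₀ n (ρ h)
    rw [map_mul, hX]
  · show X₀ n (ρ g) = 0 ↔ _
    have h1 : (ρ g : Ω₀ ≃ₐ[L₀] Ω₀) • ζ₀ = ζ₀ := by
      apply hEinj
      rw [hρE, hEζ]
      exact g.2
    have h2 := hXs n (ρ g)
    rw [h1] at h2
    have h3 : X₀ n (ρ g) = 0 ↔ ρ g • η₀ n = η₀ n := by
      rw [h2]
      exact ⟨fun h => ⟨rfl, h⟩, fun h => h.2⟩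
    rw [h3]
    -- E (η₀ n) and η n generate the same group
    have hp1 : IsPrimitiveRoot (E (η₀ n)) (ℓ ^ (n + 1)) := (hη₀.2.1 n).map_of_injective hEinj
    have hp2 := hη.2.1 n
    have : NeZero (ℓ ^ (n + 1)) := ⟨pow_ne_zero _ hl.ne_zero⟩
    have hpow : ∀ {a b : Ωˣ}, IsPrimitiveRoot a (ℓ ^ (n + 1)) → b ^ ℓ ^ (n + 1) = 1 → ∃ i : ℕ, a ^ i = b := by
      intro a b ha hb
      exact ⟨_, (H4.dlog Ω (ℓ ^ (n + 1)) a ha).1 b hb⟩
    constructor
    · intro h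
      have h4 : (g : Ω ≃ₐ[F] Ω) • E (η₀ n) = E (η₀ n) := by
        have := hρE g (η₀ n)
        rw [h] at this
        exact this.symm
      obtain ⟨i, hi⟩ := hpow hp1 hp2.pow_eq_one
      rw [← hi, smul_pow', h4]
    · intro h
      obtain ⟨i, hi⟩ := hpow hp2 hp1.pow_eq_one
      apply hEinj
      rw [hρE, ← hi]
      show (g : Ω ≃ₐ[F] Ω) • (η n ^ i) = η n ^ i
      rw [smul_pow', h]
  · obtain ⟨b, hb, hbe⟩ := hR x hx
    refine ⟨fun g => E (b (ρ g)), (hb.comp_continuous hρc).comp E, fun g h => ?_⟩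
    have h1 := congrArg E (hbe (ρ g) (ρ h))
    rw [map_mul E, map_mul E, map_inv E, hρE, ← map_mul ρ] at h1
    rw [← h1]
    show (Units.map (φ : L →* Ω) (Units.map (j : L₀ →* L) x)) ^ _ = E ((Units.map (algebraMap L₀ Ω₀ : L₀ →* Ω₀) x) ^ _)
    rw [map_pow]
    congr 1
    exact Units.ext (heL x).symm

omit [Fact (Odd ℓ)] in
/-- For weights divisible by [L:M] the weight space comes from M. -/
theorem wt_le {F M L : Type u} [Field F] [Field M] [Field L] [Algebra F M] [Algebra M L] [Algebra F L]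
    [IsScalarTower F M L] (hL : IsCyclotomicExtension {ℓ} F L) {k : ℕ} (hk : Module.finrank M L ∣ k) :
    Wt ℓ F L k ≤ Pw ℓ L ⊔ (Units.map (algebraMap M L : M →* L)).range := by
  classical
  have hl := (Fact.out : Nat.Prime ℓ)
  have : NeZero ℓ := ⟨hl.ne_zero⟩
  have hfd : FiniteDimensional F L := IsCyclotomicExtension.finiteDimensional {ℓ} F L
  have hgal : IsGalois F L := IsCyclotomicExtension.isGalois {ℓ} F L
  have hgM : IsGalois M L := IsGalois.tower_top_of_isGalois F M L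
  have hfM : FiniteDimensional M L := FiniteDimensional.right F M L
  obtain ⟨ζ, hζ⟩ := hL.exists_isPrimitiveRoot (Set.mem_singleton ℓ) hl.ne_zero
  intro x hx
  -- every automorphism over M changes x by a power
  have h1 : ∀ g : L ≃ₐ[M] L, ∃ y : Lˣ, g • x = x * y ^ ℓ := by
    intro g
    set g' : L ≃ₐ[F] L := g.restrictScalars F with hg'
    set n : ℕ := (hζ.autToPow F g' : ZMod ℓ).val with hn
    have hspec : ζ ^ n = g' ζ := hζ.autToPow_spec F g'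
    have hact : ∀ z : Lˣ, z ^ ℓ = 1 → g' • z = z ^ n := by
      intro z hz
      have hz' : (z : L) ^ ℓ = 1 := by rw [← Units.val_pow_eq_pow_val, hz, Units.val_one]
      obtain ⟨i, -, hi⟩ := hζ.eq_pow_of_pow_eq_one hz'
      refine Units.ext ?_
      show g' (z : L) = _
      rw [Units.val_pow_eq_pow_val, ← hi, map_pow, ← hspec, ← pow_mul, ← pow_mul, Nat.mul_comm]
    obtain ⟨y, hy⟩ := hx g' n hact
    have hpow : ∀ s : ℕ, (g ^ s) ζ = ζ ^ n ^ s := by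
      intro s
      induction s with
      | zero => rw [pow_zero, pow_zero, pow_one]; rfl
      | succ s ih =>
        have h2 : g ζ = ζ ^ n := hspec.symm
        rw [pow_succ, AlgEquiv.mul_apply, h2, map_pow, ih, ← pow_mul, pow_succ]
    have hord : g ^ Module.finrank M L = 1 := by
      rw [← IsGalois.card_aut_eq_finrank M L]
      exact pow_card_eq_one'
    have h2 : ζ ^ n ^ Module.finrank M L = ζ := by
      rw [← hpow, hord]; rfl
    have h3 : (n : ZMod ℓ) ^ Module.finrank M L = 1 := by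
      have hζ0 : ζ ≠ 0 := hζ.ne_zero hl.ne_zero
      have hζu : IsPrimitiveRoot (Units.mk0 ζ hζ0) ℓ := by
        rw [← IsPrimitiveRoot.coe_units_iff]
        exact hζ
      have h4 : (Units.mk0 ζ hζ0) ^ n ^ Module.finrank M L = (Units.mk0 ζ hζ0) ^ 1 := by
        rw [pow_one]
        refine Units.ext ?_
        rw [Units.val_pow_eq_pow_val]
        exact h2
      rw [pow_eq_pow_iff_modEq, ← hζu.eq_orderOf] at h4
      have h5 := (ZMod.natCast_eq_natCast_iff _ _ _).2 h4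
      rwa [Nat.cast_pow, Nat.cast_one] at h5
    obtain ⟨m, hm⟩ := hk
    have h4 : ((n ^ k : ℕ) : ZMod ℓ) = (1 : ℕ) := by
      rw [hm, Nat.cast_pow, pow_mul, h3, one_pow, Nat.cast_one]
    have h5 : (x : Lˣ) ^ n ^ k * (x⁻¹) ∈ Pw ℓ L := by
      have h6 : ((x : Lˣ) : Lˣ ⧸ Pw ℓ L) ^ n ^ k = ((x : Lˣ) : Lˣ ⧸ Pw ℓ L) ^ 1 :=
        pow_mod (q_pow _) h4
      rw [pow_one, ← QuotientGroup.mk_pow, QuotientGroup.eq] at h6
      have h7 := inv_mem h6
      rwa [mul_inv_rev, inv_inv, mul_comm] at h7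
    obtain ⟨w, hw⟩ := h5
    have hw : w ^ ℓ = x ^ n ^ k * x⁻¹ := hw
    refine ⟨w * y, ?_⟩
    have h6 : g • x = g' • x := rfl
    rw [h6, hy, mul_pow, hw, mul_comm (x ^ n ^ k) x⁻¹, ← mul_assoc, ← mul_assoc, mul_inv_cancel, one_mul]
  choose y hy using h1
  -- the norm
  set e := Module.finrank M L with he
  have hepos : 0 < e := Module.finrank_pos
  have hcop : Nat.Coprime e ℓ := by
    obtain ⟨σ, k', hord, hpos, -⟩ := exists_gen (ℓ := ℓ) hL
    have h2 : e ∣ Module.finrank F L := ⟨Module.finrank F M, by rw [mul_comm, Module.finrank_mul_finrank]⟩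
    have h3 : Module.finrank F L ∣ ℓ - 1 := by
      rw [← hord]
      apply orderOf_dvd_of_pow_eq_one
      apply ZMod.pow_card_sub_one_eq_one
      intro h4
      rw [h4, orderOf_zero] at hord
      omega
    have h4 : e ≤ ℓ - 1 := Nat.le_of_dvd (Nat.sub_pos_of_lt hl.one_lt) (h2.trans h3)
    have h5 : e < ℓ := lt_of_le_of_lt h4 (Nat.sub_lt hl.pos one_pos)
    exact (Nat.coprime_of_lt_prime hepos.ne' h5 hl).symm
  have hnorm : x ^ e * (∏ g, y g) ^ ℓ ∈ (Units.map (algebraMap M L : M →* L)).range := by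
    have h2 : ((x ^ e * (∏ g, y g) ^ ℓ : Lˣ) : L) = algebraMap M L (Algebra.norm M (x : L)) := by
      rw [Algebra.norm_eq_prod_automorphisms]
      have h3 : ∀ g : L ≃ₐ[M] L, g (x : L) = ((x * y g ^ ℓ : Lˣ) : L) := fun g => by
        rw [← hy g]; rfl
      rw [Finset.prod_congr rfl fun g _ => h3 g, ← Units.coe_prod, Finset.prod_mul_distrib, Finset.prod_const,
        Finset.card_univ, Finset.prod_pow, ← Nat.card_eq_fintype_card, IsGalois.card_aut_eq_finrank]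
    have h4 : Algebra.norm M (x : L) ≠ 0 := by
      intro h
      rw [h, map_zero] at h2
      exact (Units.ne_zero _) h2
    exact ⟨Units.mk0 _ h4, Units.ext h2.symm⟩
  have hxe : x ^ e ∈ Pw ℓ L ⊔ (Units.map (algebraMap M L : M →* L)).range := by
    have h2 : x ^ e = (((∏ g, y g)⁻¹) ^ ℓ) * (x ^ e * (∏ g, y g) ^ ℓ) := by
      rw [inv_pow, mul_comm (x ^ e), inv_mul_cancel_left]
    rw [h2]
    exact Subgroup.mul_mem_sup ⟨_, rfl⟩ hnorm
  have hxl : x ^ ℓ ∈ Pw ℓ L ⊔ (Units.map (algebraMap M L : M →* L)).range :=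
    Subgroup.mem_sup_left ⟨x, rfl⟩
  have h2 := Nat.gcd_eq_gcd_ab e ℓ
  rw [hcop] at h2
  have h3 : x = (x ^ e) ^ Nat.gcdA e ℓ * (x ^ ℓ) ^ Nat.gcdB e ℓ := by
    rw [← zpow_natCast x e, ← zpow_natCast x ℓ, ← zpow_mul, ← zpow_mul, ← zpow_add, ← h2, Nat.cast_one, zpow_one]
  rw [h3]
  exact mul_mem (zpow_mem hxe _) (zpow_mem hxl _)

/-- Finite index. -/
theorem relIndex_of_fin {G G' : Type*} [CommGroup G] [CommGroup G'] (ι : G' →* G) (P R : Subgroup G)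
    (R₀ : Subgroup G') (hfin : R₀.FiniteIndex) (hR : R₀.map ι ≤ R) (W : Subgroup G) (hW : W ≤ P ⊔ ι.range) :
    (P ⊔ R).relIndex W ≠ 0 := by
  classical
  let q : G →* G ⧸ (P ⊔ R) := QuotientGroup.mk' (P ⊔ R)
  have hq : q.ker = P ⊔ R := QuotientGroup.ker_mk' _
  have h1 : R₀ ≤ (q.comp ι).ker := by
    intro x hx
    rw [MonoidHom.mem_ker, MonoidHom.comp_apply, ← MonoidHom.mem_ker, hq]
    exact Subgroup.mem_sup_right (hR ⟨x, hx, rfl⟩)
  have h2 : (q.comp ι).ker.FiniteIndex := Subgroup.finiteIndex_of_le h1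
  have h3 : Finite (q.comp ι).range := by
    have h4 : (q.comp ι).ker.index ≠ 0 := h2.index_ne_zero
    rw [Subgroup.index_ker] at h4
    exact Nat.finite_of_card_ne_zero h4
  have h4 : W.map q ≤ (q.comp ι).range := by
    rintro _ ⟨w, hw, rfl⟩
    obtain ⟨a, ha, b, ⟨c, rfl⟩, rfl⟩ := Subgroup.mem_sup.1 (hW hw)
    refine ⟨c, ?_⟩
    have h5 : q a = 1 := by
      rw [← MonoidHom.mem_ker, hq]
      exact Subgroup.mem_sup_left ha
    rw [map_mul, h5, one_mul]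
    rfl
  have h5 : Finite (W.map q) := Finite.of_injective (Subgroup.inclusion h4) (Subgroup.inclusion_injective h4)
  have h6 := Subgroup.relIndex_ker (K := W) q
  rw [hq] at h6
  rw [h6]
  exact Nat.card_pos.ne'

/-- L = F(ζ), d = [L:F]. For every i = 2, .., d-1 there is k = i or k = d+1-i such that the weight space of weight k of
L^*/L^{*p} is finite or Br(M)[p] is finite for some field M between F and L with [L:M] dividing k. -/
def FinN (p : ℕ) (F L : Type u) [Field F] [Field L] [Algebra F L] : Prop :=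
  ∀ i, 2 ≤ i → i < Module.finrank F L → ∃ k, (k = i ∨ k = Module.finrank F L + 1 - i) ∧
    ((Pw p L).relIndex (Wt p F L k) ≠ 0 ∨
      ∃ (M : Type u) (_ : Field M) (_ : Algebra F M) (_ : Algebra M L), IsScalarTower F M L ∧
        Module.finrank M L ∣ k ∧ FinBr p M)

/-- Local form of FinN. -/
def LocM (p : ℕ) (F L : Type u) [Field F] [Field L] [Algebra F L] : Prop :=
  ∀ x y : L, ∃ (F₀ L₀ : Type u) (_ : Field F₀) (_ : Field L₀) (_ : Algebra F₀ L₀),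
    Nonempty (SubPair p F L x y F₀ L₀) ∧ FinN p F₀ L₀

/-- The quasicyclic group, local form of THEOREM N with intermediate fields. -/
theorem hasQuasiLocM {ℓ : ℕ} [Fact ℓ.Prime] [Fact (Odd ℓ)] (hRC : StRC.{u}) (hPU : StPU.{u})
    (hKT : StKT.{u} ℓ) (hEX : StEX.{u} ℓ) (hFI : StFI.{u} ℓ)
    (F L : Type u) [Field F] [Field L] [Algebra F L] (h7 : ((ℓ : ℕ) : F) ≠ 0)
    (hL : IsCyclotomicExtension {ℓ} F L) (hF : FinBr ℓ F) (hloc : LocM ℓ F L)
    (A : Type u) [Ring A] [Algebra F A] [Algebra.IsCentral F A] [IsSimpleRing A] (m : ℕ)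
    (hA : Module.finrank F A = (ℓ ^ 2) ^ m) (hns : ∀ n : ℕ, IsEmpty (A ≃ₐ[F] Matrix (Fin n) (Fin n) F))
    (k : ℕ) (B : Fin k → Type u) [∀ i, Ring (B i)] [∀ i, Algebra L (B i)]
    (hB : ∀ i, Algebra.IsCentral L (B i) ∧ IsSimpleRing (B i) ∧ Module.finrank L (B i) = ℓ ^ 2)
    (he : ∃ r s : ℕ, r ≠ 0 ∧ s ≠ 0 ∧
      Nonempty (Matrix (Fin r) (Fin r) (L ⊗[F] A) ≃ₐ[L] Matrix (Fin s) (Fin s) (⨂[L] i, B i))) :
    HasQuasi ℓ F (SeparableClosure F) := by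
  classical
  have : NeZero ((ℓ : ℕ) : F) := ⟨h7⟩
  have hfdL : FiniteDimensional F L := IsCyclotomicExtension.finiteDimensional {ℓ} F L
  have hsep : Algebra.IsSeparable F L := IsCyclotomicExtension.isSeparable {ℓ} F L
  let φ : L →ₐ[F] SeparableClosure F := IsSepClosed.lift
  by_contra hq
  obtain ⟨n, hE⟩ := hEX F (SeparableClosure F) (H27.al_field hF) hq
  obtain ⟨n', f, hn0, ⟨R⟩, hC⟩ : ∃ (n : ℕ) (f : (SeparableClosure F ≃ₐ[F] SeparableClosure F) →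
        (SeparableClosure F ≃ₐ[F] SeparableClosure F) → (SeparableClosure F)ˣ),
        n ≠ 0 ∧ Nonempty (RepData F (SeparableClosure F) A (Fin n) f) ∧
        cls (SeparableClosure F ≃ₐ[F] SeparableClosure F) (SeparableClosure F)ˣ f ∈
          BRP.H50.cycGrp ℓ F (SeparableClosure F) := by
    refine classAt (BRP.H50.Full.cohc le_rfl (by norm_num)) BRP.H79.divseven BR7.H38.det BR7.H38.basel
      (BRP.H62.ltrans BRP.H38.kumsurj BRP.H50.Full.kum BR7.H38.gz H4.disc H4.dlog) BRP.H50.Full.sadd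
      BR7.H38.corres BRP.H38.index BR7.H50.Full.repex BR7.H32.repz BR7.H50.repop BR7.H50.repone
      BR7.H38.gz H4.disc H19.pi BRP.H79.degseven BR7.H50.Full.uniq F L h7 hL ?_ A m hA k B hB he
    intro ζ hζ
    refine cohsAt BR7.H38.corres BRP.H38.index H4.disc BR7.H38.gz BR7.H38.gtors hζ ?_
    obtain ⟨η, X, hη, -, -, -, -, -⟩ := BRP.H72.eta F (SeparableClosure F) ζ hζ
    have hιL : ∀ x : Lˣ, InL F ζ (Units.map (φ : L →* SeparableClosure F) x) := by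
      let _ : Algebra L (SeparableClosure F) := φ.toRingHom.toAlgebra
      have : IsScalarTower F L (SeparableClosure F) := IsScalarTower.of_algebraMap_eq' φ.comp_algebraMap.symm
      intro x g hg
      refine Units.ext ?_
      exact BRP.H62.fix_of_stab hζ hL g hg (x : L)
    refine mainAtR (d := Module.finrank F L) (Module.finrank_pos (R := F) (M := L)).ne' BRP.H50.Full.sadd
      BRP.H50.Full.sstein BRP.H50.Full.sgal BRP.H50.Full.trivc H4.disc BR7.H38.conjc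
      (BR7.H38.conjres BR7.H38.bz) (BRP.H50.cupResZ BR7.H38.gz H4.disc) φ hζ hL (BRP.H50.index_HZ hζ hL φ)
      (normRad ℓ φ ζ) (vanish_local hL _ fun x y => ?_) fun x hx => hx
    obtain ⟨F₀, L₀, _, _, _, ⟨S⟩, hW⟩ := hloc x y
    refine ⟨F₀, L₀, _, _, _, S.i, S.j, S.comm, S.cyc, S.deg, vanish_of_fin fr S.cyc _ ?_, S.hx, S.hy⟩
    intro i hi2 hid
    obtain ⟨k, hk, hk'⟩ := hW i hi2 hid
    have hmain : (Pw ℓ L₀ ⊔ (normRad ℓ φ ζ).comap (Units.map (S.j : L₀ →* L))).relIndex (Wt ℓ F₀ L₀ k) ≠ 0 := by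
      rcases hk' with hk' | ⟨M, _, _, _, _, hdvd, hM⟩
      · intro h0
        have h2 := Subgroup.relIndex_dvd_of_le_left (Wt ℓ F₀ L₀ k)
          (le_sup_left : Pw ℓ L₀ ≤ Pw ℓ L₀ ⊔ (normRad ℓ φ ζ).comap (Units.map (S.j : L₀ →* L)))
        rw [h0, zero_dvd_iff] at h2
        exact hk' h2
      · obtain ⟨R₀, hRf, X', hX', hXc', hXs', hR₀⟩ :=
          localRadM hFI φ hζ hL (S.j.comp (algebraMap M L₀)) hM n η hη
        refine relIndex_of_fin (Units.map (algebraMap M L₀ : M →* L₀)) _ _ R₀ hRf ?_ _ (wt_le S.cyc hdvd)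
        rintro _ ⟨x, hx, rfl⟩
        exact normTriv hRC hPU hKT hζ n hE η hη X' hX' hXc' hXs' _ (hιL _) (hR₀ x hx)
    rcases hk with rfl | rfl
    · exact Or.inl hmain
    · exact Or.inr hmain
  exact hq (BRP.H50.split_or_quasi BRP.H50.Full.cycdiv BR7.H32.repz BR7.H50.repop BR7.H50.repone
    BR7.H50.Full.conv BR7.H38.gz H4.disc h7 hn0 R hC hns)

/-- THEOREM N, local form with intermediate fields. -/
theorem brumerRosenLocM (hRC : StRC.{u}) (hPU : StPU.{u})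
    (hKT : ∀ (ℓ : ℕ) [Fact ℓ.Prime] [Fact (Odd ℓ)], StKT.{u} ℓ)
    (hEX : ∀ (ℓ : ℕ) [Fact ℓ.Prime] [Fact (Odd ℓ)], StEX.{u} ℓ)
    (hFI : ∀ (ℓ : ℕ) [Fact ℓ.Prime], StFI.{u} ℓ)
    (p : ℕ) (hp : p.Prime) (hodd : Odd p) (F L : Type u)
    [Field F] [Field L] [Algebra F L]
    (h7 : (p : F) ≠ 0) (hL : IsCyclotomicExtension {p} F L) (hF : FinBr p F) (hloc : LocM p F L)
    (A : Type u) [Ring A] [Algebra F A] [Algebra.IsCentral F A] [IsSimpleRing A] (m : ℕ)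
    (hA : Module.finrank F A = (p ^ 2) ^ m) (hns : ∀ n : ℕ, IsEmpty (A ≃ₐ[F] Matrix (Fin n) (Fin n) F))
    (k : ℕ) (B : Fin k → Type u) [∀ i, Ring (B i)] [∀ i, Algebra L (B i)]
    (hB : ∀ i, Algebra.IsCentral L (B i) ∧ IsSimpleRing (B i) ∧ Module.finrank L (B i) = p ^ 2)
    (he : ∃ r s : ℕ, r ≠ 0 ∧ s ≠ 0 ∧
      Nonempty (Matrix (Fin r) (Fin r) (L ⊗[F] A) ≃ₐ[L] Matrix (Fin s) (Fin s) (⨂[L] i, B i))) :
    ∃ (A : ℕ → Type u) (_ : ∀ n, Ring (A n)) (_ : ∀ n, Algebra F (A n)),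
      (∀ n, Algebra.IsCentral F (A n) ∧ IsSimpleRing (A n) ∧ FiniteDimensional F (A n)) ∧
      (∀ m : ℕ, IsEmpty (A 0 ≃ₐ[F] Matrix (Fin m) (Fin m) F)) ∧
      (∃ m : ℕ, Nonempty ((⨂[F] (_ : Fin p), A 0) ≃ₐ[F] Matrix (Fin m) (Fin m) F)) ∧
      ∀ n, ∃ r s : ℕ, r ≠ 0 ∧ s ≠ 0 ∧
        Nonempty (Matrix (Fin r) (Fin r) (⨂[F] (_ : Fin p), A (n + 1)) ≃ₐ[F] Matrix (Fin s) (Fin s) (A n)) := by
  have : Fact p.Prime := ⟨hp⟩
  have : Fact (Odd p) := ⟨hodd⟩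
  exact BRP.H50.Full.seq F (hasQuasiLocM hRC hPU (hKT p) (hEX p) (hFI p) F L h7 hL hF hloc A m hA hns
    k B hB he)

end Pool.Agent.Lib.MP_defcf3_al.FR
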