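import Pool.Agent.Lib.MP_defcf3_al.FR.Defs

/-!
MAIN: the finite rank theorem from the modules DEC, VAL, QVA, NAR, ARC, TAM, WIL, RIN, ZOR, RES, FIN.
-/

set_option autoImplicit false

namespace Pool.Agent.Lib.MP_defcf3_al.FR

open Filter

universe u

theorem sym_one_left {p : ℕ} {K : Type u} [Field K] {b : Kˣ → Kˣ → ZMod p} (hb : b ∈ Sym p K)
    (y : Kˣ) : b 1 y = 0 := by
  have h := hb.1 1 1 y
  rw [mul_one] at h
  simpa using h

theorem sym_pow_left {p : ℕ} {K : Type u} [Field K] {b : Kˣ → Kˣ → ZMod p} (hb : b ∈ Sym p K)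
    (x y : Kˣ) (n : ℕ) : b (x ^ n) y = n • b x y := by
  induction n with
  | zero => simp [sym_one_left hb]
  | succ n ih => rw [pow_succ, hb.1, ih, succ_nsmul]

theorem pow_p_mem_Rad {p : ℕ} {K : Type u} [Field K] {b : Kˣ → Kˣ → ZMod p}
    (hb : b ∈ Sym p K) (x : Kˣ) : x ^ p ∈ Rad b hb := by
  intro y
  rw [sym_pow_left hb, nsmul_eq_mul]
  simp

/-- the radical is everything iff the symbol vanishes -/
theorem eq_zero_of_Rad_eq_top {p : ℕ} {K : Type u} [Field K] {b : Kˣ → Kˣ → ZMod p}
    (hb : b ∈ Sym p K) (h : Rad b hb = ⊤) : b = 0 := by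
  funext x y
  have hx : x ∈ Rad b hb := by
    rw [h]
    exact Subgroup.mem_top x
  exact hx y

theorem Rad_eq_top_of_card_eq_one {p : ℕ} {K : Type u} [Field K] {b : Kˣ → Kˣ → ZMod p}
    (hb : b ∈ Sym p K) (h : Nat.card (Kˣ ⧸ Rad b hb) = 1) : Rad b hb = ⊤ := by
  rw [← Subgroup.index_eq_one]
  exact h

theorem card_eq_one_of_eq_zero {p : ℕ} {K : Type u} [Field K] {b : Kˣ → Kˣ → ZMod p}
    (hb : b ∈ Sym p K) (h : b = 0) : Nat.card (Kˣ ⧸ Rad b hb) = 1 := by
  have h1 : Rad b hb = ⊤ := by
    rw [eq_top_iff]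
    intro x _ y
    rw [h]
    rfl
  have h2 : (Rad b hb).index = 1 := by
    rw [h1]
    exact Subgroup.index_top
  exact h2

/-- existence of a nontrivial valuation ring with `1 + m` in the radical -/
theorem exists_oneUnits (hVAL : StVAL.{u}) (hQVA : StQVA.{u}) (hNAR : StNAR.{u})
    (hARC : StARC.{u}) (hTAM : StTAM.{u}) (hWIL : StWIL.{u}) (hRIN : StRIN.{u})
    (p : ℕ) [Fact p.Prime] (hp : Odd p) (L : Type u) [Field L] (k : Subfield L)
    [FiniteDimensional k L] (hk : Module.finrank k L < p)
    (b : Lˣ → Lˣ → ZMod p) (hb : b ∈ Sym p L) (hfin : Finite (Lˣ ⧸ Rad b hb))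
    (hkR : ∀ x : Lˣ, (x : L) ∈ k → ∀ y, b x y = 0) (hb0 : b ≠ 0)
    (N : Filter L) (hN : IsVTop N) (hop : OpenIn N {x | ∀ y, b x y = 0}) :
    ∃ O : ValuationSubring L, O ≠ ⊤ ∧ OneUnits O {x | ∀ y, b x y = 0} := by
  by_cases hnil : ∀ t : L, t ≠ 0 → ¬ Tendsto (fun n : ℕ => t ^ n) atTop N
  · obtain ⟨O, hO, -, hOS⟩ := hVAL L N hN hnil _ hop
    refine ⟨O, hO, ?_⟩
    intro x hx
    exact hOS _ hx x (by ring)
  · have hnil' : ∃ t : L, t ≠ 0 ∧ Tendsto (fun n : ℕ => t ^ n) atTop N := by
      by_contra hcon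
      apply hnil
      intro t ht hT
      exact hcon ⟨t, ht, hT⟩
    obtain ⟨Q⟩ := hQVA L N hN hnil'
    have hopR : OpenIn N ((Rad b hb : Subgroup Lˣ) : Set Lˣ) := hop
    by_cases hbig : ∃ n : ℕ, (n : L) ≠ 0 ∧ Q.v (n : L) < 0
    · exfalso
      have h1 := hARC p L N hN Q hbig (Rad b hb) hopR (pow_p_mem_Rad hb)
      have hneg : (-1 : Lˣ) ∈ Rad b hb := by
        have h2 := pow_p_mem_Rad hb (-1)
        rwa [hp.neg_one_pow] at h2
      apply hb0
      apply eq_zero_of_Rad_eq_top hb
      rw [eq_top_iff]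
      intro x _
      rcases h1 x with h | h
      · exact h
      · have h3 := (Rad b hb).mul_mem hneg h
        simpa using h3
    · have hall : ∀ n : ℕ, (n : L) ≠ 0 → 0 ≤ Q.v (n : L) := by
        intro n hn
        by_contra hlt
        exact hbig ⟨n, hn, not_le.1 hlt⟩
      have hval := hNAR L N Q hall
      have hone : ∀ x : Lˣ, (x : L) = 1 ∨ 0 < Q.v ((x : L) - 1) → ∀ y, b x y = 0 := by
        by_cases hpc : (p : L) ≠ 0 ∧ Q.v (p : L) = 0
        · exact hTAM p L N hN Q hval hpc.1 hpc.2 (Rad b hb) hopR (pow_p_mem_Rad hb)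
        · apply hWIL p hp L k hk N hN Q hval _ b hb hfin hkR hop
          intro hp0
          rcases lt_or_eq_of_le (hall p hp0) with h | h
          · exact h
          · exact absurd ⟨hp0, h.symm⟩ hpc
      obtain ⟨O, hO, -, hOv⟩ := hRIN L N hN Q hval
      refine ⟨O, hO, ?_⟩
      intro x hx
      apply hone x
      rcases (hOv _).1 hx with h | h
      · left
        exact sub_eq_zero.1 h
      · right
        exact h

/-- MAIN -/
theorem main (hDEC : StDEC.{u}) (hVAL : StVAL.{u}) (hQVA : StQVA.{u}) (hNAR : StNAR.{u})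
    (hARC : StARC.{u}) (hTAM : StTAM.{u}) (hWIL : StWIL.{u}) (hRIN : StRIN.{u})
    (hZOR : StZOR.{u}) (hRES : StRES.{u}) (hFIN : StFIN.{u}) : StFR.{u} := by
  intro p hpF hp
  -- induction on the number of classes
  have key : ∀ n : ℕ, ∀ (L : Type u) [Field L] (k : Subfield L)
      [FiniteDimensional k L] (_ : Module.finrank k L < p)
      (b : Lˣ → Lˣ → ZMod p) (hb : b ∈ Sym p L), Finite (Lˣ ⧸ Rad b hb) →
      Nat.card (Lˣ ⧸ Rad b hb) = n →
      (∀ x : Lˣ, (x : L) ∈ k → ∀ y, b x y = 0) → b = 0 := by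
    intro n
    induction n using Nat.strong_induction_on with
    | _ n ih =>
      intro L _ k _ hk b hb hfin hcard hkR
      by_contra hb0
      obtain ⟨O, hO1, hOmin⟩ := hZOR L (Rad b hb)
      obtain ⟨kk, hkkf, c, hc, hkk, hccard, hckk, hup⟩ := hRES p hp L k hk b hb hfin hkR O hO1
      have hn1 : Nat.card (Lˣ ⧸ Rad b hb) ≠ 1 := by
        intro h
        exact hb0 (eq_zero_of_Rad_eq_top hb (Rad_eq_top_of_card_eq_one hb h))
      have hc0 : c ≠ 0 := by
        intro h
        apply hn1
        rw [← hccard]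
        exact card_eq_one_of_eq_zero hc h
      have hcfin : Finite ((IsLocalRing.ResidueField O)ˣ ⧸ Rad c hc) := by
        apply Nat.finite_of_card_ne_zero
        rw [hccard]
        exact Nat.card_pos.ne'
      have hinf : Infinite (IsLocalRing.ResidueField O) := by
        rw [← not_finite_iff_infinite]
        intro hf
        apply hc0
        have h1 := hFIN p hp (IsLocalRing.ResidueField O)
        have h2 : c ∈ (⊥ : Submodule (ZMod p) _) := by
          rw [← h1]
          exact hc
        exact (Submodule.mem_bot _).1 h2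
      -- a component with the same radical
      obtain ⟨N, hN, hop⟩ : ∃ N : Filter (IsLocalRing.ResidueField O), IsVTop N ∧
          OpenIn N {x | ∀ y, c x y = 0} := by
        have hmem := hDEC p (IsLocalRing.ResidueField O) c hc hcfin
        by_contra hcon
        apply hc0
        have hle : Submodule.span (ZMod p)
            {c' : (IsLocalRing.ResidueField O)ˣ → (IsLocalRing.ResidueField O)ˣ → ZMod p |
              c' ∈ Sym p (IsLocalRing.ResidueField O) ∧
              (∀ x, (∀ y, c x y = 0) → ∀ y, c' x y = 0) ∧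
              ∃ N : Filter (IsLocalRing.ResidueField O), IsVTop N ∧
                OpenIn N {x | ∀ y, c' x y = 0}} ≤ ⊥ := by
          rw [Submodule.span_le]
          rintro c' ⟨hc', hrad, N, hN, hop⟩
          rw [SetLike.mem_coe, Submodule.mem_bot]
          have hRle : Rad c hc ≤ Rad c' hc' := fun x hx => hrad x hx
          have hidx : (Rad c' hc').index ∣ (Rad c hc).index := Subgroup.index_dvd_of_le hRle
          have hcpos : (Rad c hc).index ≠ 0 := by
            have : Nat.card ((IsLocalRing.ResidueField O)ˣ ⧸ Rad c hc) ≠ 0 := Nat.card_pos.ne'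
            exact this
          have hc'pos : (Rad c' hc').index ≠ 0 := by
            intro h
            rw [h] at hidx
            exact hcpos (Nat.eq_zero_of_zero_dvd hidx)
          have hle' : (Rad c' hc').index ≤ (Rad c hc).index :=
            Nat.le_of_dvd (Nat.pos_of_ne_zero hcpos) hidx
          rcases lt_or_eq_of_le hle' with hlt | heq
          · have hfin' : Finite ((IsLocalRing.ResidueField O)ˣ ⧸ Rad c' hc') :=
              Nat.finite_of_card_ne_zero hc'pos
            apply ih (Nat.card ((IsLocalRing.ResidueField O)ˣ ⧸ Rad c' hc')) _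
              (IsLocalRing.ResidueField O) kk hkk c' hc' hfin' rfl
            · intro x hx
              exact hrad x (hckk x hx)
            · rw [← hcard, ← hccard]
              exact hlt
          · exfalso
            have hrel : (Rad c hc).relIndex (Rad c' hc') = 1 := by
              have h5 := Subgroup.relIndex_mul_index hRle
              rw [heq] at h5
              exact Nat.eq_of_mul_eq_mul_right (Nat.pos_of_ne_zero hcpos)
                (by rw [h5, one_mul])
            have hEq : Rad c hc = Rad c' hc' :=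
              le_antisymm hRle (Subgroup.relIndex_eq_one.1 hrel)
            apply hcon
            refine ⟨N, hN, ?_⟩
            have h3 : {x : (IsLocalRing.ResidueField O)ˣ | ∀ y, c x y = 0} =
                {x | ∀ y, c' x y = 0} := by
              ext x
              have h4 : x ∈ Rad c hc ↔ x ∈ Rad c' hc' := by rw [hEq]
              exact h4
            rw [h3]
            exact hop
        exact (Submodule.mem_bot _).1 (hle hmem)
      obtain ⟨O', hO', hO'1⟩ := exists_oneUnits hVAL hQVA hNAR hARC hTAM hWIL hRIN p hp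
        (IsLocalRing.ResidueField O) kk hkk c hc hcfin hckk hc0 N hN hop
      obtain ⟨O'', hle, hne, hO''1⟩ := hup O' hO' hO'1
      exact hne (hOmin O'' hle hO''1)
  intro L _ k _ hk b hb hfin hkR
  exact key _ L k hk b hb hfin rfl hkR

end Pool.Agent.Lib.MP_defcf3_al.FR
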