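import Pool.Agent.Lib.MP_defcf3_al.FR.Vanish

/-! Local form: vanishing of symbols of weight one on L = F(ζ) follows from vanishing on subfields L₀ = F₀(ζ), F₀ < F,
[L₀:F₀] = [L:F], containing any two given elements. -/

set_option autoImplicit false

namespace Pool.Agent.Lib.MP_defcf3_al.FR

universe u

open BR7 BRP BRP.H50

variable {ℓ : ℕ} [Fact ℓ.Prime]

/-- Restriction of an automorphism of L over F to L₀. -/
theorem restr {F L F₀ L₀ : Type u} [Field F] [Field L] [Algebra F L] [Field F₀] [Field L₀] [Algebra F₀ L₀]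
    (i : F₀ →+* F) (j : L₀ →+* L) (hij : ∀ a, j (algebraMap F₀ L₀ a) = algebraMap F L (i a))
    (hL₀ : IsCyclotomicExtension {ℓ} F₀ L₀) (g : L ≃ₐ[F] L) :
    ∃ g₀ : L₀ ≃ₐ[F₀] L₀, ∀ x : L₀, j (g₀ x) = g (j x) := by
  classical
  have hl := (Fact.out : Nat.Prime ℓ)
  have : NeZero ℓ := ⟨hl.ne_zero⟩
  have hfd : FiniteDimensional F₀ L₀ := IsCyclotomicExtension.finiteDimensional {ℓ} F₀ L₀
  obtain ⟨ζ, hζ⟩ := hL₀.exists_isPrimitiveRoot (Set.mem_singleton ℓ) hl.ne_zero
  have hζj : IsPrimitiveRoot (j ζ) ℓ := hζ.map_of_injective j.injective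
  have hmem : ∀ x : L₀, g (j x) ∈ j.range := by
    intro x
    refine Algebra.adjoin_induction (R := F₀) (p := fun x _ => g (j x) ∈ j.range)
      ?_ ?_ ?_ ?_ (hL₀.adjoin_roots x)
    · rintro b ⟨n, hn, -, hb⟩
      rw [Set.mem_singleton_iff] at hn
      rw [hn] at hb
      have h1 : (g (j b)) ^ ℓ = 1 := by rw [← map_pow, ← map_pow, hb, map_one, map_one]
      obtain ⟨i, -, hi⟩ := hζj.eq_pow_of_pow_eq_one h1
      exact ⟨ζ ^ i, by rw [map_pow, hi]⟩
    · intro r
      refine ⟨algebraMap F₀ L₀ r, ?_⟩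
      rw [hij, g.commutes]
    · intro x y _ _ hx hy
      rw [map_add, map_add]
      exact add_mem hx hy
    · intro x y _ _ hx hy
      rw [map_mul, map_mul]
      exact mul_mem hx hy
  choose t ht using hmem
  let τ : L₀ →ₐ[F₀] L₀ :=
    { toFun := t
      map_one' := j.injective (by rw [ht, map_one, map_one])
      map_mul' := fun x y => j.injective (by rw [map_mul, ht, ht, ht, map_mul, map_mul])
      map_zero' := j.injective (by rw [ht, map_zero, map_zero])
      map_add' := fun x y => j.injective (by rw [map_add, ht, ht, ht, map_add, map_add])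
      commutes' := fun r => j.injective (by rw [ht, hij, g.commutes]) }
  have hτ : ∀ x, j (τ x) = g (j x) := ht
  have hbij : Function.Bijective τ := Algebra.IsAlgebraic.algHom_bijective τ
  exact ⟨AlgEquiv.ofBijective τ hbij, fun x => hτ x⟩

/-- Vanishing is local. -/
theorem vanish_local {F L : Type u} [Field F] [Field L] [Algebra F L] (hL : IsCyclotomicExtension {ℓ} F L)
    (R : Subgroup Lˣ)
    (h : ∀ x y : Lˣ, ∃ (F₀ L₀ : Type u) (_ : Field F₀) (_ : Field L₀) (_ : Algebra F₀ L₀) (i : F₀ →+* F)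
      (j : L₀ →+* L), (∀ a, j (algebraMap F₀ L₀ a) = algebraMap F L (i a)) ∧ IsCyclotomicExtension {ℓ} F₀ L₀ ∧
      Module.finrank F₀ L₀ = Module.finrank F L ∧ Vanish ℓ F₀ L₀ (R.comap (Units.map (j : L₀ →* L))) ∧
      (x : L) ∈ j.range ∧ (y : L) ∈ j.range) : Vanish ℓ F L R := by
  classical
  intro b hb hR x y
  have hl := (Fact.out : Nat.Prime ℓ)
  have : NeZero ℓ := ⟨hl.ne_zero⟩
  obtain ⟨F₀, L₀, _, _, _, i, j, hij, hL₀, hd, hV, ⟨x₀, hx₀⟩, ⟨y₀, hy₀⟩⟩ := h x y
  have hfd : FiniteDimensional F L := IsCyclotomicExtension.finiteDimensional {ℓ} F L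
  have hgal : IsGalois F L := IsCyclotomicExtension.isGalois {ℓ} F L
  have hfd₀ : FiniteDimensional F₀ L₀ := IsCyclotomicExtension.finiteDimensional {ℓ} F₀ L₀
  have hgal₀ : IsGalois F₀ L₀ := IsCyclotomicExtension.isGalois {ℓ} F₀ L₀
  have hx0 : x₀ ≠ 0 := by
    rintro rfl
    rw [map_zero] at hx₀
    exact x.ne_zero hx₀.symm
  have hy0 : y₀ ≠ 0 := by
    rintro rfl
    rw [map_zero] at hy₀
    exact y.ne_zero hy₀.symm
  set J : L₀ˣ →* Lˣ := Units.map (j : L₀ →* L) with hJ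
  have hJinj : Function.Injective J := Units.map_injective j.injective
  have hJx : J (Units.mk0 x₀ hx0) = x := Units.ext hx₀
  have hJy : J (Units.mk0 y₀ hy0) = y := Units.ext hy₀
  -- a primitive root
  obtain ⟨ζ, hζ⟩ := hL₀.exists_isPrimitiveRoot (Set.mem_singleton ℓ) hl.ne_zero
  have hζ0 : ζ ≠ 0 := hζ.ne_zero hl.ne_zero
  have hζj : IsPrimitiveRoot (j ζ) ℓ := hζ.map_of_injective j.injective
  -- restriction is bijective
  choose r hr using restr (ℓ := ℓ) i j hij hL₀ (L := L)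
  have hrinj : Function.Injective r := by
    intro g g' hgg
    have h1 : g (j ζ) = g' (j ζ) := by rw [← hr, ← hr, hgg]
    have h2 : Function.Injective (hζj.autToPow F) := hζj.autToPow_injective F
    apply h2
    refine Units.ext ?_
    have h3 := hζj.autToPow_spec F g
    have h4 := hζj.autToPow_spec F g'
    rw [h1, ← h4] at h3
    have h5 := hζj.pow_inj (ZMod.val_lt _) (ZMod.val_lt _) h3
    exact ZMod.val_injective ℓ h5
  have hrbij : Function.Bijective r := by
    have : Finite (L ≃ₐ[F] L) := inferInstance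
    have hc : Nat.card (L ≃ₐ[F] L) = Nat.card (L₀ ≃ₐ[F₀] L₀) := by
      rw [IsGalois.card_aut_eq_finrank F L, IsGalois.card_aut_eq_finrank F₀ L₀, hd]
    exact (Nat.bijective_iff_injective_and_card r).2 ⟨hrinj, hc⟩
  set b₀ : L₀ˣ → L₀ˣ → ZMod ℓ := fun x y => b (J x) (J y) with hb₀
  have hW : WSym ℓ F₀ L₀ b₀ := by
    refine ⟨⟨fun x y z => ?_, fun x y z => ?_, fun x y hxy => ?_⟩, fun x y => hb.anti _ _, fun f y => ?_, ?_⟩
    · show b (J (x * y)) (J z) = _
      rw [map_mul, hb.sym.1]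
    · show b (J x) (J (y * z)) = _
      rw [map_mul, hb.sym.2.1]
    · refine hb.sym.2.2 _ _ ?_
      show j x + j y = 1
      rw [← map_add, hxy, map_one]
    · have h1 : J (Units.map (algebraMap F₀ L₀ : F₀ →* L₀) f) =
          Units.map (algebraMap F L : F →* L) (Units.map (i : F₀ →* F) f) := Units.ext (hij f)
      show b (J _) (J y) = 0
      rw [h1, hb.triv]
    · intro g₀ n hn x y
      obtain ⟨g, rfl⟩ := hrbij.2 g₀
      have h1 : ∀ x : L₀ˣ, J (r g • x) = g • J x := fun x => Units.ext (hr g x)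
      show b (J _) (J _) = n * b (J x) (J y)
      rw [h1, h1]
      refine hb.eqv g n ?_ _ _
      intro z hz
      have hz' : (z : L) ^ ℓ = 1 := by rw [← Units.val_pow_eq_pow_val, hz, Units.val_one]
      obtain ⟨m, -, hm⟩ := hζj.eq_pow_of_pow_eq_one hz'
      have h2 := hn (Units.mk0 ζ hζ0 ^ m) (by
        refine Units.ext ?_
        rw [Units.val_pow_eq_pow_val, Units.val_pow_eq_pow_val, Units.val_mk0, ← pow_mul, Nat.mul_comm, pow_mul,
          hζ.pow_eq_one, one_pow, Units.val_one])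
      have h3 : J (Units.mk0 ζ hζ0 ^ m) = z := by
        refine Units.ext ?_
        show j ((Units.mk0 ζ hζ0 ^ m : L₀ˣ) : L₀) = z
        rw [Units.val_pow_eq_pow_val, Units.val_mk0, map_pow, hm]
      rw [← h3, ← h1, h2, map_pow]
  have h1 := hV b₀ hW (fun x hx y => hR _ hx _) (Units.mk0 x₀ hx0) (Units.mk0 y₀ hy0)
  have h2 : b (J (Units.mk0 x₀ hx0)) (J (Units.mk0 y₀ hy0)) = 0 := h1
  rwa [hJx, hJy] at h2

end Pool.Agent.Lib.MP_defcf3_al.FR
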