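import Pool.Agent.Lib.MP_defcf3_al.FR.NTriv
import Pool.Agent.Lib.MP_defcf3_al.FR.VLocal
import Pool.Agent.Lib.MP_defcf3_al.FR.H27.Al

/-! Local form of THEOREM N: if Br(L₀)[ℓ] is finite, L₀ = F₀(ζ), F₀ a subfield of F, then a subgroup of finite index of
L₀^* consists of elements f of L such that the norms to F of all symbols (f,l), l in L, vanish. -/

namespace Pool.Agent.Lib.MP_defcf3_al.FR

universe u

variable {ℓ : ℕ} [Fact ℓ.Prime] [Fact (Odd ℓ)]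

open BR7 BR7.H50 BRP BRP.H50

omit [Fact (Odd ℓ)] in
theorem normTriv_one (F : Type u) {Ω : Type u} [Field F] [Field Ω] [Algebra F Ω] (ζ : Ωˣ) :
    NormTriv ℓ F ζ 1 := by
  intro γ d hH hex l hl
  have h1 : cup ℓ (1 : Ωˣ) (kum ℓ F ζ l) = 1 := by
    funext g h
    exact one_pow _
  rw [h1]
  refine prod_mem fun i _ => ?_
  rw [map_one]
  exact one_mem _

omit [Fact (Odd ℓ)] in
theorem normTriv_mul {F Ω : Type u} [Field F] [Field Ω] [Algebra F Ω] {ζ f f' : Ωˣ}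
    (hf : NormTriv ℓ F ζ f) (hf' : NormTriv ℓ F ζ f') : NormTriv ℓ F ζ (f * f') := by
  intro γ d hH hex l hl
  have h1 : cup ℓ (f * f') (kum ℓ F ζ l) = cup ℓ f (kum ℓ F ζ l) * cup ℓ f' (kum ℓ F ζ l) := by
    funext g h
    exact mul_pow _ _ _
  rw [h1]
  simp only [map_mul, Finset.prod_mul_distrib]
  exact mul_mem (hf γ d hH hex l hl) (hf' γ d hH hex l hl)

omit [Fact (Odd ℓ)] in
theorem normTriv_inv {F Ω : Type u} [Field F] [Field Ω] [Algebra F Ω] {ζ f : Ωˣ}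
    (hf : NormTriv ℓ F ζ f) : NormTriv ℓ F ζ f⁻¹ := by
  intro γ d hH hex l hl
  have h1 : cup ℓ (f⁻¹) (kum ℓ F ζ l) = (cup ℓ f (kum ℓ F ζ l))⁻¹ := by
    funext g h
    exact inv_pow _ _
  rw [h1]
  simp only [map_inv, Finset.prod_inv_distrib]
  exact inv_mem (hf γ d hH hex l hl)

/-- The elements f of L such that the norms to F of all symbols (f,l) vanish. -/
def normRad (ℓ : ℕ) [Fact ℓ.Prime] {F L Ω : Type u} [Field F] [Field L] [Field Ω] [Algebra F L] [Algebra F Ω]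
    (φ : L →ₐ[F] Ω) (ζ : Ωˣ) : Subgroup Lˣ where
  carrier := {x | NormTriv ℓ F ζ (Units.map (φ : L →* Ω) x)}
  mul_mem' := by
    intro x y hx hy
    show NormTriv ℓ F ζ (Units.map (φ : L →* Ω) (x * y))
    rw [map_mul]
    exact normTriv_mul hx hy
  one_mem' := by
    show NormTriv ℓ F ζ (Units.map (φ : L →* Ω) 1)
    rw [map_one]
    exact normTriv_one F ζ
  inv_mem' := by
    intro x hx
    show NormTriv ℓ F ζ (Units.map (φ : L →* Ω) x⁻¹)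
    rw [map_inv]
    exact normTriv_inv hx

/-- A subgroup of finite index of L₀^*. -/
theorem localRad (hFI : StFI.{u} ℓ) {F L F₀ L₀ Ω : Type u} [Field F] [Field L] [Field F₀] [Field L₀] [Field Ω]
    [Algebra F L] [Algebra F₀ L₀] [Algebra F Ω] [IsGalois F Ω] [IsSepClosed Ω] (φ : L →ₐ[F] Ω) {ζ : Ωˣ}
    (hζ : IsPrimitiveRoot ζ ℓ) (hL : IsCyclotomicExtension {ℓ} F L) (hL₀ : IsCyclotomicExtension {ℓ} F₀ L₀)
    (j : L₀ →+* L) (hfin : FinBr ℓ L₀) (n : ℕ) (η : ℕ → Ωˣ) (hη : RootSys ℓ ζ η) :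
    ∃ R₀ : Subgroup L₀ˣ, R₀.FiniteIndex ∧ ∃ X : HZ F ζ → ZMod (ℓ ^ n), (∀ g h, X (g * h) = X g + X h) ∧
      IsLocallyConstant X ∧ (∀ g : HZ F ζ, X g = 0 ↔ (g : Ω ≃ₐ[F] Ω) • η n = η n) ∧
      ∀ x ∈ R₀, cup (ℓ ^ n) (Units.map (φ : L →* Ω) (Units.map (j : L₀ →* L) x)) X ∈ B2 (HZ F ζ) Ωˣ := by
  classical
  have hl := (Fact.out : Nat.Prime ℓ)
  have : NeZero ℓ := ⟨hl.ne_zero⟩
  have hD : Disc (Ω ≃ₐ[F] Ω) Ωˣ := H4.disc F Ω
  let _ : Algebra L Ω := φ.toRingHom.toAlgebra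
  have : IsScalarTower F L Ω := IsScalarTower.of_algebraMap_eq' φ.comp_algebraMap.symm
  let _ : Algebra L₀ Ω := (φ.toRingHom.comp j).toAlgebra
  let Ω₀ := SeparableClosure L₀
  let e : Ω₀ →ₐ[L₀] Ω := IsSepClosed.lift
  let _ : Algebra Ω₀ Ω := e.toRingHom.toAlgebra
  have : IsScalarTower L₀ Ω₀ Ω := IsScalarTower.of_algebraMap_eq' e.comp_algebraMap.symm
  have heL : ∀ x : L₀, e (algebraMap L₀ Ω₀ x) = φ (j x) := fun x => e.commutes x
  -- the primitive root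
  obtain ⟨z, hz⟩ := hL₀.exists_isPrimitiveRoot (Set.mem_singleton ℓ) hl.ne_zero
  have hζ' : (ζ : Ω) ^ ℓ = 1 := by rw [← Units.val_pow_eq_pow_val, hζ.pow_eq_one, Units.val_one]
  obtain ⟨z₀, hz₀⟩ : ∃ z₀ : L₀, φ (j z₀) = ζ := by
    have h1 : IsPrimitiveRoot (φ (j z)) ℓ := (hz.map_of_injective j.injective).map_of_injective φ.injective
    obtain ⟨i, -, hi⟩ := h1.eq_pow_of_pow_eq_one hζ'
    exact ⟨z ^ i, by rw [map_pow, map_pow, hi]⟩
  have hz0 : algebraMap L₀ Ω₀ z₀ ≠ 0 := by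
    intro h
    have h1 := heL z₀
    rw [h, map_zero, hz₀] at h1
    exact ζ.ne_zero h1.symm
  set ζ₀ : Ω₀ˣ := Units.mk0 (algebraMap L₀ Ω₀ z₀) hz0 with hζ₀def
  set E : Ω₀ˣ →* Ωˣ := Units.map (e : Ω₀ →* Ω) with hE
  have hEinj : Function.Injective E := Units.map_injective e.toRingHom.injective
  have hEζ : E ζ₀ = ζ := Units.ext (by
    show e (algebraMap L₀ Ω₀ z₀) = ζ
    rw [heL, hz₀])
  have hζ₀ : IsPrimitiveRoot ζ₀ ℓ := by
    refine IsPrimitiveRoot.of_map_of_injective (f := E) ?_ hEinj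
    rw [hEζ]
    exact hζ
  obtain ⟨η₀, X₀, hη₀, hX, hXc, hXk, hXs, -⟩ := BRP.H72.eta L₀ Ω₀ ζ₀ hζ₀
  -- the restriction homomorphism
  have hfixL : ∀ (g : HZ F ζ) (x : L₀), (g : Ω ≃ₐ[F] Ω) (algebraMap L₀ Ω x) = algebraMap L₀ Ω x := fun g x =>
    BRP.H62.fix_of_stab hζ hL (g : Ω ≃ₐ[F] Ω) g.2 (j x)
  let τ : HZ F ζ →* (Ω ≃ₐ[L₀] Ω) :=
    { toFun := fun g => { (g : Ω ≃ₐ[F] Ω) with commutes' := hfixL g }
      map_one' := rfl
      map_mul' := fun _ _ => rfl }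
  let ρ : HZ F ζ →* (Ω₀ ≃ₐ[L₀] Ω₀) := (AlgEquiv.restrictNormalHom Ω₀).comp τ
  have hρ : ∀ (g : HZ F ζ) (x : Ω₀), e (ρ g x) = (g : Ω ≃ₐ[F] Ω) (e x) := fun g x =>
    AlgEquiv.restrictNormal_commutes (τ g) Ω₀ x
  have hρE : ∀ (g : HZ F ζ) (x : Ω₀ˣ), E (ρ g • x) = g • E x := fun g x => Units.ext (hρ g x)
  have hρc : Continuous ρ := by
    apply continuous_of_continuousAt_one
    intro U hU
    rw [map_one, krullTopology_mem_nhds_one_iff] at hU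
    obtain ⟨K, hK, hKU⟩ := hU
    have hfinK : FiniteDimensional L₀ K := hK
    let b := Module.finBasis L₀ K
    have h1 : ∀ i, ∀ᶠ g : HZ F ζ in nhds 1, (g : Ω ≃ₐ[F] Ω) (e (b i : Ω₀)) = e (b i : Ω₀) := by
      intro i
      have hb0 : e (b i : Ω₀) ≠ 0 := by
        intro h
        exact b.ne_zero i (Subtype.ext (e.toRingHom.injective (h.trans (map_zero _).symm)))
      have h2 : IsOpen {g : HZ F ζ | (g : Ω ≃ₐ[F] Ω) • (Units.mk0 (e (b i : Ω₀)) hb0) = Units.mk0 (e (b i : Ω₀)) hb0} :=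
        (hD (Units.mk0 (e (b i : Ω₀)) hb0)).preimage continuous_subtype_val
      have h3 : (1 : HZ F ζ) ∈
          {g : HZ F ζ | (g : Ω ≃ₐ[F] Ω) • (Units.mk0 (e (b i : Ω₀)) hb0) = Units.mk0 (e (b i : Ω₀)) hb0} := by
        change ((1 : HZ F ζ) : Ω ≃ₐ[F] Ω) • (Units.mk0 (e (b i : Ω₀)) hb0) = Units.mk0 (e (b i : Ω₀)) hb0
        rw [OneMemClass.coe_one, one_smul]
      filter_upwards [h2.mem_nhds h3] with g hg
      exact congrArg Units.val hg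
    have h2 : ∀ᶠ g : HZ F ζ in nhds 1, ∀ i, (g : Ω ≃ₐ[F] Ω) (e (b i : Ω₀)) = e (b i : Ω₀) :=
      Filter.eventually_all.mpr h1
    rw [Filter.mem_map]
    filter_upwards [h2] with g hg
    rw [Set.mem_preimage]
    apply hKU
    rw [SetLike.mem_coe, IntermediateField.mem_fixingSubgroup_iff]
    intro x hx
    have h3 : x = ∑ i, b.repr ⟨x, hx⟩ i • (b i : Ω₀) := by
      have := congrArg (fun y : K => (y : Ω₀)) (b.sum_repr ⟨x, hx⟩)
      simp only [AddSubmonoidClass.coe_finsetSum, IntermediateField.coe_smul] at this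
      exact this.symm
    rw [h3, map_sum]
    refine Finset.sum_congr rfl fun i _ => ?_
    rw [map_smul]
    congr 1
    apply e.toRingHom.injective
    exact (hρ g _).trans (hg i)
  -- the subgroup
  have hD₀ : Disc (Ω₀ ≃ₐ[L₀] Ω₀) Ω₀ˣ := H4.disc L₀ Ω₀
  obtain ⟨R₀, hRf, hR⟩ := hFI (Ω₀ ≃ₐ[L₀] Ω₀) Ω₀ˣ hD₀ (H27.al_field hfin) n (X₀ n) (hX n) (hXc n) L₀ˣ
    (Units.map (algebraMap L₀ Ω₀ : L₀ →* Ω₀)) (fun x g => Units.ext (g.commutes (x : L₀)))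
  refine ⟨R₀, hRf, fun g => X₀ n (ρ g), fun g h => ?_, (hXc n).comp_continuous hρc, fun g => ?_, fun x hx => ?_⟩
  · show X₀ n (ρ (g * h)) = X₀ n (ρ g) + X₀ n (ρ h)
    rw [map_mul, hX]
  · show X₀ n (ρ g) = 0 ↔ _
    have h1 : (ρ g : Ω₀ ≃ₐ[L₀] Ω₀) • ζ₀ = ζ₀ := Units.ext ((ρ g).commutes z₀)
    have h2 := hXs n (ρ g)
    rw [h1] at h2
    have h3 : X₀ n (ρ g) = 0 ↔ ρ g • η₀ n = η₀ n := by
      rw [h2]
      exact ⟨fun h => ⟨rfl, h⟩, fun h => h.2⟩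
    rw [h3]
    -- E (η₀ n) and η n generate the same group
    have hp1 : IsPrimitiveRoot (E (η₀ n)) (ℓ ^ (n + 1)) := (hη₀.2.1 n).map_of_injective hEinj
    have hp2 := hη.2.1 n
    have : NeZero (ℓ ^ (n + 1)) := ⟨pow_ne_zero _ hl.ne_zero⟩
    have hpow : ∀ {a b : Ωˣ}, IsPrimitiveRoot a (ℓ ^ (n + 1)) → b ^ ℓ ^ (n + 1) = 1 → ∃ i : ℕ, a ^ i = b := by
      intro a b ha hb
      exact ⟨_, (H4.dlog Ω (ℓ ^ (n + 1)) a ha).1 b hb⟩
    constructor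
    · intro h
      have h4 : (g : Ω ≃ₐ[F] Ω) • E (η₀ n) = E (η₀ n) := by
        have := hρE g (η₀ n)
        rw [h] at this
        exact this.symm
      obtain ⟨i, hi⟩ := hpow hp1 hp2.pow_eq_one
      rw [← hi, smul_pow', h4]
    · intro h
      obtain ⟨i, hi⟩ := hpow hp2 hp1.pow_eq_one
      apply hEinj
      rw [hρE, ← hi]
      show (g : Ω ≃ₐ[F] Ω) • (η n ^ i) = η n ^ i
      rw [smul_pow', h]
  · obtain ⟨b, hb, hbe⟩ := hR x hx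
    refine ⟨fun g => E (b (ρ g)), (hb.comp_continuous hρc).comp E, fun g h => ?_⟩
    have h1 := congrArg E (hbe (ρ g) (ρ h))
    rw [map_mul E, map_mul E, map_inv E, hρE, ← map_mul ρ] at h1
    rw [← h1]
    show (Units.map (φ : L →* Ω) (Units.map (j : L₀ →* L) x)) ^ _ = E ((Units.map (algebraMap L₀ Ω₀ : L₀ →* Ω₀) x) ^ _)
    rw [map_pow]
    congr 1
    exact Units.ext (heL x).symm

end Pool.Agent.Lib.MP_defcf3_al.FR
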