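import Pool.Agent.Lib.MP_defcf3_al.FR.All
import Pool.Agent.Lib.MP_defcf3_al.FR.NLocal
import Pool.Agent.Lib.MP_defcf3_al.FR.Hrt
import Pool.Agent.Lib.MP_defcf3_al.FR.Hrt1W

/-! Final theorems of project FR in local form. L = F(ζ), p odd. LocW: any two elements of L lie in a subfield
L₀ = F₀(ζ), F₀ < F, [L₀:F₀] = [L:F] = d, such that for i = 2, .., d-1 one of the weight spaces of weights i and d+1-i of
L₀^*/L₀^{*p} is finite. LocN: the same, but Br(L₀)[p] finite is allowed as well. -/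

namespace Pool.Agent.Lib.MP_defcf3_al.FR

open scoped TensorProduct

universe u

open BR7 BRP

/-- L₀ = F₀(ζ_p), where F₀ is a subfield of F and L₀ the corresponding subfield of L of the same degree over F₀ as L over
F; L₀ contains x and y. -/
structure SubPair (p : ℕ) (F L : Type u) [Field F] [Field L] [Algebra F L] (x y : L) (F₀ L₀ : Type u) [Field F₀]
    [Field L₀] [Algebra F₀ L₀] where
  /-- F₀ → F -/
  i : F₀ →+* F
  /-- L₀ → L -/
  j : L₀ →+* L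
  comm : ∀ a, j (algebraMap F₀ L₀ a) = algebraMap F L (i a)
  cyc : IsCyclotomicExtension {p} F₀ L₀
  deg : Module.finrank F₀ L₀ = Module.finrank F L
  hx : x ∈ j.range
  hy : y ∈ j.range

/-- Local finiteness of weight spaces. -/
def LocW (p : ℕ) (F L : Type u) [Field F] [Field L] [Algebra F L] : Prop :=
  ∀ x y : L, ∃ (F₀ L₀ : Type u) (_ : Field F₀) (_ : Field L₀) (_ : Algebra F₀ L₀),
    Nonempty (SubPair p F L x y F₀ L₀) ∧ FinW p F₀ L₀

/-- Local finiteness of weight spaces or of the p-torsion of the Brauer group. -/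
def LocN (p : ℕ) (F L : Type u) [Field F] [Field L] [Algebra F L] : Prop :=
  ∀ x y : L, ∃ (F₀ L₀ : Type u) (_ : Field F₀) (_ : Field L₀) (_ : Algebra F₀ L₀),
    Nonempty (SubPair p F L x y F₀ L₀) ∧ (FinBr p L₀ ∨ FinW p F₀ L₀)

theorem finWR_of_finW {p : ℕ} {F L : Type u} [Field F] [Field L] [Algebra F L] (R : Subgroup Lˣ)
    (h : FinW p F L) : FinWR p F L R := by
  have h1 : ∀ W : Subgroup Lˣ, (Pw p L).relIndex W ≠ 0 → (Pw p L ⊔ R).relIndex W ≠ 0 := by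
    intro W hW h0
    have h2 : (Pw p L ⊔ R).relIndex W ∣ (Pw p L).relIndex W :=
      Subgroup.relIndex_dvd_of_le_left W le_sup_left
    rw [h0, zero_dvd_iff] at h2
    exact hW h2
  intro i hi hd
  rcases h i hi hd with h2 | h2
  · exact Or.inl (h1 _ h2)
  · exact Or.inr (h1 _ h2)

theorem finWR_of_index {p : ℕ} {F L : Type u} [Field F] [Field L] [Algebra F L] (R : Subgroup Lˣ)
    (h : R.FiniteIndex) : FinWR p F L R := by
  have h1 : (Pw p L ⊔ R).FiniteIndex := Subgroup.finiteIndex_of_le le_sup_right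
  intro i _ _
  left
  exact fun h => h1.index_ne_zero (Subgroup.index_eq_zero_of_relIndex_eq_zero h)

theorem vanish_of_locW {ℓ : ℕ} [Fact ℓ.Prime] [Fact (Odd ℓ)] {F L : Type u} [Field F] [Field L] [Algebra F L]
    (hL : IsCyclotomicExtension {ℓ} F L) (h : LocW ℓ F L) : Vanish ℓ F L ⊥ := by
  refine vanish_local hL ⊥ fun x y => ?_
  obtain ⟨F₀, L₀, _, _, _, ⟨S⟩, hW⟩ := h x y
  exact ⟨F₀, L₀, _, _, _, S.i, S.j, S.comm, S.cyc, S.deg,
    vanish_of_fin fr S.cyc _ (finWR_of_finW _ hW), S.hx, S.hy⟩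

/-- The class over F of an algebra which becomes a product of algebras of degree ℓ over F(ζ). -/
theorem classLoc {ℓ : ℕ} [Fact ℓ.Prime] [Fact (Odd ℓ)] (F L : Type u) [Field F] [Field L]
    [Algebra F L] (h7 : ((ℓ : ℕ) : F) ≠ 0) (hL : IsCyclotomicExtension {ℓ} F L)
    (hloc : LocW ℓ F L) :
    ∀ (A : Type u) [Ring A] [Algebra F A] [Algebra.IsCentral F A] [IsSimpleRing A] (m : ℕ),
      Module.finrank F A = (ℓ ^ 2) ^ m →
      ∀ (k : ℕ) (B : Fin k → Type u) [∀ i, Ring (B i)] [∀ i, Algebra L (B i)],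
      (∀ i, Algebra.IsCentral L (B i) ∧ IsSimpleRing (B i) ∧ Module.finrank L (B i) = ℓ ^ 2) →
      (∃ p q : ℕ, p ≠ 0 ∧ q ≠ 0 ∧
        Nonempty (Matrix (Fin p) (Fin p) (L ⊗[F] A) ≃ₐ[L] Matrix (Fin q) (Fin q) (⨂[L] i, B i))) →
      ∃ (n : ℕ) (f : (SeparableClosure F ≃ₐ[F] SeparableClosure F) →
        (SeparableClosure F ≃ₐ[F] SeparableClosure F) → (SeparableClosure F)ˣ),
        n ≠ 0 ∧ Nonempty (RepData F (SeparableClosure F) A (Fin n) f) ∧
        cls (SeparableClosure F ≃ₐ[F] SeparableClosure F) (SeparableClosure F)ˣ f ∈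
          BRP.H50.cycGrp ℓ F (SeparableClosure F) := by
  have : NeZero ((ℓ : ℕ) : F) := ⟨h7⟩
  have hfdL : FiniteDimensional F L := IsCyclotomicExtension.finiteDimensional {ℓ} F L
  have hsep : Algebra.IsSeparable F L := IsCyclotomicExtension.isSeparable {ℓ} F L
  let φ : L →ₐ[F] SeparableClosure F := IsSepClosed.lift
  refine classAt (BRP.H50.Full.cohc le_rfl (by norm_num)) BRP.H79.divseven BR7.H38.det BR7.H38.basel
    (BRP.H62.ltrans BRP.H38.kumsurj BRP.H50.Full.kum BR7.H38.gz H4.disc H4.dlog) BRP.H50.Full.sadd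
    BR7.H38.corres BRP.H38.index BR7.H50.Full.repex BR7.H32.repz BR7.H50.repop BR7.H50.repone
    BR7.H38.gz H4.disc H19.pi BRP.H79.degseven BR7.H50.Full.uniq F L h7 hL ?_
  intro ζ hζ
  refine cohsAt BR7.H38.corres BRP.H38.index H4.disc BR7.H38.gz BR7.H38.gtors hζ ?_
  refine mainAtR (d := Module.finrank F L) (Module.finrank_pos (R := F) (M := L)).ne' BRP.H50.Full.sadd
    BRP.H50.Full.sstein BRP.H50.Full.sgal BRP.H50.Full.trivc H4.disc BR7.H38.conjc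
    (BR7.H38.conjres BR7.H38.bz) (BRP.H50.cupResZ BR7.H38.gz H4.disc) φ hζ hL (BRP.H50.index_HZ hζ hL φ)
    ⊥ (vanish_of_locW hL hloc) fun x hx => ?_
  rw [Subgroup.mem_bot] at hx
  rw [hx, map_one]
  exact normTriv_one F ζ

/-- Descent of products of algebras of degree p from F(ζ) to products of cyclic algebras over F. -/
theorem cyclicGenerationLoc (p : ℕ) (hp : p.Prime) (hodd : Odd p) (F L : Type u)
    [Field F] [Field L] [Algebra F L]
    (h7 : (p : F) ≠ 0) (hL : IsCyclotomicExtension {p} F L) (hloc : LocW p F L)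
    (A : Type u) [Ring A] [Algebra F A] [Algebra.IsCentral F A] [IsSimpleRing A] (m : ℕ)
    (hA : Module.finrank F A = (p ^ 2) ^ m)
    (k : ℕ) (B : Fin k → Type u) [∀ i, Ring (B i)] [∀ i, Algebra L (B i)]
    (hB : ∀ i, Algebra.IsCentral L (B i) ∧ IsSimpleRing (B i) ∧ Module.finrank L (B i) = p ^ 2)
    (he : ∃ r s : ℕ, r ≠ 0 ∧ s ≠ 0 ∧
      Nonempty (Matrix (Fin r) (Fin r) (L ⊗[F] A) ≃ₐ[L] Matrix (Fin s) (Fin s) (⨂[L] i, B i))) :
    ∃ (l : ℕ) (C : Fin l → Type u) (_ : ∀ i, Ring (C i)) (_ : ∀ i, Algebra F (C i)),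
      (∀ i, Algebra.IsCentral F (C i) ∧ Module.finrank F (C i) = p ^ 2 ∧ (∀ b : C i, b ≠ 0 → IsUnit b) ∧
        ∃ (K : Type u) (_ : Field K) (_ : Algebra F K), IsGalois F K ∧ Module.finrank F K = p ∧
          Nonempty (K →ₐ[F] C i)) ∧
      ∃ r s : ℕ, r ≠ 0 ∧ s ≠ 0 ∧
        Nonempty (Matrix (Fin r) (Fin r) A ≃ₐ[F] Matrix (Fin s) (Fin s) (⨂[F] i, C i)) := by
  have : Fact p.Prime := ⟨hp⟩
  have : Fact (Odd p) := ⟨hodd⟩
  have : NeZero (p : F) := ⟨h7⟩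
  have : FiniteDimensional F L := IsCyclotomicExtension.finiteDimensional {p} F L
  obtain ⟨n, f, hn0, ⟨R⟩, hC⟩ := classLoc (ℓ := p) F L h7 hL hloc A m hA
    k B hB he
  exact BRP.H50.cyc_to_alg BR7.H50.repop BR7.H32.repz BR7.H50.repone BR7.H50.Full.conv BR7.H38.gz H4.disc
    H19.pi BRP.H50.Full.cycalg BR7.H79.repcsa BRP.H79.degseven BR7.H50.Full.uniq R hC

/-- The quasicyclic group, local form of THEOREM N. -/
theorem hasQuasiLoc {ℓ : ℕ} [Fact ℓ.Prime] [Fact (Odd ℓ)] (hRC : StRC.{u}) (hPU : StPU.{u})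
    (hKT : StKT.{u} ℓ) (hEX : StEX.{u} ℓ) (hFI : StFI.{u} ℓ)
    (F L : Type u) [Field F] [Field L] [Algebra F L] (h7 : ((ℓ : ℕ) : F) ≠ 0)
    (hL : IsCyclotomicExtension {ℓ} F L) (hF : FinBr ℓ F) (hloc : LocN ℓ F L)
    (A : Type u) [Ring A] [Algebra F A] [Algebra.IsCentral F A] [IsSimpleRing A] (m : ℕ)
    (hA : Module.finrank F A = (ℓ ^ 2) ^ m) (hns : ∀ n : ℕ, IsEmpty (A ≃ₐ[F] Matrix (Fin n) (Fin n) F))
    (k : ℕ) (B : Fin k → Type u) [∀ i, Ring (B i)] [∀ i, Algebra L (B i)]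
    (hB : ∀ i, Algebra.IsCentral L (B i) ∧ IsSimpleRing (B i) ∧ Module.finrank L (B i) = ℓ ^ 2)
    (he : ∃ r s : ℕ, r ≠ 0 ∧ s ≠ 0 ∧
      Nonempty (Matrix (Fin r) (Fin r) (L ⊗[F] A) ≃ₐ[L] Matrix (Fin s) (Fin s) (⨂[L] i, B i))) :
    HasQuasi ℓ F (SeparableClosure F) := by
  classical
  have : NeZero ((ℓ : ℕ) : F) := ⟨h7⟩
  have hfdL : FiniteDimensional F L := IsCyclotomicExtension.finiteDimensional {ℓ} F L
  have hsep : Algebra.IsSeparable F L := IsCyclotomicExtension.isSeparable {ℓ} F L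
  let φ : L →ₐ[F] SeparableClosure F := IsSepClosed.lift
  by_contra hq
  obtain ⟨n, hE⟩ := hEX F (SeparableClosure F) (H27.al_field hF) hq
  obtain ⟨n', f, hn0, ⟨R⟩, hC⟩ : ∃ (n : ℕ) (f : (SeparableClosure F ≃ₐ[F] SeparableClosure F) →
        (SeparableClosure F ≃ₐ[F] SeparableClosure F) → (SeparableClosure F)ˣ),
        n ≠ 0 ∧ Nonempty (RepData F (SeparableClosure F) A (Fin n) f) ∧
        cls (SeparableClosure F ≃ₐ[F] SeparableClosure F) (SeparableClosure F)ˣ f ∈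
          BRP.H50.cycGrp ℓ F (SeparableClosure F) := by
    refine classAt (BRP.H50.Full.cohc le_rfl (by norm_num)) BRP.H79.divseven BR7.H38.det BR7.H38.basel
      (BRP.H62.ltrans BRP.H38.kumsurj BRP.H50.Full.kum BR7.H38.gz H4.disc H4.dlog) BRP.H50.Full.sadd
      BR7.H38.corres BRP.H38.index BR7.H50.Full.repex BR7.H32.repz BR7.H50.repop BR7.H50.repone
      BR7.H38.gz H4.disc H19.pi BRP.H79.degseven BR7.H50.Full.uniq F L h7 hL ?_ A m hA k B hB he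
    intro ζ hζ
    refine cohsAt BR7.H38.corres BRP.H38.index H4.disc BR7.H38.gz BR7.H38.gtors hζ ?_
    obtain ⟨η, X, hη, -, -, -, -, -⟩ := BRP.H72.eta F (SeparableClosure F) ζ hζ
    have hιL : ∀ x : Lˣ, InL F ζ (Units.map (φ : L →* SeparableClosure F) x) := by
      let _ : Algebra L (SeparableClosure F) := φ.toRingHom.toAlgebra
      have : IsScalarTower F L (SeparableClosure F) := IsScalarTower.of_algebraMap_eq' φ.comp_algebraMap.symm
      intro x g hg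
      refine Units.ext ?_
      exact BRP.H62.fix_of_stab hζ hL g hg (x : L)
    refine mainAtR (d := Module.finrank F L) (Module.finrank_pos (R := F) (M := L)).ne' BRP.H50.Full.sadd
      BRP.H50.Full.sstein BRP.H50.Full.sgal BRP.H50.Full.trivc H4.disc BR7.H38.conjc
      (BR7.H38.conjres BR7.H38.bz) (BRP.H50.cupResZ BR7.H38.gz H4.disc) φ hζ hL (BRP.H50.index_HZ hζ hL φ)
      (normRad ℓ φ ζ) (vanish_local hL _ fun x y => ?_) fun x hx => hx
    obtain ⟨F₀, L₀, _, _, _, ⟨S⟩, hW⟩ := hloc x y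
    refine ⟨F₀, L₀, _, _, _, S.i, S.j, S.comm, S.cyc, S.deg, vanish_of_fin fr S.cyc _ ?_, S.hx, S.hy⟩
    rcases hW with hW | hW
    · obtain ⟨R₀, hRf, X', hX', hXc', hXs', hR₀⟩ := localRad hFI φ hζ hL S.cyc S.j hW n η hη
      have hle : R₀ ≤ (normRad ℓ φ ζ).comap (Units.map (S.j : L₀ →* L)) := by
        intro x hx
        exact normTriv hRC hPU hKT hζ n hE η hη X' hX' hXc' hXs' _ (hιL _) (hR₀ x hx)
      exact finWR_of_index _ (Subgroup.finiteIndex_of_le hle)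
    · exact finWR_of_finW _ hW
  exact hq (BRP.H50.split_or_quasi BRP.H50.Full.cycdiv BR7.H32.repz BR7.H50.repop BR7.H50.repone
    BR7.H50.Full.conv BR7.H38.gz H4.disc h7 hn0 R hC hns)

/-- THEOREM N, local form. -/
theorem brumerRosenLoc (hRC : StRC.{u}) (hPU : StPU.{u})
    (hKT : ∀ (ℓ : ℕ) [Fact ℓ.Prime] [Fact (Odd ℓ)], StKT.{u} ℓ)
    (hEX : ∀ (ℓ : ℕ) [Fact ℓ.Prime] [Fact (Odd ℓ)], StEX.{u} ℓ)
    (hFI : ∀ (ℓ : ℕ) [Fact ℓ.Prime], StFI.{u} ℓ)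
    (p : ℕ) (hp : p.Prime) (hodd : Odd p) (F L : Type u)
    [Field F] [Field L] [Algebra F L]
    (h7 : (p : F) ≠ 0) (hL : IsCyclotomicExtension {p} F L) (hF : FinBr p F) (hloc : LocN p F L)
    (A : Type u) [Ring A] [Algebra F A] [Algebra.IsCentral F A] [IsSimpleRing A] (m : ℕ)
    (hA : Module.finrank F A = (p ^ 2) ^ m) (hns : ∀ n : ℕ, IsEmpty (A ≃ₐ[F] Matrix (Fin n) (Fin n) F))
    (k : ℕ) (B : Fin k → Type u) [∀ i, Ring (B i)] [∀ i, Algebra L (B i)]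
    (hB : ∀ i, Algebra.IsCentral L (B i) ∧ IsSimpleRing (B i) ∧ Module.finrank L (B i) = p ^ 2)
    (he : ∃ r s : ℕ, r ≠ 0 ∧ s ≠ 0 ∧
      Nonempty (Matrix (Fin r) (Fin r) (L ⊗[F] A) ≃ₐ[L] Matrix (Fin s) (Fin s) (⨂[L] i, B i))) :
    ∃ (A : ℕ → Type u) (_ : ∀ n, Ring (A n)) (_ : ∀ n, Algebra F (A n)),
      (∀ n, Algebra.IsCentral F (A n) ∧ IsSimpleRing (A n) ∧ FiniteDimensional F (A n)) ∧
      (∀ m : ℕ, IsEmpty (A 0 ≃ₐ[F] Matrix (Fin m) (Fin m) F)) ∧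
      (∃ m : ℕ, Nonempty ((⨂[F] (_ : Fin p), A 0) ≃ₐ[F] Matrix (Fin m) (Fin m) F)) ∧
      ∀ n, ∃ r s : ℕ, r ≠ 0 ∧ s ≠ 0 ∧
        Nonempty (Matrix (Fin r) (Fin r) (⨂[F] (_ : Fin p), A (n + 1)) ≃ₐ[F] Matrix (Fin s) (Fin s) (A n)) := by
  have : Fact p.Prime := ⟨hp⟩
  have : Fact (Odd p) := ⟨hodd⟩
  exact BRP.H50.Full.seq F (hasQuasiLoc hRC hPU (hKT p) (hEX p) (hFI p) F L h7 hL hF hloc A m hA hns
    k B hB he)

end Pool.Agent.Lib.MP_defcf3_al.FR
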