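import Pool.Agent.Lib.MP_defcf3_al.FR.HrtN

/-! Norms from F(ζ_(ℓ^(n+1))) are in the radical if the ℓ-primary part of Br(F) is killed by ℓ^n. -/

namespace Pool.Agent.Lib.MP_defcf3_al.FR

universe u

variable {ℓ : ℕ} [Fact ℓ.Prime] [Fact (Odd ℓ)]

open BR7 BR7.H50 BRP BRP.H50

omit [Fact (Odd ℓ)] in
/-- HZ is normal. -/
theorem normal_HZ {F Ω : Type u} [Field F] [Field Ω] [Algebra F Ω] {ζ : Ωˣ} (hζ : IsPrimitiveRoot ζ ℓ) :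
    (HZ F ζ).Normal := by
  have hex : ∀ g : Ω ≃ₐ[F] Ω, ∃ k : ℕ, g • ζ = ζ ^ k := by
    intro g
    have h1 : (g • ζ) ^ ℓ = 1 := by rw [← smul_pow', hζ.pow_eq_one, smul_one]
    exact ⟨_, ((H4.dlog Ω ℓ ζ hζ).1 _ h1).symm⟩
  constructor
  intro h hh g
  have h1 : h • ζ = ζ := hh
  obtain ⟨k, hk⟩ := hex g⁻¹
  change (g * h * g⁻¹) • ζ = ζ
  rw [mul_smul, mul_smul, hk, smul_pow', h1, ← hk, smul_inv_smul]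

theorem normTriv (hRC : StRC.{u}) (hPU : StPU.{u}) (hKT : StKT.{u} ℓ) {F Ω : Type u} [Field F] [Field Ω]
    [Algebra F Ω] [IsGalois F Ω] [IsSepClosed Ω] {ζ : Ωˣ} (hζ : IsPrimitiveRoot ζ ℓ) (n : ℕ)
    (hE : ExpBd ℓ n F Ω) (η : ℕ → Ωˣ) (hη : RootSys ℓ ζ η) (X : HZ F ζ → ZMod (ℓ ^ n))
    (hX : ∀ g h, X (g * h) = X g + X h) (hXc : IsLocallyConstant X)
    (hXs : ∀ g : HZ F ζ, X g = 0 ↔ (g : Ω ≃ₐ[F] Ω) • η n = η n) (f : Ωˣ) (hf : InL F ζ f)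
    (hB : cup (ℓ ^ n) f X ∈ B2 (HZ F ζ) Ωˣ) : NormTriv ℓ F ζ f := by
  classical
  intro γ d hH hex l hl
  have hl0 := (Fact.out : Nat.Prime ℓ).ne_zero
  have : ∀ m : ℕ, NeZero (ℓ ^ m) := fun m => ⟨pow_ne_zero _ hl0⟩
  have : NeZero ℓ := ⟨hl0⟩
  have hD : Disc (Ω ≃ₐ[F] Ω) Ωˣ := H4.disc F Ω
  obtain ⟨k1, k2, k3, k4, k5, k6⟩ := BRP.H50.Full.kum F Ω ζ hζ
  set N : Subgroup (Ω ≃ₐ[F] Ω) := MulAction.stabilizer (Ω ≃ₐ[F] Ω) (η n) with hNdef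
  have hmemN : ∀ g, g ∈ N ↔ g • η n = η n := fun g => MulAction.mem_stabilizer_iff
  have hmemH : ∀ g, g ∈ HZ F ζ ↔ g • ζ = ζ := fun g => MulAction.mem_stabilizer_iff
  have hηζ : ∀ n, η n ^ ℓ ^ n = ζ := by
    intro n
    induction n with
    | zero => rw [hη.1, pow_zero, pow_one]
    | succ n ih => rw [pow_succ', pow_mul, hη.2.2 n, ih]
  have hle : N ≤ HZ F ζ := by
    intro g hg
    rw [hmemH, ← hηζ n, smul_pow', (hmemN g).1 hg]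
  have hHo : IsOpen (HZ F ζ : Set (Ω ≃ₐ[F] Ω)) := BR7.H38.isOpen_HZ F ζ
  have hNo : IsOpen (N : Set (Ω ≃ₐ[F] Ω)) := hD (η n)
  -- finite index
  have hNfi : N.FiniteIndex := by
    have : CompactSpace (Ω ≃ₐ[F] Ω) := inferInstance
    have := Subgroup.quotient_finite_of_isOpen N hNo
    exact Subgroup.finiteIndex_of_finite_quotient
  have hHfi : (HZ F ζ).FiniteIndex := Subgroup.finiteIndex_of_le hle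
  have f1 : Fintype ((Ω ≃ₐ[F] Ω) ⧸ N) := Subgroup.fintypeQuotientOfFiniteIndex
  have f2 : Fintype ((Ω ≃ₐ[F] Ω) ⧸ HZ F ζ) := Subgroup.fintypeQuotientOfFiniteIndex
  -- the characters
  obtain ⟨ψ, hψ, hψk⟩ := hKT F Ω ζ hζ η hη l hl n
  let ψ₀ : (Ω ≃ₐ[F] Ω) → ZMod ℓ := BRP.H38.ext0 (HZ F ζ) (kum ℓ F ζ l)
  have hψ₀ : ∀ g (hg : g ∈ HZ F ζ), ψ₀ g = kum ℓ F ζ l ⟨g, hg⟩ := fun g hg => BRP.H38.ext0_of_mem _ _ hg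
  have hadd : ∀ g ∈ HZ F ζ, ∀ h ∈ HZ F ζ, ψ₀ (g * h) = ψ₀ g + ψ₀ h := by
    intro g hg h hh
    rw [hψ₀ g hg, hψ₀ h hh, hψ₀ (g * h) (mul_mem hg hh), ← k3 l hl]
    rfl
  have hlc : IsLocallyConstant ψ₀ := BRP.H38.ext0_lc _ hHo _ (k4 l hl)
  have hNH : NChar (HZ F ζ) ℓ ψ₀ := ⟨normal_HZ hζ, hHo, hadd, hlc⟩
  have hNN : NChar N ℓ ψ₀ := ⟨hψ.normal, hNo, fun g hg h hh => hadd g (hle hg) h (hle hh), hlc⟩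
  -- the push
  have hH1 : H1Triv (N.subgroupOf (HZ F ζ)) Ωˣ := by
    refine BR7.H22.h90 F Ω (HZ F ζ) hHo _ ?_
    exact hNo.preimage continuous_subtype_val
  obtain ⟨w, hw, hpush⟩ := hPU (Ω ≃ₐ[F] Ω) Ωˣ hD (HZ F ζ) N hHo hNo (ℓ ^ n) X hX hXc (by
      intro g
      rw [hmemN]
      exact ⟨fun h => ⟨hle ((hmemN g).2 h), (hXs _).2 h⟩, fun ⟨h1, h2⟩ => (hXs _).1 h2⟩) hH1 f
    (fun g hg => hf g ((hmemH g).1 hg)) hB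
  have h1 := hpush ℓ ψ₀ hNH hNN
  -- change of modulus
  have h2 := H10.cornmod BR7.H38.gmod (Ω ≃ₐ[F] Ω) Ωˣ hD N ℓ (ℓ ^ n) (ℓ ^ (n + 1))
    (dvd_pow_self ℓ (Nat.succ_ne_zero n)) (pow_succ' ℓ n) ψ hψ w hw
  have h3 : corN N ℓ w (fun g => ZMod.castHom (dvd_pow_self ℓ (Nat.succ_ne_zero n)) (ZMod ℓ) (ψ g)) =
      corN N ℓ w ψ₀ := by
    symm
    refine (H59.corn (Ω ≃ₐ[F] Ω) Ωˣ hD N ℓ ψ₀ hNN).2.2.2.1 w _ ?_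
    intro g hg
    rw [hψ₀ g (hle hg), hψk g (hle hg) ((hmemN g).1 hg)]
  rw [h3] at h2
  -- the exponent
  obtain ⟨h4, h5⟩ := (H59.corn (Ω ≃ₐ[F] Ω) Ωˣ hD N (ℓ ^ (n + 1)) ψ hψ).1 w hw
  have h6 := hE _ h4 ⟨n + 1, h5⟩
  have h7 : corN N ℓ w ψ₀ ∈ B2 (Ω ≃ₐ[F] Ω) Ωˣ := by
    have := mul_mem (inv_mem h2) h6
    rwa [mul_inv_rev, inv_inv, mul_assoc, inv_mul_cancel, mul_one] at this
  have h8 : corN (HZ F ζ) ℓ f ψ₀ ∈ B2 (Ω ≃ₐ[F] Ω) Ωˣ := by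
    have := mul_mem (inv_mem h1) h7
    rwa [mul_inv_rev, inv_inv, mul_assoc, inv_mul_cancel, mul_one] at this
  have h9 := hRC (Ω ≃ₐ[F] Ω) Ωˣ hD (HZ F ζ) ℓ ψ₀ hNH f (fun g hg => hf g ((hmemH g).1 hg)) h8 γ d hH (by
    intro g
    obtain ⟨i, hi, hu⟩ := hex g
    refine ⟨i, ?_, ?_⟩
    · show (γ ^ (i : ℕ))⁻¹ * g ∈ HZ F ζ
      rw [hmemH, mul_smul, inv_smul_eq_iff]
      exact hi
    · intro j hj
      refine hu j ?_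
      have hj : (γ ^ (j : ℕ))⁻¹ * g ∈ HZ F ζ := hj
      rw [hmemH, mul_smul, inv_smul_eq_iff] at hj
      exact hj)
  have h10 : (fun h : HZ F ζ => ψ₀ h) = kum ℓ F ζ l := by
    funext h
    exact hψ₀ h h.2
  rw [h10] at h9
  exact h9

end Pool.Agent.Lib.MP_defcf3_al.FR
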