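import Pool.Agent.Lib.MP_defcf3_al.FR.NDefs
import Pool.Agent.Lib.MP_defcf3_al.BR.H30.CornRes
import Pool.Agent.Lib.MP_defcf3_al.BR.H84.Nconv
import Pool.Agent.Lib.MP_defcf3_al.BR.H38.Generic

/-! N-PU: norms and the projection formula for the corestriction. -/

set_option autoImplicit false

namespace Pool.Agent.Lib.MP_defcf3_al.FR

universe u

open BR7 BRP

namespace PU

open BR7.H30

/-- Transitivity of the corestriction with an explicit norm. -/
theorem cornres_explicit :
    ∀ (G A : Type u) [Group G] [TopologicalSpace G] [IsTopologicalGroup G] [CommGroup A]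
    [MulDistribMulAction G A], Disc G A → ∀ (N N' : Subgroup G) [Fintype (G ⧸ N)] [Fintype (G ⧸ N')]
    (n : ℕ) [NeZero n] (ψ : G → ZMod n) (hle : N' ≤ N), NChar N n ψ → NChar N' n ψ →
    ∀ w' w1 : A, (∀ g ∈ N', g • w' = w') → (∀ g ∈ N, g • w1 = w1) →
      (∀ [DecidableEq (G ⧸ N)], w1 = ∏ y ∈ Finset.univ.filter
        (fun y : G ⧸ N' => Subgroup.quotientMapOfLE hle y = QuotientGroup.mk 1), (Quotient.out y) • w') →
      corN N' n w' ψ * (corN N n w1 ψ)⁻¹ ∈ B2 G A := by
  classical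
  intro G A _ _ _ _ _ hD N N' _ _ n _ ψ hle hN hN' w' w1 hw' hw1 hw1e
  let π : G ⧸ N' → G ⧸ N := Subgroup.quotientMapOfLE hle
  have hπ : ∀ (g : G) (y : G ⧸ N'), π (g • y) = g • π y := by
    intro g y
    induction y using QuotientGroup.induction_on with
    | H a => rfl
  let u' : G ⧸ N' → A := fun y => (Quotient.out y) • w'
  have hu' : EqvF (G := G) u' := eqvF_out N' w' hw'
  let uu : G ⧸ N → A := fun x => ∏ y ∈ Finset.univ.filter (fun y => π y = x), u' y
  have huu : EqvF (G := G) uu := by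
    intro g x
    show ∏ y ∈ Finset.univ.filter (fun y => π y = g • x), u' y =
      g • ∏ y ∈ Finset.univ.filter (fun y => π y = x), u' y
    rw [Finset.smul_prod']
    symm
    refine Finset.prod_bij (fun y _ => g • y) ?_ ?_ ?_ ?_
    · intro y hy
      rw [Finset.mem_filter] at hy ⊢
      exact ⟨Finset.mem_univ _, by rw [hπ, hy.2]⟩
    · intro y _ y' _ h
      exact smul_left_cancel g h
    · intro y hy
      rw [Finset.mem_filter] at hy
      refine ⟨g⁻¹ • y, ?_, by rw [smul_inv_smul]⟩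
      rw [Finset.mem_filter]
      exact ⟨Finset.mem_univ _, by rw [hπ, hy.2, inv_smul_smul]⟩
    · intro y _
      exact (hu' g y).symm
  have hw1u : w1 = uu (QuotientGroup.mk 1) := hw1e
  have hmk : ∀ g ∈ N, g • (QuotientGroup.mk 1 : G ⧸ N) = QuotientGroup.mk 1 := by
    intro g hg
    have : g • (QuotientGroup.mk 1 : G ⧸ N) = QuotientGroup.mk (g * 1) := rfl
    rw [this, mul_one]
    exact (QuotientGroup.eq.2 (by simpa using N.inv_mem hg))
  have hout : ∀ x : G ⧸ N, (Quotient.out x) • w1 = uu x := by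
    intro x
    rw [hw1u, ← huu]
    congr 1
    have h1 : (QuotientGroup.mk (Quotient.out x) : G ⧸ N) = x := QuotientGroup.out_eq' _
    have h2 : (Quotient.out x) • (QuotientGroup.mk 1 : G ⧸ N) = QuotientGroup.mk (Quotient.out x * 1) := rfl
    rw [h2, mul_one, h1]
  set χ' : G → G ⧸ N' → ZMod n := fun g y => ψ ((Quotient.out (g • y))⁻¹ * g * Quotient.out y)
    with hχ'
  set χ : G → G ⧸ N → ZMod n := fun g x => ψ ((Quotient.out (g • x))⁻¹ * g * Quotient.out x)
    with hχ
  have hc' : GChar n χ' := gchar_out N' n ψ hN'.add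
  have hc : GChar n χ := gchar_out N n ψ hN.add
  have hcπ : GChar n (fun g y => χ g (π y)) := by
    intro g h y
    show χ (g * h) (π y) = χ g (π (h • y)) + χ h (π y)
    rw [hπ]
    exact hc g h (π y)
  have hO' := openStab_quot N' hN'.isOpen
  have e1 : corN N' n w' ψ = gcup n u' χ' := rfl
  have e2 : corN N n w1 ψ = gcup n u' (fun g y => χ g (π y)) := by
    rw [BR7.H38.push G A (G ⧸ N') (G ⧸ N) n π hπ u' χ]
    unfold corN
    congr 1
    funext x
    exact hout x
  obtain ⟨ρ, hρ⟩ := BR7.H38.gchar G (G ⧸ N') n χ' (fun g y => χ g (π y)) (QuotientGroup.mk 1) hc' hcπ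
    (by
      intro y
      refine ⟨Quotient.out y, ?_⟩
      have h1 : (QuotientGroup.mk (Quotient.out y) : G ⧸ N') = y := QuotientGroup.out_eq' _
      have h2 : (Quotient.out y) • (QuotientGroup.mk 1 : G ⧸ N') =
        QuotientGroup.mk (Quotient.out y * 1) := rfl
      rw [h2, mul_one, h1])
    (by
      intro g hg
      have hg1 : (QuotientGroup.mk (g * 1) : G ⧸ N') = QuotientGroup.mk 1 := hg
      have hgN' : g ∈ N' := by
        have := QuotientGroup.eq.1 hg1
        simpa using this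
      have hgN : g ∈ N := hle hgN'
      have e3 : χ' g (QuotientGroup.mk 1) = ψ g := by
        rw [hχ']
        show ψ _ = ψ g
        rw [hg]
        exact char_conj N' n ψ hN'.add (out_one_mem N') hgN'
      have e4 : χ g (π (QuotientGroup.mk 1)) = ψ g := by
        have e5 : π (QuotientGroup.mk 1) = QuotientGroup.mk 1 := rfl
        rw [e5, hχ]
        show ψ _ = ψ g
        rw [hmk g hgN]
        exact char_conj N n ψ hN.add (out_one_mem N) hgN
      rw [e3]
      exact e4.symm)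
  have e6 : χ' = fun (g : G) (y : G ⧸ N') => χ g (π y) + (ρ (g • y) - ρ y) := by
    funext g y
    exact hρ g y
  have hlc : ∀ y : G ⧸ N', IsLocallyConstant (fun g => χ g (π y)) := fun y =>
    lc_out N hN.isOpen n ψ hN.lc (π y)
  have hlc2 : ∀ y : G ⧸ N', IsLocallyConstant (fun g : G => ρ (g • y) - ρ y) := by
    intro y
    rw [IsLocallyConstant.iff_exists_open]
    intro g0
    have h1 : IsOpen {g : G | g • y = g0 • y} := by
      have e : {g : G | g • y = g0 • y} = (fun g : G => g0⁻¹ * g) ⁻¹' {g : G | g • y = y} := by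
        ext g
        rw [Set.mem_setOf_eq, Set.mem_preimage, Set.mem_setOf_eq, mul_smul, inv_smul_eq_iff]
      rw [e]
      exact (hO' y).preimage (by fun_prop)
    refine ⟨_, h1, rfl, ?_⟩
    intro g hg
    have hg' : g • y = g0 • y := hg
    show ρ (g • y) - ρ y = ρ (g0 • y) - ρ y
    rw [hg']
  have hcobc : GChar n (fun (g : G) (y : G ⧸ N') => ρ (g • y) - ρ y) := by
    intro g h y
    show ρ ((g * h) • y) - ρ y = (ρ (g • h • y) - ρ (h • y)) + (ρ (h • y) - ρ y)
    rw [mul_smul]; ring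
  have h1 := BR7.H38.gadd G A (G ⧸ N') hD hO' n u' (fun g y => χ g (π y))
    (fun (g : G) (y : G ⧸ N') => ρ (g • y) - ρ y) hu' hcπ hcobc hlc hlc2
  have h2 := BR7.H38.gcob G A (G ⧸ N') hD hO' n u' ρ hu'
  rw [e1, e2]
  have e7 : gcup n u' χ' = gcup n u' (fun (g : G) (y : G ⧸ N') => χ g (π y) + (ρ (g • y) - ρ y)) := by rw [e6]
  rw [e7]
  have h3 := (B2 G A).mul_mem h1 h2
  have e8 : gcup n u' (fun (g : G) (y : G ⧸ N') => χ g (π y) + (ρ (g • y) - ρ y)) *
      (gcup n u' (fun g y => χ g (π y)) * gcup n u' (fun (g : G) (y : G ⧸ N') => ρ (g • y) - ρ y))⁻¹ *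
      gcup n u' (fun (g : G) (y : G ⧸ N') => ρ (g • y) - ρ y) =
      gcup n u' (fun (g : G) (y : G ⧸ N') => χ g (π y) + (ρ (g • y) - ρ y)) *
        (gcup n u' (fun g y => χ g (π y)))⁻¹ := by
    rw [mul_inv, mul_assoc, mul_assoc, inv_mul_cancel, mul_one]
  rw [e8] at h3
  exact h3

/-- The product over the fibre of `G/N → G/H` over the trivial coset is the product over `H/N`. -/
theorem fibre_prod {G A : Type u} [Group G] [CommGroup A] [MulDistribMulAction G A] (H N : Subgroup G)
    [Fintype (G ⧸ N)] [DecidableEq (G ⧸ H)] [Fintype (H ⧸ N.subgroupOf H)] (hle : N ≤ H) (w : A)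
    (hw : ∀ g ∈ N, g • w = w) :
    ∏ y ∈ Finset.univ.filter
        (fun y : G ⧸ N => Subgroup.quotientMapOfLE hle y = QuotientGroup.mk 1), (Quotient.out y) • w =
      ∏ y : H ⧸ N.subgroupOf H, ((Quotient.out y : H) : G) • w := by
  classical
  have key : ∀ (a : G), (Quotient.out (QuotientGroup.mk a : G ⧸ N)) • w = a • w := by
    intro a
    obtain ⟨u, hu⟩ := QuotientGroup.mk_out_eq_mul N a
    have hu' : (Quotient.out (QuotientGroup.mk a : G ⧸ N)) = a * (u : G) := hu
    rw [hu', mul_smul, hw u u.2]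
  symm
  refine Finset.prod_bij (fun (y : H ⧸ N.subgroupOf H) _ => (QuotientGroup.mk ((Quotient.out y : H) : G) : G ⧸ N))
    ?_ ?_ ?_ ?_
  · intro y _
    rw [Finset.mem_filter]
    refine ⟨Finset.mem_univ _, ?_⟩
    show (QuotientGroup.mk ((Quotient.out y : H) : G) : G ⧸ H) = QuotientGroup.mk 1
    rw [QuotientGroup.eq]
    simp
  · intro y _ y' _ h
    have h1 := QuotientGroup.eq.1 h
    rw [← QuotientGroup.out_eq' y, ← QuotientGroup.out_eq' y', QuotientGroup.eq, Subgroup.mem_subgroupOf]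
    simpa using h1
  · intro x hx
    rw [Finset.mem_filter] at hx
    induction x using QuotientGroup.induction_on with
    | H a =>
      have h1 : (QuotientGroup.mk a : G ⧸ H) = QuotientGroup.mk 1 := hx.2
      have ha : a ∈ H := by
        have h2 := QuotientGroup.eq.1 h1
        simpa using h2
      refine ⟨(QuotientGroup.mk (⟨a, ha⟩ : H) : H ⧸ N.subgroupOf H), Finset.mem_univ _, ?_⟩
      obtain ⟨u, hu⟩ := QuotientGroup.mk_out_eq_mul (N.subgroupOf H) (⟨a, ha⟩ : H)
      have hu' : (Quotient.out (QuotientGroup.mk (⟨a, ha⟩ : H) : H ⧸ N.subgroupOf H)) =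
        (⟨a, ha⟩ : H) * (u : H) := hu
      rw [QuotientGroup.eq, hu']
      have h3 : ((u : H) : G) ∈ N := Subgroup.mem_subgroupOf.1 u.2
      have h4 : ((((⟨a, ha⟩ : H) * (u : H) : H) : G))⁻¹ * a = (((u : H) : G))⁻¹ := by
        rw [Subgroup.coe_mul]; group
      rw [h4]
      exact N.inv_mem h3
  · intro y _
    exact (key _).symm

end PU

/-- N-PU. -/
theorem pu : StPU.{u} := by
  classical
  intro G A _ _ _ _ _ hD H N _ _ hHo hNo m _ X hXadd hXc hN hH1 f hf hcup
  have hle : N ≤ H := fun g hg => ((hN g).1 hg).1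
  have hDH : Disc H A := fun a => (hD a).preimage continuous_subtype_val
  have hU : ∀ g : H, g ∈ N.subgroupOf H ↔ X g = 0 := by
    intro g
    rw [Subgroup.mem_subgroupOf, hN]
    exact ⟨fun ⟨_, h⟩ => h, fun h => ⟨g.2, h⟩⟩
  obtain ⟨w, hw, hprod⟩ := BR7.H84.nconv H A hDH m X hXadd hXc (N.subgroupOf H) hU hH1 f
    (fun g => hf g g.2) hcup
  have hwN : ∀ g ∈ N, g • w = w := by
    intro g hg
    exact hw ⟨g, hle hg⟩ (Subgroup.mem_subgroupOf.2 hg)
  haveI : Finite (H ⧸ N.subgroupOf H) := by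
    apply Finite.of_injective (fun y : H ⧸ N.subgroupOf H =>
      (QuotientGroup.mk ((Quotient.out y : H) : G) : G ⧸ N))
    intro y y' h
    have h1 := QuotientGroup.eq.1 h
    rw [← QuotientGroup.out_eq' y, ← QuotientGroup.out_eq' y', QuotientGroup.eq, Subgroup.mem_subgroupOf]
    simpa using h1
  haveI : Fintype (H ⧸ N.subgroupOf H) := Fintype.ofFinite _
  have hp := hprod (N.subgroupOf H) le_rfl
  rw [Subgroup.relIndex_self, pow_one] at hp
  refine ⟨w, hwN, ?_⟩
  intro n _ ψ hψH hψN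
  refine PU.cornres_explicit G A hD H N n ψ hle hψH hψN w f hwN hf ?_
  intro _
  rw [PU.fibre_prod H N hle w hwN]
  rw [← hp]
  rfl

end Pool.Agent.Lib.MP_defcf3_al.FR
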