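import Pool.Agent.Lib.MP_defcf3_al.FR.WLemma

/-!
MP_defcf3_al, project FR: the row RES (residue field, composite valuation ring), helper57.
-/

set_option autoImplicit false

namespace Pool.Agent.Lib.MP_defcf3_al.FR.RW

open Filter Polynomial

open WL

universe u

/-! ### Valuation rings -/

section Val

variable {L : Type u} [Field L] (O : ValuationSubring L)

lemma lt_one_iff {x : L} (hx : x ≠ 0) : O.valuation x < 1 ↔ x⁻¹ ∉ O := by
  rw [← O.valuation_le_one_iff, map_inv₀, not_le]
  rw [one_lt_inv₀]
  exact (Valuation.pos_iff _).2 hx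

lemma sum_lt {ι : Type*} (s : Finset ι) (f : ι → L) {C : O.ValueGroup} (hC : 0 < C)
    (h : ∀ i ∈ s, O.valuation (f i) < C) : O.valuation (∑ i ∈ s, f i) < C :=
  Valuation.map_sum_lt _ hC.ne' h

/-- A power `x ^ e`, `1 ≤ e < p`, has the value of an element of `k`. -/
lemma exists_pow (k : Subfield L) [FiniteDimensional k L] {p : ℕ}
    (hd : Module.finrank k L < p) {x : L} (hx : x ≠ 0) :
    ∃ e : ℕ, 0 < e ∧ e < p ∧ ∃ a ∈ k, a ≠ 0 ∧ O.valuation (x ^ e) = O.valuation a := by
  set f := minpoly k x with hf
  have hint : IsIntegral k x := Algebra.IsIntegral.isIntegral x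
  have hmon : f.Monic := minpoly.monic hint
  have hdeg : f.natDegree ≤ Module.finrank k L := minpoly.natDegree_le x
  have h0 : aeval x f = 0 := minpoly.aeval k x
  rw [aeval_eq_sum_range] at h0
  set n := f.natDegree with hn
  set T : ℕ → L := fun i => f.coeff i • x ^ i with hT
  obtain ⟨i0, hi0, hmax⟩ := Finset.exists_max_image (Finset.range (n + 1))
    (fun i => O.valuation (T i)) ⟨n, by simp⟩
  have hTn : T n = x ^ n := by
    simp only [hT]
    rw [hn, Polynomial.coeff_natDegree, hmon.leadingCoeff, one_smul]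
  have hpos : 0 < O.valuation (T i0) := by
    refine lt_of_lt_of_le ?_ (hmax n (by simp))
    rw [hTn]
    exact (Valuation.pos_iff _).2 (pow_ne_zero _ hx)
  have hex : ∃ i ∈ Finset.range (n + 1), i ≠ i0 ∧ O.valuation (T i) = O.valuation (T i0) := by
    by_contra hcon
    push Not at hcon
    have h1 : O.valuation (∑ i ∈ (Finset.range (n + 1)).erase i0, T i) < O.valuation (T i0) := by
      refine sum_lt O _ _ hpos ?_
      intro i hi
      rw [Finset.mem_erase] at hi
      exact lt_of_le_of_ne (hmax i hi.2) (hcon i hi.2 hi.1)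
    have h2 := Finset.add_sum_erase (Finset.range (n + 1)) T hi0
    rw [h0] at h2
    have h3 : ∑ i ∈ (Finset.range (n + 1)).erase i0, T i = - T i0 := by
      linear_combination h2
    rw [h3, Valuation.map_neg] at h1
    exact lt_irrefl _ h1
  obtain ⟨i1, hi1, hne, heq⟩ := hex
  have key : ∀ i j : ℕ, i < j → j < n + 1 → O.valuation (T i) = O.valuation (T j) →
      0 < O.valuation (T j) →
      ∃ e : ℕ, 0 < e ∧ e < p ∧ ∃ a ∈ k, a ≠ 0 ∧ O.valuation (x ^ e) = O.valuation a := by
    intro i j hij hj hE hp
    have hTi : T i = (f.coeff i : L) * x ^ i := rfl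
    have hTj : T j = (f.coeff j : L) * x ^ j := rfl
    have hi0 : (f.coeff i : L) ≠ 0 := by
      intro h
      rw [hTi, h, zero_mul, map_zero] at hE
      rw [← hE] at hp
      exact lt_irrefl _ hp
    have hj0 : (f.coeff j : L) ≠ 0 := by
      intro h
      rw [hTj, h, zero_mul, map_zero] at hp
      exact lt_irrefl _ hp
    refine ⟨j - i, by omega, by omega, (f.coeff i : L) / (f.coeff j : L),
      k.div_mem (f.coeff i).2 (f.coeff j).2, div_ne_zero hi0 hj0, ?_⟩
    have hsplit : x ^ j = x ^ (j - i) * x ^ i := by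
      rw [← pow_add]
      congr 1
      omega
    rw [hTi, hTj, hsplit, ← mul_assoc, map_mul, map_mul _ _ (x ^ i)] at hE
    have hxi : O.valuation (x ^ i) ≠ 0 := by
      rw [Valuation.ne_zero_iff]
      exact pow_ne_zero _ hx
    have hE' := mul_right_cancel₀ hxi hE
    rw [map_div₀, eq_div_iff (by rw [Valuation.ne_zero_iff]; exact hj0), ← map_mul, mul_comm]
    exact hE'.symm
  rw [Finset.mem_range] at hi0 hi1
  rcases lt_or_gt_of_ne hne with h | h
  · exact key i1 i0 h hi0 heq hpos
  · exact key i0 i1 h hi1 heq.symm (heq ▸ hpos)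

/-- The residue field of `k` inside the residue field of `O`. -/
def resField (k : Subfield L) : Subfield (IsLocalRing.ResidueField O) where
  carrier := {y | ∃ x : O, (x : L) ∈ k ∧ IsLocalRing.residue O x = y}
  mul_mem' := by
    rintro _ _ ⟨x, hx, rfl⟩ ⟨x', hx', rfl⟩
    exact ⟨x * x', k.mul_mem hx hx', map_mul _ _ _⟩
  one_mem' := ⟨1, k.one_mem, map_one _⟩
  add_mem' := by
    rintro _ _ ⟨x, hx, rfl⟩ ⟨x', hx', rfl⟩
    exact ⟨x + x', k.add_mem hx hx', map_add _ _ _⟩
  zero_mem' := ⟨0, k.zero_mem, map_zero _⟩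
  neg_mem' := by
    rintro _ ⟨x, hx, rfl⟩
    exact ⟨-x, k.neg_mem hx, map_neg _ _⟩
  inv_mem' := by
    rintro _ ⟨x, hx, rfl⟩
    by_cases h : IsLocalRing.residue O x = 0
    · rw [h, inv_zero]
      exact ⟨0, k.zero_mem, map_zero _⟩
    · have hu : IsUnit x := by
        by_contra hn
        exact h ((IsLocalRing.residue_eq_zero_iff x).2 ((IsLocalRing.mem_maximalIdeal x).2 hn))
      obtain ⟨u, rfl⟩ := hu
      refine ⟨((u⁻¹ : Oˣ) : O), ?_, ?_⟩
      · have : (((u⁻¹ : Oˣ) : O) : L) = ((u : O) : L)⁻¹ := by
          have h1 : (((u : O) : L)) * (((u⁻¹ : Oˣ) : O) : L) = 1 :=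
            congrArg (fun t : O => (t : L)) (Units.mul_inv u)
          exact (eq_inv_of_mul_eq_one_right h1)
        rw [this]
        exact k.inv_mem hx
      · have h1 : IsLocalRing.residue O (u : O) * IsLocalRing.residue O ((u⁻¹ : Oˣ) : O) = 1 := by
          rw [← map_mul, Units.mul_inv, map_one]
        exact eq_inv_of_mul_eq_one_right h1

lemma rank_resField (k : Subfield L) [FiniteDimensional k L] :
    Module.rank (resField O k) (IsLocalRing.ResidueField O) ≤ Module.finrank k L := by
  apply rank_le
  intro s hs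
  -- lift the elements of s
  have hsurj : Function.Surjective (IsLocalRing.residue O) := IsLocalRing.residue_surjective
  choose lift hlift using hsurj
  have hli : LinearIndependent k (fun i : s => ((lift i : O) : L)) := by
    rw [Fintype.linearIndependent_iff]
    intro g hg
    by_contra hcon
    push Not at hcon
    obtain ⟨i1, hi1⟩ := hcon
    obtain ⟨j, -, hmax⟩ := Finset.exists_max_image Finset.univ
      (fun i : s => O.valuation (g i : L)) ⟨i1, Finset.mem_univ _⟩
    have hj0 : (g j : L) ≠ 0 := by
      intro h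
      have h1 := hmax i1 (Finset.mem_univ _)
      rw [h, map_zero, le_zero_iff, Valuation.zero_iff] at h1
      exact hi1 (by exact_mod_cast h1)
    have hmem : ∀ i : s, (g i : L) / (g j : L) ∈ O := by
      intro i
      rw [← O.valuation_le_one_iff, map_div₀]
      exact div_le_one_of_le₀ (hmax i (Finset.mem_univ _)) zero_le
    have hsum : ∑ i : s, (⟨(g i : L) / (g j : L), hmem i⟩ : O) * lift i = 0 := by
      apply Subtype.ext
      rw [AddSubmonoidClass.coe_finsetSum]
      have h1 : ∑ i : s, (g i : L) * ((lift i : O) : L) = 0 := by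
        rw [← hg]
        rfl
      have h2 : ∀ i : s, (((⟨(g i : L) / (g j : L), hmem i⟩ : O) * lift i : O) : L) =
          (g j : L)⁻¹ * ((g i : L) * ((lift i : O) : L)) := by
        intro i
        change (g i : L) / (g j : L) * ((lift i : O) : L) = _
        rw [div_eq_inv_mul, mul_assoc]
      rw [Finset.sum_congr rfl (fun i _ => h2 i), ← Finset.mul_sum, h1, mul_zero]
      rfl
    have hres := congrArg (IsLocalRing.residue O) hsum
    rw [map_sum, map_zero] at hres
    rw [Fintype.linearIndependent_iff] at hs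
    have hmemk : ∀ i : s, IsLocalRing.residue O ⟨(g i : L) / (g j : L), hmem i⟩ ∈
        resField O k := fun i => ⟨_, k.div_mem (g i).2 (g j).2, rfl⟩
    have h3 := hs (fun i => ⟨_, hmemk i⟩) (by
      rw [← hres]
      refine Finset.sum_congr rfl fun i _ => ?_
      rw [map_mul, hlift]
      rfl) j
    have h4 : IsLocalRing.residue O ⟨(g j : L) / (g j : L), hmem j⟩ = 0 := congrArg Subtype.val h3
    have h5 : (⟨(g j : L) / (g j : L), hmem j⟩ : O) = 1 := by
      apply Subtype.ext
      exact div_self hj0
    rw [h5, map_one] at h4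
    exact one_ne_zero h4
  have := hli.fintype_card_le_finrank
  simpa using this

/-! ### Units -/

/-- The embedding of the units of `O` in the units of `L`. -/
def emb : Oˣ →* Lˣ := Units.map (O.subtype : O →* L)

lemma emb_val (u : Oˣ) : ((emb O u : Lˣ) : L) = ((u : O) : L) := rfl

/-- The reduction of units. -/
noncomputable def red : Oˣ →* (IsLocalRing.ResidueField O)ˣ :=
  Units.map (IsLocalRing.residue O : O →* IsLocalRing.ResidueField O)

lemma red_val (u : Oˣ) : ((red O u : (IsLocalRing.ResidueField O)ˣ) :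
    IsLocalRing.ResidueField O) = IsLocalRing.residue O (u : O) := rfl

lemma isUnit_of_residue {x : O} (h : IsLocalRing.residue O x ≠ 0) : IsUnit x := by
  by_contra hn
  exact h ((IsLocalRing.residue_eq_zero_iff x).2 ((IsLocalRing.mem_maximalIdeal x).2 hn))

lemma red_surj : Function.Surjective (red O) := by
  intro y
  obtain ⟨x, hx⟩ := IsLocalRing.residue_surjective (y : IsLocalRing.ResidueField O)
  have hu : IsUnit x := by
    apply isUnit_of_residue O
    rw [hx]
    exact y.ne_zero
  obtain ⟨u, rfl⟩ := hu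
  exact ⟨u, Units.ext hx⟩

/-- An element of value one is a unit of `O`. -/
lemma exists_emb {x : Lˣ} (hx : O.valuation (x : L) = 1) : ∃ u : Oˣ, emb O u = x := by
  have h1 : (x : L) ∈ O := by
    rw [← O.valuation_le_one_iff, hx]
  have h2 : ((x⁻¹ : Lˣ) : L) ∈ O := by
    rw [← O.valuation_le_one_iff]
    push_cast
    rw [map_inv₀, hx, inv_one]
  refine ⟨⟨⟨(x : L), h1⟩, ⟨((x⁻¹ : Lˣ) : L), h2⟩, ?_, ?_⟩, ?_⟩
  · apply Subtype.ext
    exact x.mul_inv
  · apply Subtype.ext
    exact x.inv_mul
  · apply Units.ext
    rfl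

end Val

section Res

variable {p : ℕ} [Fact p.Prime] {L : Type u} [Field L] {b : Lˣ → Lˣ → ZMod p}
  (hb : b ∈ Sym p L) (O : ValuationSubring L) (hO : OneUnits O {x | ∀ y, b x y = 0})

lemma swap (hb : b ∈ Sym p L) (x y : Lˣ) : b x y = - b y x := by
  have h := B_swap hb (x : L) (y : L)
  rwa [B_units, B_units] at h

include hb hO in
/-- `b` depends only on residues. -/
lemma dep_left {u u' : Oˣ} (h : red O u = red O u') (z : Lˣ) :
    b (emb O u) z = b (emb O u') z := by
  have h1 : ((emb O (u * u'⁻¹) : Lˣ)) ∈ Rad b hb := by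
    apply hO
    have h2 : IsLocalRing.residue O (((u * u'⁻¹ : Oˣ) : O) - 1) = 0 := by
      rw [map_sub, map_one, ← red_val, map_mul, map_inv, h, mul_inv_cancel, Units.val_one, sub_self]
    rw [IsLocalRing.residue_eq_zero_iff, O.valuation_lt_one_iff] at h2
    exact h2
  have h3 : emb O u = emb O (u * u'⁻¹) * emb O u' := by
    rw [← map_mul, inv_mul_cancel_right]
  rw [h3, hb.1, h1 z, zero_add]

include hb hO in
lemma dep_right {u u' : Oˣ} (h : red O u = red O u') (z : Lˣ) :
    b z (emb O u) = b z (emb O u') := by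
  rw [swap hb, dep_left hb O hO h, ← swap hb]

/-- The symbol of the residue field. -/
noncomputable def symRes (b : Lˣ → Lˣ → ZMod p) (O : ValuationSubring L) :
    (IsLocalRing.ResidueField O)ˣ → (IsLocalRing.ResidueField O)ˣ → ZMod p :=
  fun y z => b (emb O (Function.surjInv (red_surj O) y)) (emb O (Function.surjInv (red_surj O) z))

include hb hO in
lemma symRes_red (u w : Oˣ) : symRes b O (red O u) (red O w) = b (emb O u) (emb O w) := by
  unfold symRes
  rw [dep_left hb O hO (Function.surjInv_eq (red_surj O) (red O u)),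
    dep_right hb O hO (Function.surjInv_eq (red_surj O) (red O w))]

include hb hO in
lemma symRes_mem : symRes b O ∈ Sym p (IsLocalRing.ResidueField O) := by
  refine ⟨?_, ?_, ?_⟩
  · intro x y z
    obtain ⟨x, rfl⟩ := red_surj O x
    obtain ⟨y, rfl⟩ := red_surj O y
    obtain ⟨z, rfl⟩ := red_surj O z
    rw [← map_mul, symRes_red hb O hO, symRes_red hb O hO, symRes_red hb O hO, map_mul, hb.1]
  · intro x y z
    obtain ⟨x, rfl⟩ := red_surj O x
    obtain ⟨y, rfl⟩ := red_surj O y
    obtain ⟨z, rfl⟩ := red_surj O z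
    rw [← map_mul, symRes_red hb O hO, symRes_red hb O hO, symRes_red hb O hO, map_mul, hb.2.1]
  · intro x y hxy
    obtain ⟨x, rfl⟩ := red_surj O x
    have h1 : IsLocalRing.residue O (1 - (x : O)) = y := by
      rw [map_sub, map_one, ← red_val, ← hxy]
      ring
    have h2 : IsUnit (1 - (x : O)) := by
      apply isUnit_of_residue O
      rw [h1]
      exact y.ne_zero
    obtain ⟨w, hw⟩ := h2
    have h3 : red O w = y := by
      apply Units.ext
      rw [red_val, hw, h1]
    rw [← h3, symRes_red hb O hO]
    apply hb.2.2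
    rw [emb_val, emb_val, hw]
    push_cast
    ring

include hb in
/-- Units exhaust the classes. -/
lemma exhaust (k : Subfield L) [FiniteDimensional k L] (hd : Module.finrank k L < p)
    (hk : ∀ x : Lˣ, (x : L) ∈ k → ∀ y, b x y = 0) (x : Lˣ) :
    ∃ u : Oˣ, ∀ y, b x y = b (emb O u) y := by
  obtain ⟨e, he0, hep, a, hak, ha0, hea⟩ := exists_pow O k hd x.ne_zero
  have hcop : Nat.Coprime e p := by
    rw [Nat.coprime_comm]
    exact (Nat.Prime.coprime_iff_not_dvd Fact.out).2
      (fun h => absurd (Nat.le_of_dvd he0 h) (by omega))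
  -- the unit w = x^e / a
  set w : Lˣ := x ^ e * (Units.mk0 a ha0)⁻¹ with hw
  have hwv : O.valuation (w : L) = 1 := by
    rw [hw]
    push_cast
    rw [Units.val_mk0, map_mul, map_inv₀, hea]
    exact mul_inv_cancel₀ (by rw [Valuation.ne_zero_iff]; exact ha0)
  obtain ⟨u, hu⟩ := exists_emb O hwv
  have hxe : x ^ e = Units.mk0 a ha0 * w := by
    rw [hw, mul_comm (x ^ e), mul_inv_cancel_left]
  have h1 : ∀ y, b (x ^ e) y = b (emb O u) y := by
    intro y
    rw [hxe, hb.1, hk _ hak, zero_add, hu]
  have hpow : ∀ (z : Lˣ) (n : ℕ) (y : Lˣ), b (z ^ n) y = n * b z y := by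
    intro z n y
    rw [swap hb, ← B_units b]
    have := B_pow_right hb z.ne_zero (y : L) n
    push_cast
    rw [this, B_units, swap hb y z]
    ring
  -- inverse of e modulo p
  have hez : ((e : ℕ) : ZMod p) ≠ 0 := by
    intro h
    rw [ZMod.natCast_eq_zero_iff] at h
    exact absurd (Nat.le_of_dvd he0 h) (by omega)
  refine ⟨u ^ ((e : ZMod p)⁻¹).val, ?_⟩
  intro y
  rw [map_pow, hpow, ← h1 y, hpow, ZMod.natCast_zmod_val, inv_mul_cancel_left₀ hez]

include hb hO in
lemma mem_rad_symRes (k : Subfield L) [FiniteDimensional k L] (hd : Module.finrank k L < p)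
    (hk : ∀ x : Lˣ, (x : L) ∈ k → ∀ y, b x y = 0) (u : Oˣ) :
    (∀ y, symRes b O (red O u) y = 0) ↔ ∀ y, b (emb O u) y = 0 := by
  constructor
  · intro h y
    obtain ⟨w, hw⟩ := exhaust hb O k hd hk y
    rw [swap hb, hw, ← swap hb, ← symRes_red hb O hO]
    exact h _
  · intro h y
    obtain ⟨w, rfl⟩ := red_surj O y
    rw [symRes_red hb O hO]
    exact h _

/-- The homomorphism from the units of the residue field to the classes. -/
noncomputable def toClass :
    (IsLocalRing.ResidueField O)ˣ →* Lˣ ⧸ Rad b hb where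
  toFun y := QuotientGroup.mk (emb O (Function.surjInv (red_surj O) y))
  map_one' := by
    rw [QuotientGroup.eq_one_iff]
    intro z
    have h : red O (Function.surjInv (red_surj O) 1) = red O 1 := by
      rw [Function.surjInv_eq (red_surj O), map_one]
    rw [dep_left hb O hO h, map_one]
    have h1 := hb.1 1 1 z
    rw [mul_one] at h1
    simpa using h1
  map_mul' y z := by
    rw [← QuotientGroup.mk_mul, QuotientGroup.eq]
    intro t
    have h : red O (Function.surjInv (red_surj O) (y * z)) =
        red O (Function.surjInv (red_surj O) y * Function.surjInv (red_surj O) z) := by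
      rw [map_mul, Function.surjInv_eq (red_surj O), Function.surjInv_eq (red_surj O),
        Function.surjInv_eq (red_surj O)]
    have h2 := dep_left hb O hO h t
    rw [map_mul] at h2
    have h3 := hb.1 (emb O (Function.surjInv (red_surj O) (y * z)))
      ((emb O (Function.surjInv (red_surj O) (y * z)))⁻¹ *
      (emb O (Function.surjInv (red_surj O) y) * emb O (Function.surjInv (red_surj O) z))) t
    rw [mul_inv_cancel_left, h2] at h3
    have h4 := h3.symm
    rw [add_eq_left] at h4
    exact h4

lemma toClass_red (u : Oˣ) : toClass hb O hO (red O u) = QuotientGroup.mk (emb O u) := by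
  change (QuotientGroup.mk (emb O (Function.surjInv (red_surj O) (red O u))) : Lˣ ⧸ Rad b hb) = _
  rw [QuotientGroup.eq]
  intro t
  have h2 := dep_left hb O hO (Function.surjInv_eq (red_surj O) (red O u)) t
  have h3 := hb.1 (emb O (Function.surjInv (red_surj O) (red O u)))
    ((emb O (Function.surjInv (red_surj O) (red O u)))⁻¹ * emb O u) t
  rw [mul_inv_cancel_left, h2] at h3
  have h4 := h3.symm
  rw [add_eq_left] at h4
  exact h4

lemma card_eq (k : Subfield L) [FiniteDimensional k L] (hd : Module.finrank k L < p)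
    (hk : ∀ x : Lˣ, (x : L) ∈ k → ∀ y, b x y = 0) :
    Nat.card ((IsLocalRing.ResidueField O)ˣ ⧸ Rad (symRes b O) (symRes_mem hb O hO)) =
      Nat.card (Lˣ ⧸ Rad b hb) := by
  have hsurj : Function.Surjective (toClass hb O hO) := by
    intro q
    obtain ⟨x, rfl⟩ := QuotientGroup.mk_surjective q
    obtain ⟨u, hu⟩ := exhaust hb O k hd hk x
    refine ⟨red O u, ?_⟩
    rw [toClass_red, QuotientGroup.eq]
    intro t
    have h3 := hb.1 (emb O u) ((emb O u)⁻¹ * x) t
    rw [mul_inv_cancel_left, hu t] at h3
    have h4 := h3.symm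
    rw [add_eq_left] at h4
    exact h4
  have hker : (toClass hb O hO).ker = Rad (symRes b O) (symRes_mem hb O hO) := by
    ext y
    obtain ⟨u, rfl⟩ := red_surj O y
    rw [MonoidHom.mem_ker, toClass_red, QuotientGroup.eq_one_iff]
    exact (mem_rad_symRes hb O hO k hd hk u).symm
  rw [← hker]
  exact Nat.card_congr (QuotientGroup.quotientKerEquivOfSurjective _ hsurj).toEquiv

/-- The composite valuation ring. -/
def comp (O : ValuationSubring L) (O' : ValuationSubring (IsLocalRing.ResidueField O)) :
    ValuationSubring L where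
  carrier := {x | ∃ h : x ∈ O, IsLocalRing.residue O ⟨x, h⟩ ∈ O'}
  mul_mem' := by
    rintro x y ⟨hx, hx'⟩ ⟨hy, hy'⟩
    refine ⟨O.mul_mem _ _ hx hy, ?_⟩
    have := O'.mul_mem _ _ hx' hy'
    rw [← map_mul] at this
    exact this
  one_mem' := ⟨O.one_mem, by
    have : IsLocalRing.residue O ⟨1, O.one_mem⟩ = 1 := map_one _
    rw [this]
    exact O'.one_mem⟩
  add_mem' := by
    rintro x y ⟨hx, hx'⟩ ⟨hy, hy'⟩
    refine ⟨O.add_mem _ _ hx hy, ?_⟩
    have := O'.add_mem _ _ hx' hy'
    rw [← map_add] at this
    exact this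
  zero_mem' := ⟨O.zero_mem, by
    have : IsLocalRing.residue O ⟨0, O.zero_mem⟩ = 0 := map_zero _
    rw [this]
    exact O'.zero_mem⟩
  neg_mem' := by
    rintro x ⟨hx, hx'⟩
    refine ⟨O.neg_mem _ hx, ?_⟩
    have := O'.neg_mem _ hx'
    rw [← map_neg] at this
    exact this
  mem_or_inv_mem' := by
    have key : ∀ x : L, x ∈ O → x⁻¹ ∉ O → ∃ h : x ∈ O, IsLocalRing.residue O ⟨x, h⟩ ∈ O' := by
      intro x hx hxi
      refine ⟨hx, ?_⟩
      have hx0 : x ≠ 0 := by
        rintro rfl
        rw [inv_zero] at hxi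
        exact hxi O.zero_mem
      have h1 : O.valuation x < 1 := (lt_one_iff O hx0).2 hxi
      have h2 : IsLocalRing.residue O ⟨x, hx⟩ = 0 := by
        rw [IsLocalRing.residue_eq_zero_iff, O.valuation_lt_one_iff]
        exact h1
      rw [h2]
      exact O'.zero_mem
    intro x
    by_cases hx : x ∈ O
    · by_cases hxi : x⁻¹ ∈ O
      · by_cases hx0 : x = 0
        · left
          subst hx0
          exact ⟨O.zero_mem, by
            have : IsLocalRing.residue O ⟨0, O.zero_mem⟩ = 0 := map_zero _
            rw [this]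
            exact O'.zero_mem⟩
        have hmul : IsLocalRing.residue O ⟨x, hx⟩ * IsLocalRing.residue O ⟨x⁻¹, hxi⟩ = 1 := by
          rw [← map_mul]
          have : (⟨x, hx⟩ * ⟨x⁻¹, hxi⟩ : O) = 1 := by
            apply Subtype.ext
            exact mul_inv_cancel₀ hx0
          rw [this, map_one]
        rcases O'.mem_or_inv_mem (IsLocalRing.residue O ⟨x, hx⟩) with h | h
        · left
          exact ⟨hx, h⟩
        · right
          refine ⟨hxi, ?_⟩
          rw [eq_inv_of_mul_eq_one_right hmul]
          exact h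
      · left
        exact key x hx hxi
    · right
      have hxi : x⁻¹ ∈ O := (O.mem_or_inv_mem x).resolve_left hx
      exact key x⁻¹ hxi (by rwa [inv_inv])

lemma mem_comp {O' : ValuationSubring (IsLocalRing.ResidueField O)} {x : L} :
    x ∈ comp O O' ↔ ∃ h : x ∈ O, IsLocalRing.residue O ⟨x, h⟩ ∈ O' := Iff.rfl

end Res

/-- The row RES. -/
theorem res : StRES.{u} := by
  intro p hp hodd L _ k _ hd b hb hfin hk O hO
  have hrank := rank_resField O k
  have hfd : FiniteDimensional (resField O k) (IsLocalRing.ResidueField O) := by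
    apply Module.rank_lt_aleph0_iff.1
    exact lt_of_le_of_lt hrank (Cardinal.natCast_lt_aleph0)
  refine ⟨resField O k, hfd, symRes b O, symRes_mem hb O hO, ?_, card_eq hb O hO k hd hk, ?_, ?_⟩
  · exact lt_of_le_of_lt (Module.finrank_le_of_rank_le hrank) hd
  · rintro y ⟨x, hxk, hxy⟩ z
    have hu : IsUnit x := by
      apply isUnit_of_residue O
      rw [hxy]
      exact y.ne_zero
    obtain ⟨u, rfl⟩ := hu
    have h1 : red O u = y := Units.ext hxy
    obtain ⟨w, rfl⟩ := red_surj O z
    rw [← h1, symRes_red hb O hO]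
    exact hk _ hxk _
  · intro O' hO' hone
    refine ⟨comp O O', ?_, ?_, ?_⟩
    · intro x hx
      exact ((mem_comp O).1 hx).1
    · intro heq
      apply hO'
      rw [eq_top_iff]
      intro y _
      obtain ⟨x, rfl⟩ := IsLocalRing.residue_surjective y
      have : (x : L) ∈ comp O O' := by
        rw [heq]
        exact x.2
      exact ((mem_comp O).1 this).2
    · intro x hx
      -- x - 1 lies in the maximal ideal of the composite
      have hcv : (x : L) - 1 ∈ comp O O' := by
        rw [← (comp O O').valuation_le_one_iff]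
        exact hx.le
      obtain ⟨hm, hmr⟩ := (mem_comp O).1 hcv
      have hxO : (x : L) ∈ O := by
        have := O.add_mem _ _ hm O.one_mem
        rwa [sub_add_cancel] at this
      have hnu : (x : L) - 1 ≠ 0 → ((x : L) - 1)⁻¹ ∉ comp O O' := fun h0 =>
        (lt_one_iff _ h0).1 hx
      set r := IsLocalRing.residue O ⟨(x : L) - 1, hm⟩ with hr
      have hr1 : O'.valuation r < 1 := by
        by_cases hr0 : r = 0
        · rw [hr0, map_zero]
          exact zero_lt_one
        rw [lt_one_iff O' hr0]
        intro hinv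
        have h0 : (x : L) - 1 ≠ 0 := by
          intro h0
          apply hr0
          rw [hr]
          have : (⟨(x : L) - 1, hm⟩ : O) = 0 := Subtype.ext h0
          rw [this, map_zero]
        apply hnu h0
        obtain ⟨u, hu⟩ := isUnit_of_residue O hr0
        have hinvO : ((x : L) - 1)⁻¹ ∈ O := by
          have h1 : ((x : L) - 1) * (((u⁻¹ : Oˣ) : O) : L) = 1 := by
            have := congrArg (fun t : O => (t : L)) (Units.mul_inv u)
            rw [hu] at this
            simpa using this
          rw [← eq_inv_of_mul_eq_one_right h1]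
          exact ((u⁻¹ : Oˣ) : O).2
        refine (mem_comp O).2 ⟨hinvO, ?_⟩
        have hmul : r * IsLocalRing.residue O ⟨((x : L) - 1)⁻¹, hinvO⟩ = 1 := by
          rw [hr, ← map_mul]
          have : (⟨(x : L) - 1, hm⟩ * ⟨((x : L) - 1)⁻¹, hinvO⟩ : O) = 1 := by
            apply Subtype.ext
            exact mul_inv_cancel₀ h0
          rw [this, map_one]
        rw [eq_inv_of_mul_eq_one_right hmul]
        exact hinv
      have hxr : IsLocalRing.residue O ⟨(x : L), hxO⟩ = 1 + r := by
        rw [hr, ← map_one (IsLocalRing.residue O), ← map_add]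
        congr 1
        apply Subtype.ext
        change (x : L) = 1 + ((x : L) - 1)
        ring
      have hne : IsLocalRing.residue O ⟨(x : L), hxO⟩ ≠ 0 := by
        rw [hxr]
        intro h
        have h1 : r = -1 := by linear_combination h
        rw [h1, Valuation.map_neg, map_one] at hr1
        exact lt_irrefl _ hr1
      obtain ⟨u, hu⟩ := isUnit_of_residue O hne
      have hux : emb O u = x := by
        apply Units.ext
        rw [emb_val, hu]
      have hmem := hone (red O u) (by
        rw [red_val, hu, hxr, add_sub_cancel_left]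
        exact hr1)
      have := (mem_rad_symRes hb O hO k hd hk u).1 hmem
      rw [hux] at this
      exact this

end Pool.Agent.Lib.MP_defcf3_al.FR.RW
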