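import Pool.Agent.Lib.MP_defcf3_al.FR.Hrt1
import Pool.Agent.Lib.MP_defcf3_al.FR.Wt
import Pool.Agent.Lib.MP_defcf3_al.BRP.H50.Small

/-! HRT, general form. WSym: symbols of weight one on L = F(ζ) with F^* in the radical. Vanish R: all of them whose radical
contains R are zero. Vanishing follows from the finite rank theorem (vanish_of_fin), and gives the heart. -/

set_option autoImplicit false

namespace Pool.Agent.Lib.MP_defcf3_al.FR

universe u

open BR7 BRP BRP.H50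

/-- Symbols on L^* with values in F_p which are trivial on F^* and on which Gal(L/F) acts through the cyclotomic
character. -/
structure WSym (p : ℕ) (F L : Type u) [Field F] [Field L] [Algebra F L] (b : Lˣ → Lˣ → ZMod p) : Prop where
  sym : b ∈ Sym p L
  anti : ∀ x y, b x y = -b y x
  triv : ∀ (f : Fˣ) (y : Lˣ), b (Units.map (algebraMap F L : F →* L) f) y = 0
  eqv : ∀ (g : L ≃ₐ[F] L) (n : ℕ), (∀ z : Lˣ, z ^ p = 1 → g • z = z ^ n) →
    ∀ x y, b (g • x) (g • y) = n * b x y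

/-- Every symbol of weight one whose radical contains R vanishes. -/
def Vanish (p : ℕ) (F L : Type u) [Field F] [Field L] [Algebra F L] (R : Subgroup Lˣ) : Prop :=
  ∀ b : Lˣ → Lˣ → ZMod p, WSym p F L b → (∀ x ∈ R, ∀ y, b x y = 0) → ∀ x y, b x y = 0

/-- For every i = 2, .., d-1 one of the weight spaces of weights i and d+1-i of L^*/L^{*p} R is finite. -/
def FinWR (p : ℕ) (F L : Type u) [Field F] [Field L] [Algebra F L] (R : Subgroup Lˣ) : Prop :=
  ∀ i, 2 ≤ i → i < Module.finrank F L → (Pw p L ⊔ R).relIndex (Wt p F L i) ≠ 0 ∨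
    (Pw p L ⊔ R).relIndex (Wt p F L (Module.finrank F L + 1 - i)) ≠ 0

variable {ℓ : ℕ} [Fact ℓ.Prime] [Fact (Odd ℓ)]

omit [Fact (Odd ℓ)] in
/-- A generator of the Galois group. -/
theorem exists_gen {F L : Type u} [Field F] [Field L] [Algebra F L] (hL : IsCyclotomicExtension {ℓ} F L) :
    ∃ (σ : L ≃ₐ[F] L) (k : ℕ), orderOf (k : ZMod ℓ) = Module.finrank F L ∧ 0 < Module.finrank F L ∧
      (∀ x : Lˣ, (σ ^ Module.finrank F L) • x = x) ∧ (∀ z : Lˣ, z ^ ℓ = 1 → σ • z = z ^ k) ∧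
      (∀ x : Lˣ, σ • x = x → ∃ f : Fˣ, x = Units.map (algebraMap F L : F →* L) f) ∧
      ∀ (g : L ≃ₐ[F] L) (n : ℕ), (∀ z : Lˣ, z ^ ℓ = 1 → g • z = z ^ n) →
        ∃ s : ℕ, (∀ x : Lˣ, g • x = (σ ^ s) • x) ∧ (n : ZMod ℓ) = (k : ZMod ℓ) ^ s := by
  classical
  have hl := (Fact.out : Nat.Prime ℓ)
  have hfd : FiniteDimensional F L := IsCyclotomicExtension.finiteDimensional {ℓ} F L
  have hgal : IsGalois F L := IsCyclotomicExtension.isGalois {ℓ} F L
  obtain ⟨ζ, hζ⟩ := hL.exists_isPrimitiveRoot (Set.mem_singleton ℓ) hl.ne_zero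
  have hinj : Function.Injective (hζ.autToPow F) := hζ.autToPow_injective F
  have hcy : IsCyclic (L ≃ₐ[F] L) := isCyclic_of_injective _ hinj
  obtain ⟨σ, hσ⟩ := hcy.exists_generator
  have hspec : ∀ g : L ≃ₐ[F] L, ζ ^ (hζ.autToPow F g : ZMod ℓ).val = g ζ := fun g => hζ.autToPow_spec F g
  have hfin : Finite (L ≃ₐ[F] L) := inferInstance
  have hcard : Nat.card (L ≃ₐ[F] L) = Module.finrank F L := IsGalois.card_aut_eq_finrank F L
  have hordσ : orderOf σ = Module.finrank F L := by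
    rw [← hcard]
    exact orderOf_eq_card_of_forall_mem_zpowers hσ
  set k : ℕ := (hζ.autToPow F σ : ZMod ℓ).val with hk
  have hkc : (k : ZMod ℓ) = (hζ.autToPow F σ : ZMod ℓ) := by rw [hk, ZMod.natCast_val, ZMod.cast_id]
  have hpos : 0 < Module.finrank F L := Module.finrank_pos
  have hact : ∀ (g : L ≃ₐ[F] L) (z : Lˣ), z ^ ℓ = 1 → g • z = z ^ (hζ.autToPow F g : ZMod ℓ).val := by
    intro g z hz
    have hz' : (z : L) ^ ℓ = 1 := by rw [← Units.val_pow_eq_pow_val, hz, Units.val_one]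
    obtain ⟨i, -, hi⟩ := hζ.eq_pow_of_pow_eq_one hz'
    refine Units.ext ?_
    show g (z : L) = _
    rw [Units.val_pow_eq_pow_val, ← hi, map_pow, ← hspec g, ← pow_mul, ← pow_mul, Nat.mul_comm]
  refine ⟨σ, k, ?_, hpos, ?_, hact σ, ?_, ?_⟩
  · rw [hkc, orderOf_units, orderOf_injective _ hinj, hordσ]
  · intro x
    rw [← hordσ, pow_orderOf_eq_one, one_smul]
  · intro x hx
    have hall : ∀ g : L ≃ₐ[F] L, g • x = x := by
      intro g
      have h1 := hσ g
      rw [← mem_powers_iff_mem_zpowers] at h1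
      obtain ⟨s, hs⟩ := h1
      have hs' : σ ^ s = g := hs
      have hp : ∀ s : ℕ, (σ ^ s) • x = x := by
        intro s
        induction s with
        | zero => rw [pow_zero, one_smul]
        | succ s ih => rw [pow_succ, mul_smul, hx, ih]
      rw [← hs', hp]
    have h2 : (x : L) ∈ Set.range (algebraMap F L) :=
      (IsGalois.mem_range_algebraMap_iff_fixed (F := F) (x : L)).2 fun g => congrArg Units.val (hall g)
    obtain ⟨f, hf⟩ := h2
    have hf0 : f ≠ 0 := by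
      rintro rfl
      rw [map_zero] at hf
      exact x.ne_zero hf.symm
    exact ⟨Units.mk0 f hf0, Units.ext hf.symm⟩
  · intro g n hn
    have h1 := hσ g
    rw [← mem_powers_iff_mem_zpowers] at h1
    obtain ⟨s, hs⟩ := h1
    have hs : σ ^ s = g := hs
    refine ⟨s, fun x => by rw [hs], ?_⟩
    have hζ0 : ζ ≠ 0 := hζ.ne_zero hl.ne_zero
    have hζu : IsPrimitiveRoot (Units.mk0 ζ hζ0) ℓ := by
      rw [← IsPrimitiveRoot.coe_units_iff]
      exact hζ
    have h2 := hn (Units.mk0 ζ hζ0) hζu.pow_eq_one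
    rw [hact g _ hζu.pow_eq_one, pow_eq_pow_iff_modEq, ← hζu.eq_orderOf] at h2
    have h4 := (ZMod.natCast_eq_natCast_iff _ _ _).2 h2
    rw [ZMod.natCast_val, ZMod.cast_id] at h4
    rw [← h4, hkc, ← hs, map_pow, Units.val_pow_eq_pow_val]

/-- Vanishing from the finite rank theorem. -/
theorem vanish_of_fin (hFR : StFR.{u}) {F L : Type u} [Field F] [Field L] [Algebra F L]
    (hL : IsCyclotomicExtension {ℓ} F L) (R : Subgroup Lˣ) (hfin : FinWR ℓ F L R) : Vanish ℓ F L R := by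
  classical
  intro b hb hR
  have hfd : FiniteDimensional F L := IsCyclotomicExtension.finiteDimensional {ℓ} F L
  obtain ⟨σ, k, hord, hpos, hσd, hσk, hfixF, hgen⟩ := exists_gen (ℓ := ℓ) hL
  have hfix : ∀ x : Lˣ, σ • x = x → ∀ y, b x y = 0 := by
    intro x hx y
    obtain ⟨f, rfl⟩ := hfixF x hx
    exact hb.triv f y
  have hfin2 : Finite (Lˣ ⧸ Rad b hb.sym) :=
    rad_finR σ R b hb.sym hord hpos hσd (hb.eqv σ k hσk) hb.anti hfix hgen hR hfin
  obtain ⟨h1, h2⟩ := fd_range F L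
  have hlt : Module.finrank (algebraMap F L).fieldRange L < ℓ := by
    have h3 := order_lt hord
    omega
  have h0 := hFR ℓ (Fact.out : Odd ℓ) L (algebraMap F L).fieldRange hlt b hb.sym hfin2 (by
    rintro x ⟨f, hf⟩ y
    have hf0 : f ≠ 0 := by
      rintro rfl
      rw [map_zero] at hf
      exact x.ne_zero hf.symm
    have hx : x = Units.map (algebraMap F L : F →* L) (Units.mk0 f hf0) := Units.ext hf.symm
    rw [hx]
    exact hb.triv _ y)
  intro x y
  exact congrFun (congrFun h0 x) y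

/-- The heart from vanishing. -/
theorem heart_of_vanish {F L Ω : Type u} [Field F] [Field L] [Field Ω] [Algebra F L] [Algebra F Ω]
    [IsGalois F Ω] (φ : L →ₐ[F] Ω) {ζ : Ωˣ} (hζ : IsPrimitiveRoot ζ ℓ) (hL : IsCyclotomicExtension {ℓ} F L)
    (R : Subgroup Lˣ) (hV : Vanish ℓ F L R) {d : ℕ} {γ : Ω ≃ₐ[F] Ω} {k : ℕ} {Q : Type u}
    [AddCommGroup Q] {sym : Ωˣ → Ωˣ → Q} {Γ : AddMonoid.End Q} (hS : BRP.SymAx ℓ F ζ γ k d sym Γ)
    (hR : ∀ x ∈ R, ∀ y : Lˣ, ∑ i ∈ Finset.range d,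
      (Γ ^ i) (sym (Units.map (φ : L →* Ω) x) (Units.map (φ : L →* Ω) y)) = 0) :
    NormZero F ζ d sym Γ := by
  classical
  let _ : Algebra L Ω := φ.toRingHom.toAlgebra
  have : IsScalarTower F L Ω := IsScalarTower.of_algebraMap_eq' φ.comp_algebraMap.symm
  have hfd : FiniteDimensional F L := IsCyclotomicExtension.finiteDimensional {ℓ} F L
  have hl := (Fact.out : Nat.Prime ℓ)
  have : NeZero ℓ := ⟨hl.ne_zero⟩
  set ι : Lˣ →* Ωˣ := Units.map (φ : L →* Ω) with hι
  have hval : ∀ x : Lˣ, ((ι x : Ωˣ) : Ω) = φ x := fun x => rfl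
  have hιL : ∀ x : Lˣ, InL F ζ (ι x) := by
    intro x g hg
    refine Units.ext ?_
    exact BRP.H62.fix_of_stab hζ hL g hg (x : L)
  have hιF : ∀ f : Fˣ, InF F (ι (Units.map (algebraMap F L : F →* L) f)) := by
    intro f g
    refine Units.ext ?_
    show g (φ (algebraMap F L f)) = φ (algebraMap F L f)
    rw [φ.commutes, g.commutes]
  -- every element of F(ζ) comes from L
  have hsurj : ∀ a : Ωˣ, InL F ζ a → ∃ x : Lˣ, ι x = a := by
    intro a ha
    obtain ⟨z, hz⟩ := hL.exists_isPrimitiveRoot (Set.mem_singleton ℓ) hl.ne_zero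
    have hz' : IsPrimitiveRoot (φ z) ℓ := hz.map_of_injective φ.injective
    have hζ' : (ζ : Ω) ^ ℓ = 1 := by rw [← Units.val_pow_eq_pow_val, hζ.pow_eq_one, Units.val_one]
    obtain ⟨i, -, hi⟩ := hz'.eq_pow_of_pow_eq_one hζ'
    have hmem : (ζ : Ω) ∈ φ.fieldRange := by
      rw [← hi, ← map_pow]
      exact ⟨z ^ i, rfl⟩
    have h1 : (a : Ω) ∈ IntermediateField.fixedField (φ.fieldRange).fixingSubgroup := by
      rw [IntermediateField.mem_fixedField_iff]
      intro g hg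
      have h2 : g • ζ = ζ := Units.ext ((IntermediateField.mem_fixingSubgroup_iff _ g).1 hg _ hmem)
      exact congrArg Units.val (ha g h2)
    rw [InfiniteGalois.fixedField_fixingSubgroup] at h1
    obtain ⟨x, hx⟩ := h1
    have hx : φ x = (a : Ω) := hx
    have hx0 : x ≠ 0 := by
      rintro rfl
      rw [map_zero] at hx
      exact a.ne_zero hx.symm
    exact ⟨Units.mk0 x hx0, Units.ext hx⟩
  -- the norm
  set Nf : Q →+ Q := ∑ i ∈ Finset.range d, ((Γ ^ i : AddMonoid.End Q) : Q →+ Q) with hNf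
  have hNfa : ∀ q, Nf q = ∑ i ∈ Finset.range d, (Γ ^ i) q := by
    intro q
    rw [hNf, AddMonoidHom.finsetSum_apply]
    rfl
  have htors : ∀ x y : Lˣ, ℓ • Nf (sym (ι x) (ι y)) = 0 := by
    intro x y
    rw [← map_nsmul, hS.tors _ _ (hιL x) (hιL y), map_zero]
  let Q' : AddSubgroup Q := (nsmulAddMonoidHom ℓ : Q →+ Q).ker
  let _ : Module (ZMod ℓ) Q' := AddCommGroup.zmodModule (n := ℓ) fun x => Subtype.ext x.2
  let T : Lˣ → Lˣ → Q' := fun x y => ⟨Nf (sym (ι x) (ι y)), htors x y⟩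
  have hTl : ∀ x y z, T (x * y) z = T x z + T y z := by
    intro x y z
    refine Subtype.ext ?_
    show Nf (sym (ι (x * y)) (ι z)) = Nf (sym (ι x) (ι z)) + Nf (sym (ι y) (ι z))
    rw [map_mul, hS.add_left _ _ _ (hιL x) (hιL y) (hιL z), map_add]
  have hTr : ∀ x y z, T x (y * z) = T x y + T x z := by
    intro x y z
    refine Subtype.ext ?_
    show Nf (sym (ι x) (ι (y * z))) = Nf (sym (ι x) (ι y)) + Nf (sym (ι x) (ι z))
    rw [map_mul, hS.add_right _ _ _ (hιL x) (hιL y) (hιL z), map_add]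
  have hTs : ∀ x y : Lˣ, (x : L) + y = 1 → T x y = 0 := by
    intro x y h
    refine Subtype.ext ?_
    show Nf (sym (ι x) (ι y)) = 0
    rw [hS.stein _ _ (hιL x) (hιL y) (by rw [hval, hval, ← map_add, h, map_one]), map_zero]
  have hTF : ∀ (f : Fˣ) (y : Lˣ), T (Units.map (algebraMap F L : F →* L) f) y = 0 := by
    intro f y
    refine Subtype.ext ?_
    show Nf (sym _ (ι y)) = 0
    rw [hNfa]
    exact hS.triv _ _ (hιF f) (hιL y)
  have hTR : ∀ x ∈ R, ∀ y : Lˣ, T x y = 0 := by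
    intro x hx y
    refine Subtype.ext ?_
    show Nf (sym (ι x) (ι y)) = 0
    rw [hNfa]
    exact hR x hx y
  intro a b ha hb
  obtain ⟨x₀, rfl⟩ := hsurj a ha
  obtain ⟨y₀, rfl⟩ := hsurj b hb
  by_contra hne
  have hv : T x₀ y₀ ≠ 0 := by
    intro h
    apply hne
    rw [← hNfa]
    exact congrArg Subtype.val h
  obtain ⟨D, hD⟩ : ∃ D : Module.Dual (ZMod ℓ) Q', D (T x₀ y₀) ≠ 0 := by
    by_contra hcon
    push Not at hcon
    exact hv ((Module.forall_dual_apply_eq_zero_iff (ZMod ℓ) _).1 hcon)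
  set b : Lˣ → Lˣ → ZMod ℓ := fun x y => D (T x y) with hbdef
  have hbS : b ∈ Sym ℓ L := by
    refine ⟨fun x y z => ?_, fun x y z => ?_, fun x y h => ?_⟩
    · show D (T (x * y) z) = _
      rw [hTl, map_add]
    · show D (T x (y * z)) = _
      rw [hTr, map_add]
    · show D (T x y) = 0
      rw [hTs x y h, map_zero]
  have hanti : ∀ x y, b x y = -b y x := by
    intro x y
    show D (T x y) = -D (T y x)
    rw [← map_neg]
    refine congrArg D (Subtype.ext ?_)
    show Nf (sym (ι x) (ι y)) = -Nf (sym (ι y) (ι x))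
    rw [sym_anti hS (hιL x) (hιL y), map_neg]
  -- the automorphism of L
  have hgal : IsGalois F L := IsCyclotomicExtension.isGalois {ℓ} F L
  set σ : L ≃ₐ[F] L := γ.restrictNormal L with hσ
  have hισ : ∀ x : Lˣ, ι (σ • x) = γ • ι x := fun x => Units.ext (γ.restrictNormal_commutes L (x : L))
  have hισs : ∀ (s : ℕ) (x : Lˣ), ι ((σ ^ s) • x) = (γ ^ s) • ι x := by
    intro s x
    induction s with
    | zero => rw [pow_zero, pow_zero, one_smul, one_smul]
    | succ s ih => rw [pow_succ', mul_smul, hισ, ih, pow_succ', mul_smul]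
  have hιinj : Function.Injective ι := Units.map_injective φ.injective
  have hσd : ∀ x : Lˣ, (σ ^ d) • x = x := by
    intro x
    apply hιinj
    rw [hισs, gamma_d_fix hS (hιL x)]
  have hΓs : ∀ (s : ℕ) (x y : Lˣ), (k ^ s) • (Γ ^ s) (sym (ι x) (ι y)) = sym (ι ((σ ^ s) • x)) (ι ((σ ^ s) • y)) := by
    intro s
    induction s with
    | zero =>
      intro x y
      rw [pow_zero, pow_zero, one_smul, pow_zero, one_smul, one_smul]
      rfl
    | succ s ih =>
      intro x y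
      have e1 : (Γ ^ (s + 1)) (sym (ι x) (ι y)) = (Γ ^ s) (Γ (sym (ι x) (ι y))) := by
        rw [pow_succ]; rfl
      rw [pow_succ, mul_smul, e1, ← map_nsmul, hS.gal _ _ (hιL x) (hιL y), ← hισ, ← hισ, ih, smul_smul, smul_smul,
        ← pow_succ]
  have hk1 : ((k : ZMod ℓ)) ^ d = 1 := by rw [← hS.ord]; exact pow_orderOf_eq_one _
  have hΓd : ∀ x y : Lˣ, (Γ ^ d) (sym (ι x) (ι y)) = sym (ι x) (ι y) := by
    intro x y
    have h1 := hΓs d x y
    rw [hσd, hσd] at h1
    have h2 : ((k ^ d : ℕ) : ZMod ℓ) = ((1 : ℕ) : ZMod ℓ) := by push_cast; exact hk1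
    have h3 : k ^ d ≡ 1 [MOD ℓ] := (ZMod.natCast_eq_natCast_iff _ _ _).mp h2
    have h4 : ℓ • (Γ ^ d) (sym (ι x) (ι y)) = 0 := by
      rw [← map_nsmul, hS.tors _ _ (hιL x) (hιL y), map_zero]
    have h5 : k ^ d = 1 + ℓ * (k ^ d / ℓ) := by
      have h6 : k ^ d % ℓ = 1 := by
        rw [h3, Nat.mod_eq_of_lt hl.one_lt]
      rw [← h6]
      exact (Nat.mod_add_div _ _).symm
    rw [h5, add_smul, one_smul, Nat.mul_comm, mul_smul, h4, smul_zero, add_zero] at h1
    exact h1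
  have hNΓ : ∀ x y : Lˣ, Nf (Γ (sym (ι x) (ι y))) = Nf (sym (ι x) (ι y)) := by
    intro x y
    rw [hNfa, hNfa]
    have e1 : ∀ i ∈ Finset.range d, (Γ ^ i) (Γ (sym (ι x) (ι y))) = (Γ ^ (i + 1)) (sym (ι x) (ι y)) := by
      intro i _
      rw [pow_succ]; rfl
    rw [Finset.sum_congr rfl e1]
    have e2 := Finset.sum_range_succ' (fun i => (Γ ^ i) (sym (ι x) (ι y))) d
    rw [Finset.sum_range_succ, hΓd] at e2
    exact (add_right_cancel e2).symm
  have heq : ∀ x y : Lˣ, b (σ • x) (σ • y) = (k : ZMod ℓ) * b x y := by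
    intro x y
    show D (T (σ • x) (σ • y)) = k * D (T x y)
    have h1 : T (σ • x) (σ • y) = k • T x y := by
      refine Subtype.ext ?_
      show Nf (sym (ι (σ • x)) (ι (σ • y))) = k • Nf (sym (ι x) (ι y))
      rw [hισ, hισ, ← hS.gal _ _ (hιL x) (hιL y), map_nsmul, hNΓ]
    rw [h1, map_nsmul, nsmul_eq_mul]
  have hgen : ∀ (g : L ≃ₐ[F] L) (n : ℕ), (∀ z : Lˣ, z ^ ℓ = 1 → g • z = z ^ n) →
      ∃ s : ℕ, (∀ x : Lˣ, g • x = (σ ^ s) • x) ∧ (n : ZMod ℓ) = (k : ZMod ℓ) ^ s := by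
    intro g n hn
    obtain ⟨z, hz⟩ := hsurj ζ fun _ h => h
    have hz1 : z ^ ℓ = 1 := by
      apply hιinj
      rw [map_pow, hz, hζ.pow_eq_one, map_one]
    have hg : ∀ x : Lˣ, ι (g • x) = g.liftNormal Ω • ι x := fun x =>
      Units.ext (g.liftNormal_commutes Ω (x : L)).symm
    obtain ⟨s, hs⟩ := hS.gen (g.liftNormal Ω)
    refine ⟨s, fun x => ?_, ?_⟩
    · apply hιinj
      rw [hg, hισs]
      have h1 : ((γ ^ s)⁻¹ * g.liftNormal Ω) • ζ = ζ := by
        rw [mul_smul, hs, inv_smul_smul]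
      have h2 := hιL x _ h1
      rw [mul_smul, inv_smul_eq_iff] at h2
      exact h2
    · have h1 : ζ ^ n = ζ ^ (k ^ s) := by
        rw [← gamma_pow' hS, ← hs, ← hz, ← hg, hn z hz1, map_pow]
      rw [pow_eq_pow_iff_modEq, ← hζ.eq_orderOf] at h1
      have h2 := (ZMod.natCast_eq_natCast_iff _ _ _).2 h1
      rw [h2]
      push_cast
      rfl
  have heqs : ∀ (s : ℕ) (x y : Lˣ), b ((σ ^ s) • x) ((σ ^ s) • y) = (k : ZMod ℓ) ^ s * b x y := by
    intro s x y
    induction s with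
    | zero => rw [pow_zero, one_smul, one_smul, pow_zero, one_mul]
    | succ s ih => rw [pow_succ', mul_smul, mul_smul, heq, ih, pow_succ', mul_assoc]
  have hW : WSym ℓ F L b := by
    refine ⟨hbS, hanti, fun f y => ?_, fun g n hn x y => ?_⟩
    · show D (T _ y) = 0
      rw [hTF, map_zero]
    · obtain ⟨s, h1, h2⟩ := hgen g n hn
      rw [h1, h1, heqs, h2]
  refine hD (hV b hW ?_ x₀ y₀)
  intro x hx y
  show D (T x y) = 0
  rw [hTR x hx, map_zero]

end Pool.Agent.Lib.MP_defcf3_al.FR
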